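import Pool.Agent.Lib.Pa7c826.Branch

/-!
The leaves of the branching algorithm: greedy matching and enumeration of a vertex cover.
-/

namespace Pool.Agent.Lib.Pa7c826

open Finset

section

variable (n : ℕ) (adj : ℕ → ℕ → Bool)

/-- `u` lies in `R` and has a neighbour in `R` -/
def hasNb (R : Finset ℕ) (u : ℕ) : Bool :=
  decide (u ∈ R) && decide (∃ v < n, (decide (v ∈ R) && adj u v) = true)

/-- the first vertex of `R` with a neighbour in `R` -/
def fstB (R : Finset ℕ) (u : ℕ) : Bool := hasNb n adj R u && !decide (∃ v < u, hasNb n adj R v = true)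

/-- neighbours in `R` of the first such vertex -/
def nbF (R : Finset ℕ) (v : ℕ) : Bool :=
  decide (v ∈ R) && decide (∃ u < n, (fstB n adj R u && adj u v) = true)

/-- the first such neighbour -/
def sndB (R : Finset ℕ) (v : ℕ) : Bool := nbF n adj R v && !decide (∃ u < v, nbF n adj R u = true)

/-- remove the two ends of the first edge -/
def mStep (R : Finset ℕ) : Finset ℕ := R.filter (fun v => (!fstB n adj R v && !sndB n adj R v) = true)

/-- what is left after greedy matching -/
def rest (S : Finset ℕ) : Finset ℕ := (mStep n adj)^[n] S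

/-- the matched vertices -/
def cov (S : Finset ℕ) : Finset ℕ := S.filter (fun v => (!decide (v ∈ rest n adj S)) = true)

/-- rank in `W` -/
def rk (W : Finset ℕ) (v : ℕ) : ℕ := (W.filter (fun u => u < v)).card

/-- the subset of `W` coded by `τ` -/
def sel (W : Finset ℕ) (τ : ℕ) : Finset ℕ := W.filter (fun v => τ / 2 ^ rk W v % 2 = 1)

/-- independence test -/
def indB (T : Finset ℕ) : Bool :=
  !decide (∃ u < n, decide (∃ v < n, ((decide (u ∈ T) && decide (v ∈ T)) && adj u v) = true) = true)

/-- vertices of `R` without neighbours in `T` -/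
def freeS (R T : Finset ℕ) : Finset ℕ :=
  R.filter (fun v => (!decide (∃ u < n, (decide (u ∈ T) && adj u v) = true)) = true)

/-- the leaf function with threshold `K` -/
def leaf (K : ℕ) (S : Finset ℕ) : ℕ :=
  ∑ τ ∈ range K, if (decide (τ / 2 ^ (cov n adj S).card = 0) &&
      (decide (1 ≤ K / 2 ^ (cov n adj S).card) && indB n adj (sel (cov n adj S) τ))) then
    2 ^ (freeS n adj (rest n adj S) (sel (cov n adj S) τ)).card else 0

end

section analysis

variable {n : ℕ} {adj : ℕ → ℕ → Bool}

theorem fstB_unique {R : Finset ℕ} {v w : ℕ} (h : fstB n adj R v = true)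
    (h' : fstB n adj R w = true) : v = w := by
  unfold fstB at h h'
  simp only [Bool.and_eq_true, Bool.not_eq_true', decide_eq_false_iff_not] at h h'
  rcases lt_trichotomy v w with hlt | heq | hgt
  · exact absurd ⟨v, hlt, h.1⟩ h'.2
  · exact heq
  · exact absurd ⟨w, hgt, h'.1⟩ h.2

theorem sndB_unique {R : Finset ℕ} {v w : ℕ} (h : sndB n adj R v = true)
    (h' : sndB n adj R w = true) : v = w := by
  unfold sndB at h h'
  simp only [Bool.and_eq_true, Bool.not_eq_true', decide_eq_false_iff_not] at h h'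
  rcases lt_trichotomy v w with hlt | heq | hgt
  · exact absurd ⟨v, hlt, h.1⟩ h'.2
  · exact heq
  · exact absurd ⟨w, hgt, h'.1⟩ h.2

theorem mStep_subset (R : Finset ℕ) : mStep n adj R ⊆ R := filter_subset _ _

theorem iterate_mStep_subset (R : Finset ℕ) (i : ℕ) : (mStep n adj)^[i] R ⊆ R := by
  induction i with
  | zero => exact subset_rfl
  | succ i ih =>
    rw [Function.iterate_succ_apply']
    exact (mStep_subset _).trans ih

/-- one step of greedy matching -/
theorem mStep_spec (hl : ∀ u, adj u u = false) {R : Finset ℕ} (hR : R ⊆ range n) :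
    ((∀ u ∈ R, ∀ v ∈ R, adj u v = false) ∧ mStep n adj R = R) ∨
    ∃ u ∈ R, ∃ v ∈ R, u ≠ v ∧ adj u v = true ∧ mStep n adj R = (R.erase u).erase v := by
  classical
  by_cases h : ∃ u, hasNb n adj R u = true
  · right
    have hf : fstB n adj R (Nat.find h) = true := by
      unfold fstB
      simp only [Bool.and_eq_true, Bool.not_eq_true', decide_eq_false_iff_not]
      refine ⟨Nat.find_spec h, ?_⟩
      rintro ⟨u, hu, hh⟩
      exact Nat.find_min h hu hh
    set u := Nat.find h with hu
    have hsp := Nat.find_spec h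
    rw [← hu] at hsp
    unfold hasNb at hsp
    simp only [Bool.and_eq_true, decide_eq_true_eq] at hsp
    obtain ⟨huR, v0, hv0, hv0R, hadj⟩ := hsp
    have h2 : ∃ v, nbF n adj R v = true := by
      refine ⟨v0, ?_⟩
      unfold nbF
      simp only [Bool.and_eq_true, decide_eq_true_eq]
      exact ⟨hv0R, u, mem_range.1 (hR huR), hf, hadj⟩
    have hg : sndB n adj R (Nat.find h2) = true := by
      unfold sndB
      simp only [Bool.and_eq_true, Bool.not_eq_true', decide_eq_false_iff_not]
      refine ⟨Nat.find_spec h2, ?_⟩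
      rintro ⟨w, hw, hh⟩
      exact Nat.find_min h2 hw hh
    set v := Nat.find h2 with hv
    have hsp2 := Nat.find_spec h2
    rw [← hv] at hsp2
    unfold nbF at hsp2
    simp only [Bool.and_eq_true, decide_eq_true_eq] at hsp2
    obtain ⟨hvR, u', _, hu', hadj'⟩ := hsp2
    rw [fstB_unique hu' hf] at hadj'
    refine ⟨u, huR, v, hvR, ?_, hadj', ?_⟩
    · intro e
      rw [← e, hl] at hadj'
      exact absurd hadj' (by simp)
    · ext x
      simp only [mStep, mem_filter, mem_erase, Bool.and_eq_true, Bool.not_eq_true']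
      constructor
      · rintro ⟨h3, h4, h5⟩
        refine ⟨fun e => ?_, fun e => ?_, h3⟩
        · rw [e, hg] at h5; exact absurd h5 (by simp)
        · rw [e, hf] at h4; exact absurd h4 (by simp)
      · rintro ⟨h3, h4, h5⟩
        refine ⟨h5, ?_, ?_⟩
        · by_contra h6
          rw [Bool.not_eq_false] at h6
          exact h4 (fstB_unique h6 hf)
        · by_contra h6
          rw [Bool.not_eq_false] at h6
          exact h3 (sndB_unique h6 hg)
  · left
    push Not at h
    have hno : ∀ u ∈ R, ∀ v ∈ R, adj u v = false := by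
      intro u hu v hv
      by_contra h1
      rw [Bool.not_eq_false] at h1
      refine h u ?_
      unfold hasNb
      simp only [Bool.and_eq_true, decide_eq_true_eq]
      exact ⟨hu, v, mem_range.1 (hR hv), hv, h1⟩
    refine ⟨hno, ?_⟩
    have hf : ∀ u, fstB n adj R u = false := by
      intro u
      unfold fstB
      have := Bool.eq_false_iff.2 (h u)
      rw [this]
      rfl
    have hg : ∀ v, sndB n adj R v = false := by
      intro v
      have : nbF n adj R v = false := by
        unfold nbF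
        rw [Bool.and_eq_false_iff]
        right
        rw [decide_eq_false_iff_not]
        rintro ⟨u, _, hu⟩
        rw [hf u] at hu
        exact absurd hu (by simp)
      unfold sndB
      rw [this]
      rfl
    ext x
    simp [mStep, hf, hg]

theorem ind_le_three (hs : ∀ u v, adj u v = adj v u) (hl : ∀ u, adj u u = false)
    {R : Finset ℕ} {u v : ℕ} (hu : u ∈ R) (hv : v ∈ R) (huv : u ≠ v) (h : adj u v = true) :
    ind adj R ≤ 3 * ind adj ((R.erase u).erase v) := by
  have h1 := ind_erase hs hl hu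
  have hv' : v ∈ R.erase u := mem_erase.2 ⟨huv.symm, hv⟩
  have h2 := ind_erase hs hl hv'
  have h3 : ind adj ((R.erase u).filter (fun x => adj u x = false)) ≤
      ind adj ((R.erase u).erase v) := by
    apply ind_mono
    intro x hx
    rw [mem_filter] at hx
    refine mem_erase.2 ⟨fun e => ?_, hx.1⟩
    rw [e, h] at hx
    exact absurd hx.2 (by simp)
  have h4 : ind adj (((R.erase u).erase v).filter (fun x => adj v x = false)) ≤
      ind adj ((R.erase u).erase v) := ind_mono (filter_subset _ _)
  omega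

/-- after `i` steps of greedy matching -/
theorem matching_spec (hs : ∀ u v, adj u v = adj v u) (hl : ∀ u, adj u u = false)
    {S : Finset ℕ} (hS : S ⊆ range n) (i : ℕ) :
    ∃ m, ((mStep n adj)^[i] S).card + 2 * m = S.card ∧
      ind adj S ≤ 3 ^ m * ind adj ((mStep n adj)^[i] S) ∧
      ((∀ u ∈ (mStep n adj)^[i] S, ∀ v ∈ (mStep n adj)^[i] S, adj u v = false) ∨ m = i) := by
  induction i with
  | zero => exact ⟨0, by simp, by simp, Or.inr rfl⟩
  | succ i ih =>
    obtain ⟨m, h1, h2, h3⟩ := ih
    rw [Function.iterate_succ_apply']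
    set R := (mStep n adj)^[i] S with hR
    have hRn : R ⊆ range n := (iterate_mStep_subset S i).trans hS
    rcases mStep_spec hl hRn with ⟨h4, h5⟩ | ⟨u, hu, v, hv, huv, hadj, h5⟩
    · rw [h5]
      exact ⟨m, h1, h2, Or.inl h4⟩
    · refine ⟨m + 1, ?_, ?_, ?_⟩
      · have hv' : v ∈ R.erase u := mem_erase.2 ⟨huv.symm, hv⟩
        rw [h5, card_erase_of_mem hv', card_erase_of_mem hu]
        have h6 : 1 < R.card := one_lt_card.2 ⟨u, hu, v, hv, huv⟩
        omega
      · rw [h5]
        have h6 := ind_le_three hs hl hu hv huv hadj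
        calc ind adj S ≤ 3 ^ m * ind adj R := h2
          _ ≤ 3 ^ m * (3 * ind adj ((R.erase u).erase v)) := Nat.mul_le_mul_left _ h6
          _ = 3 ^ (m + 1) * ind adj ((R.erase u).erase v) := by ring
      · right
        rcases h3 with h3 | h3
        · exact absurd (h3 u hu v hv) (by rw [hadj]; simp)
        · omega

theorem rest_spec (hs : ∀ u v, adj u v = adj v u) (hl : ∀ u, adj u u = false)
    {S : Finset ℕ} (hS : S ⊆ range n) :
    (∀ u ∈ rest n adj S, ∀ v ∈ rest n adj S, adj u v = false) ∧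
    ∃ m, (cov n adj S).card = 2 * m ∧ (rest n adj S).card + 2 * m = S.card ∧
      ind adj S ≤ 3 ^ m * 2 ^ (rest n adj S).card := by
  obtain ⟨m, h1, h2, h3⟩ := matching_spec hs hl hS n
  have hcov : (cov n adj S).card + (rest n adj S).card = S.card := by
    have h4 : (S.filter (fun v => (!decide (v ∈ rest n adj S)) = true)).card +
        (S.filter (fun v => ¬ (!decide (v ∈ rest n adj S)) = true)).card = S.card :=
      card_filter_add_card_filter_not _
    have h5 : S.filter (fun v => ¬ (!decide (v ∈ rest n adj S)) = true) = rest n adj S := by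
      ext x
      simp only [mem_filter, Bool.not_eq_true', decide_eq_false_iff_not, not_not]
      exact ⟨fun h => h.2, fun h => ⟨iterate_mStep_subset S n h, h⟩⟩
    rw [h5] at h4
    exact h4
  refine ⟨?_, m, ?_, h1, ?_⟩
  · rcases h3 with h3 | h3
    · exact h3
    · intro u hu
      have h6 : 0 < (rest n adj S).card := card_pos.2 ⟨u, hu⟩
      have h7 : S.card ≤ n := by simpa using card_le_card hS
      unfold rest at h6
      omega
  · have h8 : (rest n adj S).card + 2 * m = S.card := h1
    omega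
  · exact h2.trans (Nat.mul_le_mul_left _ (ind_le_two_pow _))

/-! ### Enumerating the subsets of `W` -/

theorem rk_lt {W : Finset ℕ} {v : ℕ} (hv : v ∈ W) : rk W v < W.card := by
  unfold rk
  apply card_lt_card
  refine ⟨filter_subset _ _, fun h => ?_⟩
  have := (mem_filter.1 (h hv)).2
  omega

theorem rk_inj {W : Finset ℕ} {v w : ℕ} (hv : v ∈ W) (hw : w ∈ W) (h : rk W v = rk W w) :
    v = w := by
  have key : ∀ {v w : ℕ}, v ∈ W → w ∈ W → v < w → rk W v < rk W w := by
    intro v w hv hw hlt
    unfold rk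
    apply card_lt_card
    refine ⟨fun x hx => ?_, fun h => ?_⟩
    · rw [mem_filter] at hx ⊢
      exact ⟨hx.1, hx.2.trans hlt⟩
    · have := (mem_filter.1 (h (mem_filter.2 ⟨hv, hlt⟩))).2
      omega
  rcases lt_trichotomy v w with h1 | h1 | h1
  · have := key hv hw h1; omega
  · exact h1
  · have := key hw hv h1; omega

theorem exists_rk {W : Finset ℕ} {i : ℕ} (hi : i < W.card) : ∃ v ∈ W, rk W v = i := by
  have h1 : W.image (rk W) = range W.card := by
    apply eq_of_subset_of_card_le
    · intro x hx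
      obtain ⟨v, hv, rfl⟩ := mem_image.1 hx
      exact mem_range.2 (rk_lt hv)
    · rw [card_range, card_image_of_injOn]
      intro v hv w hw h
      exact rk_inj hv hw h
  have h2 : i ∈ W.image (rk W) := by rw [h1]; exact mem_range.2 hi
  obtain ⟨v, hv, h⟩ := mem_image.1 h2
  exact ⟨v, hv, h⟩

theorem sel_injOn (W : Finset ℕ) : Set.InjOn (sel W) (range (2 ^ W.card)) := by
  intro τ hτ τ' hτ' h
  simp only [coe_range, Set.mem_Iio] at hτ hτ'
  apply Nat.eq_of_testBit_eq
  intro i
  rcases lt_or_ge i W.card with hi | hi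
  · obtain ⟨v, hv, rfl⟩ := exists_rk hi
    rw [Nat.testBit_eq_decide_div_mod_eq, Nat.testBit_eq_decide_div_mod_eq]
    have : v ∈ sel W τ ↔ v ∈ sel W τ' := by rw [h]
    simp only [sel, mem_filter, hv, true_and] at this
    rw [Bool.eq_iff_iff, decide_eq_true_eq, decide_eq_true_eq]
    exact this
  · have h1 : 2 ^ W.card ≤ 2 ^ i := Nat.pow_le_pow_right (by norm_num) hi
    rw [Nat.testBit_eq_false_of_lt (hτ.trans_le h1), Nat.testBit_eq_false_of_lt (hτ'.trans_le h1)]

theorem sum_sel (W : Finset ℕ) (f : Finset ℕ → ℕ) :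
    ∑ τ ∈ range (2 ^ W.card), f (sel W τ) = ∑ T ∈ W.powerset, f T := by
  rw [← sum_image (f := f) (g := sel W) (s := range (2 ^ W.card)) (sel_injOn W)]
  congr 1
  apply eq_of_subset_of_card_le
  · intro x hx
    obtain ⟨τ, _, rfl⟩ := mem_image.1 hx
    exact mem_powerset.2 (filter_subset _ _)
  · rw [card_powerset, card_image_of_injOn (sel_injOn W), card_range]

theorem indB_iff {T : Finset ℕ} (hT : T ⊆ range n) :
    indB n adj T = true ↔ ∀ u ∈ T, ∀ v ∈ T, adj u v = false := by
  unfold indB
  simp only [Bool.not_eq_true', decide_eq_false_iff_not, decide_eq_true_eq, Bool.and_eq_true]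
  constructor
  · intro h u hu v hv
    by_contra h1
    rw [Bool.not_eq_false] at h1
    exact h ⟨u, mem_range.1 (hT hu), v, mem_range.1 (hT hv), ⟨hu, hv⟩, h1⟩
  · rintro h ⟨u, _, v, _, ⟨hu, hv⟩, h1⟩
    rw [h u hu v hv] at h1
    exact absurd h1 (by simp)

theorem mem_freeS {R T : Finset ℕ} (hT : T ⊆ range n) {v : ℕ} :
    v ∈ freeS n adj R T ↔ v ∈ R ∧ ∀ u ∈ T, adj u v = false := by
  unfold freeS
  simp only [mem_filter, Bool.not_eq_true', decide_eq_false_iff_not, Bool.and_eq_true,
    decide_eq_true_eq]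
  refine and_congr_right fun _ => ?_
  constructor
  · intro h u hu
    by_contra h1
    rw [Bool.not_eq_false] at h1
    exact h ⟨u, mem_range.1 (hT hu), hu, h1⟩
  · rintro h ⟨u, _, hu, h1⟩
    rw [h u hu] at h1
    exact absurd h1 (by simp)

/-- Counting independent sets through a vertex cover. -/
theorem ind_cover (hs : ∀ u v, adj u v = adj v u)
    {S W R : Finset ℕ} (hS : S ⊆ range n) (hW : W ∪ R = S) (hd : Disjoint W R)
    (hR : ∀ u ∈ R, ∀ v ∈ R, adj u v = false) :
    ind adj S = ∑ T ∈ W.powerset, if indB n adj T then 2 ^ (freeS n adj R T).card else 0 := by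
  have hWS : W ⊆ S := by rw [← hW]; exact subset_union_left
  have hRS : R ⊆ S := by rw [← hW]; exact subset_union_right
  unfold ind
  rw [card_eq_sum_card_fiberwise (f := fun I => I ∩ W) (t := W.powerset)
    (fun I _ => by simp)]
  refine sum_congr rfl fun T hT => ?_
  have hTW := mem_powerset.1 hT
  have hTn : T ⊆ range n := hTW.trans (hWS.trans hS)
  split_ifs with h
  · rw [indB_iff hTn] at h
    rw [← card_powerset]
    refine card_bij' (fun I _ => I ∩ R) (fun J _ => T ∪ J) ?_ ?_ ?_ ?_
    · intro I hI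
      simp only [mem_filter, mem_powerset] at hI ⊢
      obtain ⟨⟨h1, h2⟩, h3⟩ := hI
      intro x hx
      rw [mem_freeS hTn]
      refine ⟨(mem_inter.1 hx).2, fun u hu => ?_⟩
      rw [← h3] at hu
      exact h2 u (mem_inter.1 hu).1 x (mem_inter.1 hx).1
    · intro J hJ
      simp only [mem_filter, mem_powerset] at hJ ⊢
      have hJR : ∀ x ∈ J, x ∈ R ∧ ∀ u ∈ T, adj u x = false := fun x hx =>
        (mem_freeS hTn).1 (hJ hx)
      refine ⟨⟨union_subset (hTW.trans hWS) fun x hx => hRS (hJR x hx).1, ?_⟩, ?_⟩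
      · intro x hx y hy
        rcases mem_union.1 hx with hx | hx <;> rcases mem_union.1 hy with hy | hy
        · exact h x hx y hy
        · exact (hJR y hy).2 x hx
        · rw [hs]; exact (hJR x hx).2 y hy
        · exact hR x (hJR x hx).1 y (hJR y hy).1
      · ext x
        simp only [mem_inter, mem_union]
        constructor
        · rintro ⟨h1 | h1, h2⟩
          · exact h1
          · exact absurd (hJR x h1).1 (disjoint_left.1 hd h2)
        · intro h1
          exact ⟨Or.inl h1, hTW h1⟩
    · intro I hI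
      simp only [mem_filter, mem_powerset] at hI
      obtain ⟨⟨h1, h2⟩, h3⟩ := hI
      rw [← h3, ← inter_union_distrib_left, hW]
      exact inter_eq_left.2 h1
    · intro J hJ
      simp only [mem_powerset] at hJ
      have hJR : J ⊆ R := fun x hx => ((mem_freeS hTn).1 (hJ hx)).1
      rw [union_inter_distrib_right]
      have : T ∩ R = ∅ := by
        rw [← disjoint_iff_inter_eq_empty]
        exact disjoint_of_subset_left hTW hd
      rw [this, empty_union]
      exact inter_eq_left.2 hJR
  · rw [indB_iff hTn] at h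
    rw [card_eq_zero, filter_eq_empty_iff]
    intro I hI h3
    simp only [mem_filter, mem_powerset] at hI
    apply h
    intro u hu v hv
    rw [← h3] at hu hv
    exact hI.2 u (mem_inter.1 hu).1 v (mem_inter.1 hv).1

theorem cov_union_rest (S : Finset ℕ) : cov n adj S ∪ rest n adj S = S := by
  ext x
  simp only [cov, mem_union, mem_filter, Bool.not_eq_true', decide_eq_false_iff_not]
  constructor
  · rintro (h | h)
    · exact h.1
    · exact iterate_mStep_subset S n h
  · intro h
    by_cases h1 : x ∈ rest n adj S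
    · exact Or.inr h1
    · exact Or.inl ⟨h, h1⟩

theorem cov_disjoint_rest (S : Finset ℕ) : Disjoint (cov n adj S) (rest n adj S) := by
  rw [disjoint_left]
  intro x hx
  simp only [cov, mem_filter, Bool.not_eq_true', decide_eq_false_iff_not] at hx
  exact hx.2

theorem leaf_small (hs : ∀ u v, adj u v = adj v u) (hl : ∀ u, adj u u = false)
    {S : Finset ℕ} (hS : S ⊆ range n) {K : ℕ} (hK : 2 ^ (cov n adj S).card ≤ K) :
    leaf n adj K S = ind adj S := by
  have hR := (rest_spec hs hl hS).1
  rw [ind_cover hs hS (cov_union_rest S) (cov_disjoint_rest S) hR, ← sum_sel]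
  unfold leaf
  have h1 : decide (1 ≤ K / 2 ^ (cov n adj S).card) = true := by
    rw [decide_eq_true_eq, Nat.one_le_div_iff (by positivity)]
    exact hK
  have hpos : 0 < 2 ^ (cov n adj S).card := by positivity
  rw [← sum_subset (range_mono hK)]
  · refine sum_congr rfl fun τ hτ => ?_
    have h2 : decide (τ / 2 ^ (cov n adj S).card = 0) = true := by
      rw [decide_eq_true_eq, Nat.div_eq_zero_iff]
      exact Or.inr (mem_range.1 hτ)
    rw [h1, h2]
    simp
  · intro τ _ hτ
    have h2 : decide (τ / 2 ^ (cov n adj S).card = 0) = false := by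
      rw [decide_eq_false_iff_not, Nat.div_eq_zero_iff]
      rw [mem_range] at hτ
      omega
    rw [h2]
    simp

theorem leaf_large {S : Finset ℕ} {K : ℕ} (hK : K < 2 ^ (cov n adj S).card) :
    leaf n adj K S = 0 := by
  unfold leaf
  refine sum_eq_zero fun τ _ => ?_
  have h1 : decide (1 ≤ K / 2 ^ (cov n adj S).card) = false := by
    rw [decide_eq_false_iff_not, Nat.div_eq_of_lt hK]
    omega
  rw [h1]
  simp

theorem leaf_le (hs : ∀ u v, adj u v = adj v u) (hl : ∀ u, adj u u = false)
    {S : Finset ℕ} (hS : S ⊆ range n) (K : ℕ) : leaf n adj K S ≤ ind adj S := by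
  rcases le_or_gt (2 ^ (cov n adj S).card) K with h | h
  · exact (leaf_small hs hl hS h).le
  · rw [leaf_large h]; exact Nat.zero_le _

/-! ### Degrees and the cover -/

theorem sum_dg_le (hs : ∀ u v, adj u v = adj v u) {S W R : Finset ℕ}
    (hW : W ∪ R = S) (hd : Disjoint W R) (hR : ∀ u ∈ R, ∀ v ∈ R, adj u v = false) :
    ∑ v ∈ S, dg adj S v ≤ 2 * ∑ w ∈ W, dg adj S w := by
  have h1 : ∑ v ∈ S, dg adj S v = ∑ w ∈ W, dg adj S w + ∑ v ∈ R, dg adj S v := by
    rw [← sum_union hd, hW]
  have h2 : ∑ v ∈ R, dg adj S v = ∑ v ∈ R, dg adj W v := by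
    refine sum_congr rfl fun v hv => ?_
    unfold dg
    congr 1
    ext u
    simp only [mem_filter]
    rw [← hW, mem_union]
    constructor
    · rintro ⟨h | h, h3⟩
      · exact ⟨h, h3⟩
      · rw [hR v hv u h] at h3; exact absurd h3 (by simp)
    · rintro ⟨h, h3⟩
      exact ⟨Or.inl h, h3⟩
  have h3 : ∑ v ∈ R, dg adj W v = ∑ w ∈ W, dg adj R w := by
    have := sum_card_bipartiteAbove_eq_sum_card_bipartiteBelow (s := R) (t := W)
      (fun v w => adj v w = true)
    unfold bipartiteAbove bipartiteBelow at this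
    unfold dg
    rw [this]
    refine sum_congr rfl fun w _ => ?_
    congr 1
    ext u
    simp only [mem_filter]
    rw [hs]
  have h4 : ∑ w ∈ W, dg adj R w ≤ ∑ w ∈ W, dg adj S w := by
    refine sum_le_sum fun w _ => ?_
    unfold dg
    apply card_le_card
    apply filter_subset_filter
    rw [← hW]
    exact subset_union_right
  omega

/-- `α` is, up to `σ`, a robust upper bound for the size of sets with few edges:
every `S` spans at least `n (|S| - α - σ) / c` edges. -/
def SuperSat (n : ℕ) (adj : ℕ → ℕ → Bool) (c A : ℕ) : Prop :=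
  ∀ S, S ⊆ range n → 2 * n * S.card ≤ 2 * n * A + c * ∑ v ∈ S, dg adj S v

theorem leaf_error (hs : ∀ u v, adj u v = adj v u) (hl : ∀ u, adj u u = false) (hn : 0 < n)
    {c A q : ℕ} (hss : SuperSat n adj c A)
    {S : Finset ℕ} (hS : S ⊆ range n) (hlight : ∀ u, heavy n (10 * c) adj S u = false)
    (hK : (q ^ 5) ^ 2 < 2 ^ (cov n adj S).card) :
    ind adj S * q ≤ 2 ^ A := by
  obtain ⟨hR, m, h1, h2, h3⟩ := rest_spec hs hl hS
  have h4 := sum_dg_le hs (cov_union_rest (n := n) (adj := adj) S)
    (cov_disjoint_rest S) hR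
  have hcovS : cov n adj S ⊆ S := filter_subset _ _
  have h5 : 10 * c * ∑ w ∈ cov n adj S, dg adj S w ≤ 2 * m * n := by
    rw [mul_sum, ← h1, ← smul_eq_mul (a := (cov n adj S).card), ← sum_const]
    refine sum_le_sum fun w hw => ?_
    have h6 := hlight w
    unfold heavy at h6
    rw [Bool.and_eq_false_iff, decide_eq_false_iff_not, decide_eq_false_iff_not] at h6
    rcases h6 with h6 | h6
    · exact absurd (hcovS hw) h6
    · omega
  have h6 := hss S hS
  have h7' : 5 * S.card ≤ 5 * A + m := by
    have h8 : 5 * (c * ∑ v ∈ S, dg adj S v) ≤ 10 * c * ∑ w ∈ cov n adj S, dg adj S w := by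
      have := Nat.mul_le_mul_left (5 * c) h4
      nlinarith
    have h9 : 5 * (2 * n * S.card) ≤ 5 * (2 * n * A) + 2 * m * n := by
      have := Nat.mul_le_mul_left 5 h6
      rw [Nat.mul_add] at this
      omega
    have h10 : (2 * n) * (5 * S.card) ≤ (2 * n) * (5 * A + m) := by
      nlinarith
    exact Nat.le_of_mul_le_mul_left h10 (by omega)
  -- q ^ 5 ≤ 2 ^ m
  have h8 : q ^ 5 ≤ 2 ^ m := by
    rw [h1, pow_mul'] at hK
    exact (lt_of_pow_lt_pow_left₀ 2 (by positivity) hK).le
  -- fifth powers
  have h9 : (ind adj S * q) ^ 5 ≤ (2 ^ A) ^ 5 := by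
    have h10 : ind adj S * 4 ^ m ≤ 3 ^ m * 2 ^ S.card := by
      calc ind adj S * 4 ^ m ≤ (3 ^ m * 2 ^ (rest n adj S).card) * 4 ^ m :=
            Nat.mul_le_mul_right _ h3
        _ = 3 ^ m * 2 ^ S.card := by
            rw [← h2, pow_add, pow_mul]; norm_num; ring
    have h11 : (ind adj S * 4 ^ m) ^ 5 ≤ (3 ^ m * 2 ^ S.card) ^ 5 :=
      Nat.pow_le_pow_left h10 5
    have h12 : (ind adj S) ^ 5 * 1024 ^ m ≤ 243 ^ m * 2 ^ (5 * S.card) := by
      calc (ind adj S) ^ 5 * 1024 ^ m = (ind adj S * 4 ^ m) ^ 5 := by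
            rw [mul_pow, ← pow_mul, mul_comm m 5, pow_mul]; norm_num
        _ ≤ (3 ^ m * 2 ^ S.card) ^ 5 := h11
        _ = 243 ^ m * 2 ^ (5 * S.card) := by
            rw [mul_pow, ← pow_mul, ← pow_mul, mul_comm m 5, pow_mul, mul_comm S.card 5]; norm_num
    have h13 : (ind adj S) ^ 5 * 1024 ^ m ≤ 512 ^ m * 2 ^ (5 * A) := by
      calc (ind adj S) ^ 5 * 1024 ^ m ≤ 243 ^ m * 2 ^ (5 * S.card) := h12
        _ ≤ 243 ^ m * 2 ^ (5 * A + m) :=
            Nat.mul_le_mul_left _ (Nat.pow_le_pow_right (by norm_num) h7')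
        _ = 486 ^ m * 2 ^ (5 * A) := by
            rw [pow_add, show (486 : ℕ) = 243 * 2 by norm_num, mul_pow]; ring
        _ ≤ 512 ^ m * 2 ^ (5 * A) :=
            Nat.mul_le_mul_right _ (Nat.pow_le_pow_left (by norm_num) m)
    have h14 : (ind adj S) ^ 5 * 2 ^ m ≤ 2 ^ (5 * A) := by
      have h15 : 512 ^ m * ((ind adj S) ^ 5 * 2 ^ m) ≤ 512 ^ m * 2 ^ (5 * A) := by
        calc 512 ^ m * ((ind adj S) ^ 5 * 2 ^ m) = (ind adj S) ^ 5 * 1024 ^ m := by
              rw [show (1024 : ℕ) = 512 * 2 by norm_num, mul_pow]; ring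
          _ ≤ _ := h13
      exact Nat.le_of_mul_le_mul_left h15 (by positivity)
    calc (ind adj S * q) ^ 5 = (ind adj S) ^ 5 * q ^ 5 := mul_pow _ _ _
      _ ≤ (ind adj S) ^ 5 * 2 ^ m := Nat.mul_le_mul_left _ h8
      _ ≤ 2 ^ (5 * A) := h14
      _ = (2 ^ A) ^ 5 := by rw [← pow_mul, mul_comm]
  exact le_of_pow_le_pow_left₀ (by norm_num) (Nat.zero_le _) h9

end analysis

end Pool.Agent.Lib.Pa7c826
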