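import Pool.Agent.Lib.Pa7c826.Bin
import Pool.Agent.Lib.Pa7c826.Leaf

/-!
The branching algorithm runs in polynomial time.
-/

namespace Pool.Agent.Lib.Pa7c826

open Pool.Agent.Lib.PolyTime

/-! ### Reading the input -/

/-- precision parameter read off the input -/
def tOf (w : List Bool) : ℕ := (w.takeWhile id).length

/-- number of left vertices read off the input -/
def aOf (w : List Bool) : ℕ := ((afterTrue w).takeWhile id).length

/-- number of right vertices read off the input -/
def bOf (w : List Bool) : ℕ := ((afterTrue (afterTrue w)).takeWhile id).length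

/-- adjacency bits read off the input -/
def bitsOf (w : List Bool) : List Bool := afterTrue (afterTrue (afterTrue w))

/-- number of vertices read off the input -/
def nOf (w : List Bool) : ℕ := aOf w + bOf w

/-- one adjacency bit -/
def eOf (w : List Bool) (i j : ℕ) : Bool := (bitsOf w).getD (i * bOf w + j) false

/-- adjacency on `{0, …, n - 1}`, left vertices first -/
def adjOf (w : List Bool) (u v : ℕ) : Bool :=
  (((decide (u < aOf w) && decide (aOf w ≤ v)) && decide (v < aOf w + bOf w)) &&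
    eOf w u (v - aOf w)) ||
  (((decide (v < aOf w) && decide (aOf w ≤ u)) && decide (u < aOf w + bOf w)) &&
    eOf w v (u - aOf w))

section

variable {α : Type*} {D : α → Prop} {ctx : List (α → List Bool)} {w : α → List Bool}
  {S R : α → Finset ℕ} {u v : α → ℕ}

theorem poly_tOf (hw : PolyC D ctx w) : PolyN D ctx (fun a => tOf (w a)) :=
  PolyN.length hw.takeTrue

theorem poly_aOf (hw : PolyC D ctx w) : PolyN D ctx (fun a => aOf (w a)) :=
  PolyN.length hw.afterTrue.takeTrue

theorem poly_bOf (hw : PolyC D ctx w) : PolyN D ctx (fun a => bOf (w a)) :=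
  PolyN.length hw.afterTrue.afterTrue.takeTrue

theorem poly_nOf (hw : PolyC D ctx w) : PolyN D ctx (fun a => nOf (w a)) :=
  (poly_aOf hw).add (poly_bOf hw)

theorem poly_eOf (hw : PolyC D ctx w) (hu : PolyN D ctx u) (hv : PolyN D ctx v) :
    PolyB D ctx (fun a => eOf (w a) (u a) (v a)) :=
  PolyB.getD hw.afterTrue.afterTrue.afterTrue ((hu.mul (poly_bOf hw)).add hv)

theorem poly_adj (hw : PolyC D ctx w) (hu : PolyN D ctx u) (hv : PolyN D ctx v) :
    PolyB D ctx (fun a => adjOf (w a) (u a) (v a)) :=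
  ((((PolyB.lt hu (poly_aOf hw)).and (PolyB.le (poly_aOf hw) hv)).and
    (PolyB.lt hv (poly_nOf hw))).and (poly_eOf hw hu (PolyN.sub hv (poly_aOf hw)))).or
  ((((PolyB.lt hv (poly_aOf hw)).and (PolyB.le (poly_aOf hw) hu)).and
    (PolyB.lt hu (poly_nOf hw))).and (poly_eOf hw hv (PolyN.sub hu (poly_aOf hw))))

/-! ### Branching steps -/

theorem poly_dg (hw : PolyC D ctx w) (hS : PolyS D ctx (fun a => nOf (w a)) S)
    (hv : PolyN D ctx v) : PolyN D ctx (fun a => dg (adjOf (w a)) (S a) (v a)) := by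
  have W := up (n := fun a => nOf (w a)) hw
  have V := upN (n := fun a => nOf (w a)) hv
  have L := last (D := D) (ctx := ctx) (n := fun a => nOf (w a))
  exact PolyS.card (poly_nOf hw) (PolyS.filter (φ := fun p : α × ℕ => adjOf (w p.1) (v p.1) p.2)
    (poly_nOf hw) hS (poly_adj W V L))

theorem poly_heavy (g : ℕ) (hw : PolyC D ctx w) (hS : PolyS D ctx (fun a => nOf (w a)) S)
    (hv : PolyN D ctx v) : PolyB D ctx (fun a => heavy (nOf (w a)) g (adjOf (w a)) (S a) (v a)) :=
  (hS.mem hv).and (PolyB.le (poly_nOf hw) ((PolyN.const g).mul (poly_dg hw hS hv)))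

theorem poly_chosen (g : ℕ) (hw : PolyC D ctx w) (hS : PolyS D ctx (fun a => nOf (w a)) S)
    (hv : PolyN D ctx v) :
    PolyB D ctx (fun a => chosen (nOf (w a)) g (adjOf (w a)) (S a) (v a)) := by
  have W := up (n := v) hw
  have SS := hS.up (m := v)
  have L := last (D := D) (ctx := ctx) (n := v)
  exact (poly_heavy g hw hS hv).and (PolyB.exists_lt
    (φ := fun p : α × ℕ => heavy (nOf (w p.1)) g (adjOf (w p.1)) (S p.1) p.2) hv
    (poly_heavy g W SS L)).not

theorem poly_anyHeavy (g : ℕ) (hw : PolyC D ctx w) (hS : PolyS D ctx (fun a => nOf (w a)) S) :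
    PolyB D ctx (fun a => anyHeavy (nOf (w a)) g (adjOf (w a)) (S a)) := by
  have W := up (n := fun a => nOf (w a)) hw
  have SS := hS.up (m := fun a => nOf (w a))
  have L := last (D := D) (ctx := ctx) (n := fun a => nOf (w a))
  exact PolyB.exists_lt (φ := fun p : α × ℕ => heavy (nOf (w p.1)) g (adjOf (w p.1)) (S p.1) p.2)
    (poly_nOf hw) (poly_heavy g W SS L)

theorem poly_outS (g : ℕ) (hw : PolyC D ctx w) (hS : PolyS D ctx (fun a => nOf (w a)) S) :
    PolyS D ctx (fun a => nOf (w a)) (fun a => outS (nOf (w a)) g (adjOf (w a)) (S a)) := by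
  have W := up (n := fun a => nOf (w a)) hw
  have SS := hS.up (m := fun a => nOf (w a))
  have L := last (D := D) (ctx := ctx) (n := fun a => nOf (w a))
  have C := poly_chosen g W SS L
  refine (PolyS.filter (φ := fun p : α × ℕ =>
    !chosen (nOf (w p.1)) g (adjOf (w p.1)) (S p.1) p.2)
    (poly_nOf hw) hS C.not).congr (fun a _ => ?_)
  unfold outS
  refine Finset.filter_congr fun i _ => ?_
  simp

theorem poly_inS (g : ℕ) (hw : PolyC D ctx w) (hS : PolyS D ctx (fun a => nOf (w a)) S) :
    PolyS D ctx (fun a => nOf (w a)) (fun a => inS (nOf (w a)) g (adjOf (w a)) (S a)) := by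
  have W := up (n := fun a => nOf (w a)) hw
  have SS := hS.up (m := fun a => nOf (w a))
  have L := last (D := D) (ctx := ctx) (n := fun a => nOf (w a))
  have W2 := up (n := fun p : α × ℕ => nOf (w p.1)) W
  have SS2 := SS.up (m := fun p : α × ℕ => nOf (w p.1))
  have L1 := upN (n := fun p : α × ℕ => nOf (w p.1)) L
  have L2 := last (D := fun p : α × ℕ => D p.1 ∧ p.2 < nOf (w p.1))
    (ctx := PolyTime.lift ctx ++ [fun p : α × ℕ => un p.2])
    (n := fun p : α × ℕ => nOf (w p.1))
  have C := poly_chosen g W SS L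
  have C2 := poly_chosen g W2 SS2 L2
  have A2 := poly_adj W2 L2 L1
  refine PolyS.filter (φ := fun p : α × ℕ =>
    (!chosen (nOf (w p.1)) g (adjOf (w p.1)) (S p.1) p.2 &&
    !decide (∃ v < nOf (w p.1), (chosen (nOf (w p.1)) g (adjOf (w p.1)) (S p.1) v &&
      adjOf (w p.1) v p.2) = true))) (poly_nOf hw) hS ?_
  refine C.not.and (PolyB.not ?_)
  exact PolyB.exists_lt (φ := fun q : (α × ℕ) × ℕ =>
    (chosen (nOf (w q.1.1)) g (adjOf (w q.1.1)) (S q.1.1) q.2 && adjOf (w q.1.1) q.2 q.1.2))
    (poly_nOf W) (C2.and A2)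

/-! ### Matching steps -/

theorem poly_hasNb (hw : PolyC D ctx w) (hR : PolyS D ctx (fun a => nOf (w a)) R)
    (hu : PolyN D ctx u) :
    PolyB D ctx (fun a => hasNb (nOf (w a)) (adjOf (w a)) (R a) (u a)) := by
  have W := up (n := fun a => nOf (w a)) hw
  have U := upN (n := fun a => nOf (w a)) hu
  have RR := hR.up (m := fun a => nOf (w a))
  have L := last (D := D) (ctx := ctx) (n := fun a => nOf (w a))
  have M := RR.mem L
  exact (hR.mem hu).and (PolyB.exists_lt
    (φ := fun p : α × ℕ => (decide (p.2 ∈ R p.1) && adjOf (w p.1) (u p.1) p.2)) (poly_nOf hw)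
    (M.and (poly_adj W U L)))

theorem poly_fstB (hw : PolyC D ctx w) (hR : PolyS D ctx (fun a => nOf (w a)) R)
    (hu : PolyN D ctx u) :
    PolyB D ctx (fun a => fstB (nOf (w a)) (adjOf (w a)) (R a) (u a)) := by
  have W := up (n := u) hw
  have RR := hR.up (m := u)
  have L := last (D := D) (ctx := ctx) (n := u)
  exact (poly_hasNb hw hR hu).and (PolyB.exists_lt
    (φ := fun p : α × ℕ => hasNb (nOf (w p.1)) (adjOf (w p.1)) (R p.1) p.2) hu
    (poly_hasNb W RR L)).not

theorem poly_nbF (hw : PolyC D ctx w) (hR : PolyS D ctx (fun a => nOf (w a)) R)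
    (hv : PolyN D ctx v) : PolyB D ctx (fun a => nbF (nOf (w a)) (adjOf (w a)) (R a) (v a)) := by
  have W := up (n := fun a => nOf (w a)) hw
  have V := upN (n := fun a => nOf (w a)) hv
  have RR := hR.up (m := fun a => nOf (w a))
  have L := last (D := D) (ctx := ctx) (n := fun a => nOf (w a))
  exact (hR.mem hv).and (PolyB.exists_lt
    (φ := fun p : α × ℕ => (fstB (nOf (w p.1)) (adjOf (w p.1)) (R p.1) p.2 &&
      adjOf (w p.1) p.2 (v p.1))) (poly_nOf hw)
    ((poly_fstB W RR L).and (poly_adj W L V)))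

theorem poly_sndB (hw : PolyC D ctx w) (hR : PolyS D ctx (fun a => nOf (w a)) R)
    (hv : PolyN D ctx v) :
    PolyB D ctx (fun a => sndB (nOf (w a)) (adjOf (w a)) (R a) (v a)) := by
  have W := up (n := v) hw
  have RR := hR.up (m := v)
  have L := last (D := D) (ctx := ctx) (n := v)
  exact (poly_nbF hw hR hv).and (PolyB.exists_lt
    (φ := fun p : α × ℕ => nbF (nOf (w p.1)) (adjOf (w p.1)) (R p.1) p.2) hv
    (poly_nbF W RR L)).not

theorem poly_mStep (hw : PolyC D ctx w) (hR : PolyS D ctx (fun a => nOf (w a)) R) :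
    PolyS D ctx (fun a => nOf (w a)) (fun a => mStep (nOf (w a)) (adjOf (w a)) (R a)) := by
  have W := up (n := fun a => nOf (w a)) hw
  have RR := hR.up (m := fun a => nOf (w a))
  have L := last (D := D) (ctx := ctx) (n := fun a => nOf (w a))
  have F1 := poly_fstB W RR L
  have F2 := poly_sndB W RR L
  exact PolyS.filter (φ := fun p : α × ℕ => (!fstB (nOf (w p.1)) (adjOf (w p.1)) (R p.1) p.2 &&
    !sndB (nOf (w p.1)) (adjOf (w p.1)) (R p.1) p.2)) (poly_nOf hw) hR (F1.not.and F2.not)

end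

section

variable {α : Type*} {D : α → Prop} {ctx : List (α → List Bool)} {w : α → List Bool}
  {S R : α → Finset ℕ} {u v : α → ℕ}

/-- Iterating a step given by a formula depending on the input string only. -/
theorem poly_iterate {k : α → ℕ} {step : List Bool → Finset ℕ → Finset ℕ}
    (hw : PolyC D ctx w) (hk : PolyN D ctx k) (hS : PolyS D ctx (fun a => nOf (w a)) S)
    (hsub : ∀ x T, step x T ⊆ T)
    (hstep : PolyS (fun p : α × ℕ => D p.1 ∧ p.2 < k p.1)
      (PolyTime.lift ctx ++ [fun p => un p.2,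
        fun p => msk (nOf (w p.1)) ((step (w p.1))^[p.2] (S p.1))])
      (fun p => nOf (w p.1)) (fun p => step (w p.1) ((step (w p.1))^[p.2] (S p.1)))) :
    PolyS D ctx (fun a => nOf (w a)) (fun a => (step (w a))^[k a] (S a)) :=
  PolyS.iterate (step := fun a => step (w a)) (poly_nOf hw) hk hS
    (fun a _ T hT => (hsub (w a) T).trans hT) hstep

theorem iterate_subset {step : Finset ℕ → Finset ℕ} (hsub : ∀ T, step T ⊆ T) (S : Finset ℕ)
    (j : ℕ) : step^[j] S ⊆ S := by
  induction j with
  | zero => exact subset_rfl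
  | succ j ih => rw [Function.iterate_succ_apply']; exact (hsub _).trans ih

/-- the state variable in an iteration -/
theorem state_var {k : α → ℕ} {T : α → ℕ → Finset ℕ}
    (hT : ∀ a, D a → ∀ j, j < k a → T a j ⊆ Finset.range (nOf (w a))) :
    PolyS (fun p : α × ℕ => D p.1 ∧ p.2 < k p.1)
      (PolyTime.lift ctx ++ [fun p => un p.2, fun p => msk (nOf (w p.1)) (T p.1 p.2)])
      (fun p => nOf (w p.1)) (fun p => T p.1 p.2) :=
  ⟨PolyC.var (by simp), fun p hp => hT p.1 hp.1 p.2 hp.2⟩

theorem poly_iterOut (g : ℕ) {k : α → ℕ} (hw : PolyC D ctx w) (hk : PolyN D ctx k)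
    (hS : PolyS D ctx (fun a => nOf (w a)) S) :
    PolyS D ctx (fun a => nOf (w a))
      (fun a => (outS (nOf (w a)) g (adjOf (w a)))^[k a] (S a)) := by
  refine poly_iterate (step := fun x => outS (nOf x) g (adjOf x)) hw hk hS
    (fun x T => outS_subset T) ?_
  have W := up2 (n := k) (u := fun p : α × ℕ =>
    msk (nOf (w p.1)) ((outS (nOf (w p.1)) g (adjOf (w p.1)))^[p.2] (S p.1))) hw
  have V := state_var (D := D) (ctx := ctx) (w := w) (k := k)
    (T := fun a j => (outS (nOf (w a)) g (adjOf (w a)))^[j] (S a))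
    (fun a ha j _ => (iterate_outS_subset _ _).trans (hS.2 a ha))
  exact poly_outS g W V

theorem poly_rest (hw : PolyC D ctx w) (hS : PolyS D ctx (fun a => nOf (w a)) S) :
    PolyS D ctx (fun a => nOf (w a)) (fun a => rest (nOf (w a)) (adjOf (w a)) (S a)) := by
  refine poly_iterate (step := fun x => mStep (nOf x) (adjOf x)) hw (poly_nOf hw) hS
    (fun x T => mStep_subset T) ?_
  have W := up2 (n := fun a => nOf (w a)) (u := fun p : α × ℕ =>
    msk (nOf (w p.1)) ((mStep (nOf (w p.1)) (adjOf (w p.1)))^[p.2] (S p.1))) hw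
  have V := state_var (D := D) (ctx := ctx) (w := w) (k := fun a => nOf (w a))
    (T := fun a j => (mStep (nOf (w a)) (adjOf (w a)))^[j] (S a))
    (fun a ha j _ => (iterate_mStep_subset _ _).trans (hS.2 a ha))
  exact poly_mStep W V

theorem poly_cov (hw : PolyC D ctx w) (hS : PolyS D ctx (fun a => nOf (w a)) S) :
    PolyS D ctx (fun a => nOf (w a)) (fun a => cov (nOf (w a)) (adjOf (w a)) (S a)) := by
  have W := up (n := fun a => nOf (w a)) hw
  have SS := hS.up (m := fun a => nOf (w a))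
  have L := last (D := D) (ctx := ctx) (n := fun a => nOf (w a))
  have M := (poly_rest W SS).mem L
  exact PolyS.filter (φ := fun p : α × ℕ =>
    !decide (p.2 ∈ rest (nOf (w p.1)) (adjOf (w p.1)) (S p.1))) (poly_nOf hw) hS M.not

theorem poly_rk (hw : PolyC D ctx w) (hS : PolyS D ctx (fun a => nOf (w a)) S)
    (hv : PolyN D ctx v) : PolyN D ctx (fun a => rk (S a) (v a)) := by
  have V := upN (n := fun a => nOf (w a)) hv
  have L := last (D := D) (ctx := ctx) (n := fun a => nOf (w a))
  refine (PolyS.card (poly_nOf hw) (PolyS.filter (φ := fun p : α × ℕ => decide (p.2 < v p.1))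
    (poly_nOf hw) hS (PolyB.lt L V))).congr (fun a _ => ?_)
  unfold rk
  congr 1
  ext i
  simp

theorem poly_sel {τ : α → ℕ} (hw : PolyC D ctx w) (hS : PolyS D ctx (fun a => nOf (w a)) S)
    (hτ : PolyN D ctx τ) : PolyS D ctx (fun a => nOf (w a)) (fun a => sel (S a) (τ a)) := by
  have W := up (n := fun a => nOf (w a)) hw
  have T := upN (n := fun a => nOf (w a)) hτ
  have SS := hS.up (m := fun a => nOf (w a))
  have L := last (D := D) (ctx := ctx) (n := fun a => nOf (w a))
  refine (PolyS.filter (φ := fun p : α × ℕ => decide (τ p.1 / 2 ^ rk (S p.1) p.2 % 2 = 1))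
    (poly_nOf hw) hS (PolyB.odd (PolyN.divPow T (poly_rk W SS L)))).congr (fun a _ => ?_)
  unfold sel
  ext i
  simp

theorem poly_indB (hw : PolyC D ctx w) (hS : PolyS D ctx (fun a => nOf (w a)) S) :
    PolyB D ctx (fun a => indB (nOf (w a)) (adjOf (w a)) (S a)) := by
  have W := up (n := fun a => nOf (w a)) hw
  have SS := hS.up (m := fun a => nOf (w a))
  have L := last (D := D) (ctx := ctx) (n := fun a => nOf (w a))
  have W2 := up (n := fun p : α × ℕ => nOf (w p.1)) W
  have SS2 := SS.up (m := fun p : α × ℕ => nOf (w p.1))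
  have L1 := upN (n := fun p : α × ℕ => nOf (w p.1)) L
  have L2 := last (D := fun p : α × ℕ => D p.1 ∧ p.2 < nOf (w p.1))
    (ctx := PolyTime.lift ctx ++ [fun p : α × ℕ => un p.2])
    (n := fun p : α × ℕ => nOf (w p.1))
  have M1 := SS2.mem L1
  have M2 := SS2.mem L2
  have A := poly_adj W2 L1 L2
  refine (PolyB.exists_lt (φ := fun p : α × ℕ => decide (∃ v < nOf (w p.1),
    ((decide (p.2 ∈ S p.1) && decide (v ∈ S p.1)) && adjOf (w p.1) p.2 v) = true))
    (poly_nOf hw) ?_).not
  exact PolyB.exists_lt (φ := fun q : (α × ℕ) × ℕ =>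
    ((decide (q.1.2 ∈ S q.1.1) && decide (q.2 ∈ S q.1.1)) && adjOf (w q.1.1) q.1.2 q.2))
    (poly_nOf W) ((M1.and M2).and A)

theorem poly_freeS (hw : PolyC D ctx w) (hR : PolyS D ctx (fun a => nOf (w a)) R)
    (hS : PolyS D ctx (fun a => nOf (w a)) S) :
    PolyS D ctx (fun a => nOf (w a)) (fun a => freeS (nOf (w a)) (adjOf (w a)) (R a) (S a)) := by
  have W := up (n := fun a => nOf (w a)) hw
  have SS := hS.up (m := fun a => nOf (w a))
  have L := last (D := D) (ctx := ctx) (n := fun a => nOf (w a))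
  have W2 := up (n := fun p : α × ℕ => nOf (w p.1)) W
  have SS2 := SS.up (m := fun p : α × ℕ => nOf (w p.1))
  have L1 := upN (n := fun p : α × ℕ => nOf (w p.1)) L
  have L2 := last (D := fun p : α × ℕ => D p.1 ∧ p.2 < nOf (w p.1))
    (ctx := PolyTime.lift ctx ++ [fun p : α × ℕ => un p.2])
    (n := fun p : α × ℕ => nOf (w p.1))
  have M2 := SS2.mem L2
  have A := poly_adj W2 L2 L1
  refine PolyS.filter (φ := fun p : α × ℕ => !decide (∃ u < nOf (w p.1),
    (decide (u ∈ S p.1) && adjOf (w p.1) u p.2) = true)) (poly_nOf hw) hR (PolyB.not ?_)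
  exact PolyB.exists_lt (φ := fun q : (α × ℕ) × ℕ =>
    (decide (q.2 ∈ S q.1.1) && adjOf (w q.1.1) q.2 q.1.2)) (poly_nOf W) (M2.and A)

end

/-- functions of the input string computable in unary in polynomial time, in every context -/
def UPoly (K : List Bool → ℕ) : Prop :=
  ∀ {β : Type} {D' : β → Prop} {ctx' : List (β → List Bool)} {w' : β → List Bool},
    PolyC D' ctx' w' → PolyN D' ctx' (fun b => K (w' b))

theorem poly_leaf {α : Type} {D : α → Prop} {ctx : List (α → List Bool)} {w : α → List Bool}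
    {S : α → Finset ℕ} {K : List Bool → ℕ} (hK : UPoly K)
    (hw : PolyC D ctx w) (hS : PolyS D ctx (fun a => nOf (w a)) S) :
    PolyBin D ctx (fun a => leaf (nOf (w a)) (adjOf (w a)) (K (w a)) (S a)) := by
  unfold leaf
  refine PolyBin.sum_range (f := fun p : α × ℕ =>
    if (decide (p.2 / 2 ^ (cov (nOf (w p.1)) (adjOf (w p.1)) (S p.1)).card = 0) &&
      (decide (1 ≤ K (w p.1) / 2 ^ (cov (nOf (w p.1)) (adjOf (w p.1)) (S p.1)).card) &&
        indB (nOf (w p.1)) (adjOf (w p.1)) (sel (cov (nOf (w p.1)) (adjOf (w p.1)) (S p.1)) p.2)))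
    then 2 ^ (freeS (nOf (w p.1)) (adjOf (w p.1)) (rest (nOf (w p.1)) (adjOf (w p.1)) (S p.1))
      (sel (cov (nOf (w p.1)) (adjOf (w p.1)) (S p.1)) p.2)).card else 0) (hK hw) ?_
  have W := up (n := fun a => K (w a)) hw
  have SS := hS.up (m := fun a => K (w a))
  have C := poly_cov W SS
  have T := last (D := D) (ctx := ctx) (n := fun a => K (w a))
  have CC := PolyS.card (poly_nOf W) C
  have SE := poly_sel W C T
  have B : PolyB (fun p : α × ℕ => D p.1 ∧ p.2 < K (w p.1))
      (PolyTime.lift ctx ++ [fun p => un p.2]) (fun p : α × ℕ =>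
      (decide (p.2 / 2 ^ (cov (nOf (w p.1)) (adjOf (w p.1)) (S p.1)).card = 0) &&
      (decide (1 ≤ K (w p.1) / 2 ^ (cov (nOf (w p.1)) (adjOf (w p.1)) (S p.1)).card) &&
        indB (nOf (w p.1)) (adjOf (w p.1))
          (sel (cov (nOf (w p.1)) (adjOf (w p.1)) (S p.1)) p.2)))) :=
    (PolyB.natEq (PolyN.divPow T CC) (PolyN.const 0)).and
      ((PolyB.le (PolyN.const 1) (PolyN.divPow (hK W) CC)).and (poly_indB W SE))
  have P : PolyBin (fun p : α × ℕ => D p.1 ∧ p.2 < K (w p.1))
      (PolyTime.lift ctx ++ [fun p => un p.2]) (fun p : α × ℕ =>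
      2 ^ (freeS (nOf (w p.1)) (adjOf (w p.1)) (rest (nOf (w p.1)) (adjOf (w p.1)) (S p.1))
      (sel (cov (nOf (w p.1)) (adjOf (w p.1)) (S p.1)) p.2)).card) :=
    PolyBin.pow2 (PolyS.card (poly_nOf W) (poly_freeS W (poly_rest W SS) SE))
  exact PolyBin.ite B (P.mono fun _ h => h.1) PolyBin.zero

theorem poly_count (g : ℕ) {K : List Bool → ℕ} (hK : UPoly K) (j : ℕ) :
    ∀ {α : Type} {D : α → Prop} {ctx : List (α → List Bool)} {w : α → List Bool}
      {S : α → Finset ℕ}, PolyC D ctx w → PolyS D ctx (fun a => nOf (w a)) S →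
      PolyBin D ctx (fun a => count (nOf (w a)) g (adjOf (w a))
        (leaf (nOf (w a)) (adjOf (w a)) (K (w a))) j (S a)) := by
  induction j with
  | zero =>
    intro α D ctx w S hw hS
    exact poly_leaf hK hw hS
  | succ j ih =>
    intro α D ctx w S hw hS
    refine PolyBin.add ?_ ?_
    · refine PolyBin.sum_range (f := fun p : α × ℕ =>
        if anyHeavy (nOf (w p.1)) g (adjOf (w p.1))
          ((outS (nOf (w p.1)) g (adjOf (w p.1)))^[p.2] (S p.1)) then
        count (nOf (w p.1)) g (adjOf (w p.1)) (leaf (nOf (w p.1)) (adjOf (w p.1)) (K (w p.1))) j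
          (inS (nOf (w p.1)) g (adjOf (w p.1))
            ((outS (nOf (w p.1)) g (adjOf (w p.1)))^[p.2] (S p.1))) else 0) (poly_nOf hw) ?_
      have W := up (n := fun a => nOf (w a)) hw
      have SS := hS.up (m := fun a => nOf (w a))
      have L := last (D := D) (ctx := ctx) (n := fun a => nOf (w a))
      have O := poly_iterOut g W L SS
      exact PolyBin.ite (poly_anyHeavy g W O) ((ih W (poly_inS g W O)).mono fun _ h => h.1)
        PolyBin.zero
    · exact poly_leaf hK hw (poly_iterOut g hw (poly_nOf hw) hS)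

end Pool.Agent.Lib.Pa7c826
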