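import Pool.Agent.Lib.Pa7c826.Scheme
import Pool.Agent.Lib.Pa7c826.AlgoPoly

/-!
Reading a bipartite graph off its input string.
-/

namespace Pool.Agent.Lib.Pa7c826

open Pool.Agent.Lib.PolyTime

theorem inCode_eq (G : BGraph) (t : ℕ) :
    inCode G t = un t ++ false :: (un G.a ++ false :: (un G.b ++ false ::
      List.ofFn fun k : Fin (G.a * G.b) => G.E k.divNat k.modNat)) := rfl

theorem tOf_inCode (G : BGraph) (t : ℕ) : tOf (inCode G t) = t := by
  rw [inCode_eq, tOf, takeWhile_un, un_length]

theorem aOf_inCode (G : BGraph) (t : ℕ) : aOf (inCode G t) = G.a := by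
  rw [inCode_eq, aOf, afterTrue_un, takeWhile_un, un_length]

theorem bOf_inCode (G : BGraph) (t : ℕ) : bOf (inCode G t) = G.b := by
  rw [inCode_eq, bOf, afterTrue_un, afterTrue_un, takeWhile_un, un_length]

theorem nOf_inCode (G : BGraph) (t : ℕ) : nOf (inCode G t) = G.a + G.b := by
  rw [nOf, aOf_inCode, bOf_inCode]

theorem bitsOf_inCode (G : BGraph) (t : ℕ) : bitsOf (inCode G t) =
    List.ofFn fun k : Fin (G.a * G.b) => G.E k.divNat k.modNat := by
  rw [inCode_eq, bitsOf, afterTrue_un, afterTrue_un, afterTrue_un]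

theorem eOf_inCode (G : BGraph) (t : ℕ) (i : Fin G.a) (j : Fin G.b) :
    eOf (inCode G t) i j = G.E i j := by
  unfold eOf
  rw [bitsOf_inCode, bOf_inCode]
  have h1 : (i : ℕ) * G.b + j < G.a * G.b := by
    have h2 : ((i : ℕ) + 1) * G.b ≤ G.a * G.b := Nat.mul_le_mul_right _ i.2
    have h3 := j.2
    rw [Nat.succ_mul] at h2
    omega
  rw [List.getD_eq_getElem _ _ (by rw [List.length_ofFn]; exact h1), List.getElem_ofFn]
  have hb : 0 < G.b := by have := j.2; omega
  congr 1
  · apply Fin.ext
    simp only [Fin.coe_divNat]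
    rw [mul_comm, Nat.mul_add_div hb, Nat.div_eq_of_lt j.2, Nat.add_zero]
  · apply Fin.ext
    simp only [Fin.coe_modNat]
    rw [mul_comm, Nat.mul_add_mod, Nat.mod_eq_of_lt j.2]

theorem adjOf_symm (w : List Bool) (u v : ℕ) : adjOf w u v = adjOf w v u := by
  unfold adjOf
  rw [Bool.or_comm]

theorem adjOf_bip {w : List Bool} {u v : ℕ} (h : adjOf w u v = true) :
    (u < aOf w ∧ aOf w ≤ v ∧ v < aOf w + bOf w) ∨
      (v < aOf w ∧ aOf w ≤ u ∧ u < aOf w + bOf w) := by
  unfold adjOf at h
  simp only [Bool.or_eq_true, Bool.and_eq_true, decide_eq_true_eq] at h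
  rcases h with h | h
  · exact Or.inl ⟨h.1.1.1, h.1.1.2, h.1.2⟩
  · exact Or.inr ⟨h.1.1.1, h.1.1.2, h.1.2⟩

theorem adjOf_self (w : List Bool) (u : ℕ) : adjOf w u u = false := by
  by_contra h
  rw [Bool.not_eq_false] at h
  rcases adjOf_bip h with h | h <;> omega

/-- the vertex numbering -/
def num (G : BGraph) : Fin G.a ⊕ Fin G.b → ℕ
  | .inl i => i
  | .inr j => G.a + j

theorem adjOf_lr (G : BGraph) (t : ℕ) (i : Fin G.a) (j : Fin G.b) :
    adjOf (inCode G t) i (G.a + j) = G.E i j := by
  have hi := i.2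
  have hj := j.2
  unfold adjOf
  rw [aOf_inCode, bOf_inCode, Nat.add_sub_cancel_left, eOf_inCode]
  have h1 : decide ((i : ℕ) < G.a) = true := decide_eq_true hi
  have h2 : decide (G.a ≤ G.a + j) = true := decide_eq_true (by omega)
  have h3 : decide (G.a + (j : ℕ) < G.a + G.b) = true := decide_eq_true (by omega)
  have h4 : decide (G.a + (j : ℕ) < G.a) = false := decide_eq_false (by omega)
  rw [h1, h2, h3, h4]
  simp

theorem adjOf_num (G : BGraph) (t : ℕ) (x y : Fin G.a ⊕ Fin G.b) :
    adjOf (inCode G t) (num G x) (num G y) = true ↔ G.graph.Adj x y := by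
  rcases x with i | j <;> rcases y with i' | j'
  · refine iff_of_false (fun h => ?_) (fun h => h)
    have h2 := adjOf_bip h
    rw [aOf_inCode, bOf_inCode] at h2
    have := i.2
    have := i'.2
    simp only [num] at h2
    omega
  · simp only [num]
    rw [adjOf_lr]
    rfl
  · simp only [num]
    rw [adjOf_symm, adjOf_lr]
    rfl
  · refine iff_of_false (fun h => ?_) (fun h => h)
    have h2 := adjOf_bip h
    rw [aOf_inCode, bOf_inCode] at h2
    simp only [num] at h2
    omega

theorem num_injective (G : BGraph) : Function.Injective (num G) := by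
  intro x y h
  rcases x with i | j <;> rcases y with i' | j' <;> simp only [num] at h
  · rw [Fin.ext h]
  · have := i.2; omega
  · have := i'.2; omega
  · congr 1; exact Fin.ext (by omega)

theorem num_range (G : BGraph) (u : ℕ) : u < G.a + G.b ↔ ∃ x, num G x = u := by
  constructor
  · intro h
    rcases lt_or_ge u G.a with h1 | h1
    · exact ⟨.inl ⟨u, h1⟩, rfl⟩
    · exact ⟨.inr ⟨u - G.a, by omega⟩, by simp only [num]; omega⟩
  · rintro ⟨x, rfl⟩
    rcases x with i | j <;> simp only [num]
    · have := i.2; omega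
    · have := j.2; omega

/-- The two counts agree. -/
theorem ind_eq_numIndep (G : BGraph) (t : ℕ) :
    ind (adjOf (inCode G t)) (Finset.range (G.a + G.b)) = numIndep G.graph := by
  obtain ⟨T, hT⟩ : ∃ T, T = (Finset.range (G.a + G.b)).powerset.filter
    (fun I => ∀ u ∈ I, ∀ v ∈ I, adjOf (inCode G t) u v = false) := ⟨_, rfl⟩
  have h0 : ind (adjOf (inCode G t)) (Finset.range (G.a + G.b)) = Nat.card T := by
    rw [Nat.card_eq_fintype_card, Fintype.card_coe, hT]
    rfl
  have hmemT : ∀ I, I ∈ T ↔ I ⊆ Finset.range (G.a + G.b) ∧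
      ∀ u ∈ I, ∀ v ∈ I, adjOf (inCode G t) u v = false := by
    intro I
    rw [hT, Finset.mem_filter, Finset.mem_powerset]
  rw [h0]
  unfold numIndep
  have key : ∀ I : Finset ℕ, I ∈ T → G.graph.IsIndepSet (num G ⁻¹' (I : Set ℕ)) := by
    intro I hI x hx y hy _ h
    have h1 := ((hmemT I).1 hI).2 (num G x) (by simpa using hx) (num G y) (by simpa using hy)
    rw [← adjOf_num G t, h1] at h
    exact absurd h (by simp)
  refine Nat.card_congr (Equiv.ofBijective
    (fun I : T => (⟨num G ⁻¹' (I.1 : Set ℕ), key I.1 I.2⟩ : {I : Set _ // G.graph.IsIndepSet I}))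
    ⟨?_, ?_⟩)
  · rintro ⟨I, hI⟩ ⟨J, hJ⟩ h
    rw [hmemT] at hI hJ
    simp only [Subtype.mk.injEq] at h
    apply Subtype.ext
    ext u
    simp only
    constructor
    · intro hu
      obtain ⟨x, rfl⟩ := (num_range G u).1 (Finset.mem_range.1 (hI.1 hu))
      have : x ∈ num G ⁻¹' (I : Set ℕ) := hu
      rw [h] at this
      exact this
    · intro hu
      obtain ⟨x, rfl⟩ := (num_range G u).1 (Finset.mem_range.1 (hJ.1 hu))
      have : x ∈ num G ⁻¹' (J : Set ℕ) := hu
      rw [← h] at this
      exact this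
  · rintro ⟨J, hJ⟩
    have hmem : ∀ x, num G x ∈ Finset.image (num G) J.toFinite.toFinset ↔ x ∈ J := by
      intro x
      rw [Finset.mem_image]
      constructor
      · rintro ⟨y, hy, hxy⟩
        rw [num_injective G hxy] at hy
        simpa using hy
      · intro hx
        exact ⟨x, by simpa using hx, rfl⟩
    refine ⟨⟨Finset.image (num G) J.toFinite.toFinset, ?_⟩, ?_⟩
    · rw [hmemT]
      constructor
      · intro u hu
        obtain ⟨x, _, rfl⟩ := Finset.mem_image.1 hu
        exact Finset.mem_range.2 ((num_range G _).2 ⟨x, rfl⟩)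
      · intro u hu v hv
        obtain ⟨x, hx, rfl⟩ := Finset.mem_image.1 hu
        obtain ⟨y, hy, rfl⟩ := Finset.mem_image.1 hv
        by_contra h
        rw [Bool.not_eq_false, adjOf_num] at h
        have hx' : x ∈ J := by simpa using hx
        have hy' : y ∈ J := by simpa using hy
        exact hJ hx' hy' (G.graph.ne_of_adj h) h
    · apply Subtype.ext
      ext x
      simp only [Set.mem_preimage]
      exact hmem x

end Pool.Agent.Lib.Pa7c826
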