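import Pool.Agent.Lib.Pa7c826.SimMain
import Pool.Agent.Lib.Pa7c826.Decode

/-!
Transfer of approximation schemes along approximation-preserving reductions.
-/

namespace Pool.Agent.Lib.Pa7c826

open Pool.Agent.Lib.PolyTime

/-! ### More closure properties -/

section

variable {α : Type*} {D : α → Prop} {ctx : List (α → List Bool)}

/-- It suffices to treat the subtype of the domain. -/
theorem PolyC.of_subtype {t : α → List Bool}
    (h : PolyC (fun _ : {a // D a} => True) (ctx.map fun f => fun a => f a.1) (fun a => t a.1)) :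
    PolyC D ctx t := by
  obtain ⟨P, p, hP⟩ := h
  refine ⟨P, p, fun a ha => ?_⟩
  have := hP ⟨a, ha⟩ trivial
  have e : vals (ctx.map fun f => fun a : {a // D a} => f a.1) ⟨a, ha⟩ = vals ctx a := by
    simp [vals]
  rw [e] at this
  exact this

theorem PolyC.take {t : α → List Bool} {k : α → ℕ} (ht : PolyC D ctx t) (hk : PolyN D ctx k) :
    PolyC D ctx (fun a => (t a).take (k a)) :=
  (PolyC.reverse (PolyC.drop (PolyC.reverse ht) (PolyN.sub (PolyN.length ht) hk))).congr
    (fun a _ => by
      rw [← List.reverse_take, List.reverse_reverse])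

theorem PolyN.polyEval {f : α → ℕ} (hf : PolyN D ctx f) (p : Polynomial ℕ) :
    PolyN D ctx (fun a => p.eval (f a)) := by
  induction p using Polynomial.induction_on' with
  | add p q hp hq => exact (hp.add hq).congr (fun a _ => by rw [Polynomial.eval_add])
  | monomial n c =>
    exact ((PolyN.const c).mul (PolyN.pow hf n)).congr (fun a _ => by
      rw [Polynomial.eval_monomial])

theorem PolyN.div {f g : α → ℕ} (hf : PolyN D ctx f) (hg : PolyN D ctx g)
    (hpos : ∀ a, D a → 0 < g a) : PolyN D ctx (fun a => f a / g a) := by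
  have F := upN (n := f) hf
  have G := upN (n := f) hg
  have L := last (D := D) (ctx := ctx) (n := f)
  have h := PolyN.count (φ := fun p : α × ℕ => decide ((p.2 + 1) * g p.1 ≤ f p.1)) hf
    (PolyB.le (L.succ.mul G) F)
  refine h.congr (fun a ha => ?_)
  have e : (Finset.range (f a)).filter (fun i => decide ((i + 1) * g a ≤ f a) = true) =
      Finset.range (f a / g a) := by
    ext i
    simp only [Finset.mem_filter, Finset.mem_range, decide_eq_true_eq]
    rw [← Nat.le_div_iff_mul_le (hpos a ha)]
    constructor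
    · rintro ⟨_, h⟩; omega
    · intro h
      have := Nat.div_le_self (f a) (g a)
      exact ⟨by omega, by omega⟩
  rw [e, Finset.card_range]

theorem PolyN.mod {f g : α → ℕ} (hf : PolyN D ctx f) (hg : PolyN D ctx g)
    (hpos : ∀ a, D a → 0 < g a) : PolyN D ctx (fun a => f a % g a) :=
  (PolyN.sub hf (hg.mul (PolyN.div hf hg hpos))).congr (fun a _ => by
    have := Nat.div_add_mod (f a) (g a)
    omega)

end

/-- Applying a function computed by a Mathlib machine. -/
theorem PolyC.applyTM2 {γ : Type} {D : γ → Prop} {ctx : List (γ → List Bool)} {α β : Type}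
    {ea : α → List Bool} {eb : β → List Bool} {f : α → β}
    (h : Nonempty (Turing.TM2ComputableInPolyTime (αΓ := Bool) (βΓ := Bool) ea eb f))
    (x : γ → List Bool) (y : γ → List Bool) (hx : PolyC D ctx x)
    (hxy : ∀ c, D c → ∃ a, ea a = x c ∧ eb (f a) = y c) : PolyC D ctx y := by
  classical
  have h1 := polyC_of_TM2 ea eb f h
  refine PolyC.of_subtype ?_
  choose π hπ1 hπ2 using hxy
  have h2 := h1.reindex (β := {c // D c}) (D' := fun _ => True) (fun c => π c.1 c.2)
    (fun _ _ => trivial)
  have h3 : PolyC (fun _ : {c // D c} => True) [fun c => x c.1] (fun c => y c.1) := by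
    refine (h2.changeCtx ?_).congr (fun c _ => hπ2 c.1 c.2)
    intro f hf
    simp only [List.map_cons, List.map_nil, List.mem_singleton] at hf
    subst hf
    exact ⟨_, by simp, fun c _ => (hπ1 c.1 c.2).symm⟩
  refine h3.comp ?_
  intro f hf
  rw [List.mem_singleton] at hf
  subst hf
  have := hx.reindex (β := {c // D c}) (D' := fun _ => True) (fun c => c.1) (fun c _ => c.2)
  exact this

/-! ### Building input strings -/

/-- The string coding the bipartite graph with the given adjacency function. -/
def mkGraph (a b : ℕ) (F : ℕ → ℕ → Bool) : BGraph := ⟨a, b, fun i j => F i j⟩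

theorem ofFn_divMod (a b : ℕ) (F : ℕ → ℕ → Bool) :
    (List.ofFn fun k : Fin (a * b) => F (k.divNat : ℕ) (k.modNat : ℕ)) =
      (List.range (a * b)).map (fun k => F (k / b) (k % b)) := by
  apply List.ext_getElem
  · simp
  · intro i h1 h2
    simp [Fin.coe_divNat, Fin.coe_modNat]

theorem poly_inCode {α : Type*} {D : α → Prop} {ctx : List (α → List Bool)} {a b t : α → ℕ}
    {F : α → ℕ → ℕ → Bool} (ha : PolyN D ctx a) (hb : PolyN D ctx b) (ht : PolyN D ctx t)
    (hF : PolyB (fun q : (α × ℕ) × ℕ => (D q.1.1 ∧ q.1.2 < a q.1.1) ∧ q.2 < b q.1.1)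
      (PolyTime.lift (PolyTime.lift ctx ++ [fun p : α × ℕ => un p.2]) ++ [fun q => un q.2])
      (fun q => F q.1.1 q.1.2 q.2)) :
    PolyC D ctx (fun x => inCode (mkGraph (a x) (b x) (F x)) (t x)) := by
  have hpos : ∀ p : α × ℕ, (D p.1 ∧ p.2 < a p.1 * b p.1) → 0 < b p.1 := by
    rintro p ⟨_, h⟩
    rcases Nat.eq_zero_or_pos (b p.1) with h0 | h0
    · rw [h0] at h; omega
    · exact h0
  have B := upN (n := fun x => a x * b x) hb
  have L := last (D := D) (ctx := ctx) (n := fun x => a x * b x)
  have Q1 := PolyN.div L B hpos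
  have Q2 := PolyN.mod L B hpos
  -- substitute quotient and remainder
  have h1 : PolyB (fun p : α × ℕ => D p.1 ∧ p.2 < a p.1 * b p.1)
      (PolyTime.lift ctx ++ [fun p => un p.2]) (fun p => F p.1 (p.2 / b p.1) (p.2 % b p.1)) := by
    have h2 := hF.reindex (β := α × ℕ) (D' := fun p => D p.1 ∧ p.2 < a p.1 * b p.1)
      (fun p => ((p.1, p.2 / b p.1), p.2 % b p.1)) (by
        rintro p hp
        have hb0 := hpos p hp
        refine ⟨⟨hp.1, ?_⟩, Nat.mod_lt _ hb0⟩
        simp only
        rw [Nat.div_lt_iff_lt_mul hb0]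
        exact hp.2)
    refine PolyC.comp h2 ?_
    intro f hf
    simp only [PolyTime.lift, List.map_append, List.map_map, List.map_cons, List.map_nil,
      List.mem_append, List.mem_map, List.mem_cons, List.not_mem_nil, or_false] at hf
    rcases hf with (⟨g, hg, rfl⟩ | rfl) | rfl
    · exact PolyC.var (by
        simp only [PolyTime.lift, List.mem_append, List.mem_map]
        exact Or.inl ⟨g, hg, rfl⟩)
    · exact Q1
    · exact Q2
  have h3 := PolyC.map_range (φ := fun p : α × ℕ => F p.1 (p.2 / b p.1) (p.2 % b p.1))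
    (ha.mul hb) h1
  have h4 : PolyC D ctx (fun x => un (t x) ++ false :: (un (a x) ++ false :: (un (b x) ++
      false :: (List.range (a x * b x)).map (fun k => F x (k / b x) (k % b x))))) :=
    PolyC.append ht (PolyC.cons false (PolyC.append ha (PolyC.cons false
      (PolyC.append hb (PolyC.cons false h3)))))
  refine h4.congr (fun x _ => ?_)
  rw [← ofFn_divMod]
  rfl

/-! ### The transfer theorem -/

theorem inCode_length (G : BGraph) (t : ℕ) :
    (inCode G t).length = t + (G.a + (G.b + G.a * G.b)) + 3 := by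
  rw [inCode_eq]
  simp only [List.length_append, un_length, List.length_cons, List.length_ofFn]
  omega

/-- length of the coded input read off a longer string -/
def lenOf (w : List Bool) : ℕ := tOf w + (aOf w + (bOf w + aOf w * bOf w)) + 3

theorem tOf_append (G : BGraph) (t : ℕ) (r : List Bool) : tOf (inCode G t ++ r) = t := by
  rw [inCode_eq, List.append_assoc, List.cons_append, tOf, takeWhile_un, un_length]

theorem aOf_append (G : BGraph) (t : ℕ) (r : List Bool) : aOf (inCode G t ++ r) = G.a := by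
  rw [inCode_eq, List.append_assoc, List.cons_append, List.append_assoc, List.cons_append, aOf,
    afterTrue_un, takeWhile_un, un_length]

theorem bOf_append (G : BGraph) (t : ℕ) (r : List Bool) : bOf (inCode G t ++ r) = G.b := by
  rw [inCode_eq, List.append_assoc, List.cons_append, List.append_assoc, List.cons_append,
    List.append_assoc, List.cons_append, bOf, afterTrue_un, afterTrue_un, takeWhile_un, un_length]

theorem lenOf_append (G : BGraph) (t : ℕ) (r : List Bool) :
    lenOf (inCode G t ++ r) = (inCode G t).length := by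
  rw [lenOf, tOf_append, aOf_append, bOf_append, inCode_length]

theorem outVal_replicate (K : ℕ) (o : List Bool) :
    outVal (List.replicate K true ++ o) = outVal o / 2 ^ K := by
  induction K with
  | zero => simp
  | succ K ih =>
    rw [List.replicate_succ, List.cons_append, outVal, ih, pow_succ]
    ring

/-- Counting random strings through a prefix. -/
theorem card_prefix (m j : ℕ) (Q : List Bool → Prop) :
    Nat.card {r : Fin (m + j) → Bool // Q ((List.ofFn r).take m)} =
      Nat.card {r : Fin m → Bool // Q (List.ofFn r)} * 2 ^ j := by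
  have e : {r : Fin (m + j) → Bool // Q ((List.ofFn r).take m)} ≃
      {p : (Fin m → Bool) × (Fin j → Bool) // Q (List.ofFn p.1)} := by
    refine (Equiv.subtypeEquiv (Fin.appendEquiv m j) ?_).symm
    rintro ⟨u, v⟩
    simp only [Fin.appendEquiv, Equiv.coe_fn_mk]
    rw [List.ofFn_fin_append, List.take_left' (by simp)]
  have e2 : {p : (Fin m → Bool) × (Fin j → Bool) // Q (List.ofFn p.1)} ≃
      {r : Fin m → Bool // Q (List.ofFn r)} × (Fin j → Bool) :=
    { toFun := fun p => (⟨p.1.1, p.2⟩, p.1.2)
      invFun := fun q => ⟨(q.1.1, q.2), q.1.2⟩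
      left_inv := fun _ => rfl
      right_inv := fun _ => rfl }
  rw [Nat.card_congr (e.trans e2), Nat.card_prod]
  congr 1
  simp

theorem Good.transfer {G G' : BGraph} {t : ℕ} {K : ℕ} {o : List Bool} (ht : 1 ≤ t)
    (h : Good G' (2 * t) o)
    (h1 : (numIndep G.graph : ℚ) ≤ numIndep G'.graph / 2 ^ K)
    (h2 : (numIndep G'.graph : ℚ) / 2 ^ K ≤ numIndep G.graph + numIndep G.graph / (2 * t + 1)) :
    Good G t (List.replicate K true ++ o) := by
  unfold Good at *
  rw [outVal_replicate]
  have htq : (1 : ℚ) ≤ t := by exact_mod_cast ht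
  set x : ℚ := (numIndep G.graph : ℚ) with hx
  set y : ℚ := (numIndep G'.graph : ℚ) / 2 ^ K with hy
  have hx0 : 0 ≤ x := by rw [hx]; positivity
  have hK : (0 : ℚ) < 2 ^ K := by positivity
  have h3 : |outVal o / 2 ^ K - y| ≤ y / (2 * t) := by
    have e : outVal o / 2 ^ K - y = (outVal o - numIndep G'.graph) / 2 ^ K := by
      rw [hy]; ring
    rw [e, abs_div, abs_of_pos hK, hy]
    calc |outVal o - (numIndep G'.graph : ℚ)| / 2 ^ K
        ≤ ((numIndep G'.graph : ℚ) / ((2 * t : ℕ) : ℚ)) / 2 ^ K :=
          div_le_div_of_nonneg_right h hK.le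
      _ = (numIndep G'.graph : ℚ) / 2 ^ K / (2 * t) := by
          push_cast
          ring
  have h4 : |outVal o / 2 ^ K - x| ≤ |outVal o / 2 ^ K - y| + |y - x| := abs_sub_le _ _ _
  have h5 : |y - x| ≤ x / (2 * t + 1) := by
    rw [abs_of_nonneg (by linarith)]
    linarith
  have h6 : y / (2 * t) ≤ (x + x / (2 * t + 1)) / (2 * t) :=
    div_le_div_of_nonneg_right h2 (by linarith)
  have h7 : (x + x / (2 * t + 1)) / (2 * t) + x / (2 * t + 1) = x / t := by
    field_simp
    ring
  linarith

/-- **Transfer.** -/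
theorem HasFPRAS.transfer {C C' : BGraph → Prop} (red : BGraph → ℕ → BGraph)
    (K : BGraph → ℕ → ℕ)
    (hred : PolyC (fun x : BGraph × ℕ => C x.1 ∧ 1 ≤ x.2) [fun x => inCode x.1 x.2]
      (fun x => inCode (red x.1 x.2) (2 * x.2)))
    (hK : PolyN (fun x : BGraph × ℕ => C x.1 ∧ 1 ≤ x.2) [fun x => inCode x.1 x.2]
      (fun x => K x.1 x.2))
    (hC : ∀ G t, C G → 1 ≤ t → C' (red G t))
    (h1 : ∀ G t, C G → 1 ≤ t →
      (numIndep G.graph : ℚ) ≤ numIndep (red G t).graph / 2 ^ K G t)
    (h2 : ∀ G t, C G → 1 ≤ t → (numIndep (red G t).graph : ℚ) / 2 ^ K G t ≤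
      numIndep G.graph + numIndep G.graph / (2 * t + 1))
    (h : HasFPRAS C') : HasFPRAS C := by
  obtain ⟨m', f', hf', hgood⟩ := h
  obtain ⟨pr, hpr⟩ := hred.length_le
  let M' : BGraph → ℕ → ℕ := fun G t => m'.eval (inCode (red G t) (2 * t)).length
  let m : Polynomial ℕ := m'.comp pr
  have hM : ∀ G t, C G → 1 ≤ t → M' G t ≤ m.eval (inCode G t).length := by
    intro G t hG ht
    have h3 := hpr (G, t) ⟨hG, ht⟩
    simp only [vals_cons, vals_nil, total_cons, total_nil, Nat.add_zero] at h3
    simp only [M', m, Polynomial.eval_comp]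
    exact eval_mono _ h3
  let f : BGraph → ℕ → List Bool → List Bool := fun G t r =>
    List.replicate (K G t) true ++ f' (red G t) (2 * t) (r.take (M' G t))
  refine ⟨m, f, ?_, ?_⟩
  · -- the machine
    let D : BGraph × ℕ × List Bool → Prop := fun x =>
      C x.1 ∧ 1 ≤ x.2.1 ∧ x.2.2.length = m.eval (inCode x.1 x.2.1).length
    let enc : BGraph × ℕ × List Bool → List Bool := fun x => inCode x.1 x.2.1 ++ x.2.2
    have hw : PolyC D [enc] enc := PolyC.var (by simp)
    have hlen : PolyN D [enc] (fun x => (inCode x.1 x.2.1).length) :=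
      (((poly_tOf hw).add ((poly_aOf hw).add ((poly_bOf hw).add
        ((poly_aOf hw).mul (poly_bOf hw))))).add (PolyN.const 3)).congr (fun x _ =>
          lenOf_append x.1 x.2.1 x.2.2)
    have hpre : PolyC D [enc] (fun x => inCode x.1 x.2.1) :=
      (PolyC.take hw hlen).congr (fun x _ => List.take_left)
    have hsuf : PolyC D [enc] (fun x => x.2.2) :=
      (PolyC.drop hw hlen).congr (fun x _ => List.drop_left)
    have hsub : ∀ {t : BGraph × ℕ → List Bool},
        PolyC (fun x : BGraph × ℕ => C x.1 ∧ 1 ≤ x.2) [fun x => inCode x.1 x.2] t →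
        PolyC D [enc] (fun x => t (x.1, x.2.1)) := by
      intro t ht
      have h3 := ht.reindex (β := BGraph × ℕ × List Bool) (D' := D) (fun x => (x.1, x.2.1))
        (fun x hx => ⟨hx.1, hx.2.1⟩)
      refine h3.comp ?_
      intro g hg
      simp only [List.map_cons, List.map_nil, List.mem_singleton] at hg
      subst hg
      exact hpre
    have hred' : PolyC D [enc] (fun x => inCode (red x.1 x.2.1) (2 * x.2.1)) := hsub hred
    have hK' : PolyN D [enc] (fun x => K x.1 x.2.1) := hsub hK
    have hM' : PolyN D [enc] (fun x => M' x.1 x.2.1) :=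
      PolyN.polyEval (PolyN.length hred') m'
    have hin : PolyC D [enc] (fun x => inCode (red x.1 x.2.1) (2 * x.2.1) ++
        x.2.2.take (M' x.1 x.2.1)) := hred'.append (PolyC.take hsuf hM')
    have hcall : PolyC D [enc] (fun x => f' (red x.1 x.2.1) (2 * x.2.1)
        (x.2.2.take (M' x.1 x.2.1))) := by
      refine PolyC.applyTM2 hf' _ _ hin ?_
      rintro ⟨G, t, r⟩ ⟨hG, ht, hr⟩
      refine ⟨⟨(red G t, 2 * t, r.take (M' G t)), hC G t hG ht, ?_, ?_⟩, rfl, rfl⟩
      · have ht' : 1 ≤ t := ht
        show 1 ≤ 2 * t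
        omega
      · show (r.take (M' G t)).length = M' G t
        have hr' : r.length = m.eval (inCode G t).length := hr
        rw [List.length_take, hr', min_eq_left (hM G t hG ht)]
    have hout : PolyC D [enc] (fun x => f x.1 x.2.1 x.2.2) :=
      PolyC.append hK' hcall
    exact PolyC.toTM2 enc (fun x => f x.1 x.2.1 x.2.2) id hout
  · intro G t hG ht
    obtain ⟨j, hj⟩ := Nat.exists_eq_add_of_le (hM G t hG ht)
    rw [hj]
    have h3 := hgood (red G t) (2 * t) (hC G t hG ht) (by omega)
    have h4 : Nat.card {r : Fin (M' G t + j) → Bool //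
        Good (red G t) (2 * t) (f' (red G t) (2 * t) ((List.ofFn r).take (M' G t)))} ≤
        Nat.card {r : Fin (M' G t + j) → Bool // Good G t (f G t (List.ofFn r))} := by
      refine Nat.card_le_card_of_injective (fun r => ⟨r.1, ?_⟩) ?_
      · exact Good.transfer ht r.2 (h1 G t hG ht) (h2 G t hG ht)
      · intro r r' hrr
        simp only [Subtype.mk.injEq] at hrr
        exact Subtype.ext hrr
    rw [card_prefix (M' G t) j (fun s => Good (red G t) (2 * t) (f' (red G t) (2 * t) s))] at h4
    have h5 : 3 * 2 ^ M' G t ≤ 4 * Nat.card {r : Fin (M' G t) → Bool //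
        Good (red G t) (2 * t) (f' (red G t) (2 * t) (List.ofFn r))} := h3
    calc 3 * 2 ^ (M' G t + j) = (3 * 2 ^ M' G t) * 2 ^ j := by rw [pow_add]; ring
      _ ≤ (4 * Nat.card {r : Fin (M' G t) → Bool //
        Good (red G t) (2 * t) (f' (red G t) (2 * t) (List.ofFn r))}) * 2 ^ j :=
          Nat.mul_le_mul_right _ h5
      _ = 4 * (Nat.card {r : Fin (M' G t) → Bool //
        Good (red G t) (2 * t) (f' (red G t) (2 * t) (List.ofFn r))} * 2 ^ j) := by ring
      _ ≤ _ := Nat.mul_le_mul_left _ h4

/-- Restricting a scheme to a smaller class. -/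
theorem HasFPRAS.mono {C C' : BGraph → Prop} (hC : ∀ G, C G → C' G) (h : HasFPRAS C') :
    HasFPRAS C := by
  obtain ⟨m, f, ⟨⟨⟨tm, e0, e1⟩, time, hout⟩⟩, hgood⟩ := h
  refine ⟨m, f, ⟨⟨⟨tm, e0, e1⟩, time, fun x => ?_⟩⟩, fun G t hG ht => hgood G t (hC G hG) ht⟩
  exact hout ⟨x.1, hC _ x.2.1, x.2.2⟩

end Pool.Agent.Lib.Pa7c826
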