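import Pool.Agent.Lib.Pa7c826.Leaf

/-!
The approximation guarantee on graphs with supersaturated independence number, and dense
almost regular bipartite graphs.
-/

namespace Pool.Agent.Lib.Pa7c826

open Finset

/-- threshold of the algorithm -/
def thr (c k n t : ℕ) : ℕ := ((t * (n + 1) ^ (10 * c) * (n + 1) ^ k) ^ 5) ^ 2

theorem approx_main {n : ℕ} {adj : ℕ → ℕ → Bool} (hs : ∀ u v, adj u v = adj v u)
    (hl : ∀ u, adj u u = false) (hn : 0 < n) {c A k t : ℕ} (hc : 1 ≤ c) (ht : 1 ≤ t)
    (hss : SuperSat n adj c A) (hA : 2 ^ A ≤ (n + 1) ^ k * ind adj (range n)) :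
    count n (10 * c) adj (leaf n adj (thr c k n t)) (10 * c) (range n) ≤ ind adj (range n) ∧
    t * ind adj (range n) ≤
      t * count n (10 * c) adj (leaf n adj (thr c k n t)) (10 * c) (range n) +
        ind adj (range n) := by
  set q := t * (n + 1) ^ (10 * c) * (n + 1) ^ k with hq
  have hqpos : 0 < q := by positivity
  set δ := 2 ^ A / q with hδ
  have key := count_bounds (n := n) (g := 10 * c) (adj := adj) hs hl (by omega)
    (leaf n adj (thr c k n t)) δ (fun S hS => leaf_le hs hl hS _) (by
      intro S hS hlight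
      rcases le_or_gt (2 ^ (cov n adj S).card) (thr c k n t) with h | h
      · rw [leaf_small hs hl hS h]; exact Nat.le_add_right _ _
      · have h1 := leaf_error (q := q) hs hl hn hss hS hlight (by
          unfold thr at h
          exact h)
        have h2 : ind adj S ≤ δ := by
          rw [hδ, Nat.le_div_iff_mul_le hqpos]
          exact h1
        exact h2.trans (Nat.le_add_left _ _)) (10 * c) (range n) subset_rfl (by rw [card_range]) hn
  refine ⟨key.1, ?_⟩
  have h1 := Nat.mul_le_mul_left t key.2
  have h2 : (n + 1) ^ k * (t * ((n + 1) ^ (10 * c) * δ)) ≤ (n + 1) ^ k * ind adj (range n) := by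
    calc (n + 1) ^ k * (t * ((n + 1) ^ (10 * c) * δ)) = q * δ := by rw [hq]; ring
      _ ≤ 2 ^ A := Nat.mul_div_le _ _
      _ ≤ _ := hA
  have h3 := Nat.le_of_mul_le_mul_left h2 (by positivity)
  rw [Nat.mul_add] at h1
  omega

/-! ### Bipartite graphs on `{0, …, n - 1}` with sides given by a predicate -/

section bipartite

variable {n : ℕ} {adj : ℕ → ℕ → Bool}

theorem superSat_of_degrees (hs : ∀ u v, adj u v = adj v u) (p : ℕ → Prop) [DecidablePred p]
    {c D s : ℕ} (hbip : ∀ u v, adj u v = true → v < n ∧ (p u ↔ ¬ p v))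
    (hD : n ≤ c * D)
    (hrow : ∀ u, u < n → p u → D ≤ dg adj (range n) u)
    (hcol : ∀ v, v < n → ¬ p v → dg adj (range n) v ≤ D + s) :
    SuperSat n adj c (((range n).filter (fun v => ¬ p v)).card + c * s) := by
  intro S hS
  set β := ((range n).filter (fun v => ¬ p v)).card with hβ
  have hβn : β ≤ n := (card_filter_le _ _).trans (by rw [card_range])
  set X := S.filter (fun u => p u) with hX
  set Y := S.filter (fun u => ¬ p u) with hY
  set Bc := (range n).filter (fun v => ¬ p v ∧ v ∉ S) with hBc
  have hcard : X.card + Y.card = S.card := card_filter_add_card_filter_not _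
  have hSum : ∑ v ∈ S, dg adj S v = ∑ v ∈ X, dg adj S v + ∑ v ∈ Y, dg adj S v :=
    (sum_filter_add_sum_filter_not _ _ _).symm
  -- degrees of vertices in X
  have hXdeg : ∀ u ∈ X, dg adj (range n) u = dg adj S u + dg adj Bc u := by
    intro u hu
    have hua : p u := (mem_filter.1 hu).2
    unfold dg
    rw [← card_union_of_disjoint]
    · congr 1
      ext v
      simp only [mem_filter, mem_union, hBc, mem_range]
      constructor
      · rintro ⟨h1, h2⟩
        have h3 : ¬ p v := (hbip u v h2).2.1 hua
        by_cases h4 : v ∈ S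
        · exact Or.inl ⟨h4, h2⟩
        · exact Or.inr ⟨⟨h1, h3, h4⟩, h2⟩
      · rintro (⟨h1, h2⟩ | ⟨⟨h1, _, _⟩, h2⟩)
        · exact ⟨mem_range.1 (hS h1), h2⟩
        · exact ⟨h1, h2⟩
    · rw [disjoint_left]
      intro v hv hv'
      simp only [mem_filter, hBc] at hv hv'
      exact hv'.1.2.2 hv.1
  -- double counting
  have hdc : ∀ P Q : Finset ℕ, ∑ u ∈ P, dg adj Q u = ∑ v ∈ Q, dg adj P v := by
    intro P Q
    have := sum_card_bipartiteAbove_eq_sum_card_bipartiteBelow (s := P) (t := Q)
      (fun v w => adj v w = true)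
    unfold bipartiteAbove bipartiteBelow at this
    unfold dg
    rw [this]
    refine sum_congr rfl fun w _ => ?_
    congr 1
    ext u
    simp only [mem_filter]
    rw [hs]
  have hmono : ∀ {P Q : Finset ℕ} (u : ℕ), P ⊆ Q → dg adj P u ≤ dg adj Q u := by
    intro P Q u h
    exact card_le_card (filter_subset_filter _ h)
  -- edges from X to Bc
  have hBdeg : ∑ u ∈ X, dg adj Bc u ≤ (D + s) * Bc.card := by
    rw [hdc X Bc, mul_comm, ← smul_eq_mul, ← sum_const]
    refine sum_le_sum fun v hv => ?_
    simp only [hBc, mem_filter, mem_range] at hv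
    refine (hmono v ?_).trans (hcol v hv.1 hv.2.1)
    exact (filter_subset _ _).trans hS
  have hBcard : Bc.card + Y.card ≤ β := by
    rw [← card_union_of_disjoint]
    · have : Bc ∪ Y ⊆ (range n).filter (fun v => ¬ p v) := by
        intro v hv
        rw [mem_union] at hv
        rw [mem_filter]
        rcases hv with hv | hv
        · simp only [hBc, mem_filter] at hv
          exact ⟨hv.1, hv.2.1⟩
        · rw [hY, mem_filter] at hv
          exact ⟨hS hv.1, hv.2⟩
      exact card_le_card this
    · rw [disjoint_left]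
      intro v hv hv'
      simp only [hBc, hY, mem_filter] at hv hv'
      exact hv.2.2 hv'.1
  -- edges inside S
  have hXS : ∑ u ∈ X, dg adj S u ≤ ∑ v ∈ Y, dg adj S v := by
    have h1 : ∑ u ∈ X, dg adj S u = ∑ u ∈ X, dg adj Y u := by
      refine sum_congr rfl fun u hu => ?_
      have hua : p u := (mem_filter.1 hu).2
      unfold dg
      congr 1
      ext v
      simp only [mem_filter, hY]
      constructor
      · rintro ⟨h1, h2⟩
        exact ⟨⟨h1, (hbip u v h2).2.1 hua⟩, h2⟩
      · rintro ⟨⟨h1, _⟩, h2⟩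
        exact ⟨h1, h2⟩
    rw [h1, hdc X Y]
    exact sum_le_sum fun v _ => hmono v (filter_subset _ _)
  -- total degree of X
  have hXtot : D * X.card ≤ ∑ u ∈ X, dg adj S u + (D + s) * Bc.card := by
    calc D * X.card = ∑ u ∈ X, D := by rw [sum_const, smul_eq_mul, mul_comm]
      _ ≤ ∑ u ∈ X, dg adj (range n) u := by
          refine sum_le_sum fun u hu => hrow u ?_ (mem_filter.1 hu).2
          exact mem_range.1 (hS (mem_filter.1 hu).1)
      _ = ∑ u ∈ X, dg adj S u + ∑ u ∈ X, dg adj Bc u := by
          rw [← sum_add_distrib]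
          exact sum_congr rfl hXdeg
      _ ≤ _ := Nat.add_le_add_left hBdeg _
  set e := ∑ u ∈ X, dg adj S u with he
  have h2e : 2 * e ≤ ∑ v ∈ S, dg adj S v := by rw [hSum]; omega
  rcases le_or_gt S.card β with hle | hgt
  · calc 2 * n * S.card ≤ 2 * n * β := Nat.mul_le_mul_left _ hle
      _ ≤ 2 * n * (β + c * s) := Nat.mul_le_mul_left _ (Nat.le_add_right _ _)
      _ ≤ _ := Nat.le_add_right _ _
  · obtain ⟨m, hm⟩ : ∃ m, S.card = β + m := ⟨S.card - β, by omega⟩
    -- D * m ≤ e + s * n
    have h1 : D * m ≤ e + s * n := by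
      have h2 : X.card ≥ m + Bc.card := by omega
      have h3 : D * (m + Bc.card) ≤ D * X.card := Nat.mul_le_mul_left _ h2
      have h4 : (D + s) * Bc.card = D * Bc.card + s * Bc.card := Nat.add_mul _ _ _
      have h5 : s * Bc.card ≤ s * n := Nat.mul_le_mul_left _ (by omega)
      rw [Nat.mul_add] at h3
      omega
    have h6 : n * m ≤ c * (e + s * n) :=
      calc n * m ≤ (c * D) * m := Nat.mul_le_mul_right _ hD
        _ = c * (D * m) := by ring
        _ ≤ _ := Nat.mul_le_mul_left _ h1
    have h7 : c * (2 * e) ≤ c * ∑ v ∈ S, dg adj S v := Nat.mul_le_mul_left _ h2e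
    rw [hm]
    nlinarith

/-- lower bound from the subsets of one side -/
theorem two_pow_le_ind (p : ℕ → Prop) [DecidablePred p]
    (hbip : ∀ u v, adj u v = true → v < n ∧ (p u ↔ ¬ p v)) :
    2 ^ ((range n).filter (fun v => ¬ p v)).card ≤ ind adj (range n) := by
  have h2 : ((range n).filter (fun v => ¬ p v)).powerset ⊆
      (range n).powerset.filter (fun I => ∀ u ∈ I, ∀ v ∈ I, adj u v = false) := by
    intro I hI
    rw [mem_powerset] at hI
    rw [mem_filter, mem_powerset]
    refine ⟨hI.trans (filter_subset _ _), fun u hu v hv => ?_⟩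
    by_contra h
    rw [Bool.not_eq_false] at h
    have hu' := (mem_filter.1 (hI hu)).2
    have hv' := (mem_filter.1 (hI hv)).2
    exact hu' ((hbip u v h).2.2 hv')
  have h3 := card_le_card h2
  rw [card_powerset] at h3
  exact h3

end bipartite

end Pool.Agent.Lib.Pa7c826
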