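import Pool.Agent.Lib.Pa7c826.Decode
import Pool.Agent.Lib.Pa7c826.Approx

/-!
The deterministic approximation scheme.
-/

namespace Pool.Agent.Lib.Pa7c826

open Pool.Agent.Lib.PolyTime Finset

theorem binVal_eq_bval (l : List Bool) : binVal l = bval l := by
  induction l with
  | nil => rfl
  | cons b l ih => simp [binVal, bval, ih]

/-- the output of the algorithm as a number -/
def algo (c k : ℕ) (w : List Bool) : ℕ :=
  count (nOf w) (10 * c) (adjOf w) (leaf (nOf w) (adjOf w) (thr c k (nOf w) (tOf w))) (10 * c)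
    (range (nOf w))

theorem thr_upoly (c k : ℕ) : UPoly (fun w => thr c k (nOf w) (tOf w)) := by
  intro β D' ctx' w' hw
  have hn := poly_nOf hw
  have ht := poly_tOf hw
  exact PolyN.pow (PolyN.pow ((ht.mul (PolyN.pow hn.succ (10 * c))).mul (PolyN.pow hn.succ k)) 5) 2

theorem algo_poly (c k : ℕ) {α : Type} {D : α → Prop} {ctx : List (α → List Bool)}
    {w : α → List Bool} (hw : PolyC D ctx w) : PolyBin D ctx (fun a => algo c k (w a)) := by
  have hS : PolyS D ctx (fun a => nOf (w a)) (fun a => range (nOf (w a))) :=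
    PolyS.range (poly_nOf hw)
  have h := poly_count (10 * c) (K := fun w => thr c k (nOf w) (tOf w)) (thr_upoly c k)
    (10 * c) hw hS
  exact h

theorem count_zero_vertices (g K : ℕ) (adj : ℕ → ℕ → Bool) (hs : ∀ u v, adj u v = adj v u)
    (hl : ∀ u, adj u u = false) (hK : 1 ≤ K) (j : ℕ) :
    count 0 g adj (leaf 0 adj K) j ∅ = 1 := by
  have h1 : leaf 0 adj K ∅ = 1 := by
    rw [leaf_small hs hl (by simp) (by
      have : cov 0 adj ∅ = ∅ := by
        unfold cov
        simp
      rw [this]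
      simpa using hK), ind_empty]
  rcases j with _ | j
  · exact h1
  · unfold count
    simp only [range_zero, sum_empty, Function.iterate_zero, id_eq, Nat.zero_add]
    exact h1

theorem algo_spec {c k : ℕ} (hc : 1 ≤ c) (G : BGraph) {t : ℕ} (ht : 1 ≤ t)
    (h : 0 < G.a + G.b → ∃ A, SuperSat (G.a + G.b) (adjOf (inCode G t)) c A ∧
      2 ^ A ≤ (G.a + G.b + 1) ^ k * numIndep G.graph) :
    algo c k (inCode G t) ≤ numIndep G.graph ∧
      t * numIndep G.graph ≤ t * algo c k (inCode G t) + numIndep G.graph := by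
  unfold algo
  rw [nOf_inCode, tOf_inCode]
  rcases Nat.eq_zero_or_pos (G.a + G.b) with h0 | h0
  · have h1 : numIndep G.graph = 1 := by
      rw [← ind_eq_numIndep G t, h0, range_zero, ind_empty]
    rw [h0, range_zero, count_zero_vertices _ _ _ (adjOf_symm _) (adjOf_self _) (by
      unfold thr
      have : 0 < ((t * (0 + 1) ^ (10 * c) * (0 + 1) ^ k) ^ 5) ^ 2 := by positivity
      omega), h1]
    omega
  · obtain ⟨A, h1, h2⟩ := h h0
    rw [← ind_eq_numIndep G t] at h2 ⊢
    exact approx_main (adjOf_symm _) (adjOf_self _) h0 hc ht h1 h2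

theorem hasFPTAS_of_superSat {c k : ℕ} (hc : 1 ≤ c) {C : BGraph → Prop}
    (h : ∀ G t, C G → 0 < G.a + G.b → ∃ A, SuperSat (G.a + G.b) (adjOf (inCode G t)) c A ∧
      2 ^ A ≤ (G.a + G.b + 1) ^ k * numIndep G.graph) : HasFPTAS C := by
  let D : BGraph × ℕ → Prop := fun x => C x.1 ∧ 1 ≤ x.2
  let enc : BGraph × ℕ → List Bool := fun x => inCode x.1 x.2
  have hw : PolyC D [enc] enc := PolyC.var (by simp)
  obtain ⟨u, hu, hval⟩ := algo_poly c k hw
  have hout : PolyC D [enc] (fun x => false :: u x) := PolyC.cons false hu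
  refine ⟨fun x => false :: u x.1, PolyC.toTM2 enc (fun x => false :: u x) id hout, ?_⟩
  rintro ⟨⟨G, t⟩, hG, ht⟩
  have hG' : C G := hG
  have ht' : 1 ≤ t := ht
  have h1 := algo_spec (k := k) hc G ht' (h G t hG')
  have h2 : binVal (u (G, t)) = algo c k (inCode G t) := by
    rw [binVal_eq_bval]
    exact hval (G, t) ⟨hG, ht⟩
  unfold Good
  simp only [outVal, h2]
  have htq : (0 : ℚ) < t := by exact_mod_cast ht'
  have h3 : (algo c k (inCode G t) : ℚ) ≤ numIndep G.graph := by exact_mod_cast h1.1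
  have h4 : (t : ℚ) * numIndep G.graph ≤ t * algo c k (inCode G t) + numIndep G.graph := by
    exact_mod_cast h1.2
  rw [abs_sub_comm, abs_of_nonneg (by linarith), le_div_iff₀ htq]
  linarith

/-! ### Dense almost regular graphs -/

theorem dg_row (G : BGraph) (t : ℕ) (i : Fin G.a) :
    dg (adjOf (inCode G t)) (range (G.a + G.b)) i = G.rowDeg i := by
  unfold dg BGraph.rowDeg
  symm
  refine card_bij (fun j _ => G.a + (j : ℕ)) ?_ ?_ ?_
  · intro j hj
    simp only [mem_filter, mem_univ, true_and] at hj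
    rw [mem_filter, mem_range, adjOf_lr]
    exact ⟨by have := j.2; omega, hj⟩
  · intro j _ j' _ h
    exact Fin.ext (by omega)
  · intro v hv
    rw [mem_filter, mem_range] at hv
    have h2 := adjOf_bip hv.2
    rw [aOf_inCode, bOf_inCode] at h2
    have hi := i.2
    have hva : G.a ≤ v := by omega
    refine ⟨⟨v - G.a, by omega⟩, ?_, by simp only; omega⟩
    simp only [mem_filter, mem_univ, true_and]
    rw [← adjOf_lr G t]
    simp only
    rw [show G.a + (v - G.a) = v by omega]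
    exact hv.2

theorem dg_col (G : BGraph) (t : ℕ) (j : Fin G.b) :
    dg (adjOf (inCode G t)) (range (G.a + G.b)) (G.a + j) = G.colDeg j := by
  unfold dg BGraph.colDeg
  symm
  refine card_bij (fun i _ => (i : ℕ)) ?_ ?_ ?_
  · intro i hi
    simp only [mem_filter, mem_univ, true_and] at hi
    rw [mem_filter, mem_range, adjOf_symm, adjOf_lr]
    exact ⟨by have := i.2; omega, hi⟩
  · intro i _ i' _ h
    exact Fin.ext h
  · intro v hv
    rw [mem_filter, mem_range] at hv
    have h2 := adjOf_bip hv.2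
    rw [aOf_inCode, bOf_inCode] at h2
    have hj := j.2
    have hva : v < G.a := by omega
    refine ⟨⟨v, hva⟩, ?_, rfl⟩
    simp only [mem_filter, mem_univ, true_and]
    rw [← adjOf_lr G t, adjOf_symm]
    exact hv.2

theorem superSat_of_class {c : ℕ} (G : BGraph) (t : ℕ) {D : ℕ} (hD : G.a + G.b ≤ c * D)
    (h : ((∀ i, D ≤ G.rowDeg i) ∧ ∀ j, G.colDeg j ≤ D + c * Nat.log 2 (G.a + G.b)) ∨
      ((∀ j, D ≤ G.colDeg j) ∧ ∀ i, G.rowDeg i ≤ D + c * Nat.log 2 (G.a + G.b)))
    (hn : 0 < G.a + G.b) :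
    ∃ A, SuperSat (G.a + G.b) (adjOf (inCode G t)) c A ∧
      2 ^ A ≤ (G.a + G.b + 1) ^ (c * c) * numIndep G.graph := by
  have hbip0 : ∀ u v, adjOf (inCode G t) u v = true →
      (u < G.a ∧ G.a ≤ v ∧ v < G.a + G.b) ∨ (v < G.a ∧ G.a ≤ u ∧ u < G.a + G.b) := by
    intro u v h
    have h2 := adjOf_bip h
    rw [aOf_inCode, bOf_inCode] at h2
    exact h2
  have key : ∀ (p : ℕ → Prop) [DecidablePred p],
      (∀ u v, adjOf (inCode G t) u v = true → v < G.a + G.b ∧ (p u ↔ ¬ p v)) →
      (∀ u, u < G.a + G.b → p u → D ≤ dg (adjOf (inCode G t)) (range (G.a + G.b)) u) →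
      (∀ v, v < G.a + G.b → ¬ p v → dg (adjOf (inCode G t)) (range (G.a + G.b)) v ≤
        D + c * Nat.log 2 (G.a + G.b)) →
      ∃ A, SuperSat (G.a + G.b) (adjOf (inCode G t)) c A ∧
        2 ^ A ≤ (G.a + G.b + 1) ^ (c * c) * numIndep G.graph := by
    intro p _ hb h1 h2
    refine ⟨_, superSat_of_degrees (adjOf_symm _) p hb hD h1 h2, ?_⟩
    rw [pow_add, ← ind_eq_numIndep G t, mul_comm]
    refine Nat.mul_le_mul ?_ (two_pow_le_ind p hb)
    rw [← mul_assoc, mul_comm (c * c), pow_mul]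
    refine Nat.pow_le_pow_left ?_ _
    exact (Nat.pow_log_le_self 2 (by omega)).trans (Nat.le_succ _)
  have hr : ∀ u, u < G.a → ∃ i, dg (adjOf (inCode G t)) (range (G.a + G.b)) u = G.rowDeg i := by
    intro u hu
    exact ⟨⟨u, hu⟩, dg_row G t ⟨u, hu⟩⟩
  have hc : ∀ v, ¬ v < G.a → v < G.a + G.b →
      ∃ j, dg (adjOf (inCode G t)) (range (G.a + G.b)) v = G.colDeg j := by
    intro v hv1 hv2
    have := dg_col G t ⟨v - G.a, by omega⟩
    simp only at this
    rw [show G.a + (v - G.a) = v by omega] at this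
    exact ⟨_, this⟩
  rcases h with ⟨hrow, hcol⟩ | ⟨hcol, hrow⟩
  · refine key (fun u => u < G.a) ?_ ?_ ?_
    · intro u v huv
      rcases hbip0 u v huv with h | h
      · exact ⟨h.2.2, by omega⟩
      · exact ⟨by omega, by omega⟩
    · intro u _ hu
      obtain ⟨i, hi⟩ := hr u hu
      rw [hi]
      exact hrow i
    · intro v hv1 hv2
      obtain ⟨j, hj⟩ := hc v hv2 hv1
      rw [hj]
      exact hcol j
  · refine key (fun u => ¬ u < G.a) ?_ ?_ ?_
    · intro u v huv
      rcases hbip0 u v huv with h | h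
      · exact ⟨h.2.2, by omega⟩
      · exact ⟨by omega, by omega⟩
    · intro v hv1 hv2
      obtain ⟨j, hj⟩ := hc v hv2 hv1
      rw [hj]
      exact hcol j
    · intro u _ hu
      obtain ⟨i, hi⟩ := hr u (not_not.1 hu)
      rw [hi]
      exact hrow i

end Pool.Agent.Lib.Pa7c826
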