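import Pool.Agent.Lib.Pa7c826.Scheme

/-!
Regular bipartite graphs of large degree.
-/

namespace Pool.Agent.Lib.Pa7c826

/-- Regular bipartite graphs whose degree `d` and number of vertices `n = a + b` satisfy
`n ^ k ≤ d ^ (k + 1)`, that is, `d ≥ n ^ (k / (k + 1))`. -/
def RegularDense (k : ℕ) (G : BGraph) : Prop :=
  ∃ d, (∀ i, G.rowDeg i = d) ∧ (∀ j, G.colDeg j = d) ∧ (G.a + G.b) ^ k ≤ d ^ (k + 1)

end Pool.Agent.Lib.Pa7c826
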