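import Pool.Agent.Lib.Pa7c826.Transfer

/-!
Transfer of approximation schemes, two-sided version.
-/

namespace Pool.Agent.Lib.Pa7c826

open Pool.Agent.Lib.PolyTime

theorem Good.transfer2 {G G' : BGraph} {t : ℕ} {K : ℕ} {o : List Bool} (ht : 1 ≤ t)
    (h : Good G' (2 * t) o)
    (h5 : |(numIndep G'.graph : ℚ) / 2 ^ K - numIndep G.graph| ≤
      numIndep G.graph / (2 * t + 1)) :
    Good G t (List.replicate K true ++ o) := by
  unfold Good at *
  rw [outVal_replicate]
  have htq : (1 : ℚ) ≤ t := by exact_mod_cast ht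
  set x : ℚ := (numIndep G.graph : ℚ) with hx
  set y : ℚ := (numIndep G'.graph : ℚ) / 2 ^ K with hy
  have hx0 : 0 ≤ x := by rw [hx]; positivity
  have hK : (0 : ℚ) < 2 ^ K := by positivity
  have h3 : |outVal o / 2 ^ K - y| ≤ y / (2 * t) := by
    have e : outVal o / 2 ^ K - y = (outVal o - numIndep G'.graph) / 2 ^ K := by
      rw [hy]; ring
    rw [e, abs_div, abs_of_pos hK, hy]
    calc |outVal o - (numIndep G'.graph : ℚ)| / 2 ^ K
        ≤ ((numIndep G'.graph : ℚ) / ((2 * t : ℕ) : ℚ)) / 2 ^ K :=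
          div_le_div_of_nonneg_right h hK.le
      _ = (numIndep G'.graph : ℚ) / 2 ^ K / (2 * t) := by
          push_cast
          ring
  have h4 : |outVal o / 2 ^ K - x| ≤ |outVal o / 2 ^ K - y| + |y - x| := abs_sub_le _ _ _
  have h2 : y ≤ x + x / (2 * t + 1) := by
    have := (abs_le.1 h5).2
    linarith
  have h6 : y / (2 * t) ≤ (x + x / (2 * t + 1)) / (2 * t) :=
    div_le_div_of_nonneg_right h2 (by linarith)
  have h7 : (x + x / (2 * t + 1)) / (2 * t) + x / (2 * t + 1) = x / t := by
    field_simp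
    ring
  linarith

/-- **Transfer.** -/
theorem HasFPRAS.transfer2 {C C' : BGraph → Prop} (red : BGraph → ℕ → BGraph)
    (K : BGraph → ℕ → ℕ)
    (hred : PolyC (fun x : BGraph × ℕ => C x.1 ∧ 1 ≤ x.2) [fun x => inCode x.1 x.2]
      (fun x => inCode (red x.1 x.2) (2 * x.2)))
    (hK : PolyN (fun x : BGraph × ℕ => C x.1 ∧ 1 ≤ x.2) [fun x => inCode x.1 x.2]
      (fun x => K x.1 x.2))
    (hC : ∀ G t, C G → 1 ≤ t → C' (red G t))
    (h12 : ∀ G t, C G → 1 ≤ t → |(numIndep (red G t).graph : ℚ) / 2 ^ K G t -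
      numIndep G.graph| ≤ numIndep G.graph / (2 * t + 1))
    (h : HasFPRAS C') : HasFPRAS C := by
  obtain ⟨m', f', hf', hgood⟩ := h
  obtain ⟨pr, hpr⟩ := hred.length_le
  let M' : BGraph → ℕ → ℕ := fun G t => m'.eval (inCode (red G t) (2 * t)).length
  let m : Polynomial ℕ := m'.comp pr
  have hM : ∀ G t, C G → 1 ≤ t → M' G t ≤ m.eval (inCode G t).length := by
    intro G t hG ht
    have h3 := hpr (G, t) ⟨hG, ht⟩
    simp only [vals_cons, vals_nil, total_cons, total_nil, Nat.add_zero] at h3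
    simp only [M', m, Polynomial.eval_comp]
    exact eval_mono _ h3
  let f : BGraph → ℕ → List Bool → List Bool := fun G t r =>
    List.replicate (K G t) true ++ f' (red G t) (2 * t) (r.take (M' G t))
  refine ⟨m, f, ?_, ?_⟩
  · -- the machine
    let D : BGraph × ℕ × List Bool → Prop := fun x =>
      C x.1 ∧ 1 ≤ x.2.1 ∧ x.2.2.length = m.eval (inCode x.1 x.2.1).length
    let enc : BGraph × ℕ × List Bool → List Bool := fun x => inCode x.1 x.2.1 ++ x.2.2
    have hw : PolyC D [enc] enc := PolyC.var (by simp)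
    have hlen : PolyN D [enc] (fun x => (inCode x.1 x.2.1).length) :=
      (((poly_tOf hw).add ((poly_aOf hw).add ((poly_bOf hw).add
        ((poly_aOf hw).mul (poly_bOf hw))))).add (PolyN.const 3)).congr (fun x _ =>
          lenOf_append x.1 x.2.1 x.2.2)
    have hpre : PolyC D [enc] (fun x => inCode x.1 x.2.1) :=
      (PolyC.take hw hlen).congr (fun x _ => List.take_left)
    have hsuf : PolyC D [enc] (fun x => x.2.2) :=
      (PolyC.drop hw hlen).congr (fun x _ => List.drop_left)
    have hsub : ∀ {t : BGraph × ℕ → List Bool},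
        PolyC (fun x : BGraph × ℕ => C x.1 ∧ 1 ≤ x.2) [fun x => inCode x.1 x.2] t →
        PolyC D [enc] (fun x => t (x.1, x.2.1)) := by
      intro t ht
      have h3 := ht.reindex (β := BGraph × ℕ × List Bool) (D' := D) (fun x => (x.1, x.2.1))
        (fun x hx => ⟨hx.1, hx.2.1⟩)
      refine h3.comp ?_
      intro g hg
      simp only [List.map_cons, List.map_nil, List.mem_singleton] at hg
      subst hg
      exact hpre
    have hred' : PolyC D [enc] (fun x => inCode (red x.1 x.2.1) (2 * x.2.1)) := hsub hred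
    have hK' : PolyN D [enc] (fun x => K x.1 x.2.1) := hsub hK
    have hM' : PolyN D [enc] (fun x => M' x.1 x.2.1) :=
      PolyN.polyEval (PolyN.length hred') m'
    have hin : PolyC D [enc] (fun x => inCode (red x.1 x.2.1) (2 * x.2.1) ++
        x.2.2.take (M' x.1 x.2.1)) := hred'.append (PolyC.take hsuf hM')
    have hcall : PolyC D [enc] (fun x => f' (red x.1 x.2.1) (2 * x.2.1)
        (x.2.2.take (M' x.1 x.2.1))) := by
      refine PolyC.applyTM2 hf' _ _ hin ?_
      rintro ⟨G, t, r⟩ ⟨hG, ht, hr⟩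
      refine ⟨⟨(red G t, 2 * t, r.take (M' G t)), hC G t hG ht, ?_, ?_⟩, rfl, rfl⟩
      · have ht' : 1 ≤ t := ht
        show 1 ≤ 2 * t
        omega
      · show (r.take (M' G t)).length = M' G t
        have hr' : r.length = m.eval (inCode G t).length := hr
        rw [List.length_take, hr', min_eq_left (hM G t hG ht)]
    have hout : PolyC D [enc] (fun x => f x.1 x.2.1 x.2.2) :=
      PolyC.append hK' hcall
    exact PolyC.toTM2 enc (fun x => f x.1 x.2.1 x.2.2) id hout
  · intro G t hG ht
    obtain ⟨j, hj⟩ := Nat.exists_eq_add_of_le (hM G t hG ht)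
    rw [hj]
    have h3 := hgood (red G t) (2 * t) (hC G t hG ht) (by omega)
    have h4 : Nat.card {r : Fin (M' G t + j) → Bool //
        Good (red G t) (2 * t) (f' (red G t) (2 * t) ((List.ofFn r).take (M' G t)))} ≤
        Nat.card {r : Fin (M' G t + j) → Bool // Good G t (f G t (List.ofFn r))} := by
      refine Nat.card_le_card_of_injective (fun r => ⟨r.1, ?_⟩) ?_
      · exact Good.transfer2 ht r.2 (h12 G t hG ht)
      · intro r r' hrr
        simp only [Subtype.mk.injEq] at hrr
        exact Subtype.ext hrr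
    rw [card_prefix (M' G t) j (fun s => Good (red G t) (2 * t) (f' (red G t) (2 * t) s))] at h4
    have h5 : 3 * 2 ^ M' G t ≤ 4 * Nat.card {r : Fin (M' G t) → Bool //
        Good (red G t) (2 * t) (f' (red G t) (2 * t) (List.ofFn r))} := h3
    calc 3 * 2 ^ (M' G t + j) = (3 * 2 ^ M' G t) * 2 ^ j := by rw [pow_add]; ring
      _ ≤ (4 * Nat.card {r : Fin (M' G t) → Bool //
        Good (red G t) (2 * t) (f' (red G t) (2 * t) (List.ofFn r))}) * 2 ^ j :=
          Nat.mul_le_mul_right _ h5
      _ = 4 * (Nat.card {r : Fin (M' G t) → Bool //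
        Good (red G t) (2 * t) (f' (red G t) (2 * t) (List.ofFn r))} * 2 ^ j) := by ring
      _ ≤ _ := Nat.mul_le_mul_left _ h4

end Pool.Agent.Lib.Pa7c826
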