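import Pool.Agent.Lib.Pa7c826.BISIndex
import Pool.Agent.Lib.Pa7c826.Transfer2
import Pool.Agent.Lib.Pa7c826.RegClass

/-!
The reduction to regular bipartite graphs of large degree.
-/

namespace Pool.Agent.Lib.Pa7c826

open Pool.Agent.Lib.PolyTime

/-! ### Computability of the adjacency function -/

section

variable {α : Type*} {D : α → Prop} {ctx : List (α → List Bool)}

theorem PolyN.ite {φ : α → Bool} {f g : α → ℕ} (hφ : PolyB D ctx φ) (hf : PolyN D ctx f)
    (hg : PolyN D ctx g) : PolyN D ctx (fun a => if φ a = true then f a else g a) := by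
  have := PolyC.ite hφ (PolyC.mono hf (fun a (h : D a ∧ φ a = true) => h.1))
    (PolyC.mono hg (fun a (h : D a ∧ φ a = false) => h.1))
  refine PolyC.congr this (fun a _ => ?_)
  show (if φ a = true then un (f a) else un (g a)) = un (if φ a = true then f a else g a)
  split_ifs <;> rfl

theorem poly_srcI {a b g : α → ℕ} (ha : PolyN D ctx a) (hb : PolyN D ctx b) (hg : PolyN D ctx g)
    (hpos : ∀ x, D x → 0 < b x) : PolyN D ctx (fun x => srcI (a x) (b x) (g x)) := by
  have c5 : PolyN D ctx (fun _ => 5) := PolyN.const 5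
  have m5 := PolyN.mod hg c5 (fun _ _ => by norm_num)
  have d5 := PolyN.div hg c5 (fun _ _ => by norm_num)
  have base := (ha.add hb).add ((PolyN.const 4).mul d5)
  exact PolyN.ite (PolyB.lt m5 (PolyN.const 2)) (PolyN.div d5 hb hpos)
    (PolyN.ite (PolyB.natEq m5 (PolyN.const 2)) base
      (PolyN.ite (PolyB.natEq m5 (PolyN.const 3)) (base.add (PolyN.const 2))
        (base.add (PolyN.const 3))))

theorem poly_tgtI {a b g : α → ℕ} (ha : PolyN D ctx a) (hb : PolyN D ctx b) (hg : PolyN D ctx g)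
    (hpos : ∀ x, D x → 0 < b x) : PolyN D ctx (fun x => tgtI (a x) (b x) (g x)) := by
  have c5 : PolyN D ctx (fun _ => 5) := PolyN.const 5
  have m5 := PolyN.mod hg c5 (fun _ _ => by norm_num)
  have d5 := PolyN.div hg c5 (fun _ _ => by norm_num)
  have base := (ha.add hb).add ((PolyN.const 4).mul d5)
  have aj := ha.add (PolyN.mod d5 hb hpos)
  exact PolyN.ite (PolyB.natEq m5 (PolyN.const 0)) aj
    (PolyN.ite (PolyB.natEq m5 (PolyN.const 1)) base
      (PolyN.ite (PolyB.natEq m5 (PolyN.const 2)) (base.add (PolyN.const 1))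
        (PolyN.ite (PolyB.natEq m5 (PolyN.const 3)) aj (base.add (PolyN.const 2)))))

theorem poly_F2g {G : α → BGraph} {s : α → ℕ} {c1 U S V T : α → ℕ}
    (hw : PolyC D ctx (fun x => inCode (G x) (s x))) (hc : PolyN D ctx c1)
    (hU : PolyN D ctx U) (hS : PolyN D ctx S) (hV : PolyN D ctx V) (hT : PolyN D ctx T)
    (hcpos : ∀ x, D x → 0 < c1 x) (hpos : ∀ x, D x → 0 < (G x).b) :
    PolyB D ctx (fun x => F2g (G x).a (G x).b (c1 x) (G x).F (U x) (S x) (V x) (T x)) := by
  have ha := poly_a hw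
  have hb := poly_b hw
  have hg := PolyN.div hT hc hcpos
  have c5 : PolyN D ctx (fun _ => 5) := PolyN.const 5
  have d5 := PolyN.div hg c5 (fun _ _ => by norm_num)
  have hA := poly_F hw (PolyN.div d5 hb hpos) (PolyN.mod d5 hb hpos)
  have hs := poly_srcI ha hb hg hpos
  have ht := poly_tgtI ha hb hg hpos
  have hUV := PolyB.natEq hU hV
  have hVs := PolyB.natEq hV hs
  have hVt := PolyB.natEq hV ht
  have h0 := PolyB.natEq hS (hc.mul hg)
  exact (((hA.and hVs).and ((hUV.and (PolyB.natEq hS hT).not).or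
      ((PolyB.natEq hU ht).and h0))).or
    (((hA.and hVt).and ((hUV.and h0.not).or
      ((PolyB.natEq hU hs).and (PolyB.natEq hS hT)))).or
    ((hA.and (hVs.or hVt)).not.and hUV)))

theorem poly_F2 {G : α → BGraph} {s : α → ℕ} {c1 f u v : α → ℕ}
    (hw : PolyC D ctx (fun x => inCode (G x) (s x))) (hc : PolyN D ctx c1) (hf : PolyN D ctx f)
    (hu : PolyN D ctx u) (hv : PolyN D ctx v)
    (hcpos : ∀ x, D x → 0 < c1 x) (hfpos : ∀ x, D x → 0 < f x) :
    PolyB D ctx (fun x => F2 (G x).a (G x).b (c1 x) (f x) (G x).F (u x) (v x)) := by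
  have ha := poly_a hw
  have hb := poly_b hw
  have hs : PolyN D ctx (fun x => (G x).a * (G x).b * 5 * c1 x) :=
    ((ha.mul hb).mul (PolyN.const 5)).mul hc
  have hd := hs.add hf
  have hdpos : ∀ x, D x → 0 < (G x).a * (G x).b * 5 * c1 x + f x := by
    intro x hx
    have := hfpos x hx
    omega
  have hU := PolyN.div hu hd hdpos
  have hS := PolyN.mod hu hd hdpos
  have hV := PolyN.div hv hd hdpos
  have hT := PolyN.mod hv hd hdpos
  have hlt := PolyB.lt hT hs
  have hmono : ∀ {t : α → List Bool}, PolyC D ctx t →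
      PolyC (fun x => D x ∧ decide (v x % ((G x).a * (G x).b * 5 * c1 x + f x) <
        (G x).a * (G x).b * 5 * c1 x) = true) ctx t :=
    fun h => PolyC.mono h (fun _ h => h.1)
  have h1 := poly_F2g (hmono hw) (hmono hc) (hmono hU) (hmono hS) (hmono hV) (hmono hT)
    (fun x hx => hcpos x hx.1) (fun x hx => by
      have h2 := hx.2
      rw [decide_eq_true_eq] at h2
      rcases Nat.eq_zero_or_pos (G x).b with h0 | h0
      · rw [h0] at h2; simp at h2
      · exact h0)
  have h2 := PolyC.mono (PolyB.natEq hU hV) (fun x (h : D x ∧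
    decide (v x % ((G x).a * (G x).b * 5 * c1 x + f x) <
        (G x).a * (G x).b * 5 * c1 x) = false) => h.1)
  exact PolyB.ite hlt h1 h2

end

/-! ### The reduction -/

/-- number of blocks -/
def N2 (a b : ℕ) : ℕ := a + b + a * b * 4

/-- number of free vertices per block and side -/
def fr (k a b t : ℕ) : ℕ :=
  a * b * 5 * (cc a b t + 1) + N2 a b + (2 * t + 2) + (2 * N2 a b) ^ k

/-- the degree -/
def dd (k a b t : ℕ) : ℕ := a * b * 5 * (cc a b t + 1) + fr k a b t

/-- the new graph -/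
def red2 (k : ℕ) (G : BGraph) (t : ℕ) : BGraph :=
  mkGraph (N2 G.a G.b * dd k G.a G.b t) (N2 G.a G.b * dd k G.a G.b t)
    (F2 G.a G.b (cc G.a G.b t + 1) (fr k G.a G.b t) G.F)

/-- number of edges -/
def ecount (G : BGraph) : ℕ :=
  ((Finset.range (G.a * G.b)).filter fun i => G.F (i / G.b) (i % G.b) = true).card

/-- the exponent -/
def K2 (k : ℕ) (G : BGraph) (t : ℕ) : ℕ :=
  N2 G.a G.b * dd k G.a G.b t + (4 * (G.a * G.b) - 3 * ecount G)

theorem prod_bw (G : BGraph) :
    ∏ e : Fin G.a × Fin G.b, (bw (G.F e.1 e.2 = true) : ℚ) =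
      2 ^ (4 * (G.a * G.b) - 3 * ecount G) := by
  have h1 : ∏ e : Fin G.a × Fin G.b, (bw (G.F e.1 e.2 = true) : ℚ) =
      ∏ i ∈ Finset.range (G.a * G.b), (bw (G.F (i / G.b) (i % G.b) = true) : ℚ) := by
    rw [← Fin.prod_univ_eq_prod_range (fun i => (bw (G.F (i / G.b) (i % G.b) = true) : ℚ)),
      ← Equiv.prod_comp finProdFinEquiv]
    refine Finset.prod_congr rfl fun e _ => ?_
    have h2 : ((finProdFinEquiv e : Fin (G.a * G.b)) : ℕ) = e.2 + G.b * e.1 := by
      rw [finProdFinEquiv_apply_val]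
    have h3 := e.2.2
    rw [h2, Nat.add_mul_div_left _ _ (by omega), Nat.div_eq_of_lt h3, Nat.zero_add,
      Nat.add_mul_mod_self_left, Nat.mod_eq_of_lt h3]
  rw [h1]
  have h4 : ∀ i ∈ Finset.range (G.a * G.b), (bw (G.F (i / G.b) (i % G.b) = true) : ℚ) =
      if G.F (i / G.b) (i % G.b) = true then (2 : ℚ) else 16 := by
    intro i _
    unfold bw
    split_ifs <;> norm_num
  rw [Finset.prod_congr rfl h4, Finset.prod_ite, Finset.prod_const, Finset.prod_const]
  have h5 := Finset.card_filter_add_card_filter_not (s := Finset.range (G.a * G.b))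
    (fun i => G.F (i / G.b) (i % G.b) = true)
  rw [Finset.card_range] at h5
  unfold ecount
  set x := ((Finset.range (G.a * G.b)).filter fun i => G.F (i / G.b) (i % G.b) = true).card
  set y := ((Finset.range (G.a * G.b)).filter fun i =>
    ¬ (G.F (i / G.b) (i % G.b) = true)).card
  rw [show (16 : ℚ) = 2 ^ 4 by norm_num, ← pow_mul, ← pow_add]
  congr 1
  omega

theorem hf_fr (k a b t : ℕ) :
    Fintype.card (BB a b) * 2 ^ (Fintype.card (GG a b) * (cc a b t + 1)) * (4 * (2 * t + 1)) ≤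
      2 ^ fr k a b t := by
  rw [card_BB, card_GG]
  unfold fr N2
  have h1 : a + b + a * b * 4 ≤ 2 ^ (a + b + a * b * 4) := Nat.lt_two_pow_self.le
  have h2 : 4 * (2 * t + 1) ≤ 2 ^ (2 * t + 2) := by
    rw [pow_add]
    have : 2 * t + 1 ≤ 2 ^ (2 * t) := Nat.lt_two_pow_self
    omega
  calc (a + b + a * b * 4) * 2 ^ (a * b * 5 * (cc a b t + 1)) * (4 * (2 * t + 1))
      ≤ 2 ^ (a + b + a * b * 4) * 2 ^ (a * b * 5 * (cc a b t + 1)) * 2 ^ (2 * t + 2) :=
        Nat.mul_le_mul (Nat.mul_le_mul_right _ h1) h2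
    _ = 2 ^ (a * b * 5 * (cc a b t + 1) + (a + b + a * b * 4) + (2 * t + 2)) := by
        rw [← pow_add, ← pow_add]
        congr 1
        ring
    _ ≤ _ := Nat.pow_le_pow_right (by norm_num) (by omega)

/-- the abstract relation of the reduction -/
abbrev rel2 (k : ℕ) (G : BGraph) (t : ℕ) :=
  BRel (bsrc (a := G.a) (b := G.b)) btgt
    (bact fun (i : Fin G.a) (j : Fin G.b) => G.F i j = true) (cc G.a G.b t) (fr k G.a G.b t)

theorem rel2_iff (k : ℕ) (G : BGraph) (t : ℕ) (x y) :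
    rel2 k G t x y ↔
      F2 G.a G.b (cc G.a G.b t + 1) (fr k G.a G.b t) G.F
        (eV G.a G.b (cc G.a G.b t) (fr k G.a G.b t) x)
        (eV G.a G.b (cc G.a G.b t) (fr k G.a G.b t) y) = true :=
  F2_iff G.F x y

theorem numIndep_red2 (k : ℕ) (G : BGraph) (t : ℕ) :
    numIndep (red2 k G t).graph = cnt (rel2 k G t) :=
  numIndep_mkGraph (eV G.a G.b (cc G.a G.b t) (fr k G.a G.b t))
    (eV G.a G.b (cc G.a G.b t) (fr k G.a G.b t)) (rel2_iff k G t)

theorem red2_estimate (k : ℕ) (G : BGraph) (t : ℕ) :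
    |(numIndep (red2 k G t).graph : ℚ) / 2 ^ K2 k G t - numIndep G.graph| ≤
      numIndep G.graph / (2 * t + 1) := by
  have h1 := final_estimate t (fr k G.a G.b t)
    (fun (i : Fin G.a) (j : Fin G.b) => G.F i j = true)
    (by rw [cnt_graph]; exact one_le_numIndep G) (hf_fr k G.a G.b t)
  rw [cnt_graph, prod_bw, ← pow_add] at h1
  rw [numIndep_red2]
  have e : K2 k G t = Fintype.card (BB G.a G.b) * (Fintype.card (GG G.a G.b) *
      (cc G.a G.b t + 1) + fr k G.a G.b t) + (4 * (G.a * G.b) - 3 * ecount G) := by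
    rw [card_BB, card_GG]
    rfl
  rw [e]
  exact h1

theorem red2_class (k : ℕ) (G : BGraph) (t : ℕ) : RegularDense k (red2 k G t) := by
  refine ⟨dd k G.a G.b t, ?_, ?_, ?_⟩
  · intro i
    obtain ⟨x, hx⟩ := (eV G.a G.b (cc G.a G.b t) (fr k G.a G.b t)).surjective i
    have h1 := rowDeg_mkGraph (eV G.a G.b (cc G.a G.b t) (fr k G.a G.b t))
      (eV G.a G.b (cc G.a G.b t) (fr k G.a G.b t)) (rel2_iff k G t) x
    have h2 : (red2 k G t).rowDeg i = {y | rel2 k G t x y}.ncard := by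
      rw [← hx]; exact h1
    rw [h2, ldeg bsrc_ne_btgt x, card_GG]
    rfl
  · intro i
    obtain ⟨x, hx⟩ := (eV G.a G.b (cc G.a G.b t) (fr k G.a G.b t)).surjective i
    have h1 := colDeg_mkGraph (eV G.a G.b (cc G.a G.b t) (fr k G.a G.b t))
      (eV G.a G.b (cc G.a G.b t) (fr k G.a G.b t)) (rel2_iff k G t) x
    have h2 : (red2 k G t).colDeg i = {y | rel2 k G t y x}.ncard := by
      rw [← hx]; exact h1
    rw [h2, rdeg bsrc_ne_btgt x, card_GG]
    rfl
  · show (N2 G.a G.b * dd k G.a G.b t + N2 G.a G.b * dd k G.a G.b t) ^ k ≤ _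
    have h1 : (2 * N2 G.a G.b) ^ k ≤ dd k G.a G.b t := by
      unfold dd fr
      omega
    calc (N2 G.a G.b * dd k G.a G.b t + N2 G.a G.b * dd k G.a G.b t) ^ k
        = (2 * N2 G.a G.b) ^ k * dd k G.a G.b t ^ k := by rw [← mul_pow]; congr 1; ring
      _ ≤ dd k G.a G.b t * dd k G.a G.b t ^ k := Nat.mul_le_mul_right _ h1
      _ = _ := by rw [pow_succ]; ring

/-! ### Computability of the reduction -/

section

variable {α : Type*} {D : α → Prop} {ctx : List (α → List Bool)} {a b t : α → ℕ}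

theorem poly_cc (ha : PolyN D ctx a) (hb : PolyN D ctx b) (ht : PolyN D ctx t) :
    PolyN D ctx (fun x => cc (a x) (b x) (t x)) :=
  (PolyN.const 3).mul ((((ha.add hb).add (ha.mul hb)).add ((PolyN.const 2).mul ht)).add
    (PolyN.const 8))

theorem poly_N2 (ha : PolyN D ctx a) (hb : PolyN D ctx b) :
    PolyN D ctx (fun x => N2 (a x) (b x)) :=
  (ha.add hb).add ((ha.mul hb).mul (PolyN.const 4))

theorem poly_sl (ha : PolyN D ctx a) (hb : PolyN D ctx b) (ht : PolyN D ctx t) :
    PolyN D ctx (fun x => a x * b x * 5 * (cc (a x) (b x) (t x) + 1)) :=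
  ((ha.mul hb).mul (PolyN.const 5)).mul ((poly_cc ha hb ht).add (PolyN.const 1))

theorem poly_fr (k : ℕ) (ha : PolyN D ctx a) (hb : PolyN D ctx b) (ht : PolyN D ctx t) :
    PolyN D ctx (fun x => fr k (a x) (b x) (t x)) :=
  (((poly_sl ha hb ht).add (poly_N2 ha hb)).add
    (((PolyN.const 2).mul ht).add (PolyN.const 2))).add
    (PolyN.pow ((PolyN.const 2).mul (poly_N2 ha hb)) k)

theorem poly_dd (k : ℕ) (ha : PolyN D ctx a) (hb : PolyN D ctx b) (ht : PolyN D ctx t) :
    PolyN D ctx (fun x => dd k (a x) (b x) (t x)) :=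
  (poly_sl ha hb ht).add (poly_fr k ha hb ht)

end

theorem poly_red2 (k : ℕ) (D : BGraph × ℕ → Prop) :
    PolyC D [fun x => inCode x.1 x.2] (fun x => inCode (red2 k x.1 x.2) (2 * x.2)) := by
  have hw : PolyC D [fun x => inCode x.1 x.2] (fun x => inCode x.1 x.2) := PolyC.var (by simp)
  have ha := poly_a hw
  have hb := poly_b hw
  have ht := poly_s hw
  have hn := (poly_N2 ha hb).mul (poly_dd k ha hb ht)
  refine poly_inCode hn hn ((PolyN.const 2).mul ht) ?_
  have W2 := up (n := fun p : (BGraph × ℕ) × ℕ =>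
    N2 p.1.1.a p.1.1.b * dd k p.1.1.a p.1.1.b p.1.2) (up (n := fun x : BGraph × ℕ =>
    N2 x.1.a x.1.b * dd k x.1.a x.1.b x.2) hw)
  have I2 := upN (n := fun p : (BGraph × ℕ) × ℕ =>
    N2 p.1.1.a p.1.1.b * dd k p.1.1.a p.1.1.b p.1.2) (last (D := D)
      (ctx := [fun x => inCode x.1 x.2]) (n := fun x : BGraph × ℕ =>
    N2 x.1.a x.1.b * dd k x.1.a x.1.b x.2))
  have J2 := last (D := fun p : (BGraph × ℕ) × ℕ => D p.1 ∧ p.2 <
    N2 p.1.1.a p.1.1.b * dd k p.1.1.a p.1.1.b p.1.2)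
    (ctx := PolyTime.lift [fun x : BGraph × ℕ => inCode x.1 x.2] ++
      [fun p : (BGraph × ℕ) × ℕ => un p.2]) (n := fun p : (BGraph × ℕ) × ℕ =>
    N2 p.1.1.a p.1.1.b * dd k p.1.1.a p.1.1.b p.1.2)
  have a2 := poly_a W2
  have b2 := poly_b W2
  have t2 := poly_s W2
  exact poly_F2 W2 ((poly_cc a2 b2 t2).add (PolyN.const 1)) (poly_fr k a2 b2 t2) I2 J2
    (fun _ _ => by omega) (fun _ _ => by unfold fr; omega)

theorem poly_K2 (k : ℕ) (D : BGraph × ℕ → Prop) :
    PolyN D [fun x => inCode x.1 x.2] (fun x => K2 k x.1 x.2) := by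
  have hw : PolyC D [fun x => inCode x.1 x.2] (fun x => inCode x.1 x.2) := PolyC.var (by simp)
  have ha := poly_a hw
  have hb := poly_b hw
  have ht := poly_s hw
  have he : PolyN D [fun x => inCode x.1 x.2] (fun x => ecount x.1) := by
    have W1 := up (n := fun x : BGraph × ℕ => x.1.a * x.1.b) hw
    have B1 := poly_b W1
    have L := last (D := D) (ctx := [fun x => inCode x.1 x.2])
      (n := fun x : BGraph × ℕ => x.1.a * x.1.b)
    have hpos : ∀ p : (BGraph × ℕ) × ℕ, (D p.1 ∧ p.2 < p.1.1.a * p.1.1.b) → 0 < p.1.1.b := by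
      rintro p ⟨_, h⟩
      rcases Nat.eq_zero_or_pos p.1.1.b with h0 | h0
      · rw [h0] at h; omega
      · exact h0
    exact PolyN.count (φ := fun p : (BGraph × ℕ) × ℕ =>
      p.1.1.F (p.2 / p.1.1.b) (p.2 % p.1.1.b)) (ha.mul hb)
      (poly_F W1 (PolyN.div L B1 hpos) (PolyN.mod L B1 hpos))
  exact ((poly_N2 ha hb).mul (poly_dd k ha hb ht)).add
    (PolyN.sub ((PolyN.const 4).mul (ha.mul hb)) ((PolyN.const 3).mul he))

/-- Approximating the number of independent sets of regular bipartite graphs of degree at least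
`n ^ (k / (k + 1))` is as hard as for all bipartite graphs. -/
theorem regularDense_iff (k : ℕ) : HasFPRAS (RegularDense k) ↔ HasFPRAS (fun _ => True) := by
  constructor
  · intro h
    exact HasFPRAS.transfer2 (red2 k) (K2 k) (poly_red2 k _) (poly_K2 k _)
      (fun G t _ _ => red2_class k G t) (fun G t _ _ => red2_estimate k G t) h
  · exact HasFPRAS.mono (fun _ _ => trivial)

end Pool.Agent.Lib.Pa7c826
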