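import Pool.Agent.Lib.Pa7c826.Comb2

/-!
Natural numbers computable in binary in polynomial time; masks of finsets.
-/

namespace Pool.Agent.Lib.Pa7c826

open Pool.Agent.Lib.PolyTime

variable {α : Type*} {D : α → Prop} {ctx : List (α → List Bool)}

theorem PolyB.maj3 {x y z : α → Bool} (hx : PolyB D ctx x) (hy : PolyB D ctx y)
    (hz : PolyB D ctx z) : PolyB D ctx (fun a => Pa7c826.maj3 (x a) (y a) (z a)) :=
  (hx.and hy).or ((hx.and hz).or (hy.and hz))

theorem PolyB.xor {x y : α → Bool} (hx : PolyB D ctx x) (hy : PolyB D ctx y) :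
    PolyB D ctx (fun a => x a ^^ y a) :=
  ((hx.and hy.not).or (hx.not.and hy)).congr (fun a _ => by
    cases x a <;> cases y a <;> rfl)

theorem PolyB.xor3 {x y z : α → Bool} (hx : PolyB D ctx x) (hy : PolyB D ctx y)
    (hz : PolyB D ctx z) : PolyB D ctx (fun a => Pa7c826.xor3 (x a) (y a) (z a)) :=
  PolyB.xor hx (PolyB.xor hy hz)

/-- consing a computed bit -/
theorem PolyC.consB {b : α → Bool} {t : α → List Bool} (hb : PolyB D ctx b)
    (ht : PolyC D ctx t) : PolyC D ctx (fun a => b a :: t a) :=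
  (PolyC.append hb ht).congr (fun a _ => by simp)

theorem PolyC.addBits {x y : α → List Bool} (hx : PolyC D ctx x) (hy : PolyC D ctx y) :
    PolyC D ctx (fun a => Pa7c826.addBits (x a) (y a)) := by
  obtain ⟨px, hpx⟩ := hx.length_le
  obtain ⟨py, hpy⟩ := hy.length_le
  unfold Pa7c826.addBits
  refine PolyC.reverse ?_
  refine PolyC.natRec (fun a k => addAux (x a) (y a) k)
    ((PolyN.length hx).add (PolyN.length hy)) ((PolyC.const [false]).congr (fun a _ => rfl)) ?_
    ⟨px + py + 1, fun a ha k hk => ?_⟩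
  · have hF : PolyC (fun p : α × ℕ => D p.1 ∧ p.2 < (x p.1).length + (y p.1).length)
        (PolyTime.lift ctx ++ [fun p => un p.2, fun p => addAux (x p.1) (y p.1) p.2])
        (fun p => addAux (x p.1) (y p.1) p.2) := PolyC.var (by simp)
    have hk : PolyN (fun p : α × ℕ => D p.1 ∧ p.2 < (x p.1).length + (y p.1).length)
        (PolyTime.lift ctx ++ [fun p => un p.2, fun p => addAux (x p.1) (y p.1) p.2])
        (fun p => p.2) := PolyC.var (by simp)
    have hx' := PolyB.getD (up2 (n := fun a => (x a).length + (y a).length)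
      (u := fun p => addAux (x p.1) (y p.1) p.2) hx) hk
    have hy' := PolyB.getD (up2 (n := fun a => (x a).length + (y a).length)
      (u := fun p => addAux (x p.1) (y p.1) p.2) hy) hk
    exact PolyC.consB (PolyB.maj3 hx' hy' (PolyB.headD hF))
      (PolyC.consB (PolyB.xor3 hx' hy' (PolyB.headD hF)) hF.tail)
  · rw [addAux_length]
    have h1 := hpx a ha
    have h2 := hpy a ha
    simp only [Polynomial.eval_add, Polynomial.eval_one]
    omega

/-- Natural-number valued functions whose binary expansion is computable in polynomial time. -/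
def PolyBin (D : α → Prop) (ctx : List (α → List Bool)) (f : α → ℕ) : Prop :=
  ∃ t : α → List Bool, PolyC D ctx t ∧ ∀ a, D a → bval (t a) = f a

theorem PolyBin.congr {f g : α → ℕ} (h : PolyBin D ctx f) (e : ∀ a, D a → f a = g a) :
    PolyBin D ctx g := by
  obtain ⟨t, h1, h2⟩ := h
  exact ⟨t, h1, fun a ha => (h2 a ha).trans (e a ha)⟩

theorem PolyBin.mono {D' : α → Prop} {f : α → ℕ} (h : PolyBin D ctx f) (hD : ∀ a, D' a → D a) :
    PolyBin D' ctx f := by
  obtain ⟨t, h1, h2⟩ := h
  exact ⟨t, PolyC.mono h1 hD, fun a ha => h2 a (hD a ha)⟩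

theorem PolyBin.zero : PolyBin D ctx (fun _ => 0) := ⟨fun _ => [], PolyC.nil, fun _ _ => rfl⟩

theorem PolyBin.pow2 {f : α → ℕ} (hf : PolyN D ctx f) : PolyBin D ctx (fun a => 2 ^ f a) :=
  ⟨fun a => List.replicate (f a) false ++ [true],
    (PolyC.replicateFalse hf).append (PolyC.const [true]), fun a _ => by
      rw [bval_append, bval_replicate_false, List.length_replicate]; simp [bval]⟩

theorem PolyBin.add {f g : α → ℕ} (hf : PolyBin D ctx f) (hg : PolyBin D ctx g) :
    PolyBin D ctx (fun a => f a + g a) := by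
  obtain ⟨t, h1, h2⟩ := hf
  obtain ⟨u, h3, h4⟩ := hg
  exact ⟨fun a => Pa7c826.addBits (t a) (u a), PolyC.addBits h1 h3, fun a ha => by
    rw [addBits_val, h2 a ha, h4 a ha]⟩

theorem PolyBin.ite {φ : α → Bool} {f g : α → ℕ} (hφ : PolyB D ctx φ)
    (hf : PolyBin (fun a => D a ∧ φ a = true) ctx f)
    (hg : PolyBin (fun a => D a ∧ φ a = false) ctx g) :
    PolyBin D ctx (fun a => if φ a then f a else g a) := by
  obtain ⟨t, h1, h2⟩ := hf
  obtain ⟨u, h3, h4⟩ := hg
  refine ⟨fun a => if φ a then t a else u a, PolyC.ite hφ h1 h3, fun a ha => ?_⟩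
  beta_reduce
  by_cases h : φ a = true
  · rw [if_pos h, if_pos h]; exact h2 a ⟨ha, h⟩
  · rw [if_neg h, if_neg h]; exact h4 a ⟨ha, by simpa using h⟩

theorem PolyBin.sum_range {n : α → ℕ} {f : α × ℕ → ℕ} (hn : PolyN D ctx n)
    (hf : PolyBin (fun p : α × ℕ => D p.1 ∧ p.2 < n p.1)
      (PolyTime.lift ctx ++ [fun p => un p.2]) f) :
    PolyBin D ctx (fun a => ∑ i ∈ Finset.range (n a), f (a, i)) := by
  obtain ⟨t, h1, h2⟩ := hf
  obtain ⟨pt, hpt⟩ := h1.length_le
  obtain ⟨pn, hpn⟩ := PolyC.length_le hn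
  let S : α → ℕ → List Bool := fun a k => Nat.rec [] (fun i s => Pa7c826.addBits s (t (a, i))) k
  have hS0 : ∀ a, S a 0 = [] := fun a => rfl
  have hSs : ∀ a k, S a (k + 1) = Pa7c826.addBits (S a k) (t (a, k)) := fun a k => rfl
  have hlen : ∀ a, D a → ∀ k, k ≤ n a → (S a k).length ≤
      k * (pt.eval (total (vals ctx a) + pn.eval (total (vals ctx a))) + 1) := by
    intro a ha k
    induction k with
    | zero => intro _; simp [hS0]
    | succ k ih =>
      intro hk
      have h3 := ih (by omega)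
      have h4 := hpt (a, k) ⟨ha, show k < n a by omega⟩
      have h5 := hpn a ha
      rw [un_length] at h5
      simp only [vals_append, vals_lift, vals_cons, vals_nil, total_append, total_cons,
        total_nil, un_length] at h4
      have h6 : (t (a, k)).length ≤
          pt.eval (total (vals ctx a) + pn.eval (total (vals ctx a))) :=
        h4.trans (eval_mono _ (by omega))
      rw [hSs, Pa7c826.addBits, List.length_reverse, addAux_length]
      rw [Nat.succ_mul]
      omega
  refine ⟨fun a => S a (n a), ?_, ?_⟩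
  · refine PolyC.natRec S hn (PolyC.nil.congr (fun a _ => (hS0 a).symm)) ?_
      ⟨pn * (pt.comp (Polynomial.X + pn) + 1), fun a ha k hk => ?_⟩
    · have hF : PolyC (fun p : α × ℕ => D p.1 ∧ p.2 < n p.1)
          (PolyTime.lift ctx ++ [fun p => un p.2, fun p => S p.1 p.2])
          (fun p => S p.1 p.2) := PolyC.var (by simp)
      have ht : PolyC (fun p : α × ℕ => D p.1 ∧ p.2 < n p.1)
          (PolyTime.lift ctx ++ [fun p => un p.2, fun p => S p.1 p.2]) t := by
        refine PolyC.subset h1 ?_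
        intro f hf
        simp only [List.mem_append, List.mem_cons, List.not_mem_nil, or_false] at hf ⊢
        tauto
      exact (PolyC.addBits hF ht).congr (fun p _ => (hSs p.1 p.2).symm)
    · refine (hlen a ha k hk).trans ?_
      have h5 := hpn a ha
      rw [un_length] at h5
      simp only [Polynomial.eval_mul, Polynomial.eval_comp, Polynomial.eval_add,
        Polynomial.eval_X, Polynomial.eval_one]
      exact Nat.mul_le_mul_right _ (hk.trans h5)
  · intro a ha
    have : ∀ k, k ≤ n a → bval (S a k) = ∑ i ∈ Finset.range k, f (a, i) := by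
      intro k
      induction k with
      | zero => intro _; simp [hS0, bval]
      | succ k ih =>
        intro hk
        rw [hSs, addBits_val, ih (by omega), Finset.sum_range_succ,
          h2 (a, k) ⟨ha, show k < n a by omega⟩]
    exact this _ le_rfl

/-! ### Masks -/

/-- The characteristic bits of `S` on `{0, …, n - 1}`. -/
def msk (n : ℕ) (S : Finset ℕ) : List Bool := (List.range n).map (fun i => decide (i ∈ S))

@[simp] theorem msk_length (n : ℕ) (S : Finset ℕ) : (msk n S).length = n := by simp [msk]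

theorem msk_getD (n : ℕ) (S : Finset ℕ) (hS : S ⊆ Finset.range n) (i : ℕ) :
    (msk n S).getD i false = decide (i ∈ S) := by
  unfold msk
  rcases lt_or_ge i n with h | h
  · rw [List.getD_eq_getElem?_getD, List.getElem?_map, List.getElem?_range h]
    rfl
  · rw [List.getD_eq_default _ _ (by simpa using h)]
    symm
    rw [decide_eq_false_iff_not]
    intro hi
    have := Finset.mem_range.1 (hS hi)
    omega

/-- Finsets of naturals computable (as masks) in polynomial time. -/
def PolyS (D : α → Prop) (ctx : List (α → List Bool)) (n : α → ℕ) (S : α → Finset ℕ) : Prop :=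
  PolyC D ctx (fun a => msk (n a) (S a)) ∧ ∀ a, D a → S a ⊆ Finset.range (n a)

theorem PolyS.mem {n : α → ℕ} {S : α → Finset ℕ} {v : α → ℕ} (hS : PolyS D ctx n S)
    (hv : PolyN D ctx v) : PolyB D ctx (fun a => decide (v a ∈ S a)) :=
  (PolyB.getD hS.1 hv).congr (fun a ha => msk_getD _ _ (hS.2 a ha) _)

theorem PolyS.congr {n : α → ℕ} {S T : α → Finset ℕ} (h : PolyS D ctx n S)
    (e : ∀ a, D a → S a = T a) : PolyS D ctx n T :=
  ⟨PolyC.congr h.1 (fun a ha => by rw [e a ha]), fun a ha => by rw [← e a ha]; exact h.2 a ha⟩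

theorem PolyS.mono {D' : α → Prop} {n : α → ℕ} {S : α → Finset ℕ} (h : PolyS D ctx n S)
    (hD : ∀ a, D' a → D a) : PolyS D' ctx n S :=
  ⟨PolyC.mono h.1 hD, fun a ha => h.2 a (hD a ha)⟩

theorem PolyS.filter {n : α → ℕ} {S : α → Finset ℕ} {φ : α × ℕ → Bool} (hn : PolyN D ctx n)
    (hS : PolyS D ctx n S)
    (hφ : PolyB (fun p : α × ℕ => D p.1 ∧ p.2 < n p.1)
      (PolyTime.lift ctx ++ [fun p => un p.2]) φ) :
    PolyS D ctx n (fun a => (S a).filter (fun i => φ (a, i) = true)) := by
  refine ⟨?_, fun a ha => (Finset.filter_subset _ _).trans (hS.2 a ha)⟩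
  have h1 : PolyS (fun p : α × ℕ => D p.1 ∧ p.2 < n p.1)
      (PolyTime.lift ctx ++ [fun p => un p.2]) (fun p => n p.1) (fun p => S p.1) :=
    ⟨up hS.1, fun p hp => hS.2 p.1 hp.1⟩
  have h2 := (h1.mem last).and hφ
  refine (PolyC.map_range hn h2).congr (fun a _ => ?_)
  unfold msk
  refine List.map_congr_left fun i _ => ?_
  rw [Bool.eq_iff_iff]
  simp only [Bool.and_eq_true, decide_eq_true_eq, Finset.mem_filter]

theorem PolyS.card {n : α → ℕ} {S : α → Finset ℕ} (hn : PolyN D ctx n)
    (hS : PolyS D ctx n S) : PolyN D ctx (fun a => (S a).card) := by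
  have h1 : PolyS (fun p : α × ℕ => D p.1 ∧ p.2 < n p.1)
      (PolyTime.lift ctx ++ [fun p => un p.2]) (fun p => n p.1) (fun p => S p.1) :=
    ⟨up hS.1, fun p hp => hS.2 p.1 hp.1⟩
  refine (PolyN.count hn (h1.mem last)).congr (fun a ha => ?_)
  congr 1
  ext i
  simp only [Finset.mem_filter, Finset.mem_range, decide_eq_true_eq]
  exact ⟨fun h => h.2, fun h => ⟨Finset.mem_range.1 (hS.2 a ha h), h⟩⟩

theorem PolyS.up {n m : α → ℕ} {S : α → Finset ℕ} (hS : PolyS D ctx n S) :
    PolyS (fun p : α × ℕ => D p.1 ∧ p.2 < m p.1)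
      (PolyTime.lift ctx ++ [fun p => un p.2]) (fun p => n p.1) (fun p => S p.1) :=
  ⟨Pa7c826.up hS.1, fun p hp => hS.2 p.1 hp.1⟩

theorem PolyS.range {n : α → ℕ} (hn : PolyN D ctx n) :
    PolyS D ctx n (fun a => Finset.range (n a)) :=
  ⟨(PolyC.map_range (φ := fun _ => true) hn (PolyB.const true)).congr (fun a _ => by
    unfold msk
    refine List.map_congr_left fun i hi => ?_
    symm
    simpa using hi), fun _ _ => subset_rfl⟩

/-- Iterating a step on finsets. -/
theorem PolyS.iterate {n k : α → ℕ} {S : α → Finset ℕ} {step : α → Finset ℕ → Finset ℕ}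
    (hn : PolyN D ctx n) (hk : PolyN D ctx k) (hS : PolyS D ctx n S)
    (hsub : ∀ a, D a → ∀ T, T ⊆ Finset.range (n a) → step a T ⊆ Finset.range (n a))
    (hstep : PolyS (fun p : α × ℕ => D p.1 ∧ p.2 < k p.1)
      (PolyTime.lift ctx ++ [fun p => un p.2, fun p => msk (n p.1) ((step p.1)^[p.2] (S p.1))])
      (fun p => n p.1) (fun p => step p.1 ((step p.1)^[p.2] (S p.1)))) :
    PolyS D ctx n (fun a => (step a)^[k a] (S a)) := by
  obtain ⟨pn, hpn⟩ := PolyC.length_le hn
  refine ⟨PolyC.natRec (fun a k => msk (n a) ((step a)^[k] (S a))) hk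
    (PolyC.congr hS.1 (fun a _ => rfl)) ?_ ⟨pn, fun a ha j hj => ?_⟩, ?_⟩
  · refine PolyC.congr hstep.1 ?_
    rintro ⟨a, j⟩ _
    simp only [Function.iterate_succ_apply']
  · have h1 := hpn a ha
    rw [un_length] at h1
    rw [msk_length]
    exact h1
  · intro a ha
    beta_reduce
    generalize k a = j
    induction j with
    | zero => exact hS.2 a ha
    | succ j ih =>
      rw [Function.iterate_succ_apply']
      exact hsub a ha _ ih

end Pool.Agent.Lib.Pa7c826
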