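import Pool.Agent.Lib.Pa7c826.BlockCount

/-!
The block graph of a bipartite graph: one block per vertex, and for every pair of vertices four
pendant blocks and five gadgets (active when the pair is an edge).
-/

namespace Pool.Agent.Lib.Pa7c826

/-- blocks -/
abbrev BB (a b : ℕ) : Type := (Fin a ⊕ Fin b) ⊕ ((Fin a × Fin b) × Fin 4)

/-- gadgets -/
abbrev GG (a b : ℕ) : Type := (Fin a × Fin b) × Fin 5

/-- source block of a gadget -/
def bsrc {a b : ℕ} (g : GG a b) : BB a b :=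
  match g.2 with
  | 0 => .inl (.inl g.1.1)
  | 1 => .inl (.inl g.1.1)
  | 2 => .inr (g.1, 0)
  | 3 => .inr (g.1, 2)
  | 4 => .inr (g.1, 3)

/-- target block of a gadget -/
def btgt {a b : ℕ} (g : GG a b) : BB a b :=
  match g.2 with
  | 0 => .inl (.inr g.1.2)
  | 1 => .inr (g.1, 0)
  | 2 => .inr (g.1, 1)
  | 3 => .inl (.inr g.1.2)
  | 4 => .inr (g.1, 2)

theorem bsrc_ne_btgt {a b : ℕ} (g : GG a b) : bsrc g ≠ btgt g := by
  obtain ⟨e, κ⟩ := g
  fin_cases κ <;> simp [bsrc, btgt]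

/-- active gadgets -/
def bact {a b : ℕ} (E : Fin a → Fin b → Prop) (g : GG a b) : Prop := E g.1.1 g.1.2

/-- total weight of the gadgets and pendant blocks of one pair -/
noncomputable def pw (c : ℕ) (A : Prop) (s t : Bool) : ℕ :=
  wt c A s t * (∑ y : Bool, ∑ z : Bool, wt c A s y * wt c A y z) *
    (∑ y : Bool, ∑ z : Bool, wt c A y t * wt c A z y)

/-- sums over four bits -/
theorem sum_four (G : (Fin 4 → Bool) → ℕ) :
    ∑ τ : Fin 4 → Bool, G τ = ∑ y : Bool, ∑ z : Bool, ∑ y' : Bool, ∑ z' : Bool,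
      G ![y, z, y', z'] := by
  let e : Bool × Bool × Bool × Bool ≃ (Fin 4 → Bool) :=
    { toFun := fun p => ![p.1, p.2.1, p.2.2.1, p.2.2.2]
      invFun := fun τ => (τ 0, τ 1, τ 2, τ 3)
      left_inv := fun p => rfl
      right_inv := fun τ => by funext i; fin_cases i <;> rfl }
  rw [← Equiv.sum_comp e, Fintype.sum_prod_type]
  simp only [Fintype.sum_prod_type]
  rfl

theorem sum_blocks {a b : ℕ} (c : ℕ) (E : Fin a → Fin b → Prop) :
    ∑ σ : BB a b → Bool, ∏ g : GG a b, wt c (bact E g) (σ (bsrc g)) (σ (btgt g)) =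
      ∑ p : (Fin a → Bool) × (Fin b → Bool), ∏ e : Fin a × Fin b,
        pw c (E e.1 e.2) (p.1 e.1) (p.2 e.2) := by
  let e1 : ((Fin a → Bool) × (Fin b → Bool)) × (Fin a × Fin b → Fin 4 → Bool) ≃
      (BB a b → Bool) :=
    { toFun := fun q x => match x with
        | .inl (.inl i) => q.1.1 i
        | .inl (.inr j) => q.1.2 j
        | .inr (e, k) => q.2 e k
      invFun := fun σ => ((fun i => σ (.inl (.inl i)), fun j => σ (.inl (.inr j))),
        fun e k => σ (.inr (e, k)))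
      left_inv := fun q => rfl
      right_inv := fun σ => by
        funext x
        rcases x with (i | j) | ⟨e, k⟩ <;> rfl }
  rw [← Equiv.sum_comp e1, Fintype.sum_prod_type]
  refine Finset.sum_congr rfl fun p _ => ?_
  have h1 : ∀ τ : Fin a × Fin b → Fin 4 → Bool,
      ∏ g : GG a b, wt c (bact E g) (e1 (p, τ) (bsrc g)) (e1 (p, τ) (btgt g)) =
      ∏ e : Fin a × Fin b, (wt c (E e.1 e.2) (p.1 e.1) (p.2 e.2) *
        wt c (E e.1 e.2) (p.1 e.1) (τ e 0) * wt c (E e.1 e.2) (τ e 0) (τ e 1) *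
        wt c (E e.1 e.2) (τ e 2) (p.2 e.2) * wt c (E e.1 e.2) (τ e 3) (τ e 2)) := by
    intro τ
    rw [Fintype.prod_prod_type]
    refine Finset.prod_congr rfl fun e _ => ?_
    rw [Fin.prod_univ_five]
    rfl
  simp only [h1]
  have h2 := Finset.prod_univ_sum (fun _ : Fin a × Fin b => (Finset.univ : Finset (Fin 4 → Bool)))
    (fun e τ => wt c (E e.1 e.2) (p.1 e.1) (p.2 e.2) *
        wt c (E e.1 e.2) (p.1 e.1) (τ 0) * wt c (E e.1 e.2) (τ 0) (τ 1) *
        wt c (E e.1 e.2) (τ 2) (p.2 e.2) * wt c (E e.1 e.2) (τ 3) (τ 2))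
  rw [Fintype.piFinset_univ] at h2
  rw [← h2]
  refine Finset.prod_congr rfl fun e _ => ?_
  rw [sum_four]
  unfold pw
  simp only [Fintype.sum_bool, Matrix.cons_val_zero, Matrix.cons_val_one, Matrix.cons_val]
  ring

end Pool.Agent.Lib.Pa7c826
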