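import Pool.Agent.Lib.Pa7c826.Block

/-!
The block graph is regular.
-/

namespace Pool.Agent.Lib.Pa7c826

section

variable {Blk Γ : Type*} {src tgt : Γ → Blk} {act : Γ → Prop} {c f : ℕ}

theorem ncard_fiber [Fintype Γ] (x : Blk) :
    {v : Blk × ((Γ × Fin (c + 1)) ⊕ Fin f) | v.1 = x}.ncard = Fintype.card Γ * (c + 1) + f := by
  have : {v : Blk × ((Γ × Fin (c + 1)) ⊕ Fin f) | v.1 = x} = Set.range (Prod.mk x) := by
    ext ⟨y, s⟩
    simp only [Set.mem_ofPred_eq, Set.mem_range, Prod.mk.injEq]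
    constructor
    · rintro rfl; exact ⟨s, rfl, rfl⟩
    · rintro ⟨_, rfl, _⟩; rfl
  rw [this, Set.ncard_range_of_injective (Prod.mk_right_injective x), Nat.card_eq_fintype_card]
  simp

theorem rdeg [Fintype Blk] [Fintype Γ] (hst : ∀ γ, src γ ≠ tgt γ) (v : Blk × ((Γ × Fin (c + 1)) ⊕ Fin f)) :
    {u | BRel src tgt act c f u v}.ncard = Fintype.card Γ * (c + 1) + f := by
  classical
  rw [← ncard_fiber (Γ := Γ) (c := c) (f := f) v.1]
  rcases hv : v.2 with g | s
  · -- remove one vertex, add another one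
    have key : ∀ (p q : Blk × ((Γ × Fin (c + 1)) ⊕ Fin f)), p.1 = v.1 → q.1 ≠ v.1 →
        {u | BRel src tgt act c f u v} = insert q ({u | u.1 = v.1} \ {p}) →
        {u | BRel src tgt act c f u v}.ncard =
          {u : Blk × ((Γ × Fin (c + 1)) ⊕ Fin f) | u.1 = v.1}.ncard := by
      intro p q hp hq e
      rw [e, Set.ncard_insert_of_notMem (fun h => hq h.1) (Set.toFinite _)]
      exact Set.ncard_sdiff_singleton_add_one hp (Set.toFinite _)
    by_cases h1 : act g.1 ∧ v.1 = src g.1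
    · refine key (v.1, .inl g) (tgt g.1, .inl (g.1, 0)) rfl ?_ ?_
      · rw [h1.2]; exact (hst g.1).symm
      · ext u
        simp only [Set.mem_ofPred_eq, Set.mem_insert_iff, Set.mem_sdiff, Set.mem_singleton_iff]
        unfold BRel
        rw [hv]
        simp only
        constructor
        · rintro (⟨_, _, ⟨h3, h4⟩ | ⟨h3, h4⟩⟩ | ⟨_, h3, _⟩ | ⟨h3, _⟩)
          · exact Or.inr ⟨h3, fun e => h4 (by rw [e])⟩
          · exact Or.inl (Prod.ext h3 h4)
          · exact absurd (h1.2.symm.trans h3) (hst g.1)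
          · exact absurd ⟨h1.1, Or.inl h1.2⟩ h3
        · rintro (h3 | ⟨h3, h4⟩)
          · exact Or.inl ⟨h1.1, h1.2, Or.inr ⟨by rw [h3], by rw [h3]⟩⟩
          · exact Or.inl ⟨h1.1, h1.2, Or.inl ⟨h3, fun e => h4 (Prod.ext h3 e)⟩⟩
    · by_cases h2 : act g.1 ∧ v.1 = tgt g.1
      · refine key (v.1, .inl (g.1, 0)) (src g.1, .inl g) rfl ?_ ?_
        · rw [h2.2]; exact hst g.1
        · ext u
          simp only [Set.mem_ofPred_eq, Set.mem_insert_iff, Set.mem_sdiff, Set.mem_singleton_iff]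
          unfold BRel
          rw [hv]
          simp only
          constructor
          · rintro (⟨h3, h4, _⟩ | ⟨_, _, ⟨h3, h4⟩ | ⟨h3, h4⟩⟩ | ⟨h3, _⟩)
            · exact absurd ⟨h3, h4⟩ h1
            · exact Or.inr ⟨h3, fun e => h4 (by rw [e])⟩
            · exact Or.inl (Prod.ext h3 h4)
            · exact absurd ⟨h2.1, Or.inr h2.2⟩ h3
          · rintro (h3 | ⟨h3, h4⟩)
            · exact Or.inr (Or.inl ⟨h2.1, h2.2, Or.inr ⟨by rw [h3], by rw [h3]⟩⟩)
            · exact Or.inr (Or.inl ⟨h2.1, h2.2, Or.inl ⟨h3, fun e => h4 (Prod.ext h3 e)⟩⟩)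
      · congr 1
        ext u
        simp only [Set.mem_ofPred_eq]
        unfold BRel
        rw [hv]
        simp only
        constructor
        · rintro (⟨h3, h4, _⟩ | ⟨h3, h4, _⟩ | ⟨_, h3⟩)
          · exact absurd ⟨h3, h4⟩ h1
          · exact absurd ⟨h3, h4⟩ h2
          · exact h3
        · intro h3
          refine Or.inr (Or.inr ⟨?_, h3⟩)
          rintro ⟨h4, h5 | h5⟩
          · exact h1 ⟨h4, h5⟩
          · exact h2 ⟨h4, h5⟩
  · congr 1
    ext u
    simp only [Set.mem_ofPred_eq]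
    unfold BRel
    rw [hv]

theorem BRel_same_iff (hst : ∀ γ, src γ ≠ tgt γ) {u v : Blk × ((Γ × Fin (c + 1)) ⊕ Fin f)}
    (h : u.1 = v.1) : BRel src tgt act c f u v ↔
      ¬ ∃ g : Γ × Fin (c + 1), v.2 = .inl g ∧ act g.1 ∧
        ((v.1 = src g.1 ∧ u.2 = .inl g) ∨ (v.1 = tgt g.1 ∧ u.2 = .inl (g.1, 0))) := by
  unfold BRel
  rcases hv : v.2 with g | s'
  · simp only
    constructor
    · rintro hR ⟨g', hg, ha, hh⟩
      simp only [Sum.inl.injEq] at hg
      subst hg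
      rcases hR with (⟨_, h2, ⟨_, h4⟩ | ⟨h3, _⟩⟩ | ⟨_, h2, ⟨_, h4⟩ | ⟨h3, _⟩⟩ | ⟨h2, _⟩)
      · rcases hh with ⟨_, h6⟩ | ⟨h5, _⟩
        · exact h4 h6
        · exact hst _ (h2.symm.trans h5)
      · exact hst _ (h2.symm.trans (h.symm.trans h3))
      · rcases hh with ⟨h5, _⟩ | ⟨_, h6⟩
        · exact hst _ (h5.symm.trans h2)
        · exact h4 h6
      · exact hst _ (h3.symm.trans (h.trans h2))
      · rcases hh with ⟨h5, _⟩ | ⟨h5, _⟩
        · exact h2 ⟨ha, Or.inl h5⟩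
        · exact h2 ⟨ha, Or.inr h5⟩
    · intro hn
      by_cases h1 : act g.1 ∧ v.1 = src g.1
      · exact Or.inl ⟨h1.1, h1.2, Or.inl ⟨h, fun e => hn ⟨g, rfl, h1.1, Or.inl ⟨h1.2, e⟩⟩⟩⟩
      · by_cases h2 : act g.1 ∧ v.1 = tgt g.1
        · exact Or.inr (Or.inl ⟨h2.1, h2.2,
            Or.inl ⟨h, fun e => hn ⟨g, rfl, h2.1, Or.inr ⟨h2.2, e⟩⟩⟩⟩)
        · refine Or.inr (Or.inr ⟨?_, h⟩)
          rintro ⟨h3, h4 | h4⟩
          · exact h1 ⟨h3, h4⟩
          · exact h2 ⟨h3, h4⟩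
  · simp only
    constructor
    · rintro _ ⟨g, hg, _⟩
      simp at hg
    · intro _; exact h

theorem ldeg [Fintype Blk] [Fintype Γ] (hst : ∀ γ, src γ ≠ tgt γ) (u : Blk × ((Γ × Fin (c + 1)) ⊕ Fin f)) :
    {v | BRel src tgt act c f u v}.ncard = Fintype.card Γ * (c + 1) + f := by
  classical
  rw [← ncard_fiber (Γ := Γ) (c := c) (f := f) u.1]
  refine Set.ncard_congr (fun v _ => (u.1, v.2)) (fun v _ => rfl) ?_ ?_
  · -- injective
    have key : ∀ v v' : Blk × ((Γ × Fin (c + 1)) ⊕ Fin f), BRel src tgt act c f u v →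
        BRel src tgt act c f u v' → v.2 = v'.2 → u.1 = v.1 → u.1 = v'.1 := by
      intro v v' hv hv' h2 h1
      by_contra hne
      rw [BRel_diff hne] at hv'
      rw [BRel_same_iff hst h1] at hv
      obtain ⟨g, hg, ha, hh⟩ := hv'
      refine hv ⟨g, h2.trans hg, ha, ?_⟩
      rcases hh with ⟨_, h4, h5⟩ | ⟨_, h4, h5⟩
      · exact Or.inr ⟨h1.symm.trans h4, h5⟩
      · exact Or.inl ⟨h1.symm.trans h4, h5⟩
    intro v v' hv hv' h
    simp only [Prod.mk.injEq, true_and] at h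
    refine Prod.ext ?_ h
    by_cases h1 : u.1 = v.1
    · exact h1.symm.trans (key v v' hv hv' h h1)
    · by_cases h2 : u.1 = v'.1
      · exact absurd (key v' v hv' hv h.symm h2) h1
      · have hv1 := (BRel_diff h1).1 hv
        have hv2 := (BRel_diff h2).1 hv'
        obtain ⟨g, hg, _, hh⟩ := hv1
        obtain ⟨g', hg', _, hh'⟩ := hv2
        have e : g = g' := by
          have := hg.symm.trans (h.trans hg')
          simpa using this
        subst e
        rcases hh with ⟨h3, h4, _⟩ | ⟨h3, h4, _⟩ <;> rcases hh' with ⟨h3', h4', _⟩ | ⟨h3', h4', _⟩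
        · rw [h3, h3']
        · exact absurd (h4'.symm.trans h4) (hst _)
        · exact absurd (h4.symm.trans h4') (hst _)
        · rw [h3, h3']
  · -- surjective
    rintro ⟨x, s⟩ hx
    have hx' : x = u.1 := hx
    subst hx'
    by_cases h : BRel src tgt act c f u (u.1, s)
    · exact ⟨(u.1, s), h, rfl⟩
    · rw [BRel_same_iff hst (u := u) (v := (u.1, s)) rfl, not_not] at h
      obtain ⟨g, hg, ha, hh⟩ := h
      simp only at hg hh
      subst hg
      rcases hh with ⟨h1, h2⟩ | ⟨h1, h2⟩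
      · refine ⟨(tgt g.1, .inl g), ?_, rfl⟩
        show BRel src tgt act c f u (tgt g.1, .inl g)
        rw [BRel_diff (by rw [h1]; exact hst _)]
        exact ⟨g, rfl, ha, Or.inr ⟨rfl, h1, h2⟩⟩
      · refine ⟨(src g.1, .inl g), ?_, rfl⟩
        show BRel src tgt act c f u (src g.1, .inl g)
        rw [BRel_diff (by rw [h1]; exact (hst _).symm)]
        exact ⟨g, rfl, ha, Or.inl ⟨rfl, h1, h2⟩⟩

end

end Pool.Agent.Lib.Pa7c826
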