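import Pool.Agent.Lib.Pa7c826.Indep

/-!
Padding with isolated vertices, and joining with two independent sets of size `t`.
-/

namespace Pool.Agent.Lib.Pa7c826

/-- Add isolated vertices `γ` on the left and `δ` on the right. -/
def pad {α β : Type*} (γ δ : Type*) (E : α → β → Prop) : α ⊕ γ → β ⊕ δ → Prop
  | .inl a, .inl b => E a b
  | _, _ => False

/-- Add `γ` on the left, joined to all of `β`, and `δ` on the right, joined to all of `α`. -/
def cross {α β : Type*} (γ δ : Type*) (E : α → β → Prop) : α ⊕ γ → β ⊕ δ → Prop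
  | .inl a, .inl b => E a b
  | .inl _, .inr _ => True
  | .inr _, .inl _ => True
  | .inr _, .inr _ => False

theorem card_set' (T : Type*) [Finite T] : Nat.card (Set T) = 2 ^ Nat.card T := by
  have := Fintype.ofFinite T
  rw [Nat.card_eq_fintype_card, Nat.card_eq_fintype_card, Fintype.card_set]

theorem cnt_pad {α β γ δ : Type*} [Finite γ] [Finite δ]
    (E : α → β → Prop) :
    cnt (pad γ δ E) = cnt E * 2 ^ (Nat.card γ + Nat.card δ) := by
  classical
  have e : {P : Set (α ⊕ γ) × Set (β ⊕ δ) // ∀ a ∈ P.1, ∀ b ∈ P.2, ¬ pad γ δ E a b} ≃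
      {P : Set α × Set β // ∀ a ∈ P.1, ∀ b ∈ P.2, ¬ E a b} × (Set γ × Set δ) :=
    { toFun := fun P => (⟨(Sum.inl ⁻¹' P.1.1, Sum.inl ⁻¹' P.1.2), fun a ha b hb =>
          P.2 (Sum.inl a) ha (Sum.inl b) hb⟩, (Sum.inr ⁻¹' P.1.1, Sum.inr ⁻¹' P.1.2))
      invFun := fun Q => ⟨(Sum.inl '' Q.1.1.1 ∪ Sum.inr '' Q.2.1,
          Sum.inl '' Q.1.1.2 ∪ Sum.inr '' Q.2.2), by
            rintro (a | a) ha (b | b) hb
            · exact Q.1.2 a (by simpa using ha) b (by simpa using hb)
            · exact fun h => h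
            · exact fun h => h
            · exact fun h => h⟩
      left_inv := by
        rintro ⟨⟨P, Q⟩, h⟩
        apply Subtype.ext
        refine Prod.ext ?_ ?_
        · ext x; rcases x with x | x <;> simp
        · ext x; rcases x with x | x <;> simp
      right_inv := by
        rintro ⟨⟨⟨P, Q⟩, h⟩, ⟨P', Q'⟩⟩
        refine Prod.ext (Subtype.ext (Prod.ext ?_ ?_)) (Prod.ext ?_ ?_)
        · ext x; simp
        · ext x; simp
        · ext x; simp
        · ext x; simp }
  unfold cnt
  rw [Nat.card_congr e, Nat.card_prod, Nat.card_prod, card_set', card_set', pow_add]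

theorem sum_set_ite {γ : Type*} [Fintype γ] [DecidableEq γ] (x y : ℕ) :
    ∑ S : Set γ, (open Classical in if S = ∅ then x else y) =
      x + (2 ^ Fintype.card γ - 1) * y := by
  classical
  rw [Fintype.sum_eq_add_sum_compl (∅ : Set γ), if_pos rfl]
  congr 1
  rw [Finset.sum_congr rfl (g := fun _ => y)]
  · rw [Finset.sum_const, Finset.card_compl, Finset.card_singleton, Fintype.card_set,
      smul_eq_mul]
  · intro S hS
    rw [if_neg]
    simpa using hS

theorem cnt_cross {α β γ δ : Type*} [Fintype α] [Fintype β] [Fintype γ] [Fintype δ]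
    (E : α → β → Prop) :
    cnt (cross γ δ E) = cnt E + (2 ^ Fintype.card δ - 1) * 2 ^ Fintype.card β +
      (2 ^ Fintype.card γ - 1) * (2 ^ Fintype.card α + (2 ^ Fintype.card δ - 1)) := by
  classical
  let cond : Set γ × Set δ → Set α × Set β → Prop := fun c P =>
    (∀ a ∈ P.1, ∀ b ∈ P.2, ¬ E a b) ∧ (c.1 ≠ ∅ → P.2 = ∅) ∧ (c.2 ≠ ∅ → P.1 = ∅)
  have e0 : {P : Set (α ⊕ γ) × Set (β ⊕ δ) // ∀ a ∈ P.1, ∀ b ∈ P.2, ¬ cross γ δ E a b} ≃
      {x : (Set γ × Set δ) × (Set α × Set β) // cond x.1 x.2} :=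
    { toFun := fun P => ⟨((Sum.inr ⁻¹' P.1.1, Sum.inr ⁻¹' P.1.2),
        (Sum.inl ⁻¹' P.1.1, Sum.inl ⁻¹' P.1.2)), fun a ha b hb =>
          P.2 (Sum.inl a) ha (Sum.inl b) hb, by
            intro h
            obtain ⟨x, hx⟩ := Set.nonempty_iff_ne_empty.2 h
            rw [Set.eq_empty_iff_forall_notMem]
            intro b hb
            exact P.2 (Sum.inr x) hx (Sum.inl b) hb trivial, by
            intro h
            obtain ⟨x, hx⟩ := Set.nonempty_iff_ne_empty.2 h
            rw [Set.eq_empty_iff_forall_notMem]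
            intro a ha
            exact P.2 (Sum.inl a) ha (Sum.inr x) hx trivial⟩
      invFun := fun Q => ⟨(Sum.inl '' Q.1.2.1 ∪ Sum.inr '' Q.1.1.1,
          Sum.inl '' Q.1.2.2 ∪ Sum.inr '' Q.1.1.2), by
            obtain ⟨⟨⟨S, U⟩, ⟨P1, P2⟩⟩, h1, h2, h3⟩ := Q
            rintro (a | a) ha (b | b) hb
            · exact h1 a (by simpa using ha) b (by simpa using hb)
            · have hb' : b ∈ U := by simpa using hb
              have ha' : a ∈ P1 := by simpa using ha
              have : P1 = ∅ := h3 (Set.nonempty_iff_ne_empty.1 ⟨b, hb'⟩)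
              rw [this] at ha'
              exact absurd ha' (Set.notMem_empty a)
            · have hb' : b ∈ P2 := by simpa using hb
              have ha' : a ∈ S := by simpa using ha
              have : P2 = ∅ := h2 (Set.nonempty_iff_ne_empty.1 ⟨a, ha'⟩)
              rw [this] at hb'
              exact absurd hb' (Set.notMem_empty b)
            · exact fun h => h⟩
      left_inv := by
        rintro ⟨⟨P, Q⟩, h⟩
        apply Subtype.ext
        refine Prod.ext ?_ ?_
        · ext x; rcases x with x | x <;> simp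
        · ext x; rcases x with x | x <;> simp
      right_inv := by
        rintro ⟨⟨⟨S, U⟩, ⟨P1, P2⟩⟩, h⟩
        apply Subtype.ext
        refine Prod.ext (Prod.ext ?_ ?_) (Prod.ext ?_ ?_)
        · ext x; simp
        · ext x; simp
        · ext x; simp
        · ext x; simp }
  have e := e0.trans (Equiv.subtypeProdEquivSigmaSubtype cond)
  have hcard : ∀ S : Set γ, ∀ U : Set δ, Nat.card {P : Set α × Set β // cond (S, U) P} =
      if S = ∅ then (if U = ∅ then cnt E else 2 ^ Fintype.card β)
        else (if U = ∅ then 2 ^ Fintype.card α else 1) := by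
    intro S U
    by_cases hS : S = ∅ <;> by_cases hU : U = ∅
    · rw [if_pos hS, if_pos hU]
      refine Nat.card_congr (Equiv.subtypeEquivRight ?_)
      intro P
      simp [cond, hS, hU]
    · rw [if_pos hS, if_neg hU]
      rw [← Fintype.card_set, ← Nat.card_eq_fintype_card]
      refine Nat.card_congr
        { toFun := fun P => P.1.2
          invFun := fun Q => ⟨(∅, Q), by simp [cond, hS]⟩
          left_inv := ?_
          right_inv := fun Q => rfl }
      rintro ⟨⟨P1, P2⟩, h1, h2, h3⟩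
      have : P1 = ∅ := h3 hU
      subst this
      rfl
    · rw [if_neg hS, if_pos hU]
      rw [← Fintype.card_set, ← Nat.card_eq_fintype_card]
      refine Nat.card_congr
        { toFun := fun P => P.1.1
          invFun := fun Q => ⟨(Q, ∅), by simp [cond, hU]⟩
          left_inv := ?_
          right_inv := fun Q => rfl }
      rintro ⟨⟨P1, P2⟩, h1, h2, h3⟩
      have : P2 = ∅ := h2 hS
      subst this
      rfl
    · rw [if_neg hS, if_neg hU]
      rw [Nat.card_eq_one_iff_unique]
      refine ⟨⟨?_⟩, ⟨⟨(∅, ∅), by simp [cond]⟩⟩⟩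
      rintro ⟨⟨P1, P2⟩, h1, h2, h3⟩ ⟨⟨P1', P2'⟩, h1', h2', h3'⟩
      have e1 : P1 = ∅ := h3 hU
      have e2 : P2 = ∅ := h2 hS
      have e3 : P1' = ∅ := h3' hU
      have e4 : P2' = ∅ := h2' hS
      subst e1 e2 e3 e4
      rfl
  unfold cnt at hcard ⊢
  rw [Nat.card_congr e, Nat.card_sigma, Fintype.sum_prod_type]
  simp only [hcard]
  have : ∀ S : Set γ, ∑ U : Set δ,
      (if S = ∅ then (if U = ∅ then Nat.card {P : Set α × Set β // ∀ a ∈ P.1, ∀ b ∈ P.2, ¬ E a b}
        else 2 ^ Fintype.card β) else (if U = ∅ then 2 ^ Fintype.card α else 1)) =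
      if S = ∅ then (Nat.card {P : Set α × Set β // ∀ a ∈ P.1, ∀ b ∈ P.2, ¬ E a b} +
        (2 ^ Fintype.card δ - 1) * 2 ^ Fintype.card β) else
        (2 ^ Fintype.card α + (2 ^ Fintype.card δ - 1) * 1) := by
    intro S
    by_cases hS : S = ∅
    · simp only [if_pos hS]
      convert sum_set_ite (γ := δ) _ _
    · simp only [if_neg hS]
      convert sum_set_ite (γ := δ) _ _
  simp only [this]
  have h2 := sum_set_ite (γ := γ) (Nat.card {P : Set α × Set β // ∀ a ∈ P.1, ∀ b ∈ P.2, ¬ E a b} +
        (2 ^ Fintype.card δ - 1) * 2 ^ Fintype.card β)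
        (2 ^ Fintype.card α + (2 ^ Fintype.card δ - 1) * 1)
  rw [mul_one] at h2 ⊢
  convert h2

end Pool.Agent.Lib.Pa7c826
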