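import Pool.Agent.Lib.Pa7c826.Transfer
import Pool.Agent.Lib.Pa7c826.Dense
import Pool.Agent.Lib.Pa7c826.Fptas

/-!
The reduction to dense almost regular bipartite graphs, at the level of strings.
-/

namespace Pool.Agent.Lib.Pa7c826

open Pool.Agent.Lib.PolyTime

theorem cnt_congr {α β α' β' : Type*} {E : α → β → Prop} {E' : α' → β' → Prop}
    (eα : α ≃ α') (eβ : β ≃ β') (h : ∀ x y, E x y ↔ E' (eα x) (eβ y)) : cnt E = cnt E' := by
  refine Nat.card_congr (Equiv.subtypeEquiv (Equiv.prodCongr (Equiv.Set.congr eα)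
    (Equiv.Set.congr eβ)) ?_)
  rintro ⟨P, Q⟩
  simp only [Equiv.prodCongr_apply, Prod.map_apply, Equiv.Set.congr_apply, Set.forall_mem_image]
  exact forall₂_congr fun a _ => forall₂_congr fun b _ => not_congr (h a b)

/-- adjacency function of the new graph -/
def F1 (a b P Q : ℕ) (F : ℕ → ℕ → Bool) (i j : ℕ) : Bool :=
  (decide (i < a) && decide (j < b) && F i j) ||
    ((decide (i < a + P) && decide (b + Q ≤ j)) || (decide (a + P ≤ i) && decide (j < b + Q)))

/-- numbering of the vertices of one side -/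
def sideEquiv (a P T : ℕ) : (Fin a ⊕ Fin P) ⊕ Fin T ≃ Fin (a + P + T) :=
  (Equiv.sumCongr finSumFinEquiv (Equiv.refl _)).trans finSumFinEquiv

theorem sideEquiv_old (a P T : ℕ) (x : Fin a) :
    (sideEquiv a P T (.inl (.inl x)) : ℕ) = x := by
  simp [sideEquiv]

theorem sideEquiv_pad (a P T : ℕ) (x : Fin P) :
    (sideEquiv a P T (.inl (.inr x)) : ℕ) = a + x := by
  simp [sideEquiv]

theorem sideEquiv_block (a P T : ℕ) (x : Fin T) :
    (sideEquiv a P T (.inr x) : ℕ) = a + P + x := by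
  simp [sideEquiv]

theorem F1_iff {a b P Q T : ℕ} (F : ℕ → ℕ → Bool) (x : (Fin a ⊕ Fin P) ⊕ Fin T)
    (y : (Fin b ⊕ Fin Q) ⊕ Fin T) :
    cross (Fin T) (Fin T) (pad (Fin P) (Fin Q) (fun (i : Fin a) (j : Fin b) => F i j = true)) x y ↔
      F1 a b P Q F (sideEquiv a P T x) (sideEquiv b Q T y) = true := by
  rcases x with (x | x) | x <;> rcases y with (y | y) | y <;>
    simp only [sideEquiv_old, sideEquiv_pad, sideEquiv_block, F1, cross, pad] <;>
    have hx := x.2 <;> have hy := y.2 <;>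
    simp only [Bool.or_eq_true, Bool.and_eq_true, decide_eq_true_eq]
  · constructor
    · intro h
      exact Or.inl ⟨⟨hx, hy⟩, h⟩
    · rintro (h | h | h)
      · exact h.2
      · omega
      · omega
  · constructor
    · intro h; exact h.elim
    · rintro (h | h | h) <;> omega
  · constructor
    · intro _; right; left; omega
    · intro _; trivial
  · constructor
    · intro h; exact h.elim
    · rintro (h | h | h) <;> omega
  · constructor
    · intro h; exact h.elim
    · rintro (h | h | h) <;> omega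
  · constructor
    · intro _; right; left; omega
    · intro _; trivial
  · constructor
    · intro _; right; right; omega
    · intro _; trivial
  · constructor
    · intro _; right; right; omega
    · intro _; trivial
  · constructor
    · intro h; exact h.elim
    · rintro (h | h | h) <;> omega

/-! ### Degrees -/

theorem ncard_pad_le {α β γ δ : Type*} [Finite β] [Finite δ] (E : α → β → Prop) (x : α ⊕ γ) :
    {y : β ⊕ δ | pad γ δ E x y}.ncard ≤ Nat.card β := by
  have : {y : β ⊕ δ | pad γ δ E x y} ⊆ Set.range (Sum.inl : β → β ⊕ δ) := by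
    rintro (y | y) hy
    · exact ⟨y, rfl⟩
    · rcases x with x | x <;> exact hy.elim
  refine (Set.ncard_le_ncard this (Set.toFinite _)).trans ?_
  rw [Set.ncard_range_of_injective Sum.inl_injective]

theorem ncard_cross_old {α β γ δ : Type*} [Finite β] [Finite δ] (E : α → β → Prop) (x : α) :
    {y : β ⊕ δ | cross γ δ E (.inl x) y}.ncard = {y | E x y}.ncard + Nat.card δ := by
  have : {y : β ⊕ δ | cross γ δ E (.inl x) y} = Sum.inl '' {y | E x y} ∪ Set.range Sum.inr := by
    ext y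
    rcases y with y | y
    · simp [cross]
    · simp [cross]
  rw [this, Set.ncard_union_eq _ (Set.toFinite _) (Set.toFinite _),
    Set.ncard_image_of_injective _ Sum.inl_injective,
    Set.ncard_range_of_injective Sum.inr_injective]
  rw [Set.disjoint_iff_forall_ne]
  rintro _ ⟨a, _, rfl⟩ _ ⟨b, rfl⟩
  simp

theorem ncard_cross_new {α β γ δ : Type*} [Finite β] [Finite δ] (E : α → β → Prop) (x : γ) :
    {y : β ⊕ δ | cross γ δ E (.inr x) y}.ncard = Nat.card β := by
  have : {y : β ⊕ δ | cross γ δ E (.inr x) y} = Set.range Sum.inl := by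
    ext y
    rcases y with y | y
    · simp [cross]
    · simp [cross]
  rw [this, Set.ncard_range_of_injective Sum.inl_injective]

theorem cross_swap {α β γ δ : Type*} (E : α → β → Prop) (x : α ⊕ γ) (y : β ⊕ δ) :
    cross γ δ E x y ↔ cross δ γ (fun b a => E a b) y x := by
  rcases x with x | x <;> rcases y with y | y <;> simp [cross]

theorem pad_swap {α β γ δ : Type*} (E : α → β → Prop) :
    (fun b a => pad γ δ E a b) = pad δ γ (fun b a => E a b) := by
  funext y x
  rcases x with x | x <;> rcases y with y | y <;> simp [pad]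

theorem rowDeg_mkGraph {α β : Type*} {a b : ℕ} {F : ℕ → ℕ → Bool} {E : α → β → Prop}
    (eα : α ≃ Fin a) (eβ : β ≃ Fin b) (h : ∀ x y, E x y ↔ F (eα x) (eβ y) = true) (x : α) :
    (mkGraph a b F).rowDeg (eα x) = {y | E x y}.ncard := by
  unfold BGraph.rowDeg mkGraph
  rw [← Set.ncard_coe_finset]
  have : (↑(Finset.univ.filter fun j : Fin b => F (eα x) j = true) : Set (Fin b)) =
      eβ '' {y | E x y} := by
    ext j
    simp only [Finset.coe_filter, Finset.mem_univ, true_and, Set.mem_ofPred_eq, Set.mem_image]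
    constructor
    · intro hj
      exact ⟨eβ.symm j, by rw [h, Equiv.apply_symm_apply]; exact hj, by simp⟩
    · rintro ⟨y, hy, rfl⟩
      exact (h x y).1 hy
  simp only [this]
  exact Set.ncard_image_of_injective _ eβ.injective

theorem colDeg_mkGraph {α β : Type*} {a b : ℕ} {F : ℕ → ℕ → Bool} {E : α → β → Prop}
    (eα : α ≃ Fin a) (eβ : β ≃ Fin b) (h : ∀ x y, E x y ↔ F (eα x) (eβ y) = true) (y : β) :
    (mkGraph a b F).colDeg (eβ y) = {x | E x y}.ncard := by
  unfold BGraph.colDeg mkGraph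
  rw [← Set.ncard_coe_finset]
  have : (↑(Finset.univ.filter fun i : Fin a => F i (eβ y) = true) : Set (Fin a)) =
      eα '' {x | E x y} := by
    ext j
    simp only [Finset.coe_filter, Finset.mem_univ, true_and, Set.mem_ofPred_eq, Set.mem_image]
    constructor
    · intro hj
      exact ⟨eα.symm j, by rw [h, Equiv.apply_symm_apply]; exact hj, by simp⟩
    · rintro ⟨x, hx, rfl⟩
      exact (h x y).1 hx
  simp only [this]
  exact Set.ncard_image_of_injective _ eα.injective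

theorem numIndep_mkGraph {α β : Type*} {a b : ℕ} {F : ℕ → ℕ → Bool} {E : α → β → Prop}
    (eα : α ≃ Fin a) (eβ : β ≃ Fin b) (h : ∀ x y, E x y ↔ F (eα x) (eβ y) = true) :
    numIndep (mkGraph a b F).graph = cnt E := by
  unfold BGraph.graph
  rw [numIndep_bip]
  exact (cnt_congr eα eβ h).symm

/-! ### The reduction -/

/-- the excess -/
def exc (a b p : ℕ) : ℕ := a + b + p + 2

/-- size of the blocks -/
def blk (k a b p : ℕ) : ℕ := exc a b p ^ k

/-- the adjacency function of the input graph -/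
def BGraph.F (G : BGraph) (i j : ℕ) : Bool :=
  if h : i < G.a ∧ j < G.b then G.E ⟨i, h.1⟩ ⟨j, h.2⟩ else false

theorem BGraph.F_eq (G : BGraph) (i : Fin G.a) (j : Fin G.b) : G.F i j = G.E i j := by
  unfold BGraph.F
  rw [dif_pos ⟨i.2, j.2⟩]

/-- the new graph -/
def red1 (k : ℕ) (G : BGraph) (t : ℕ) : BGraph :=
  let T := blk k G.a G.b (2 * t)
  mkGraph (G.a + (T + G.b + 2 * t + 2) + T) (G.b + (T + G.a + 2 * t + 2) + T)
    (F1 G.a G.b (T + G.b + 2 * t + 2) (T + G.a + 2 * t + 2) G.F)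

/-- the exponent -/
def K1 (k : ℕ) (G : BGraph) (t : ℕ) : ℕ :=
  2 * blk k G.a G.b (2 * t) + G.a + G.b + 2 * (2 * t) + 4

theorem cnt_red1 (a b p T : ℕ) (E : Fin a → Fin b → Prop) :
    cnt (cross (Fin T) (Fin T) (pad (Fin (T + b + p + 2)) (Fin (T + a + p + 2)) E)) =
      cnt E * 2 ^ (2 * T + a + b + 2 * p + 4) + (2 ^ T - 1) * 2 ^ (T + a + b + p + 2) +
      (2 ^ T - 1) * (2 ^ (T + a + b + p + 2) + (2 ^ T - 1)) := by
  rw [cnt_cross, cnt_pad]
  simp only [Fintype.card_sum, Fintype.card_fin, Nat.card_fin]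
  have e1 : T + b + p + 2 + (T + a + p + 2) = 2 * T + a + b + 2 * p + 4 := by ring
  rw [e1]
  have e2 : b + (T + a + p + 2) = T + a + b + p + 2 := by ring
  have e3 : a + (T + b + p + 2) = T + a + b + p + 2 := by ring
  rw [e2, e3]

theorem cnt_red1_le (a b p T : ℕ) (E : Fin a → Fin b → Prop) :
    2 ^ p * cnt (cross (Fin T) (Fin T) (pad (Fin (T + b + p + 2)) (Fin (T + a + p + 2)) E)) ≤
      2 ^ (2 * T + a + b + 2 * p + 4) * (2 ^ p * cnt E + 1) := by
  rw [cnt_red1]
  have h1 : (2 ^ T - 1) * 2 ^ (T + a + b + p + 2) ≤ 2 ^ T * 2 ^ (T + a + b + p + 2) :=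
    Nat.mul_le_mul_right _ (Nat.sub_le _ _)
  have h2 : (2 ^ T - 1) * (2 ^ (T + a + b + p + 2) + (2 ^ T - 1)) ≤
      2 ^ T * (2 ^ (T + a + b + p + 2) + 2 ^ T) :=
    Nat.mul_le_mul (Nat.sub_le _ _) (Nat.add_le_add_left (Nat.sub_le _ _) _)
  have h3 : 2 ^ p * (2 ^ T * 2 ^ (T + a + b + p + 2)) = 2 ^ (2 * T + a + b + 2 * p + 2) := by
    rw [← pow_add, ← pow_add]; congr 1; ring
  have h4 : 2 ^ p * (2 ^ T * 2 ^ T) ≤ 2 ^ (2 * T + a + b + 2 * p + 2) := by
    rw [← pow_add, ← pow_add]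
    exact Nat.pow_le_pow_right (by norm_num) (by omega)
  have h5 : 2 ^ (2 * T + a + b + 2 * p + 4) = 4 * 2 ^ (2 * T + a + b + 2 * p + 2) := by
    rw [show 2 * T + a + b + 2 * p + 4 = (2 * T + a + b + 2 * p + 2) + 2 by ring, pow_add]
    norm_num
    ring
  calc 2 ^ p * (cnt E * 2 ^ (2 * T + a + b + 2 * p + 4) +
        (2 ^ T - 1) * 2 ^ (T + a + b + p + 2) +
        (2 ^ T - 1) * (2 ^ (T + a + b + p + 2) + (2 ^ T - 1)))
      ≤ 2 ^ p * (cnt E * 2 ^ (2 * T + a + b + 2 * p + 4) +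
        2 ^ T * 2 ^ (T + a + b + p + 2) +
        2 ^ T * (2 ^ (T + a + b + p + 2) + 2 ^ T)) :=
        Nat.mul_le_mul_left _ (Nat.add_le_add (Nat.add_le_add_left h1 _) h2)
    _ = 2 ^ p * cnt E * 2 ^ (2 * T + a + b + 2 * p + 4) +
        2 ^ p * (2 ^ T * 2 ^ (T + a + b + p + 2)) +
        2 ^ p * (2 ^ T * 2 ^ (T + a + b + p + 2)) + 2 ^ p * (2 ^ T * 2 ^ T) := by ring
    _ ≤ 2 ^ p * cnt E * 2 ^ (2 * T + a + b + 2 * p + 4) +
        2 ^ (2 * T + a + b + 2 * p + 2) + 2 ^ (2 * T + a + b + 2 * p + 2) +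
        2 ^ (2 * T + a + b + 2 * p + 2) := by
        rw [h3]
        exact Nat.add_le_add_left h4 _
    _ ≤ 2 ^ p * cnt E * 2 ^ (2 * T + a + b + 2 * p + 4) +
        2 ^ (2 * T + a + b + 2 * p + 4) := by rw [h5]; omega
    _ = 2 ^ (2 * T + a + b + 2 * p + 4) * (2 ^ p * cnt E + 1) := by ring

/-- the abstract relation of the reduction -/
abbrev rel1 (G : BGraph) (p T : ℕ) :=
  cross (Fin T) (Fin T) (pad (Fin (T + G.b + p + 2)) (Fin (T + G.a + p + 2))
    (fun (i : Fin G.a) (j : Fin G.b) => G.F i j = true))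

theorem rel1_iff (k : ℕ) (G : BGraph) (t : ℕ) (x y) :
    rel1 G (2 * t) (blk k G.a G.b (2 * t)) x y ↔
      F1 G.a G.b (blk k G.a G.b (2 * t) + G.b + 2 * t + 2)
        (blk k G.a G.b (2 * t) + G.a + 2 * t + 2) G.F
        (sideEquiv G.a _ _ x) (sideEquiv G.b _ _ y) = true :=
  F1_iff G.F x y

theorem numIndep_red1 (k : ℕ) (G : BGraph) (t : ℕ) :
    numIndep (red1 k G t).graph = cnt (rel1 G (2 * t) (blk k G.a G.b (2 * t))) :=
  numIndep_mkGraph _ _ (rel1_iff k G t)

theorem cnt_graph (G : BGraph) :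
    cnt (fun (i : Fin G.a) (j : Fin G.b) => G.F i j = true) = numIndep G.graph := by
  unfold BGraph.graph
  rw [numIndep_bip]
  congr 1
  funext i j
  rw [G.F_eq]

theorem red1_lower (k : ℕ) (G : BGraph) (t : ℕ) :
    (numIndep G.graph : ℚ) ≤ numIndep (red1 k G t).graph / 2 ^ K1 k G t := by
  rw [le_div_iff₀ (by positivity)]
  rw [numIndep_red1, cnt_red1, cnt_graph]
  unfold K1
  have : numIndep G.graph * 2 ^ (2 * blk k G.a G.b (2 * t) + G.a + G.b + 2 * (2 * t) + 4) ≤
    numIndep G.graph * 2 ^ (2 * blk k G.a G.b (2 * t) + G.a + G.b + 2 * (2 * t) + 4) +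
      (2 ^ blk k G.a G.b (2 * t) - 1) * 2 ^ (blk k G.a G.b (2 * t) + G.a + G.b + 2 * t + 2) +
      (2 ^ blk k G.a G.b (2 * t) - 1) * (2 ^ (blk k G.a G.b (2 * t) + G.a + G.b + 2 * t + 2) +
        (2 ^ blk k G.a G.b (2 * t) - 1)) := by omega
  exact_mod_cast this

theorem one_le_numIndep (G : BGraph) : 1 ≤ numIndep G.graph := by
  rw [← ind_eq_numIndep G 0]
  exact ind_pos _

theorem red1_upper (k : ℕ) (G : BGraph) (t : ℕ) :
    (numIndep (red1 k G t).graph : ℚ) / 2 ^ K1 k G t ≤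
      numIndep G.graph + numIndep G.graph / (2 * t + 1) := by
  rw [div_le_iff₀ (by positivity), numIndep_red1]
  have h1 := cnt_red1_le G.a G.b (2 * t) (blk k G.a G.b (2 * t))
    (fun (i : Fin G.a) (j : Fin G.b) => G.F i j = true)
  rw [cnt_graph] at h1
  have h2 : ((2 : ℚ) ^ (2 * t)) * cnt (rel1 G (2 * t) (blk k G.a G.b (2 * t))) ≤
      2 ^ K1 k G t * (2 ^ (2 * t) * numIndep G.graph + 1) := by
    unfold K1
    exact_mod_cast h1
  have h3 : (2 * t + 1 : ℚ) ≤ 2 ^ (2 * t) := by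
    have : 2 * t + 1 ≤ 2 ^ (2 * t) := Nat.lt_two_pow_self
    exact_mod_cast this
  have h4 : (1 : ℚ) ≤ numIndep G.graph := by exact_mod_cast one_le_numIndep G
  have hpos : (0 : ℚ) < 2 ^ (2 * t) := by positivity
  have hK : (0 : ℚ) < 2 ^ K1 k G t := by positivity
  have h5 : (cnt (rel1 G (2 * t) (blk k G.a G.b (2 * t))) : ℚ) ≤
      2 ^ K1 k G t * (numIndep G.graph + 1 / 2 ^ (2 * t)) := by
    have e : (2 : ℚ) ^ K1 k G t * (2 ^ (2 * t) * numIndep G.graph + 1) =
      2 ^ (2 * t) * (2 ^ K1 k G t * (numIndep G.graph + 1 / 2 ^ (2 * t))) := by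
      field_simp
    rw [e] at h2
    exact le_of_mul_le_mul_left h2 hpos
  refine h5.trans ?_
  rw [mul_comm]
  refine mul_le_mul_of_nonneg_right ?_ hK.le
  have h6 : (1 : ℚ) / 2 ^ (2 * t) ≤ numIndep G.graph / (2 * t + 1) := by
    have h7 : (1 : ℚ) / 2 ^ (2 * t) ≤ 1 / (2 * t + 1) :=
      one_div_le_one_div_of_le (by positivity) h3
    have h8 : (1 : ℚ) / (2 * t + 1) ≤ numIndep G.graph / (2 * t + 1) :=
      div_le_div_of_nonneg_right h4 (by positivity)
    exact h7.trans h8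
  linarith

theorem rel1_degree (G : BGraph) (p T : ℕ) (x) :
    T ≤ {y | rel1 G p T x y}.ncard ∧ {y | rel1 G p T x y}.ncard ≤ T + exc G.a G.b p := by
  unfold exc
  rcases x with x | x
  · rw [ncard_cross_old]
    have h1 := ncard_pad_le (γ := Fin (T + G.b + p + 2)) (δ := Fin (T + G.a + p + 2))
      (fun (i : Fin G.a) (j : Fin G.b) => G.F i j = true) x
    rw [Nat.card_fin] at h1 ⊢
    omega
  · rw [ncard_cross_new, Nat.card_sum, Nat.card_fin, Nat.card_fin]
    omega

theorem rel1_degree' (G : BGraph) (p T : ℕ) (y) :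
    T ≤ {x | rel1 G p T x y}.ncard ∧ {x | rel1 G p T x y}.ncard ≤ T + exc G.a G.b p := by
  have e : {x | rel1 G p T x y} = {x | cross (Fin T) (Fin T)
      (pad (Fin (T + G.a + p + 2)) (Fin (T + G.b + p + 2))
        (fun (j : Fin G.b) (i : Fin G.a) => G.F i j = true)) y x} := by
    ext x
    simp only [Set.mem_ofPred_eq]
    rw [cross_swap, pad_swap]
  rw [e]
  unfold exc
  rcases y with y | y
  · rw [ncard_cross_old]
    have h1 := ncard_pad_le (γ := Fin (T + G.a + p + 2)) (δ := Fin (T + G.b + p + 2))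
      (fun (j : Fin G.b) (i : Fin G.a) => G.F i j = true) y
    rw [Nat.card_fin] at h1 ⊢
    omega
  · rw [ncard_cross_new, Nat.card_sum, Nat.card_fin, Nat.card_fin]
    omega

theorem red1_class (k : ℕ) (G : BGraph) (t : ℕ) : NearHalf k (red1 k G t) := by
  set T := blk k G.a G.b (2 * t) with hT
  set r := exc G.a G.b (2 * t) with hr
  have hrT : r ^ k = T := rfl
  have hN : G.a + (T + G.b + 2 * t + 2) + T = 2 * T + r := by
    rw [hr]; unfold exc; ring
  have key : ∀ d : ℕ, T ≤ d → d ≤ T + r →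
      (2 * (d : ℤ) - ((G.a + (T + G.b + 2 * t + 2) + T : ℕ) : ℤ)).natAbs ^ k ≤
        G.a + (T + G.b + 2 * t + 2) + T := by
    intro d h1 h2
    rw [hN]
    have h3 : (2 * (d : ℤ) - ((2 * T + r : ℕ) : ℤ)).natAbs ≤ r := by omega
    calc _ ≤ r ^ k := Nat.pow_le_pow_left h3 k
      _ = T := hrT
      _ ≤ _ := by omega
  refine ⟨?_, ?_, ?_⟩
  · show G.a + (T + G.b + 2 * t + 2) + T = G.b + (T + G.a + 2 * t + 2) + T
    ring
  · intro i
    obtain ⟨x, hx⟩ := (sideEquiv G.a (T + G.b + 2 * t + 2) T).surjective i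
    have h1 := rowDeg_mkGraph (sideEquiv G.a (T + G.b + 2 * t + 2) T)
      (sideEquiv G.b (T + G.a + 2 * t + 2) T) (rel1_iff k G t) x
    have h2 := rel1_degree G (2 * t) T x
    have h3 : (red1 k G t).rowDeg i = {y | rel1 G (2 * t) T x y}.ncard := by
      rw [← hx]; exact h1
    rw [h3]
    exact key _ h2.1 h2.2
  · intro j
    obtain ⟨y, hy⟩ := (sideEquiv G.b (T + G.a + 2 * t + 2) T).surjective j
    have h1 := colDeg_mkGraph (sideEquiv G.a (T + G.b + 2 * t + 2) T)
      (sideEquiv G.b (T + G.a + 2 * t + 2) T) (rel1_iff k G t) y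
    have h2 := rel1_degree' G (2 * t) T y
    have h3 : (red1 k G t).colDeg j = {x | rel1 G (2 * t) T x y}.ncard := by
      rw [← hy]; exact h1
    rw [h3]
    exact key _ h2.1 h2.2

/-! ### Computability -/

theorem F_of_inCode (G : BGraph) (t i j : ℕ) :
    G.F i j = (decide (i < aOf (inCode G t)) && decide (j < bOf (inCode G t)) &&
      eOf (inCode G t) i j) := by
  rw [aOf_inCode, bOf_inCode]
  unfold BGraph.F
  by_cases h : i < G.a ∧ j < G.b
  · rw [dif_pos h, decide_eq_true h.1, decide_eq_true h.2]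
    have := eOf_inCode G t ⟨i, h.1⟩ ⟨j, h.2⟩
    simp only at this
    rw [this]
    rfl
  · rw [dif_neg h]
    rw [not_and_or] at h
    rcases h with h | h
    · rw [decide_eq_false h]; rfl
    · rw [decide_eq_false h]; simp

section

variable {α : Type*} {D : α → Prop} {ctx : List (α → List Bool)} {G : α → BGraph} {s : α → ℕ}
  {u v : α → ℕ}

theorem poly_a (hw : PolyC D ctx (fun x => inCode (G x) (s x))) :
    PolyN D ctx (fun x => (G x).a) := (poly_aOf hw).congr (fun _ _ => aOf_inCode _ _)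

theorem poly_b (hw : PolyC D ctx (fun x => inCode (G x) (s x))) :
    PolyN D ctx (fun x => (G x).b) := (poly_bOf hw).congr (fun _ _ => bOf_inCode _ _)

theorem poly_s (hw : PolyC D ctx (fun x => inCode (G x) (s x))) :
    PolyN D ctx s := (poly_tOf hw).congr (fun _ _ => tOf_inCode _ _)

theorem poly_F (hw : PolyC D ctx (fun x => inCode (G x) (s x))) (hu : PolyN D ctx u)
    (hv : PolyN D ctx v) : PolyB D ctx (fun x => (G x).F (u x) (v x)) :=
  (((PolyB.lt hu (poly_aOf hw)).and (PolyB.lt hv (poly_bOf hw))).and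
    (poly_eOf hw hu hv)).congr (fun _ _ => (F_of_inCode _ _ _ _).symm)

end

theorem poly_red1 (k : ℕ) (D : BGraph × ℕ → Prop) :
    PolyC D [fun x => inCode x.1 x.2] (fun x => inCode (red1 k x.1 x.2) (2 * x.2)) := by
  have hw : PolyC D [fun x => inCode x.1 x.2] (fun x => inCode x.1 x.2) := PolyC.var (by simp)
  have ha := poly_a hw
  have hb := poly_b hw
  have ht := poly_s hw
  have h2t := (PolyN.const 2).mul ht
  have hT : PolyN D [fun x => inCode x.1 x.2] (fun x => blk k x.1.a x.1.b (2 * x.2)) :=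
    PolyN.pow (((ha.add hb).add h2t).add (PolyN.const 2)) k
  have hP : PolyN D [fun x => inCode x.1 x.2]
      (fun x => blk k x.1.a x.1.b (2 * x.2) + x.1.b + 2 * x.2 + 2) :=
    ((hT.add hb).add h2t).add (PolyN.const 2)
  have hQ : PolyN D [fun x => inCode x.1 x.2]
      (fun x => blk k x.1.a x.1.b (2 * x.2) + x.1.a + 2 * x.2 + 2) :=
    ((hT.add ha).add h2t).add (PolyN.const 2)
  refine poly_inCode ((ha.add hP).add hT) ((hb.add hQ).add hT) h2t ?_
  -- adjacency
  have A1 := upN (n := fun x : BGraph × ℕ => x.1.a +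
    (blk k x.1.a x.1.b (2 * x.2) + x.1.b + 2 * x.2 + 2) + blk k x.1.a x.1.b (2 * x.2)) ha
  have B1 := upN (n := fun x : BGraph × ℕ => x.1.a +
    (blk k x.1.a x.1.b (2 * x.2) + x.1.b + 2 * x.2 + 2) + blk k x.1.a x.1.b (2 * x.2)) hb
  have P1 := upN (n := fun x : BGraph × ℕ => x.1.a +
    (blk k x.1.a x.1.b (2 * x.2) + x.1.b + 2 * x.2 + 2) + blk k x.1.a x.1.b (2 * x.2)) hP
  have Q1 := upN (n := fun x : BGraph × ℕ => x.1.a +
    (blk k x.1.a x.1.b (2 * x.2) + x.1.b + 2 * x.2 + 2) + blk k x.1.a x.1.b (2 * x.2)) hQ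
  have W1 := up (n := fun x : BGraph × ℕ => x.1.a +
    (blk k x.1.a x.1.b (2 * x.2) + x.1.b + 2 * x.2 + 2) + blk k x.1.a x.1.b (2 * x.2)) hw
  have I1 := last (D := D) (ctx := [fun x => inCode x.1 x.2]) (n := fun x : BGraph × ℕ => x.1.a +
    (blk k x.1.a x.1.b (2 * x.2) + x.1.b + 2 * x.2 + 2) + blk k x.1.a x.1.b (2 * x.2))
  let n2 : (BGraph × ℕ) × ℕ → ℕ := fun p => p.1.1.b +
    (blk k p.1.1.a p.1.1.b (2 * p.1.2) + p.1.1.a + 2 * p.1.2 + 2) +
      blk k p.1.1.a p.1.1.b (2 * p.1.2)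
  have A2 := upN (n := n2) A1
  have B2 := upN (n := n2) B1
  have P2 := upN (n := n2) P1
  have Q2 := upN (n := n2) Q1
  have W2 := up (n := n2) W1
  have I2 := upN (n := n2) I1
  have J2 := last (D := fun p : (BGraph × ℕ) × ℕ => D p.1 ∧ p.2 < p.1.1.a +
    (blk k p.1.1.a p.1.1.b (2 * p.1.2) + p.1.1.b + 2 * p.1.2 + 2) +
      blk k p.1.1.a p.1.1.b (2 * p.1.2))
    (ctx := PolyTime.lift [fun x : BGraph × ℕ => inCode x.1 x.2] ++
      [fun p : (BGraph × ℕ) × ℕ => un p.2]) (n := n2)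
  exact (((PolyB.lt I2 A2).and (PolyB.lt J2 B2)).and (poly_F W2 I2 J2)).or
    (((PolyB.lt I2 (A2.add P2)).and (PolyB.le (B2.add Q2) J2)).or
      ((PolyB.le (A2.add P2) I2).and (PolyB.lt J2 (B2.add Q2))))

theorem poly_K1 (k : ℕ) (D : BGraph × ℕ → Prop) :
    PolyN D [fun x => inCode x.1 x.2] (fun x => K1 k x.1 x.2) := by
  have hw : PolyC D [fun x => inCode x.1 x.2] (fun x => inCode x.1 x.2) := PolyC.var (by simp)
  have ha := poly_a hw
  have hb := poly_b hw
  have ht := poly_s hw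
  have h2t := (PolyN.const 2).mul ht
  have hT : PolyN D [fun x => inCode x.1 x.2] (fun x => blk k x.1.a x.1.b (2 * x.2)) :=
    PolyN.pow (((ha.add hb).add h2t).add (PolyN.const 2)) k
  exact (((((PolyN.const 2).mul hT).add ha).add hb).add ((PolyN.const 2).mul h2t)).add
    (PolyN.const 4)

/-- Approximating the number of independent sets of dense almost regular bipartite graphs is as
hard as for all bipartite graphs. -/
theorem nearHalf_iff (k : ℕ) : HasFPRAS (NearHalf k) ↔ HasFPRAS (fun _ => True) := by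
  constructor
  · intro h
    exact HasFPRAS.transfer (red1 k) (K1 k) (poly_red1 k _) (poly_K1 k _)
      (fun G t _ _ => red1_class k G t) (fun G t _ _ => red1_lower k G t)
      (fun G t _ _ => red1_upper k G t) h
  · exact HasFPRAS.mono (fun _ _ => trivial)

end Pool.Agent.Lib.Pa7c826
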