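import Pool.Agent.Lib.Pa7c826.BISTotal
import Pool.Agent.Lib.Pa7c826.BlockDeg
import Pool.Agent.Lib.Pa7c826.NearHalf

/-!
The block graph of a bipartite graph at the level of vertex numbers.
-/

namespace Pool.Agent.Lib.Pa7c826

open Pool.Agent.Lib.PolyTime

/-- index of the source block of gadget number `g` -/
def srcI (a b g : ℕ) : ℕ :=
  if decide (g % 5 < 2) = true then g / 5 / b
  else if decide (g % 5 = 2) = true then a + b + 4 * (g / 5)
  else if decide (g % 5 = 3) = true then a + b + 4 * (g / 5) + 2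
  else a + b + 4 * (g / 5) + 3

/-- index of the target block of gadget number `g` -/
def tgtI (a b g : ℕ) : ℕ :=
  if decide (g % 5 = 0) = true then a + g / 5 % b
  else if decide (g % 5 = 1) = true then a + b + 4 * (g / 5)
  else if decide (g % 5 = 2) = true then a + b + 4 * (g / 5) + 1
  else if decide (g % 5 = 3) = true then a + g / 5 % b
  else a + b + 4 * (g / 5) + 2

/-- adjacency of `(U, S)` and `(V, T)` (block, slot), when `T` is the slot `(g, j)` of a gadget -/
def F2g (a b c1 : ℕ) (F : ℕ → ℕ → Bool) (U S V T : ℕ) : Bool :=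
  let g := T / c1
  let A := F (g / 5 / b) (g / 5 % b)
  let s := srcI a b g
  let t := tgtI a b g
  ((A && decide (V = s)) && ((decide (U = V) && !decide (S = T)) ||
    (decide (U = t) && decide (S = c1 * g)))) ||
  (((A && decide (V = t)) && ((decide (U = V) && !decide (S = c1 * g)) ||
    (decide (U = s) && decide (S = T)))) ||
  (!(A && (decide (V = s) || decide (V = t))) && decide (U = V)))

/-- adjacency -/
def F2 (a b c1 f : ℕ) (F : ℕ → ℕ → Bool) (u v : ℕ) : Bool :=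
  let d := a * b * 5 * c1 + f
  if decide (v % d < a * b * 5 * c1) = true then F2g a b c1 F (u / d) (u % d) (v / d) (v % d)
  else decide (u / d = v / d)

/-- numbering of the blocks -/
def eBB (a b : ℕ) : BB a b ≃ Fin (a + b + a * b * 4) :=
  (Equiv.sumCongr finSumFinEquiv
    ((Equiv.prodCongr finProdFinEquiv (Equiv.refl (Fin 4))).trans finProdFinEquiv)).trans
    finSumFinEquiv

/-- numbering of the gadgets -/
def eGG (a b : ℕ) : GG a b ≃ Fin (a * b * 5) :=
  (Equiv.prodCongr finProdFinEquiv (Equiv.refl (Fin 5))).trans finProdFinEquiv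

/-- numbering of the slots -/
def eSlot (a b c f : ℕ) : (GG a b × Fin (c + 1)) ⊕ Fin f ≃ Fin (a * b * 5 * (c + 1) + f) :=
  (Equiv.sumCongr ((Equiv.prodCongr (eGG a b) (Equiv.refl _)).trans finProdFinEquiv)
    (Equiv.refl _)).trans finSumFinEquiv

/-- numbering of the vertices -/
def eV (a b c f : ℕ) : BB a b × ((GG a b × Fin (c + 1)) ⊕ Fin f) ≃
    Fin ((a + b + a * b * 4) * (a * b * 5 * (c + 1) + f)) :=
  (Equiv.prodCongr (eBB a b) (eSlot a b c f)).trans finProdFinEquiv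

theorem eGG_val {a b : ℕ} (g : GG a b) :
    (eGG a b g : ℕ) = g.2 + 5 * (g.1.2 + b * g.1.1) := by
  obtain ⟨⟨i, j⟩, κ⟩ := g
  rfl

theorem eBB_inl_inl {a b : ℕ} (i : Fin a) : (eBB a b (.inl (.inl i)) : ℕ) = i := by
  simp [eBB]

theorem eBB_inl_inr {a b : ℕ} (j : Fin b) : (eBB a b (.inl (.inr j)) : ℕ) = a + j := by
  simp [eBB]

theorem eBB_inr {a b : ℕ} (e : Fin a × Fin b) (κ : Fin 4) :
    (eBB a b (.inr (e, κ)) : ℕ) = a + b + (κ + 4 * (e.2 + b * e.1)) := by
  simp [eBB, finProdFinEquiv]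

theorem eSlot_inl {a b c f : ℕ} (g : GG a b) (j : Fin (c + 1)) :
    (eSlot a b c f (.inl (g, j)) : ℕ) = j + (c + 1) * eGG a b g := by
  simp [eSlot, finProdFinEquiv]

theorem eSlot_inr {a b c f : ℕ} (s : Fin f) :
    (eSlot a b c f (.inr s) : ℕ) = a * b * 5 * (c + 1) + s := by
  simp [eSlot]

theorem eV_div {a b c f : ℕ} (v : BB a b × ((GG a b × Fin (c + 1)) ⊕ Fin f)) :
    (eV a b c f v : ℕ) / (a * b * 5 * (c + 1) + f) = eBB a b v.1 := by
  have h : (eV a b c f v : ℕ) = eSlot a b c f v.2 + (a * b * 5 * (c + 1) + f) * eBB a b v.1 := rfl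
  have h2 := (eSlot a b c f v.2).2
  rw [h, Nat.add_mul_div_left _ _ (by omega), Nat.div_eq_of_lt h2, Nat.zero_add]

theorem eV_mod {a b c f : ℕ} (v : BB a b × ((GG a b × Fin (c + 1)) ⊕ Fin f)) :
    (eV a b c f v : ℕ) % (a * b * 5 * (c + 1) + f) = eSlot a b c f v.2 := by
  have h : (eV a b c f v : ℕ) = eSlot a b c f v.2 + (a * b * 5 * (c + 1) + f) * eBB a b v.1 := rfl
  have h2 := (eSlot a b c f v.2).2
  rw [h, Nat.add_mul_mod_self_left, Nat.mod_eq_of_lt h2]

theorem gmod {a b : ℕ} (g : GG a b) : (eGG a b g : ℕ) % 5 = g.2 := by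
  rw [eGG_val]
  have := g.2.2
  omega

theorem gdiv {a b : ℕ} (g : GG a b) : (eGG a b g : ℕ) / 5 = g.1.2 + b * g.1.1 := by
  rw [eGG_val]
  have := g.2.2
  omega

theorem gdivdiv {a b : ℕ} (g : GG a b) : (eGG a b g : ℕ) / 5 / b = g.1.1 := by
  rw [gdiv]
  have := g.1.2.2
  rw [Nat.add_mul_div_left _ _ (by omega), Nat.div_eq_of_lt this, Nat.zero_add]

theorem gdivmod {a b : ℕ} (g : GG a b) : (eGG a b g : ℕ) / 5 % b = g.1.2 := by
  rw [gdiv]
  have := g.1.2.2
  rw [Nat.add_mul_mod_self_left, Nat.mod_eq_of_lt this]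

theorem srcI_eq {a b : ℕ} (g : GG a b) : srcI a b (eGG a b g) = eBB a b (bsrc g) := by
  unfold srcI
  rw [gdivdiv, gmod, gdiv]
  obtain ⟨e, κ⟩ := g
  fin_cases κ <;> simp [bsrc, eBB_inl_inl, eBB_inr] <;> ring

theorem tgtI_eq {a b : ℕ} (g : GG a b) : tgtI a b (eGG a b g) = eBB a b (btgt g) := by
  unfold tgtI
  rw [gdivmod, gmod, gdiv]
  obtain ⟨e, κ⟩ := g
  fin_cases κ <;> simp [btgt, eBB_inl_inr, eBB_inr] <;> ring

theorem F2_iff {a b c f : ℕ} (F : ℕ → ℕ → Bool)
    (u v : BB a b × ((GG a b × Fin (c + 1)) ⊕ Fin f)) :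
    BRel bsrc btgt (bact fun (i : Fin a) (j : Fin b) => F i j = true) c f u v ↔
      F2 a b (c + 1) f F (eV a b c f u) (eV a b c f v) = true := by
  unfold F2
  simp only [eV_div, eV_mod]
  obtain ⟨V, T⟩ := v
  obtain ⟨U, S⟩ := u
  have hB : ∀ x y : BB a b, ((eBB a b x : ℕ) = eBB a b y) ↔ x = y := by
    intro x y
    rw [← Fin.ext_iff, (eBB a b).injective.eq_iff]
  have hS : ∀ x y : (GG a b × Fin (c + 1)) ⊕ Fin f,
      ((eSlot a b c f x : ℕ) = eSlot a b c f y) ↔ x = y := by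
    intro x y
    rw [← Fin.ext_iff, (eSlot a b c f).injective.eq_iff]
  rcases T with ⟨g, j⟩ | s
  · have hlt : (eSlot a b c f (.inl (g, j)) : ℕ) < a * b * 5 * (c + 1) := by
      rw [eSlot_inl]
      have h1 := (eGG a b g).2
      have h2 := j.2
      calc (j : ℕ) + (c + 1) * eGG a b g < (c + 1) + (c + 1) * eGG a b g := by omega
        _ = (c + 1) * (eGG a b g + 1) := by ring
        _ ≤ (c + 1) * (a * b * 5) := Nat.mul_le_mul_left _ h1
        _ = _ := by ring
    simp only [hlt, decide_true, if_true]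
    unfold F2g
    have hg : (eSlot a b c f (.inl (g, j)) : ℕ) / (c + 1) = eGG a b g := by
      rw [eSlot_inl, Nat.add_mul_div_left _ _ (by omega), Nat.div_eq_of_lt j.2, Nat.zero_add]
    simp only [hg, gdivdiv, gdivmod, srcI_eq, tgtI_eq]
    have h0 : (c + 1) * (eGG a b g : ℕ) = eSlot a b c f (.inl (g, 0)) := by
      rw [eSlot_inl]; simp
    rw [h0]
    simp only [hB, hS]
    unfold BRel bact
    simp only [Bool.or_eq_true, Bool.and_eq_true, decide_eq_true_eq, Bool.not_eq_true',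
      decide_eq_false_iff_not, and_assoc]
    rw [Bool.eq_false_iff]
    simp only [ne_eq, Bool.and_eq_true, Bool.or_eq_true, decide_eq_true_eq]
  · have hlt : ¬ ((eSlot a b c f (.inr s) : ℕ) < a * b * 5 * (c + 1)) := by
      rw [eSlot_inr]; omega
    simp only [hlt, decide_false, Bool.false_eq_true, if_false, decide_eq_true_eq, hB]
    rfl

end Pool.Agent.Lib.Pa7c826
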