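import Pool.Agent.Lib.Pa7c826.BISBlocks

/-!
Numerical estimates for the block graph.
-/

namespace Pool.Agent.Lib.Pa7c826

/-- the ratio `(3 / 4) ^ (c + 1)` -/
def hh (c : ℕ) : ℚ := (3 / 4) ^ (c + 1)

/-- the ratio `2 ^ c (2 ^ (c + 1) + 1) / 4 ^ (c + 1)` -/
def gg (c : ℕ) : ℚ := (1 + (1 / 2) ^ (c + 1)) / 2

theorem hh_pos (c : ℕ) : 0 < hh c := by unfold hh; positivity

theorem hh_le_one (c : ℕ) : hh c ≤ 1 := by
  unfold hh
  exact pow_le_one₀ (by norm_num) (by norm_num)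

theorem gg_lower (c : ℕ) : 1 / 2 ≤ gg c := by
  unfold gg
  have : (0 : ℚ) ≤ (1 / 2) ^ (c + 1) := by positivity
  linarith

theorem gg_upper (c : ℕ) : gg c ≤ (1 + hh c) / 2 := by
  unfold gg hh
  have : (1 / 2 : ℚ) ^ (c + 1) ≤ (3 / 4) ^ (c + 1) :=
    pow_le_pow_left₀ (by norm_num) (by norm_num) _
  linarith

theorem xx_eq (c : ℕ) : ((3 ^ (c + 1) : ℕ) : ℚ) = hh c * 4 ^ (c + 1) := by
  unfold hh
  push_cast
  rw [← mul_pow]
  norm_num

theorem yy_eq (c : ℕ) : ((2 ^ c * (2 ^ (c + 1) + 1) : ℕ) : ℚ) = gg c * 4 ^ (c + 1) := by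
  unfold gg
  push_cast
  have h1 : (4 : ℚ) ^ (c + 1) = 2 ^ (c + 1) * 2 ^ (c + 1) := by
    rw [← mul_pow]; norm_num
  have h2 : (1 / 2 : ℚ) ^ (c + 1) * 2 ^ (c + 1) = 1 := by
    rw [← mul_pow]; norm_num
  calc (2 : ℚ) ^ c * (2 ^ (c + 1) + 1) = (2 ^ (c + 1) * 2 ^ (c + 1) + 2 ^ (c + 1)) / 2 := by
        rw [pow_succ]; ring
    _ = (2 ^ (c + 1) * 2 ^ (c + 1) + ((1 / 2 : ℚ) ^ (c + 1) * 2 ^ (c + 1)) * 2 ^ (c + 1)) / 2 := by
        rw [h2, one_mul]
    _ = (1 + (1 / 2 : ℚ) ^ (c + 1)) / 2 * 4 ^ (c + 1) := by rw [h1]; ring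

/-- base weight of a pair -/
noncomputable def bw (A : Prop) : ℕ := by
  classical exact if A then 2 else 16

theorem bw_pos (A : Prop) : 0 < bw A := by unfold bw; split_ifs <;> norm_num

/-- normalised weight of a pair -/
noncomputable def rw' (c : ℕ) (A : Prop) (s t : Bool) : ℚ :=
  (pw c A s t : ℚ) / (bw A * (4 ^ (c + 1)) ^ 5)

theorem rw_inactive {c : ℕ} {A : Prop} (hA : ¬ A) (s t : Bool) : rw' c A s t = 1 := by
  unfold rw' pw bw
  rw [if_neg hA]
  simp only [wt_free (Or.inl hA)]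
  simp only [Finset.sum_const, Finset.card_univ, Fintype.card_bool, smul_eq_mul]
  push_cast
  rw [div_eq_one_iff_eq (by positivity)]
  ring

theorem rw_active {c : ℕ} {A : Prop} (hA : A) (s t : Bool) :
    rw' c A s t = (if s = t then 1 else if s = true then hh c else gg c) *
      (if s = true then 1 + 2 * hh c + hh c * gg c else 1 + 2 * gg c + hh c * gg c) *
      (if t = true then 1 + 2 * gg c + hh c * gg c else 1 + 2 * hh c + hh c * gg c) / 2 := by
  have h0 : (0 : ℚ) < 4 ^ (c + 1) := by positivity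
  have hTT : (wt c A true true : ℚ) = 4 ^ (c + 1) := by
    rw [wt_free (Or.inr rfl)]; push_cast; rfl
  have hFF : (wt c A false false : ℚ) = 4 ^ (c + 1) := by
    rw [wt_free (Or.inr rfl)]; push_cast; rfl
  have hTF : (wt c A true false : ℚ) = hh c * 4 ^ (c + 1) := by
    rw [wt_LR hA, xx_eq]
  have hFT : (wt c A false true : ℚ) = gg c * 4 ^ (c + 1) := by
    rw [wt_RL hA, yy_eq]
  unfold rw' pw bw
  rw [if_pos hA]
  rw [div_eq_iff (by positivity)]
  cases s <;> cases t <;>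
    simp only [Fintype.sum_bool, Nat.cast_mul, Nat.cast_add, hTT, hFF, hTF, hFT] <;>
    simp <;> ring

theorem poly1 {h g : ℚ} (h0 : 0 ≤ h) (h1 : h ≤ 1) (g0 : 1 / 2 ≤ g) (g1 : g ≤ (1 + h) / 2) :
    1 ≤ (1 + 2 * h + h * g) * (1 + 2 * g + h * g) / 2 ∧
      (1 + 2 * h + h * g) * (1 + 2 * g + h * g) / 2 ≤ 1 + 7 * h := by
  have g2 : g ≤ 1 := by linarith
  have hg : 0 ≤ h * g := by positivity
  have hg1 : h * g ≤ h := by nlinarith
  constructor
  · have a1 : 1 ≤ 1 + 2 * h + h * g := by linarith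
    have a2 : 2 ≤ 1 + 2 * g + h * g := by linarith
    have := mul_le_mul a1 a2 (by norm_num) (by linarith)
    linarith
  · have a1 : 1 + 2 * h + h * g ≤ 1 + 3 * h := by linarith
    have a2 : 1 + 2 * g + h * g ≤ 2 * (1 + h) := by linarith
    have := mul_le_mul a1 a2 (by linarith) (by linarith)
    nlinarith

theorem poly2 {h g : ℚ} (h0 : 0 ≤ h) (h1 : h ≤ 1) (g0 : 1 / 2 ≤ g) (g1 : g ≤ (1 + h) / 2) :
    1 ≤ g * (1 + 2 * g + h * g) * (1 + 2 * g + h * g) / 2 ∧
      g * (1 + 2 * g + h * g) * (1 + 2 * g + h * g) / 2 ≤ 1 + 7 * h := by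
  have g2 : g ≤ 1 := by linarith
  have hg : 0 ≤ h * g := by positivity
  have hg1 : h * g ≤ h := by nlinarith
  have a2 : 2 ≤ 1 + 2 * g + h * g := by linarith
  have a3 : 1 + 2 * g + h * g ≤ 2 * (1 + h) := by linarith
  constructor
  · have b1 : 1 ≤ g * (1 + 2 * g + h * g) := by nlinarith
    have := mul_le_mul b1 a2 (by norm_num) (by linarith)
    linarith
  · have b1 : g * (1 + 2 * g + h * g) ≤ (1 + h) * (1 + h) := by
      have := mul_le_mul g1 a3 (by linarith) (by linarith)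
      linarith
    have := mul_le_mul b1 a3 (by linarith) (by positivity)
    have h2 : h * h ≤ h := by nlinarith
    have h3 : h * h * h ≤ h := by nlinarith
    nlinarith

theorem poly3 {h g : ℚ} (h0 : 0 ≤ h) (h1 : h ≤ 1) (g0 : 1 / 2 ≤ g) (g1 : g ≤ (1 + h) / 2) :
    0 ≤ h * (1 + 2 * h + h * g) * (1 + 2 * h + h * g) / 2 ∧
      h * (1 + 2 * h + h * g) * (1 + 2 * h + h * g) / 2 ≤ 8 * h := by
  have g2 : g ≤ 1 := by linarith
  have hg : 0 ≤ h * g := by positivity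
  have hg1 : h * g ≤ h := by nlinarith
  have a1 : 1 + 2 * h + h * g ≤ 4 := by linarith
  have a0 : 0 ≤ 1 + 2 * h + h * g := by linarith
  constructor
  · positivity
  · have b1 : h * (1 + 2 * h + h * g) ≤ h * 4 := mul_le_mul_of_nonneg_left a1 h0
    have := mul_le_mul b1 a1 a0 (by positivity)
    linarith

/-- good pairs -/
theorem rw_good {c : ℕ} {A : Prop} {s t : Bool} (h : ¬ (A ∧ s = true ∧ t = false)) :
    1 ≤ rw' c A s t ∧ rw' c A s t ≤ 1 + 7 * hh c := by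
  have h0 := (hh_pos c).le
  by_cases hA : A
  · rw [rw_active hA]
    have p1 := poly1 h0 (hh_le_one c) (gg_lower c) (gg_upper c)
    have p2 := poly2 h0 (hh_le_one c) (gg_lower c) (gg_upper c)
    rcases s with _ | _ <;> rcases t with _ | _
    · simp only [if_true, one_mul, Bool.false_eq_true, if_false]
      rw [mul_comm (1 + 2 * gg c + hh c * gg c)]
      exact p1
    · simp only [Bool.false_eq_true, if_false, if_true]
      exact p2
    · exact absurd ⟨hA, rfl, rfl⟩ h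
    · simp only [if_true, one_mul]
      exact p1
  · rw [rw_inactive hA]
    constructor <;> linarith

theorem rw_bad {c : ℕ} {A : Prop} {s t : Bool} (h : A ∧ s = true ∧ t = false) :
    0 ≤ rw' c A s t ∧ rw' c A s t ≤ 8 * hh c := by
  have h0 := (hh_pos c).le
  obtain ⟨hA, rfl, rfl⟩ := h
  rw [rw_active hA]
  have p3 := poly3 h0 (hh_le_one c) (gg_lower c) (gg_upper c)
  simpa using p3

theorem rw_le {c : ℕ} {A : Prop} {s t : Bool} : 0 ≤ rw' c A s t ∧ rw' c A s t ≤ 1 + 7 * hh c := by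
  by_cases h : A ∧ s = true ∧ t = false
  · have h1 := rw_bad (c := c) h
    have h2 := hh_le_one c
    exact ⟨h1.1, by linarith⟩
  · have h1 := rw_good (c := c) h
    exact ⟨by linarith, h1.2⟩

end Pool.Agent.Lib.Pa7c826
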