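import Pool.Agent.Lib.Pa7c826.BISNum

/-!
The sum over all block states, and the final two-sided estimate.
-/

namespace Pool.Agent.Lib.Pa7c826

open Classical in
/-- the good states -/
noncomputable def goodσ {a b : ℕ} (E : Fin a → Fin b → Prop) :
    Finset ((Fin a → Bool) × (Fin b → Bool)) :=
  Finset.univ.filter
      (fun p => ∀ e : Fin a × Fin b, ¬ (E e.1 e.2 ∧ p.1 e.1 = true ∧ p.2 e.2 = false))

theorem card_goodσ {a b : ℕ} (E : Fin a → Fin b → Prop) : (goodσ E).card = cnt E := by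
  classical
  unfold goodσ
  rw [← Fintype.card_subtype, ← Nat.card_eq_fintype_card]
  unfold cnt
  let e : (Fin a → Bool) × (Fin b → Bool) ≃ Set (Fin a) × Set (Fin b) :=
    { toFun := fun p => ({i | p.1 i = true}, {j | p.2 j = false})
      invFun := fun q => (fun i => decide (i ∈ q.1), fun j => !decide (j ∈ q.2))
      left_inv := fun p => by
        ext i
        · simp
        · simp
      right_inv := fun q => by
        ext i
        · simp
        · simp }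
  refine Nat.card_congr (Equiv.subtypeEquiv e ?_)
  rintro ⟨σ, τ⟩
  simp only [e, Equiv.coe_fn_mk, Set.mem_ofPred_eq]
  constructor
  · intro h i hi j hj hE
    exact h (i, j) ⟨hE, hi, hj⟩
  · rintro h ⟨i, j⟩ ⟨hE, hi, hj⟩
    exact h i hi j hj hE

/-- the normalised sum -/
noncomputable def nsum {a b : ℕ} (c : ℕ) (E : Fin a → Fin b → Prop) : ℚ :=
  ∑ p : (Fin a → Bool) × (Fin b → Bool), ∏ e : Fin a × Fin b,
    rw' c (E e.1 e.2) (p.1 e.1) (p.2 e.2)

theorem nsum_lower {a b : ℕ} (c : ℕ) (E : Fin a → Fin b → Prop) : (cnt E : ℚ) ≤ nsum c E := by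
  classical
  rw [← card_goodσ]
  unfold nsum
  calc ((goodσ E).card : ℚ) = ∑ p ∈ goodσ E, (1 : ℚ) := by simp
    _ ≤ ∑ p ∈ goodσ E, ∏ e : Fin a × Fin b, rw' c (E e.1 e.2) (p.1 e.1) (p.2 e.2) := by
        refine Finset.sum_le_sum fun p hp => ?_
        unfold goodσ at hp
        rw [Finset.mem_filter] at hp
        exact Finset.one_le_prod fun e _ => (rw_good (hp.2 e)).1
    _ ≤ _ := Finset.sum_le_sum_of_subset_of_nonneg (Finset.subset_univ _)
        (fun p _ _ => Finset.prod_nonneg fun e _ => rw_le.1)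

theorem nsum_upper {a b : ℕ} (c : ℕ) (E : Fin a → Fin b → Prop) :
    nsum c E ≤ (1 + 7 * hh c) ^ (a * b) * (cnt E + 2 ^ (a + b) * (8 * hh c)) := by
  classical
  have h0 := hh_pos c
  rw [← card_goodσ]
  unfold nsum
  have h1 : ∀ p ∈ goodσ E, ∏ e : Fin a × Fin b, rw' c (E e.1 e.2) (p.1 e.1) (p.2 e.2) ≤
      (1 + 7 * hh c) ^ (a * b) := by
    intro p _
    calc _ ≤ ∏ e : Fin a × Fin b, (1 + 7 * hh c) :=
          Finset.prod_le_prod (fun e _ => rw_le.1) (fun e _ => rw_le.2)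
      _ = _ := by simp
  have h2 : ∀ p ∈ (goodσ E)ᶜ, ∏ e : Fin a × Fin b, rw' c (E e.1 e.2) (p.1 e.1) (p.2 e.2) ≤
      (1 + 7 * hh c) ^ (a * b) * (8 * hh c) := by
    intro p hp
    unfold goodσ at hp
    rw [Finset.mem_compl, Finset.mem_filter, not_and] at hp
    have := hp (Finset.mem_univ _)
    push Not at this
    obtain ⟨e, he⟩ := this
    rw [← Finset.mul_prod_erase _ _ (Finset.mem_univ e), mul_comm]
    refine mul_le_mul ?_ (rw_bad he).2 (rw_bad he).1 (by positivity)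
    calc _ ≤ ∏ e ∈ Finset.univ.erase e, (1 + 7 * hh c) :=
          Finset.prod_le_prod (fun e _ => rw_le.1) (fun e _ => rw_le.2)
      _ = (1 + 7 * hh c) ^ (a * b - 1) := by
          rw [Finset.prod_const, Finset.card_erase_of_mem (Finset.mem_univ _)]
          simp
      _ ≤ _ := pow_le_pow_right₀ (by linarith) (Nat.sub_le _ _)
  rw [← Finset.sum_add_sum_compl (goodσ E)]
  have h3 := Finset.sum_le_sum h1
  have h4 := Finset.sum_le_sum h2
  rw [Finset.sum_const, nsmul_eq_mul] at h3 h4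
  have h5 : (((goodσ E)ᶜ.card : ℕ) : ℚ) ≤ 2 ^ (a + b) := by
    have : (goodσ E)ᶜ.card ≤ 2 ^ (a + b) := by
      refine (Finset.card_le_univ _).trans (le_of_eq ?_)
      simp [pow_add]
    exact_mod_cast this
  have h6 : (((goodσ E)ᶜ.card : ℕ) : ℚ) * ((1 + 7 * hh c) ^ (a * b) * (8 * hh c)) ≤
      2 ^ (a + b) * ((1 + 7 * hh c) ^ (a * b) * (8 * hh c)) :=
    mul_le_mul_of_nonneg_right h5 (by positivity)
  calc _ ≤ ((goodσ E).card : ℚ) * (1 + 7 * hh c) ^ (a * b) +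
        2 ^ (a + b) * ((1 + 7 * hh c) ^ (a * b) * (8 * hh c)) :=
        add_le_add h3 (h4.trans h6)
    _ = _ := by ring

theorem one_add_pow_le {x : ℚ} (n : ℕ) (hx : 0 ≤ x) (h : 2 * n * x ≤ 1) :
    (1 + x) ^ n ≤ 1 + 2 * n * x := by
  induction n with
  | zero => simp
  | succ n ih =>
    push_cast at h ⊢
    have h1 : 2 * (n : ℚ) * x ≤ 1 := by nlinarith
    have h2 := ih h1
    rw [pow_succ]
    calc (1 + x) ^ n * (1 + x) ≤ (1 + 2 * n * x) * (1 + x) :=
          mul_le_mul_of_nonneg_right h2 (by linarith)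
      _ ≤ 1 + 2 * (n + 1) * x := by nlinarith

/-- smallness of `hh` -/
theorem hh_small (m : ℕ) : hh (3 * m) * 2 ^ m ≤ 1 := by
  unfold hh
  have h1 : (3 / 4 : ℚ) ^ (3 * m + 1) ≤ (3 / 4 : ℚ) ^ (3 * m) :=
    pow_le_pow_of_le_one (by norm_num) (by norm_num) (by omega)
  calc (3 / 4 : ℚ) ^ (3 * m + 1) * 2 ^ m ≤ (3 / 4 : ℚ) ^ (3 * m) * 2 ^ m :=
        mul_le_mul_of_nonneg_right h1 (by positivity)
    _ = (((3 / 4 : ℚ) ^ 3) * 2) ^ m := by rw [pow_mul, mul_pow]
    _ ≤ 1 := pow_le_one₀ (by norm_num) (by norm_num)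

theorem nat_le_two_pow (n : ℕ) : (n : ℚ) ≤ 2 ^ n := by
  exact_mod_cast (Nat.lt_two_pow_self (n := n)).le

theorem nsum_upper' {a b t : ℕ} (E : Fin a → Fin b → Prop) (hE : 1 ≤ cnt E) :
    nsum (3 * (a + b + a * b + 2 * t + 8)) E ≤ cnt E * (1 + 1 / (4 * (2 * t + 1))) := by
  set m := a + b + a * b + 2 * t + 8 with hm
  set h := hh (3 * m) with hh'
  have h0 : 0 < h := hh_pos _
  have h1 : h * 2 ^ m ≤ 1 := hh_small m
  have hE' : (1 : ℚ) ≤ cnt E := by exact_mod_cast hE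
  have ht : (2 * t + 1 : ℚ) ≤ 2 ^ (2 * t) := by
    have : 2 * t + 1 ≤ 2 ^ (2 * t) := Nat.lt_two_pow_self
    exact_mod_cast this
  -- powers of two
  have e1 : (2 : ℚ) ^ m = 2 ^ (a + b) * 2 ^ (a * b) * 2 ^ (2 * t) * 256 := by
    rw [hm, pow_add, pow_add, pow_add]; norm_num
  have p1 : (1 : ℚ) ≤ 2 ^ (a + b) := one_le_pow₀ (by norm_num)
  have p2 : (1 : ℚ) ≤ 2 ^ (a * b) := one_le_pow₀ (by norm_num)
  have p3 : (1 : ℚ) ≤ 2 ^ (2 * t) := one_le_pow₀ (by norm_num)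
  have q0 : (0 : ℚ) < 2 * t + 1 := by positivity
  -- first term
  have k1 : 14 * ((a * b : ℕ) : ℚ) * h * (2 * t + 1) ≤ 1 / 16 := by
    have := nat_le_two_pow (a * b)
    have s1 : ((a * b : ℕ) : ℚ) * (2 * t + 1) ≤ 2 ^ (a * b) * 2 ^ (2 * t) :=
      mul_le_mul this ht (by positivity) (by positivity)
    have s2 : 2 ^ (a * b) * 2 ^ (2 * t) * (256 * h) ≤ 1 := by
      calc (2 : ℚ) ^ (a * b) * 2 ^ (2 * t) * (256 * h)
          ≤ 2 ^ (a + b) * (2 ^ (a * b) * 2 ^ (2 * t) * (256 * h)) := by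
            refine le_mul_of_one_le_left (by positivity) p1
        _ = h * 2 ^ m := by rw [e1]; ring
        _ ≤ 1 := h1
    have s3 : ((a * b : ℕ) : ℚ) * (2 * t + 1) * (256 * h) ≤ 1 :=
      (mul_le_mul_of_nonneg_right s1 (by positivity)).trans s2
    linarith
  have k2 : 2 ^ (a + b) * (8 * h) * (2 * t + 1) ≤ 1 / 16 := by
    have s1 : (2 : ℚ) ^ (a + b) * (2 * t + 1) * (256 * h) ≤ 1 := by
      calc (2 : ℚ) ^ (a + b) * (2 * t + 1) * (256 * h)
          ≤ 2 ^ (a + b) * 2 ^ (2 * t) * (256 * h) := by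
            refine mul_le_mul_of_nonneg_right ?_ (by positivity)
            exact mul_le_mul_of_nonneg_left ht (by positivity)
        _ ≤ 2 ^ (a * b) * (2 ^ (a + b) * 2 ^ (2 * t) * (256 * h)) := by
            refine le_mul_of_one_le_left (by positivity) p2
        _ = h * 2 ^ m := by rw [e1]; ring
        _ ≤ 1 := h1
    linarith
  set ε : ℚ := 1 / (2 * t + 1) with hε
  have hε0 : 0 < ε := by positivity
  have hε1 : ε ≤ 1 := by
    rw [hε, div_le_one q0]
    have : (0 : ℚ) ≤ t := by positivity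
    linarith
  have hεt : ε * (2 * t + 1) = 1 := by rw [hε]; field_simp
  have k1' : 14 * ((a * b : ℕ) : ℚ) * h ≤ ε / 16 := by
    have : 14 * ((a * b : ℕ) : ℚ) * h * (2 * t + 1) ≤ ε / 16 * (2 * t + 1) := by
      rw [div_mul_eq_mul_div, hεt]; exact k1
    exact le_of_mul_le_mul_right this q0
  have k2' : 2 ^ (a + b) * (8 * h) ≤ ε / 16 := by
    have : 2 ^ (a + b) * (8 * h) * (2 * t + 1) ≤ ε / 16 * (2 * t + 1) := by
      rw [div_mul_eq_mul_div, hεt]; exact k2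
    exact le_of_mul_le_mul_right this q0
  have r1 : (1 + 7 * h) ^ (a * b) ≤ 1 + ε / 16 := by
    have e2 : 2 * ((a * b : ℕ) : ℚ) * (7 * h) = 14 * ((a * b : ℕ) : ℚ) * h := by ring
    have := one_add_pow_le (x := 7 * h) (a * b) (by positivity) (by rw [e2]; linarith)
    rw [e2] at this
    linarith
  have r2 : (cnt E : ℚ) + 2 ^ (a + b) * (8 * h) ≤ cnt E * (1 + ε / 16) := by nlinarith
  have r3 := nsum_upper (3 * m) E
  refine r3.trans ?_
  have r4 : (1 + 7 * h) ^ (a * b) * (cnt E + 2 ^ (a + b) * (8 * h)) ≤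
      (1 + ε / 16) * (cnt E * (1 + ε / 16)) :=
    mul_le_mul r1 r2 (by positivity) (by positivity)
  refine r4.trans ?_
  have r5 : 1 / (4 * (2 * (t : ℚ) + 1)) = ε / 4 := by rw [hε]; field_simp
  rw [r5]
  have r6 : (1 + ε / 16) * (1 + ε / 16) ≤ 1 + ε / 4 := by nlinarith
  calc (1 + ε / 16) * (cnt E * (1 + ε / 16)) = cnt E * ((1 + ε / 16) * (1 + ε / 16)) := by ring
    _ ≤ cnt E * (1 + ε / 4) := mul_le_mul_of_nonneg_left r6 (by positivity)

end Pool.Agent.Lib.Pa7c826
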