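import Pool.Agent.Lib.Pa7c826.BISSum

/-!
The number of independent sets of the block graph.
-/

namespace Pool.Agent.Lib.Pa7c826

theorem card_BB (a b : ℕ) : Fintype.card (BB a b) = a + b + a * b * 4 := by
  simp [Fintype.card_sum, Fintype.card_prod]

theorem card_GG (a b : ℕ) : Fintype.card (GG a b) = a * b * 5 := by
  simp [Fintype.card_prod]

theorem pureTotal_eq {a b : ℕ} (c f : ℕ) (E : Fin a → Fin b → Prop) :
    (pureTotal (bsrc (a := a) (b := b)) btgt (bact E) c f : ℚ) =
      2 ^ (Fintype.card (BB a b) * (Fintype.card (GG a b) * (c + 1) + f)) *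
        (∏ e : Fin a × Fin b, (bw (E e.1 e.2) : ℚ)) * nsum c E := by
  have h1 : pureTotal (bsrc (a := a) (b := b)) btgt (bact E) c f *
      2 ^ (Fintype.card (GG a b) * ((c + 1) * 2)) =
      2 ^ (Fintype.card (BB a b) * (Fintype.card (GG a b) * (c + 1) + f)) *
      ∑ p : (Fin a → Bool) × (Fin b → Bool), ∏ e : Fin a × Fin b,
        pw c (E e.1 e.2) (p.1 e.1) (p.2 e.2) := by
    rw [← sum_blocks]
    unfold pureTotal
    rw [Finset.sum_mul, Finset.mul_sum]
    refine Finset.sum_congr rfl fun σ _ => ?_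
    exact card_pure bsrc_ne_btgt σ
  have h2 : (4 : ℚ) ^ (c + 1) = 2 ^ ((c + 1) * 2) := by
    rw [mul_comm, pow_mul]; norm_num
  have h3 : (∑ p : (Fin a → Bool) × (Fin b → Bool), ∏ e : Fin a × Fin b,
        (pw c (E e.1 e.2) (p.1 e.1) (p.2 e.2) : ℚ)) =
      (∏ e : Fin a × Fin b, (bw (E e.1 e.2) : ℚ)) *
        2 ^ (Fintype.card (GG a b) * ((c + 1) * 2)) * nsum c E := by
    unfold nsum
    rw [Finset.mul_sum]
    refine Finset.sum_congr rfl fun p _ => ?_
    have h4 : ∀ e : Fin a × Fin b, (pw c (E e.1 e.2) (p.1 e.1) (p.2 e.2) : ℚ) =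
        (bw (E e.1 e.2) : ℚ) * (4 ^ (c + 1)) ^ 5 * rw' c (E e.1 e.2) (p.1 e.1) (p.2 e.2) := by
      intro e
      unfold rw'
      have : (bw (E e.1 e.2) : ℚ) ≠ 0 := by
        have := bw_pos (E e.1 e.2)
        positivity
      field_simp
    rw [Finset.prod_congr rfl fun e _ => h4 e, Finset.prod_mul_distrib, Finset.prod_mul_distrib]
    congr 2
    rw [Finset.prod_const, Finset.card_univ, Fintype.card_prod, Fintype.card_fin,
      Fintype.card_fin, h2, ← pow_mul, ← pow_mul, card_GG]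
    congr 1
    ring
  have h5 := congrArg (Nat.cast : ℕ → ℚ) h1
  push_cast at h5
  rw [h3] at h5
  have h6 : (0 : ℚ) < 2 ^ (Fintype.card (GG a b) * ((c + 1) * 2)) := by positivity
  have h7 : (pureTotal (bsrc (a := a) (b := b)) btgt (bact E) c f : ℚ) *
      2 ^ (Fintype.card (GG a b) * ((c + 1) * 2)) =
      2 ^ (Fintype.card (BB a b) * (Fintype.card (GG a b) * (c + 1) + f)) *
        (∏ e : Fin a × Fin b, (bw (E e.1 e.2) : ℚ)) * nsum c E *
        2 ^ (Fintype.card (GG a b) * ((c + 1) * 2)) := by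
    rw [h5]; ring
  exact mul_right_cancel₀ h6.ne' h7

/-- the precision parameter -/
def cc (a b t : ℕ) : ℕ := 3 * (a + b + a * b + 2 * t + 8)

theorem num_final {C S B x F W N q : ℚ} (hB0 : 0 < B) (hF : 0 < F) (hC0 : 0 ≤ C) (hx1 : 1 ≤ x)
    (hW : 1 ≤ W) (hN : 0 ≤ N) (hq : 1 ≤ q) (hlo : F * (B * S) ≤ F * C + N * (B * S))
    (hup : F * C ≤ F * (B * S) + N * (W * C)) (hf : N * W * (4 * q) ≤ F) (hn1 : x ≤ S)
    (hn2 : S ≤ x * (1 + 1 / (4 * q))) : |C / B - x| ≤ x / q := by
  have q0 : (0 : ℚ) < q := by linarith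
  set ε : ℚ := 1 / q with hε
  have hε0 : 0 < ε := by positivity
  have hε1 : ε ≤ 1 := by
    rw [hε, div_le_one q0]
    linarith
  have hεt : ε * q = 1 := by rw [hε]; field_simp
  have e4 : 1 / (4 * q) = ε / 4 := by rw [hε]; field_simp
  rw [e4] at hn2
  -- error factor
  set δ : ℚ := N * W / F with hδ
  have hδ0 : 0 ≤ δ := by positivity
  have hδ1 : δ ≤ ε / 4 := by
    rw [hδ, div_le_iff₀ hF]
    have h1 : ε / 4 * (N * W * (4 * q)) ≤ ε / 4 * F :=
      mul_le_mul_of_nonneg_left hf (by positivity)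
    have h2 : ε / 4 * (N * W * (4 * q)) = N * W := by
      calc ε / 4 * (N * W * (4 * q)) = ε * q * (N * W) := by ring
        _ = N * W := by rw [hεt, one_mul]
    linarith
  have hδF : δ * F = N * W := by rw [hδ, div_mul_cancel₀ _ hF.ne']
  have hNF : N ≤ δ * F := by
    rw [hδF]
    exact le_mul_of_one_le_right hN hW
  have hS0 : 0 ≤ S := by linarith
  have g1 : B * S * (1 - δ) ≤ C := by
    have h1 : N * (B * S) ≤ δ * F * (B * S) :=
      mul_le_mul_of_nonneg_right hNF (by positivity)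
    have h2 : F * (B * S * (1 - δ)) ≤ F * C := by linarith
    exact le_of_mul_le_mul_left h2 hF
  have g2 : C * (1 - δ) ≤ B * S := by
    have h1 : N * (W * C) = δ * F * C := by
      rw [hδF]; ring
    rw [h1] at hup
    have h2 : F * (C * (1 - δ)) ≤ F * (B * S) := by linarith
    exact le_of_mul_le_mul_left h2 hF
  set y : ℚ := C / B with hy
  have hCy : C = y * B := by rw [hy, div_mul_cancel₀ _ hB0.ne']
  have hy0 : 0 ≤ y := by positivity
  have g1' : S * (1 - δ) ≤ y := by
    have : B * (S * (1 - δ)) ≤ B * y := by linarith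
    exact le_of_mul_le_mul_left this hB0
  have g2' : y * (1 - δ) ≤ S := by
    have : B * (y * (1 - δ)) ≤ B * S := by
      calc B * (y * (1 - δ)) = C * (1 - δ) := by rw [hCy]; ring
        _ ≤ B * S := g2
    exact le_of_mul_le_mul_left this hB0
  have e5 : x / q = x * ε := by rw [hε]; field_simp
  rw [e5, abs_le]
  have hx0 : 0 ≤ x := by linarith
  constructor
  · have h1 : x * (1 - δ) ≤ S * (1 - δ) := mul_le_mul_of_nonneg_right hn1 (by linarith)
    have h2 : x * δ ≤ x * ε := mul_le_mul_of_nonneg_left (by linarith) hx0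
    linarith
  · -- upper bound
    have h1 : y * (1 - ε / 4) ≤ x * (1 + ε / 4) := by
      have : y * (1 - ε / 4) ≤ y * (1 - δ) := mul_le_mul_of_nonneg_left (by linarith) hy0
      linarith
    have h2 : x * (1 + ε / 4) ≤ x * ((1 + ε) * (1 - ε / 4)) := by
      refine mul_le_mul_of_nonneg_left ?_ hx0
      nlinarith
    have h3 : y * (1 - ε / 4) ≤ (x * (1 + ε)) * (1 - ε / 4) := by linarith
    have h4 := le_of_mul_le_mul_right h3 (by linarith)
    linarith

theorem final_estimate {a b : ℕ} (t f : ℕ) (E : Fin a → Fin b → Prop) (hE : 1 ≤ cnt E)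
    (hf : Fintype.card (BB a b) * 2 ^ (Fintype.card (GG a b) * (cc a b t + 1)) *
      (4 * (2 * t + 1)) ≤ 2 ^ f) :
    |(cnt (BRel (bsrc (a := a) (b := b)) btgt (bact E) (cc a b t) f) : ℚ) /
        (2 ^ (Fintype.card (BB a b) * (Fintype.card (GG a b) * (cc a b t + 1) + f)) *
        (∏ e : Fin a × Fin b, (bw (E e.1 e.2) : ℚ))) - cnt E| ≤ cnt E / (2 * t + 1) := by
  have hlo := lower_bound (bsrc (a := a) (b := b)) btgt (bact E) (cc a b t) f
  have hup := upper_bound (bsrc (a := a) (b := b)) btgt (bact E) (cc a b t) f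
  have hPT := pureTotal_eq (cc a b t) f E
  refine num_final (F := 2 ^ f) (W := 2 ^ (Fintype.card (GG a b) * (cc a b t + 1)))
    (N := Fintype.card (BB a b)) (S := nsum (cc a b t) E) ?_ (by positivity) (by positivity)
    (by exact_mod_cast hE) (one_le_pow₀ (by norm_num)) (by positivity) ?_ ?_ ?_
    (by exact_mod_cast hf) (nsum_lower _ E) (nsum_upper' (t := t) E hE)
  · refine mul_pos (by positivity) (Finset.prod_pos fun e _ => ?_)
    exact_mod_cast bw_pos _
  · have : (0 : ℚ) ≤ t := by positivity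
    linarith
  · rw [← hPT]
    exact_mod_cast hlo
  · rw [← hPT]
    exact_mod_cast hup

end Pool.Agent.Lib.Pa7c826
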