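import Pool.Agent.Lib.Pa7c826.Dense

/-!
Regular bipartite graphs made of complete bipartite blocks joined by switches.
-/

namespace Pool.Agent.Lib.Pa7c826

/-! ### Product formula -/

/-- Counting sets subject to independent constraints on disjoint groups of coordinates. -/
theorem card_constrained {κ Γ δ : Type*} [Fintype κ] [Fintype Γ] [Fintype δ]
    (ι : Γ × δ → κ) (hι : Function.Injective ι) (c : Γ → Set δ → Prop) :
    Nat.card {U : Set κ // ∀ γ, c γ {d | ι (γ, d) ∈ U}} * 2 ^ (Fintype.card Γ * Fintype.card δ) =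
      2 ^ Fintype.card κ * ∏ γ, Nat.card {v : Set δ // c γ v} := by
  classical
  let e1 : (Γ × δ) ⊕ ((Set.range ι)ᶜ : Set κ) ≃ κ :=
    (Equiv.sumCongr (Equiv.ofInjective ι hι) (Equiv.refl _)).trans (Equiv.Set.sumCompl _)
  have he1 : ∀ p, e1 (.inl p) = ι p := fun p => rfl
  let e2 : Set κ ≃ (Γ → Set δ) × Set ((Set.range ι)ᶜ : Set κ) :=
    { toFun := fun U => (fun γ => {d | ι (γ, d) ∈ U}, {x | (x : κ) ∈ U})
      invFun := fun p => {x | (∃ γ d, ι (γ, d) = x ∧ d ∈ p.1 γ) ∨
        ∃ h : x ∈ ((Set.range ι)ᶜ : Set κ), (⟨x, h⟩ : ((Set.range ι)ᶜ : Set κ)) ∈ p.2}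
      left_inv := by
        intro U
        ext x
        simp only [Set.mem_ofPred_eq]
        constructor
        · rintro (⟨γ, d, rfl, h⟩ | ⟨h, h'⟩)
          · exact h
          · exact h'
        · intro hx
          by_cases h : x ∈ Set.range ι
          · obtain ⟨⟨γ, d⟩, rfl⟩ := h
            exact Or.inl ⟨γ, d, rfl, hx⟩
          · exact Or.inr ⟨h, hx⟩
      right_inv := by
        rintro ⟨p1, p2⟩
        refine Prod.ext ?_ ?_
        · funext γ
          ext d
          simp only [Set.mem_ofPred_eq]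
          constructor
          · rintro (⟨γ', d', h, h'⟩ | ⟨h, _⟩)
            · have := hι h
              simp only [Prod.mk.injEq] at this
              obtain ⟨rfl, rfl⟩ := this
              exact h'
            · exact absurd ⟨(γ, d), rfl⟩ h
          · intro h
            exact Or.inl ⟨γ, d, rfl, h⟩
        · ext ⟨x, hx⟩
          simp only [Set.mem_ofPred_eq]
          constructor
          · rintro (⟨γ', d', h, h'⟩ | ⟨_, h⟩)
            · exact absurd ⟨(γ', d'), h⟩ hx
            · exact h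
          · intro h
            exact Or.inr ⟨hx, h⟩ }
  have e3 : {U : Set κ // ∀ γ, c γ {d | ι (γ, d) ∈ U}} ≃
      (∀ γ, {v : Set δ // c γ v}) × Set ((Set.range ι)ᶜ : Set κ) :=
    (Equiv.subtypeEquiv (q := fun p : (Γ → Set δ) × Set ((Set.range ι)ᶜ : Set κ) =>
      ∀ γ, c γ (p.1 γ)) e2 (fun U => Iff.rfl)).trans
      { toFun := fun p => (fun γ => ⟨p.1.1 γ, p.2 γ⟩, p.1.2)
        invFun := fun q => ⟨(fun γ => (q.1 γ).1, q.2), fun γ => (q.1 γ).2⟩
        left_inv := fun _ => rfl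
        right_inv := fun _ => rfl }
  have hcard : Fintype.card κ = Fintype.card Γ * Fintype.card δ +
      Nat.card ((Set.range ι)ᶜ : Set κ) := by
    rw [← Nat.card_eq_fintype_card, ← Nat.card_congr e1, Nat.card_sum, Nat.card_prod,
      Nat.card_eq_fintype_card, Nat.card_eq_fintype_card]
  rw [Nat.card_congr e3, Nat.card_prod, Nat.card_pi, card_set', hcard, pow_add]
  ring

/-! ### The block graph -/

section block

variable {Blk Γ : Type*} (src tgt : Γ → Blk) (act : Γ → Prop) (c f : ℕ)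

/-- adjacency between left vertices `u` and right vertices `v`: vertices are pairs
(block, slot); slots are `c + 1` per gadget and `f` free ones. Blocks are complete bipartite
except that each active gadget switches `c + 1` pairs of edges between its two blocks. -/
def BRel (u v : Blk × ((Γ × Fin (c + 1)) ⊕ Fin f)) : Prop :=
  match v.2 with
  | .inr _ => u.1 = v.1
  | .inl g =>
    (act g.1 ∧ v.1 = src g.1 ∧
      ((u.1 = v.1 ∧ u.2 ≠ .inl g) ∨ (u.1 = tgt g.1 ∧ u.2 = .inl (g.1, 0)))) ∨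
    (act g.1 ∧ v.1 = tgt g.1 ∧
      ((u.1 = v.1 ∧ u.2 ≠ .inl (g.1, 0)) ∨ (u.1 = src g.1 ∧ u.2 = .inl g))) ∨
    (¬ (act g.1 ∧ (v.1 = src g.1 ∨ v.1 = tgt g.1)) ∧ u.1 = v.1)

variable {src tgt act c f}

theorem BRel_same_right {u v : Blk × ((Γ × Fin (c + 1)) ⊕ Fin f)} {s : Fin f}
    (hv : v.2 = .inr s) (h : u.1 = v.1) : BRel src tgt act c f u v := by
  unfold BRel
  rw [hv]
  exact h

theorem BRel_same_left {u v : Blk × ((Γ × Fin (c + 1)) ⊕ Fin f)} {s : Fin f}
    (hu : u.2 = .inr s) (h : u.1 = v.1) : BRel src tgt act c f u v := by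
  unfold BRel
  rcases hv : v.2 with g | s'
  · simp only
    by_cases h1 : act g.1 ∧ v.1 = src g.1
    · exact Or.inl ⟨h1.1, h1.2, Or.inl ⟨h, by rw [hu]; simp⟩⟩
    · by_cases h2 : act g.1 ∧ v.1 = tgt g.1
      · exact Or.inr (Or.inl ⟨h2.1, h2.2, Or.inl ⟨h, by rw [hu]; simp⟩⟩)
      · refine Or.inr (Or.inr ⟨?_, h⟩)
        rintro ⟨h3, h4 | h4⟩
        · exact h1 ⟨h3, h4⟩
        · exact h2 ⟨h3, h4⟩
  · exact h

/-- edges between different blocks -/
theorem BRel_diff {u v : Blk × ((Γ × Fin (c + 1)) ⊕ Fin f)} (h : u.1 ≠ v.1) :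
    BRel src tgt act c f u v ↔ ∃ g : Γ × Fin (c + 1), v.2 = .inl g ∧ act g.1 ∧
      ((v.1 = src g.1 ∧ u.1 = tgt g.1 ∧ u.2 = .inl (g.1, 0)) ∨
        (v.1 = tgt g.1 ∧ u.1 = src g.1 ∧ u.2 = .inl g)) := by
  unfold BRel
  rcases hv : v.2 with g | s'
  · simp only
    constructor
    · rintro (⟨h1, h2, ⟨h3, _⟩ | ⟨h3, h4⟩⟩ | ⟨h1, h2, ⟨h3, _⟩ | ⟨h3, h4⟩⟩ | ⟨_, h3⟩)
      · exact absurd h3 h
      · exact ⟨g, rfl, h1, Or.inl ⟨h2, h3, h4⟩⟩
      · exact absurd h3 h
      · exact ⟨g, rfl, h1, Or.inr ⟨h2, h3, h4⟩⟩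
      · exact absurd h3 h
    · rintro ⟨g', hg, h1, h2⟩
      simp only [Sum.inl.injEq] at hg
      subst hg
      rcases h2 with ⟨h2, h3, h4⟩ | ⟨h2, h3, h4⟩
      · exact Or.inl ⟨h1, h2, Or.inr ⟨h3, h4⟩⟩
      · exact Or.inr (Or.inl ⟨h1, h2, Or.inr ⟨h3, h4⟩⟩)
  · simp only
    constructor
    · intro h1; exact absurd h1 h
    · rintro ⟨g, hg, _⟩
      simp at hg

variable (src tgt act c f)

/-- `U` is a union of a set of left vertices in the blocks with `σ = true` and a set of right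
vertices in the other blocks, spanning no edge. -/
def Pure (σ : Blk → Bool) (U : Set (Blk × ((Γ × Fin (c + 1)) ⊕ Fin f))) : Prop :=
  ∀ u ∈ U, ∀ v ∈ U, σ u.1 = true → σ v.1 = false → ¬ BRel src tgt act c f u v

/-- the coordinates touched by gadget `γ` -/
def crd (p : Γ × (Fin (c + 1) × Bool)) : Blk × ((Γ × Fin (c + 1)) ⊕ Fin f) :=
  (bif p.2.2 then tgt p.1 else src p.1, .inl (p.1, p.2.1))

variable {src tgt}

theorem crd_injective (hst : ∀ γ, src γ ≠ tgt γ) : Function.Injective (crd src tgt c f) := by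
  rintro ⟨γ, j, b⟩ ⟨γ', j', b'⟩ h
  simp only [crd, Prod.mk.injEq, Sum.inl.injEq] at h
  obtain ⟨h1, rfl, rfl⟩ := h
  cases b <;> cases b'
  · rfl
  · exact absurd h1 (hst γ)
  · exact absurd h1.symm (hst γ)
  · rfl

/-- the constraint at a gadget whose blocks are in states `s`, `t` -/
def con (a : Prop) (s t : Bool) (v : Set (Fin (c + 1) × Bool)) : Prop :=
  a → ((s = true ∧ t = false → ∀ j, ¬ ((j, false) ∈ v ∧ (j, true) ∈ v)) ∧
    (s = false ∧ t = true → ∀ j, ¬ ((0, true) ∈ v ∧ (j, false) ∈ v)))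

theorem pure_iff (σ : Blk → Bool) (U : Set (Blk × ((Γ × Fin (c + 1)) ⊕ Fin f))) :
    Pure src tgt act c f σ U ↔
      ∀ γ, con c (act γ) (σ (src γ)) (σ (tgt γ)) {d | crd src tgt c f (γ, d) ∈ U} := by
  constructor
  · intro h γ hγ
    constructor
    · rintro ⟨h1, h2⟩ j ⟨h3, h4⟩
      refine h _ h3 _ h4 h1 h2 ?_
      rw [BRel_diff]
      · exact ⟨(γ, j), rfl, hγ, Or.inr ⟨rfl, rfl, rfl⟩⟩
      · simp only [crd, cond_false, cond_true]
        intro e
        rw [e, h2] at h1
        exact absurd h1 (by simp)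
    · rintro ⟨h1, h2⟩ j ⟨h3, h4⟩
      refine h _ h3 _ h4 h2 h1 ?_
      rw [BRel_diff]
      · exact ⟨(γ, j), rfl, hγ, Or.inl ⟨rfl, rfl, rfl⟩⟩
      · simp only [crd, cond_false, cond_true]
        intro e
        rw [← e, h2] at h1
        exact absurd h1 (by simp)
  · intro h u hu v hv h1 h2 hR
    rw [BRel_diff (by intro e; rw [e, h2] at h1; exact absurd h1 (by simp))] at hR
    obtain ⟨⟨γ, j⟩, h3, h4, ⟨h5, h6, h7⟩ | ⟨h5, h6, h7⟩⟩ := hR
    · refine (h γ h4).2 ⟨?_, ?_⟩ j ⟨?_, ?_⟩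
      · simp only at h5; rw [← h5]; exact h2
      · simp only at h6; rw [← h6]; exact h1
      · show crd src tgt c f (γ, (0, true)) ∈ U
        have : crd src tgt c f (γ, (0, true)) = u := Prod.ext h6.symm h7.symm
        rw [this]; exact hu
      · show crd src tgt c f (γ, (j, false)) ∈ U
        have : crd src tgt c f (γ, (j, false)) = v := Prod.ext h5.symm h3.symm
        rw [this]; exact hv
    · refine (h γ h4).1 ⟨?_, ?_⟩ j ⟨?_, ?_⟩
      · simp only at h6; rw [← h6]; exact h1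
      · simp only at h5; rw [← h5]; exact h2
      · show crd src tgt c f (γ, (j, false)) ∈ U
        have : crd src tgt c f (γ, (j, false)) = u := Prod.ext h6.symm h7.symm
        rw [this]; exact hu
      · show crd src tgt c f (γ, (j, true)) ∈ U
        have : crd src tgt c f (γ, (j, true)) = v := Prod.ext h5.symm h3.symm
        rw [this]; exact hv

end block

/-! ### Gadget weights -/

/-- number of sets satisfying the constraint -/
noncomputable def wt (c : ℕ) (a : Prop) (s t : Bool) : ℕ :=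
  Nat.card {v : Set (Fin (c + 1) × Bool) // con c a s t v}

theorem card_singleton_mem (c : ℕ) : Nat.card {T : Set (Fin (c + 1)) // (0 : Fin (c + 1)) ∈ T} =
    2 ^ c := by
  have h := card_constrained (κ := Fin (c + 1)) (Γ := Unit) (δ := Unit) (fun _ => 0)
    (Function.injective_of_subsingleton _) (fun _ v => () ∈ v)
  simp only [Fintype.card_unit, Fintype.card_fin, Finset.univ_unique, Finset.prod_singleton] at h
  have h1 : Nat.card {v : Set Unit // () ∈ v} = 1 := by
    rw [Nat.card_eq_one_iff_unique]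
    refine ⟨⟨?_⟩, ⟨⟨Set.univ, trivial⟩⟩⟩
    rintro ⟨v, hv⟩ ⟨v', hv'⟩
    apply Subtype.ext
    ext ⟨⟩
    exact iff_of_true hv hv'
  rw [h1] at h
  have h2 : Nat.card {T : Set (Fin (c + 1)) // (0 : Fin (c + 1)) ∈ T} =
      Nat.card {U : Set (Fin (c + 1)) // Unit → () ∈ {_d : Unit | (0 : Fin (c + 1)) ∈ U}} := by
    refine Nat.card_congr (Equiv.subtypeEquivRight fun U => ?_)
    exact ⟨fun h _ => h, fun h => h ()⟩
  rw [h2]
  rw [pow_succ] at h
  simp only [mul_one] at h
  omega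

theorem wt_free {c : ℕ} {a : Prop} {s t : Bool} (h : ¬ a ∨ s = t) : wt c a s t = 4 ^ (c + 1) := by
  unfold wt
  have h1 : Nat.card {v : Set (Fin (c + 1) × Bool) // con c a s t v} =
      Nat.card (Set (Fin (c + 1) × Bool)) := by
    refine Nat.card_congr (Equiv.subtypeUnivEquiv fun v => ?_)
    intro ha
    rcases h with h | h
    · exact absurd ha h
    · subst h
      constructor
      · rintro ⟨h1, h2⟩; rw [h1] at h2; exact absurd h2 (by simp)
      · rintro ⟨h1, h2⟩; rw [h1] at h2; exact absurd h2 (by simp)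
  rw [h1, card_set', Nat.card_prod, Nat.card_eq_fintype_card, Nat.card_eq_fintype_card,
    Fintype.card_fin, Fintype.card_bool, mul_comm, pow_mul]
  norm_num

theorem wt_LR {c : ℕ} {a : Prop} (ha : a) : wt c a true false = 3 ^ (c + 1) := by
  classical
  unfold wt
  have h := card_constrained (κ := Fin (c + 1) × Bool) (Γ := Fin (c + 1)) (δ := Bool) id
    Function.injective_id (fun _ v => ¬ (false ∈ v ∧ true ∈ v))
  have h1 : Nat.card {v : Set Bool // ¬ (false ∈ v ∧ true ∈ v)} = 3 := by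
    have h2 : Nat.card {v : Set Bool // (false ∈ v ∧ true ∈ v)} = 1 := by
      rw [Nat.card_eq_one_iff_unique]
      refine ⟨⟨?_⟩, ⟨⟨Set.univ, trivial, trivial⟩⟩⟩
      rintro ⟨v, hv⟩ ⟨v', hv'⟩
      apply Subtype.ext
      ext b
      cases b
      · exact iff_of_true hv.1 hv'.1
      · exact iff_of_true hv.2 hv'.2
    have h3 : Nat.card {v : Set Bool // (false ∈ v ∧ true ∈ v)} +
        Nat.card {v : Set Bool // ¬ (false ∈ v ∧ true ∈ v)} = Nat.card (Set Bool) := by
      rw [← Nat.card_sum]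
      exact Nat.card_congr (Equiv.sumCompl _)
    rw [card_set', Nat.card_eq_fintype_card (α := Bool), Fintype.card_bool, h2] at h3
    omega
  rw [Finset.prod_const, h1, Finset.card_univ] at h
  simp only [Fintype.card_prod, Fintype.card_fin, Fintype.card_bool, id_eq] at h
  have h4 : Nat.card {v : Set (Fin (c + 1) × Bool) // con c a true false v} =
      Nat.card {U : Set (Fin (c + 1) × Bool) //
        ∀ γ, ¬ (false ∈ {d | (γ, d) ∈ U} ∧ true ∈ {d | (γ, d) ∈ U})} := by
    refine Nat.card_congr (Equiv.subtypeEquivRight fun U => ?_)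
    constructor
    · intro h γ
      exact (h ha).1 ⟨rfl, rfl⟩ γ
    · intro h _
      exact ⟨fun _ j => h j, fun h' => absurd h'.1 (by simp)⟩
  rw [h4]
  have hpos : 0 < 2 ^ ((c + 1) * 2) := by positivity
  rw [mul_comm] at h
  exact Nat.eq_of_mul_eq_mul_left hpos h

theorem wt_RL {c : ℕ} {a : Prop} (ha : a) : wt c a false true = 2 ^ c * (2 ^ (c + 1) + 1) := by
  classical
  unfold wt
  have e : {v : Set (Fin (c + 1) × Bool) // con c a false true v} ≃
      Σ T : Set (Fin (c + 1)), {B : Set (Fin (c + 1)) // 0 ∈ T → B = ∅} :=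
    { toFun := fun v => ⟨{j | (j, true) ∈ v.1}, {j | (j, false) ∈ v.1}, fun h => by
        rw [Set.eq_empty_iff_forall_notMem]
        intro j hj
        exact (v.2 ha).2 ⟨rfl, rfl⟩ j ⟨h, hj⟩⟩
      invFun := fun p => ⟨{x | bif x.2 then x.1 ∈ p.1 else x.1 ∈ p.2.1}, by
        intro _
        refine ⟨fun h => absurd h.1 (by simp), fun _ j h => ?_⟩
        have h1 : (0 : Fin (c + 1)) ∈ p.1 := h.1
        have h2 : j ∈ p.2.1 := h.2
        rw [p.2.2 h1] at h2
        exact h2⟩
      left_inv := by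
        rintro ⟨v, hv⟩
        apply Subtype.ext
        ext ⟨j, b⟩
        cases b <;> rfl
      right_inv := by
        rintro ⟨T, B, h⟩
        rfl }
  rw [Nat.card_congr e, Nat.card_sigma]
  have h1 : ∀ T : Set (Fin (c + 1)), Nat.card {B : Set (Fin (c + 1)) // 0 ∈ T → B = ∅} =
      if (0 : Fin (c + 1)) ∈ T then 1 else 2 ^ (c + 1) := by
    intro T
    split_ifs with h
    · rw [Nat.card_eq_one_iff_unique]
      refine ⟨⟨?_⟩, ⟨⟨∅, fun _ => rfl⟩⟩⟩
      rintro ⟨B, hB⟩ ⟨B', hB'⟩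
      apply Subtype.ext
      simp only
      rw [hB h, hB' h]
    · rw [Nat.card_congr (Equiv.subtypeUnivEquiv fun B => fun h' => absurd h' h), card_set',
        Nat.card_eq_fintype_card, Fintype.card_fin]
  simp only [h1]
  rw [Finset.sum_ite, Finset.sum_const, Finset.sum_const, smul_eq_mul, smul_eq_mul, mul_one]
  have h2 : (Finset.univ.filter fun T : Set (Fin (c + 1)) => (0 : Fin (c + 1)) ∈ T).card =
      2 ^ c := by
    rw [← card_singleton_mem c, Nat.card_eq_fintype_card, Fintype.card_subtype]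
  have h3 : (Finset.univ.filter fun T : Set (Fin (c + 1)) => (0 : Fin (c + 1)) ∈ T).card +
      (Finset.univ.filter fun T : Set (Fin (c + 1)) => ¬ (0 : Fin (c + 1)) ∈ T).card =
      2 ^ (c + 1) := by
    rw [Finset.card_filter_add_card_filter_not, Finset.card_univ, Fintype.card_set,
      Fintype.card_fin]
  have h4 : (Finset.univ.filter fun T : Set (Fin (c + 1)) => ¬ (0 : Fin (c + 1)) ∈ T).card =
      2 ^ c := by
    rw [h2, pow_succ] at h3
    omega
  rw [h2, h4]
  ring

end Pool.Agent.Lib.Pa7c826
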