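import Pool.Agent.Lib.Pa7c826.Block

/-!
Counting independent sets of the block graph.
-/

namespace Pool.Agent.Lib.Pa7c826

section

variable {Blk Γ : Type*} [Fintype Blk] [Fintype Γ] {src tgt : Γ → Blk} {act : Γ → Prop} {c f : ℕ}

theorem card_pure (hst : ∀ γ, src γ ≠ tgt γ) (σ : Blk → Bool) :
    Nat.card {U : Set (Blk × ((Γ × Fin (c + 1)) ⊕ Fin f)) // Pure src tgt act c f σ U} *
      2 ^ (Fintype.card Γ * ((c + 1) * 2)) =
    2 ^ (Fintype.card Blk * (Fintype.card Γ * (c + 1) + f)) *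
      ∏ γ, wt c (act γ) (σ (src γ)) (σ (tgt γ)) := by
  have h := card_constrained (crd src tgt c f) (crd_injective c f hst)
    (fun γ v => con c (act γ) (σ (src γ)) (σ (tgt γ)) v)
  simp only [Fintype.card_prod, Fintype.card_sum, Fintype.card_fin, Fintype.card_bool] at h
  have e : Nat.card {U : Set (Blk × ((Γ × Fin (c + 1)) ⊕ Fin f)) // Pure src tgt act c f σ U} =
      Nat.card {U : Set (Blk × ((Γ × Fin (c + 1)) ⊕ Fin f)) // ∀ γ,
        con c (act γ) (σ (src γ)) (σ (tgt γ)) {d | crd src tgt c f (γ, d) ∈ U}} :=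
    Nat.card_congr (Equiv.subtypeEquivRight fun U => pure_iff act c f σ U)
  rw [e]
  exact h

/-- pure sets missing the block `x` -/
def MissP (σ : Blk → Bool) (x : Blk) (U : Set (Blk × ((Γ × Fin (c + 1)) ⊕ Fin f))) : Prop :=
  Pure src tgt act c f σ U ∧ ∀ s, (x, s) ∉ U

theorem card_miss (σ : Blk → Bool) (x : Blk) :
    Nat.card {U : Set (Blk × ((Γ × Fin (c + 1)) ⊕ Fin f)) //
      MissP (src := src) (tgt := tgt) (act := act) σ x U} * 2 ^ f ≤
    Nat.card {U : Set (Blk × ((Γ × Fin (c + 1)) ⊕ Fin f)) // Pure src tgt act c f σ U} := by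
  classical
  have h1 : (2 : ℕ) ^ f = Nat.card (Set (Fin f)) := by
    rw [card_set', Nat.card_eq_fintype_card, Fintype.card_fin]
  rw [h1, ← Nat.card_prod]
  refine Nat.card_le_card_of_injective
    (fun p => ⟨p.1.1 ∪ {u | u.1 = x ∧ ∃ s ∈ p.2, u.2 = .inr s}, ?_⟩) ?_
  · rintro u (hu | ⟨hu, s, hs, hus⟩) v (hv | ⟨hv, s', hs', hvs⟩) h1 h2 hR
    · exact p.1.2.1 u hu v hv h1 h2 hR
    · have hne : u.1 ≠ v.1 := by intro e; rw [e, h2] at h1; exact absurd h1 (by simp)
      rw [BRel_diff hne] at hR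
      obtain ⟨g, hg, _⟩ := hR
      rw [hvs] at hg
      simp at hg
    · have hne : u.1 ≠ v.1 := by intro e; rw [e, h2] at h1; exact absurd h1 (by simp)
      rw [BRel_diff hne] at hR
      obtain ⟨g, _, _, ⟨_, _, h3⟩ | ⟨_, _, h3⟩⟩ := hR <;>
      · rw [hus] at h3
        simp at h3
    · rw [hu] at h1
      rw [hv, h1] at h2
      exact absurd h2 (by simp)
  · rintro ⟨⟨U, hU, hUx⟩, S⟩ ⟨⟨U', hU', hUx'⟩, S'⟩ h
    have h' := congrArg Subtype.val h
    have key : ∀ u, (u ∈ U ∨ (u.1 = x ∧ ∃ s ∈ S, u.2 = .inr s)) ↔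
        (u ∈ U' ∨ (u.1 = x ∧ ∃ s ∈ S', u.2 = .inr s)) := by
      intro u
      have := Set.ext_iff.1 h' u
      exact this
    refine Prod.ext (Subtype.ext ?_) ?_
    · ext u
      constructor
      · intro hu
        rcases (key u).1 (Or.inl hu) with h3 | ⟨h3, _⟩
        · exact h3
        · exact absurd (show (x, u.2) ∈ U by rw [← h3]; exact hu) (hUx u.2)
      · intro hu
        rcases (key u).2 (Or.inl hu) with h3 | ⟨h3, _⟩
        · exact h3
        · exact absurd (show (x, u.2) ∈ U' by rw [← h3]; exact hu) (hUx' u.2)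
    · ext s
      constructor
      · intro hs
        rcases (key (x, .inr s)).1 (Or.inr ⟨rfl, s, hs, rfl⟩) with h3 | ⟨_, s', hs', h3⟩
        · exact absurd h3 (hUx' _)
        · simp only [Sum.inr.injEq] at h3
          rw [h3]; exact hs'
      · intro hs
        rcases (key (x, .inr s)).2 (Or.inr ⟨rfl, s, hs, rfl⟩) with h3 | ⟨_, s', hs', h3⟩
        · exact absurd h3 (hUx _)
        · simp only [Sum.inr.injEq] at h3
          rw [h3]; exact hs'

variable [DecidableEq Blk]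

variable (src tgt act c f)

/-- the total number of pure sets -/
noncomputable def pureTotal : ℕ :=
  ∑ σ : Blk → Bool, Nat.card {U : Set (Blk × ((Γ × Fin (c + 1)) ⊕ Fin f)) //
    Pure src tgt act c f σ U}

theorem lower_bound :
    2 ^ f * pureTotal src tgt act c f ≤ 2 ^ f * cnt (BRel src tgt act c f) +
      Fintype.card Blk * pureTotal src tgt act c f := by
  classical
  -- full pure sets
  let Full : (Blk → Bool) → Set (Blk × ((Γ × Fin (c + 1)) ⊕ Fin f)) → Prop := fun σ U =>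
    Pure src tgt act c f σ U ∧ ∀ x, ∃ s, (x, s) ∈ U
  have h1 : ∀ σ, Nat.card {U // Pure src tgt act c f σ U} ≤ Nat.card {U // Full σ U} +
      ∑ x, Nat.card {U // MissP (src := src) (tgt := tgt) (act := act) (c := c) (f := f) σ x U} := by
    intro σ
    rw [← Nat.card_sigma, ← Nat.card_sum]
    have hx : ∀ U : {U // Pure src tgt act c f σ U}, ¬ Full σ U.1 → ∃ x, ∀ s, (x, s) ∉ U.1 := by
      intro U hU
      by_contra h
      push Not at h
      exact hU ⟨U.2, h⟩
    refine Nat.card_le_card_of_injective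
      (fun U => if h : Full σ U.1 then Sum.inl ⟨U.1, h⟩ else
        Sum.inr ⟨(hx U h).choose, ⟨U.1, U.2, (hx U h).choose_spec⟩⟩) ?_
    intro U U' h
    apply Subtype.ext
    by_cases h2 : Full σ U.1 <;> by_cases h3 : Full σ U'.1
    · simp only [dif_pos h2, dif_pos h3, Sum.inl.injEq, Subtype.mk.injEq] at h
      exact h
    · simp only [dif_pos h2, dif_neg h3] at h
      exact absurd h (by simp)
    · simp only [dif_neg h2, dif_pos h3] at h
      exact absurd h (by simp)
    · simp only [dif_neg h2, dif_neg h3, Sum.inr.injEq] at h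
      have h4 := congrArg (fun z : (Σ x, {U // MissP (src := src) (tgt := tgt) (act := act)
        (c := c) (f := f) σ x U}) => z.2.1) h
      exact h4
  have h2 : ∑ σ : Blk → Bool, Nat.card {U // Full σ U} ≤ cnt (BRel src tgt act c f) := by
    rw [← Nat.card_sigma]
    unfold cnt
    refine Nat.card_le_card_of_injective
      (fun p => ⟨({u | u ∈ p.2.1 ∧ p.1 u.1 = true}, {u | u ∈ p.2.1 ∧ p.1 u.1 = false}),
        fun u hu v hv => p.2.2.1 u hu.1 v hv.1 hu.2 hv.2⟩) ?_
    rintro ⟨σ, ⟨U, hU, hf⟩⟩ ⟨σ', ⟨U', hU', hf'⟩⟩ h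
    simp only [Subtype.mk.injEq, Prod.mk.injEq] at h
    obtain ⟨hL, hR⟩ := h
    have kL : ∀ u, (u ∈ U ∧ σ u.1 = true) ↔ (u ∈ U' ∧ σ' u.1 = true) := fun u =>
      Set.ext_iff.1 hL u
    have kR : ∀ u, (u ∈ U ∧ σ u.1 = false) ↔ (u ∈ U' ∧ σ' u.1 = false) := fun u =>
      Set.ext_iff.1 hR u
    have hUU : U = U' := by
      ext u
      cases hb : σ u.1
      · constructor
        · intro hu; exact ((kR u).1 ⟨hu, hb⟩).1
        · intro hu
          cases hb' : σ' u.1
          · exact ((kR u).2 ⟨hu, hb'⟩).1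
          · exact ((kL u).2 ⟨hu, hb'⟩).1
      · constructor
        · intro hu; exact ((kL u).1 ⟨hu, hb⟩).1
        · intro hu
          cases hb' : σ' u.1
          · exact ((kR u).2 ⟨hu, hb'⟩).1
          · exact ((kL u).2 ⟨hu, hb'⟩).1
    subst hUU
    have hσ : σ = σ' := by
      funext x
      obtain ⟨s, hs⟩ := hf x
      cases hb : σ x
      · exact ((kR (x, s)).1 ⟨hs, hb⟩).2.symm
      · exact ((kL (x, s)).1 ⟨hs, hb⟩).2.symm
    subst hσ
    rfl
  have h3 : ∀ σ, 2 ^ f * ∑ x, Nat.card {U // MissP (src := src) (tgt := tgt) (act := act)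
      (c := c) (f := f) σ x U} ≤ Fintype.card Blk *
        Nat.card {U // Pure src tgt act c f σ U} := by
    intro σ
    rw [Finset.mul_sum, ← Finset.card_univ, ← smul_eq_mul (a := (Finset.univ : Finset Blk).card),
      ← Finset.sum_const]
    refine Finset.sum_le_sum fun x _ => ?_
    rw [mul_comm]
    exact card_miss σ x
  unfold pureTotal
  calc 2 ^ f * ∑ σ : Blk → Bool, Nat.card {U // Pure src tgt act c f σ U}
      ≤ 2 ^ f * ∑ σ : Blk → Bool, (Nat.card {U // Full σ U} +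
        ∑ x, Nat.card {U // MissP (src := src) (tgt := tgt) (act := act) (c := c) (f := f)
          σ x U}) := Nat.mul_le_mul_left _ (Finset.sum_le_sum fun σ _ => h1 σ)
    _ = 2 ^ f * ∑ σ : Blk → Bool, Nat.card {U // Full σ U} +
        ∑ σ : Blk → Bool, 2 ^ f * ∑ x, Nat.card {U // MissP (src := src) (tgt := tgt)
          (act := act) (c := c) (f := f) σ x U} := by
        rw [Finset.sum_add_distrib, Nat.mul_add, Finset.mul_sum Finset.univ (fun σ => ∑ x, _)]
    _ ≤ 2 ^ f * cnt (BRel src tgt act c f) + ∑ σ : Blk → Bool, Fintype.card Blk *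
        Nat.card {U // Pure src tgt act c f σ U} :=
        Nat.add_le_add (Nat.mul_le_mul_left _ h2) (Finset.sum_le_sum fun σ _ => h3 σ)
    _ = _ := by rw [Finset.mul_sum]

/-- independent pairs that meet both sides of the block `x` -/
def Mixed (x : Blk) (p : Set (Blk × ((Γ × Fin (c + 1)) ⊕ Fin f)) ×
    Set (Blk × ((Γ × Fin (c + 1)) ⊕ Fin f))) : Prop :=
  (∀ u ∈ p.1, ∀ v ∈ p.2, ¬ BRel src tgt act c f u v) ∧ (∃ s, (x, s) ∈ p.1) ∧ ∃ s, (x, s) ∈ p.2

theorem card_mixed (x : Blk) :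
    Nat.card {p // Mixed src tgt act c f x p} * 2 ^ f ≤
      2 ^ (Fintype.card Γ * (c + 1)) * cnt (BRel src tgt act c f) := by
  classical
  have h1 : (2 : ℕ) ^ f = Nat.card (Set (Fin f)) := by
    rw [card_set', Nat.card_eq_fintype_card, Fintype.card_fin]
  have h2 : (2 : ℕ) ^ (Fintype.card Γ * (c + 1)) = Nat.card (Set (Γ × Fin (c + 1))) := by
    rw [card_set', Nat.card_prod, Nat.card_eq_fintype_card, Nat.card_eq_fintype_card,
      Fintype.card_fin]
  unfold cnt
  rw [h1, h2, ← Nat.card_prod, ← Nat.card_prod]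
  refine Nat.card_le_card_of_injective
    (fun q => ({g | (x, .inl g) ∈ q.1.1.1},
      ⟨({u | u ∈ q.1.1.1 ∧ u.1 ≠ x}, q.1.1.2 ∪ {u | u.1 = x ∧ ∃ s ∈ q.2, u.2 = .inr s}), ?_⟩)) ?_
  · rintro u ⟨hu, hux⟩ v (hv | ⟨hvx, s, hs, hvs⟩) hR
    · exact q.1.2.1 u hu v hv hR
    · unfold BRel at hR
      rw [hvs] at hR
      simp only at hR
      exact hux (hR.trans hvx)
  · rintro ⟨⟨⟨P, Q⟩, hI, ⟨s0, hs0⟩, ⟨s1, hs1⟩⟩, S⟩ ⟨⟨⟨P', Q'⟩, hI', ⟨s0', hs0'⟩, ⟨s1', hs1'⟩⟩, S'⟩ h
    simp only [Prod.mk.injEq, Subtype.mk.injEq] at h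
    obtain ⟨hA, hP, hQ⟩ := h
    -- no free slots
    have nP : ∀ s, (x, Sum.inr s) ∉ P := fun s hs => hI _ hs _ hs1 (BRel_same_left rfl rfl)
    have nP' : ∀ s, (x, Sum.inr s) ∉ P' := fun s hs => hI' _ hs _ hs1' (BRel_same_left rfl rfl)
    have nQ : ∀ s, (x, Sum.inr s) ∉ Q := fun s hs => hI _ hs0 _ hs (BRel_same_right rfl rfl)
    have nQ' : ∀ s, (x, Sum.inr s) ∉ Q' := fun s hs => hI' _ hs0' _ hs (BRel_same_right rfl rfl)
    have kA : ∀ g, (x, Sum.inl g) ∈ P ↔ (x, Sum.inl g) ∈ P' := fun g => Set.ext_iff.1 hA g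
    have kP : ∀ u, (u ∈ P ∧ u.1 ≠ x) ↔ (u ∈ P' ∧ u.1 ≠ x) := fun u => Set.ext_iff.1 hP u
    have kQ : ∀ u, (u ∈ Q ∨ (u.1 = x ∧ ∃ s ∈ S, u.2 = .inr s)) ↔
        (u ∈ Q' ∨ (u.1 = x ∧ ∃ s ∈ S', u.2 = .inr s)) := fun u => Set.ext_iff.1 hQ u
    have hPP : P = P' := by
      ext ⟨y, s⟩
      by_cases hy : y = x
      · subst hy
        rcases s with g | s
        · exact kA g
        · exact iff_of_false (nP s) (nP' s)
      · constructor
        · intro hu; exact ((kP _).1 ⟨hu, hy⟩).1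
        · intro hu; exact ((kP _).2 ⟨hu, hy⟩).1
    have hQQ : Q = Q' := by
      ext u
      constructor
      · intro hu
        rcases (kQ u).1 (Or.inl hu) with h3 | ⟨h3, s, _, h4⟩
        · exact h3
        · exact absurd (show (x, Sum.inr s) ∈ Q by rw [← h3, ← h4]; exact hu) (nQ s)
      · intro hu
        rcases (kQ u).2 (Or.inl hu) with h3 | ⟨h3, s, _, h4⟩
        · exact h3
        · exact absurd (show (x, Sum.inr s) ∈ Q' by rw [← h3, ← h4]; exact hu) (nQ' s)
    have hSS : S = S' := by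
      ext s
      constructor
      · intro hs
        rcases (kQ (x, .inr s)).1 (Or.inr ⟨rfl, s, hs, rfl⟩) with h3 | ⟨_, s', hs', h3⟩
        · exact absurd h3 (nQ' s)
        · simp only [Sum.inr.injEq] at h3
          rw [h3]; exact hs'
      · intro hs
        rcases (kQ (x, .inr s)).2 (Or.inr ⟨rfl, s, hs, rfl⟩) with h3 | ⟨_, s', hs', h3⟩
        · exact absurd h3 (nQ s)
        · simp only [Sum.inr.injEq] at h3
          rw [h3]; exact hs'
    subst hPP hQQ hSS
    rfl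

theorem upper_bound :
    2 ^ f * cnt (BRel src tgt act c f) ≤ 2 ^ f * pureTotal src tgt act c f +
      Fintype.card Blk * (2 ^ (Fintype.card Γ * (c + 1)) * cnt (BRel src tgt act c f)) := by
  classical
  let I : Set (Blk × ((Γ × Fin (c + 1)) ⊕ Fin f)) × Set (Blk × ((Γ × Fin (c + 1)) ⊕ Fin f)) →
    Prop := fun p => ∀ u ∈ p.1, ∀ v ∈ p.2, ¬ BRel src tgt act c f u v
  have h1 : Nat.card {p // I p} ≤ Nat.card {p // I p ∧ ∀ x, ¬ ((∃ s, (x, s) ∈ p.1) ∧
      ∃ s, (x, s) ∈ p.2)} + ∑ x, Nat.card {p // Mixed src tgt act c f x p} := by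
    rw [← Nat.card_sigma, ← Nat.card_sum]
    have hx : ∀ p : {p // I p}, ¬ (I p.1 ∧ ∀ x, ¬ ((∃ s, (x, s) ∈ p.1.1) ∧
      ∃ s, (x, s) ∈ p.1.2)) → ∃ x, Mixed src tgt act c f x p.1 := by
      intro p hp
      by_contra h
      push Not at h
      exact hp ⟨p.2, fun x hxx => h x ⟨p.2, hxx.1, hxx.2⟩⟩
    refine Nat.card_le_card_of_injective
      (fun p => if h : (I p.1 ∧ ∀ x, ¬ ((∃ s, (x, s) ∈ p.1.1) ∧ ∃ s, (x, s) ∈ p.1.2)) then
        Sum.inl ⟨p.1, h⟩ else Sum.inr ⟨(hx p h).choose, ⟨p.1, (hx p h).choose_spec⟩⟩) ?_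
    intro p p' h
    apply Subtype.ext
    by_cases h2 : (I p.1 ∧ ∀ x, ¬ ((∃ s, (x, s) ∈ p.1.1) ∧ ∃ s, (x, s) ∈ p.1.2)) <;>
    by_cases h3 : (I p'.1 ∧ ∀ x, ¬ ((∃ s, (x, s) ∈ p'.1.1) ∧ ∃ s, (x, s) ∈ p'.1.2))
    · simp only [dif_pos h2, dif_pos h3, Sum.inl.injEq, Subtype.mk.injEq] at h
      exact h
    · simp only [dif_pos h2, dif_neg h3] at h
      exact absurd h (by simp)
    · simp only [dif_neg h2, dif_pos h3] at h
      exact absurd h (by simp)
    · simp only [dif_neg h2, dif_neg h3, Sum.inr.injEq] at h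
      have h4 := congrArg (fun z : (Σ x, {p // Mixed src tgt act c f x p}) => z.2.1) h
      exact h4
  have h2 : Nat.card {p // I p ∧ ∀ x, ¬ ((∃ s, (x, s) ∈ p.1) ∧ ∃ s, (x, s) ∈ p.2)} ≤
      pureTotal src tgt act c f := by
    unfold pureTotal
    rw [← Nat.card_sigma]
    have key : ∀ p : {p // I p ∧ ∀ x, ¬ ((∃ s, (x, s) ∈ p.1) ∧ ∃ s, (x, s) ∈ p.2)}, ∀ u,
        u ∈ p.1.2 → decide (∃ s, (u.1, s) ∈ p.1.1) = false := by
      intro p u hu
      rw [decide_eq_false_iff_not]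
      intro h
      exact p.2.2 u.1 ⟨h, u.2, hu⟩
    have key1 : ∀ p : {p // I p ∧ ∀ x, ¬ ((∃ s, (x, s) ∈ p.1) ∧ ∃ s, (x, s) ∈ p.2)}, ∀ u,
        u ∈ p.1.1 → decide (∃ s, (u.1, s) ∈ p.1.1) = true := by
      intro p u hu
      rw [decide_eq_true_eq]
      exact ⟨u.2, hu⟩
    refine Nat.card_le_card_of_injective
      (fun p => ⟨fun x => decide (∃ s, (x, s) ∈ p.1.1), ⟨p.1.1 ∪ p.1.2, ?_⟩⟩) ?_
    · rintro u (hu | hu) v (hv | hv) e1 e2
      all_goals beta_reduce at e1 e2
      · rw [key1 p v hv] at e2; exact absurd e2 (by simp)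
      · exact p.2.1 u hu v hv
      · rw [key p u hu] at e1; exact absurd e1 (by simp)
      · rw [key p u hu] at e1; exact absurd e1 (by simp)
    · intro p p' h
      have hσ := congrArg (fun z : (Σ σ : Blk → Bool, {U : Set (Blk × ((Γ × Fin (c + 1)) ⊕ Fin f))
        // Pure src tgt act c f σ U}) => z.1) h
      have hU := congrArg (fun z : (Σ σ : Blk → Bool, {U : Set (Blk × ((Γ × Fin (c + 1)) ⊕ Fin f))
        // Pure src tgt act c f σ U}) => z.2.1) h
      simp only at hσ hU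
      have kσ : ∀ x, decide (∃ s, (x, s) ∈ p.1.1) = decide (∃ s, (x, s) ∈ p'.1.1) :=
        fun x => congrFun hσ x
      have kU : ∀ u, (u ∈ p.1.1 ∨ u ∈ p.1.2) ↔ (u ∈ p'.1.1 ∨ u ∈ p'.1.2) := fun u =>
        Set.ext_iff.1 hU u
      apply Subtype.ext
      refine Prod.ext ?_ ?_
      · ext u
        constructor
        · intro hu
          rcases (kU u).1 (Or.inl hu) with h3 | h3
          · exact h3
          · have := kσ u.1
            rw [key1 p u hu, key p' u h3] at this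
            exact absurd this (by simp)
        · intro hu
          rcases (kU u).2 (Or.inl hu) with h3 | h3
          · exact h3
          · have := kσ u.1
            rw [key1 p' u hu, key p u h3] at this
            exact absurd this (by simp)
      · ext u
        constructor
        · intro hu
          rcases (kU u).1 (Or.inr hu) with h3 | h3
          · have := kσ u.1
            rw [key1 p' u h3, key p u hu] at this
            exact absurd this (by simp)
          · exact h3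
        · intro hu
          rcases (kU u).2 (Or.inr hu) with h3 | h3
          · have := kσ u.1
            rw [key1 p u h3, key p' u hu] at this
            exact absurd this (by simp)
          · exact h3
  have h3 : 2 ^ f * ∑ x, Nat.card {p // Mixed src tgt act c f x p} ≤
      Fintype.card Blk * (2 ^ (Fintype.card Γ * (c + 1)) * cnt (BRel src tgt act c f)) := by
    rw [Finset.mul_sum, ← Finset.card_univ, ← smul_eq_mul (a := (Finset.univ : Finset Blk).card),
      ← Finset.sum_const]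
    refine Finset.sum_le_sum fun x _ => ?_
    rw [mul_comm]
    exact card_mixed src tgt act c f x
  have h4 : cnt (BRel src tgt act c f) = Nat.card {p // I p} := rfl
  calc 2 ^ f * cnt (BRel src tgt act c f)
      ≤ 2 ^ f * (pureTotal src tgt act c f + ∑ x, Nat.card {p // Mixed src tgt act c f x p}) := by
        refine Nat.mul_le_mul_left _ ?_
        rw [h4]
        exact h1.trans (Nat.add_le_add_right h2 _)
    _ = 2 ^ f * pureTotal src tgt act c f +
        2 ^ f * ∑ x, Nat.card {p // Mixed src tgt act c f x p} := Nat.mul_add _ _ _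
    _ ≤ _ := Nat.add_le_add_left h3 _

end

end Pool.Agent.Lib.Pa7c826
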