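import Mathlib

/-!
The branching algorithm for counting independent sets, on finsets of natural numbers, and its
analysis on graphs with supersaturated independence number.
-/

namespace Pool.Agent.Lib.Pa7c826

open Finset

section

variable (n g : ℕ) (adj : ℕ → ℕ → Bool)

/-- number of independent subsets of `S` -/
def ind (S : Finset ℕ) : ℕ :=
  (S.powerset.filter (fun I => ∀ u ∈ I, ∀ v ∈ I, adj u v = false)).card

/-- degree into `S` -/
def dg (S : Finset ℕ) (v : ℕ) : ℕ := (S.filter (fun u => adj v u = true)).card

/-- `v` is heavy in `S` -/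
def heavy (S : Finset ℕ) (v : ℕ) : Bool := decide (v ∈ S) && decide (n ≤ g * dg adj S v)

/-- `v` is the first heavy vertex -/
def chosen (S : Finset ℕ) (v : ℕ) : Bool :=
  heavy n g adj S v && !decide (∃ u < v, heavy n g adj S u = true)

/-- there is a heavy vertex -/
def anyHeavy (S : Finset ℕ) : Bool := decide (∃ u < n, heavy n g adj S u = true)

/-- remove the first heavy vertex -/
def outS (S : Finset ℕ) : Finset ℕ := S.filter (fun v => chosen n g adj S v = false)

/-- remove the first heavy vertex and its neighbours -/
def inS (S : Finset ℕ) : Finset ℕ :=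
  S.filter (fun u => (!chosen n g adj S u &&
    !decide (∃ v < n, (chosen n g adj S v && adj v u) = true)) = true)

/-- branching with a given leaf function -/
def count (leaf : Finset ℕ → ℕ) : ℕ → Finset ℕ → ℕ
  | 0, S => leaf S
  | j + 1, S => (∑ i ∈ range n, if anyHeavy n g adj ((outS n g adj)^[i] S) then
      count leaf j (inS n g adj ((outS n g adj)^[i] S)) else 0) +
      leaf ((outS n g adj)^[n] S)

end

section analysis

variable {n g : ℕ} {adj : ℕ → ℕ → Bool}

theorem ind_mono {S T : Finset ℕ} (h : S ⊆ T) : ind adj S ≤ ind adj T := by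
  unfold ind
  apply card_le_card
  intro I
  simp only [mem_filter, mem_powerset]
  exact fun hI => ⟨hI.1.trans h, hI.2⟩

theorem ind_pos (S : Finset ℕ) : 1 ≤ ind adj S := by
  unfold ind
  rw [Nat.one_le_iff_ne_zero, ← Nat.pos_iff_ne_zero, card_pos]
  exact ⟨∅, by simp⟩

theorem ind_empty : ind adj ∅ = 1 :=
  le_antisymm ((card_filter_le _ _).trans (by simp)) (ind_pos ∅)

theorem ind_le_two_pow (S : Finset ℕ) : ind adj S ≤ 2 ^ S.card := by
  unfold ind
  exact (card_filter_le _ _).trans (by rw [card_powerset])

/-- The basic recursion. -/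
theorem ind_erase (hs : ∀ u v, adj u v = adj v u) (hl : ∀ u, adj u u = false)
    {S : Finset ℕ} {v : ℕ} (hv : v ∈ S) :
    ind adj S = ind adj (S.erase v) + ind adj ((S.erase v).filter (fun u => adj v u = false)) := by
  unfold ind
  rw [← card_filter_add_card_filter_not (s := S.powerset.filter
    (fun I => ∀ u ∈ I, ∀ v ∈ I, adj u v = false)) (fun I => v ∉ I)]
  congr 1
  · congr 1
    ext I
    simp only [mem_filter, mem_powerset]
    constructor
    · rintro ⟨⟨h1, h2⟩, h3⟩
      exact ⟨fun x hx => mem_erase.2 ⟨fun e => h3 (e ▸ hx), h1 hx⟩, h2⟩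
    · rintro ⟨h1, h2⟩
      exact ⟨⟨fun x hx => mem_of_mem_erase (h1 hx), h2⟩, fun h => by simpa using h1 h⟩
  · refine card_bij' (fun I _ => I.erase v) (fun J _ => insert v J) ?_ ?_ ?_ ?_
    · intro I hI
      simp only [mem_filter, mem_powerset, not_not] at hI ⊢
      obtain ⟨⟨h1, h2⟩, h3⟩ := hI
      refine ⟨fun x hx => ?_, fun x hx y hy => h2 x (mem_of_mem_erase hx) y (mem_of_mem_erase hy)⟩
      rw [mem_filter, mem_erase]
      exact ⟨⟨(mem_erase.1 hx).1, h1 (mem_of_mem_erase hx)⟩, h2 v h3 x (mem_of_mem_erase hx)⟩
    · intro J hJ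
      simp only [mem_filter, mem_powerset, not_not] at hJ ⊢
      obtain ⟨h1, h2⟩ := hJ
      have h3 : ∀ x ∈ J, adj v x = false := fun x hx => (mem_filter.1 (h1 hx)).2
      refine ⟨⟨?_, ?_⟩, mem_insert_self _ _⟩
      · intro x hx
        rcases mem_insert.1 hx with rfl | hx
        · exact hv
        · exact mem_of_mem_erase (mem_filter.1 (h1 hx)).1
      · intro x hx y hy
        rcases mem_insert.1 hx with hxv | hx' <;> rcases mem_insert.1 hy with hyv | hy'
        · rw [hxv, hyv]; exact hl _
        · rw [hxv]; exact h3 y hy'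
        · rw [hyv, hs]; exact h3 x hx'
        · exact h2 x hx' y hy'
    · intro I hI
      simp only [mem_filter, mem_powerset, not_not] at hI
      exact insert_erase hI.2
    · intro J hJ
      simp only [mem_filter, mem_powerset] at hJ
      refine erase_insert fun h => ?_
      have := (mem_filter.1 (hJ.1 h)).1
      simp at this

theorem heavy_mem {S : Finset ℕ} {v : ℕ} (h : heavy n g adj S v = true) : v ∈ S := by
  unfold heavy at h
  simp only [Bool.and_eq_true, decide_eq_true_eq] at h
  exact h.1

theorem chosen_heavy {S : Finset ℕ} {v : ℕ} (h : chosen n g adj S v = true) :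
    heavy n g adj S v = true := by
  unfold chosen at h
  simp only [Bool.and_eq_true] at h
  exact h.1

theorem chosen_unique {S : Finset ℕ} {v w : ℕ} (h : chosen n g adj S v = true)
    (h' : chosen n g adj S w = true) : v = w := by
  unfold chosen at h h'
  simp only [Bool.and_eq_true, Bool.not_eq_true', decide_eq_false_iff_not] at h h'
  rcases lt_trichotomy v w with hlt | heq | hgt
  · exact absurd ⟨v, hlt, h.1⟩ h'.2
  · exact heq
  · exact absurd ⟨w, hgt, h'.1⟩ h.2

theorem exists_chosen {S : Finset ℕ} (h : ∃ u, heavy n g adj S u = true) :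
    ∃ v, chosen n g adj S v = true := by
  classical
  refine ⟨Nat.find h, ?_⟩
  unfold chosen
  simp only [Bool.and_eq_true, Bool.not_eq_true', decide_eq_false_iff_not]
  refine ⟨Nat.find_spec h, ?_⟩
  rintro ⟨u, hu, hh⟩
  exact Nat.find_min h hu hh

theorem outS_eq {S : Finset ℕ} {v : ℕ} (h : chosen n g adj S v = true) :
    outS n g adj S = S.erase v := by
  ext u
  simp only [outS, mem_filter, mem_erase]
  constructor
  · rintro ⟨h1, h2⟩
    exact ⟨fun e => by subst e; rw [h] at h2; exact absurd h2 (by simp), h1⟩
  · rintro ⟨h1, h2⟩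
    refine ⟨h2, ?_⟩
    by_contra h3
    rw [Bool.not_eq_false] at h3
    exact h1 (chosen_unique h3 h)

theorem outS_eq_self {S : Finset ℕ} (h : ∀ u, heavy n g adj S u = false) :
    outS n g adj S = S := by
  ext u
  simp only [outS, mem_filter, and_iff_left_iff_imp]
  intro _
  unfold chosen
  rw [h u]
  rfl

theorem inS_eq {S : Finset ℕ} {v : ℕ} (hv : v < n) (h : chosen n g adj S v = true) :
    inS n g adj S = (S.erase v).filter (fun u => adj v u = false) := by
  ext u
  simp only [inS, mem_filter, mem_erase, Bool.and_eq_true, Bool.not_eq_true',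
    decide_eq_false_iff_not]
  constructor
  · rintro ⟨h1, h2, h3⟩
    refine ⟨⟨fun e => by subst e; rw [h] at h2; exact absurd h2 (by simp), h1⟩, ?_⟩
    by_contra h4
    rw [Bool.not_eq_false] at h4
    exact h3 ⟨v, hv, h, h4⟩
  · rintro ⟨⟨h1, h2⟩, h3⟩
    refine ⟨h2, ?_, ?_⟩
    · by_contra h4
      rw [Bool.not_eq_false] at h4
      exact h1 (chosen_unique h4 h)
    · rintro ⟨w, hw, h4, h5⟩
      rw [chosen_unique h4 h, h3] at h5
      exact absurd h5 (by simp)

theorem outS_subset (S : Finset ℕ) : outS n g adj S ⊆ S := filter_subset _ _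

theorem inS_subset (S : Finset ℕ) : inS n g adj S ⊆ S := filter_subset _ _

theorem iterate_outS_subset (S : Finset ℕ) (i : ℕ) : (outS n g adj)^[i] S ⊆ S := by
  induction i with
  | zero => exact subset_rfl
  | succ i ih =>
    rw [Function.iterate_succ_apply']
    exact (outS_subset _).trans ih

theorem anyHeavy_iff {S : Finset ℕ} (hS : S ⊆ range n) :
    anyHeavy n g adj S = true ↔ ∃ u, heavy n g adj S u = true := by
  unfold anyHeavy
  rw [decide_eq_true_eq]
  constructor
  · rintro ⟨u, _, h⟩
    exact ⟨u, h⟩
  · rintro ⟨u, h⟩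
    exact ⟨u, mem_range.1 (hS (heavy_mem h)), h⟩

/-- Telescoping along the path of exclusions. -/
theorem ind_path (hs : ∀ u v, adj u v = adj v u) (hl : ∀ u, adj u u = false)
    {S : Finset ℕ} (hS : S ⊆ range n) (m : ℕ) :
    ind adj S = (∑ i ∈ range m, if anyHeavy n g adj ((outS n g adj)^[i] S) then
      ind adj (inS n g adj ((outS n g adj)^[i] S)) else 0) + ind adj ((outS n g adj)^[m] S) := by
  induction m with
  | zero => simp
  | succ m ih =>
    rw [ih, sum_range_succ, Function.iterate_succ_apply']
    set T := (outS n g adj)^[m] S with hT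
    have hTS : T ⊆ range n := (iterate_outS_subset S m).trans hS
    by_cases h : anyHeavy n g adj T = true
    · rw [if_pos h]
      obtain ⟨v, hv⟩ := exists_chosen ((anyHeavy_iff hTS).1 h)
      have hvT := heavy_mem (chosen_heavy hv)
      rw [ind_erase hs hl hvT, outS_eq hv, inS_eq (mem_range.1 (hTS hvT)) hv]
      ring
    · rw [if_neg h]
      have h' : ∀ u, heavy n g adj T u = false := by
        intro u
        by_contra hu
        rw [Bool.not_eq_false] at hu
        exact h ((anyHeavy_iff hTS).2 ⟨u, hu⟩)
      rw [outS_eq_self h']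
      ring

/-- After `n` exclusions there is no heavy vertex. -/
theorem iterate_light {S : Finset ℕ} (hS : S ⊆ range n) (u : ℕ) :
    heavy n g adj ((outS n g adj)^[n] S) u = false := by
  have key : ∀ m, (∀ u, heavy n g adj ((outS n g adj)^[m] S) u = false) ∨
      ((outS n g adj)^[m] S).card + m ≤ n := by
    intro m
    induction m with
    | zero =>
      right
      simpa using card_le_card hS
    | succ m ih =>
      rw [Function.iterate_succ_apply']
      set T := (outS n g adj)^[m] S with hT
      by_cases h : ∀ u, heavy n g adj T u = false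
      · left
        rw [outS_eq_self h]
        exact h
      · right
        have h2 := ih.resolve_left h
        push Not at h
        obtain ⟨v, hv⟩ := exists_chosen (n := n) (g := g) (adj := adj) (S := T)
          (by
            obtain ⟨x, hx⟩ := h
            exact ⟨x, by simpa using hx⟩)
        have hvT := heavy_mem (chosen_heavy hv)
        rw [outS_eq hv, card_erase_of_mem hvT]
        have := card_pos.2 ⟨v, hvT⟩
        omega
  rcases key n with h | h
  · exact h u
  · by_contra hu
    rw [Bool.not_eq_false] at hu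
    have := card_pos.2 ⟨u, heavy_mem hu⟩
    omega

theorem card_inS {S : Finset ℕ} (hS : S ⊆ range n)
    (h : anyHeavy n g adj S = true) : g * (inS n g adj S).card + n ≤ g * S.card := by
  obtain ⟨v, hv⟩ := exists_chosen ((anyHeavy_iff hS).1 h)
  have hh := chosen_heavy hv
  have hvS := heavy_mem hh
  rw [inS_eq (mem_range.1 (hS hvS)) hv]
  have h1 : ((S.erase v).filter (fun u => adj v u = false)).card + dg adj S v ≤ S.card := by
    unfold dg
    have h2 : (S.filter (fun u => adj v u = true)).card +
        (S.filter (fun u => ¬ adj v u = true)).card = S.card :=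
      card_filter_add_card_filter_not _
    have h3 : ((S.erase v).filter (fun u => adj v u = false)).card ≤
        (S.filter (fun u => ¬ adj v u = true)).card := by
      apply card_le_card
      intro u
      simp only [mem_filter, mem_erase, Bool.not_eq_true]
      exact fun h => ⟨h.1.2, h.2⟩
    omega
  unfold heavy at hh
  simp only [Bool.and_eq_true, decide_eq_true_eq] at hh
  have h4 := Nat.mul_le_mul_left g h1
  rw [Nat.mul_add] at h4
  omega

/-- The branching algorithm approximates. -/
theorem count_bounds (hs : ∀ u v, adj u v = adj v u) (hl : ∀ u, adj u u = false)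
    (hg : 1 ≤ g) (leaf : Finset ℕ → ℕ) (δ : ℕ)
    (h1 : ∀ S, S ⊆ range n → leaf S ≤ ind adj S)
    (h2 : ∀ S, S ⊆ range n → (∀ u, heavy n g adj S u = false) → ind adj S ≤ leaf S + δ)
    (j : ℕ) : ∀ S, S ⊆ range n → g * S.card ≤ j * n → (0 < n) →
      count n g adj leaf j S ≤ ind adj S ∧
        ind adj S ≤ count n g adj leaf j S + (n + 1) ^ j * δ := by
  induction j with
  | zero =>
    intro S hS hc hn
    have hS0 : S = ∅ := by
      rw [← card_eq_zero]
      rw [Nat.zero_mul] at hc
      rcases Nat.mul_eq_zero.1 (Nat.le_zero.1 hc) with h | h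
      · omega
      · exact h
    refine ⟨h1 S hS, ?_⟩
    rw [pow_zero, Nat.one_mul]
    refine h2 S hS ?_
    intro u
    subst hS0
    simp [heavy]
  | succ j ih =>
    intro S hS hc hn
    rw [ind_path (g := g) hs hl hS n]
    have hsub : ∀ i, (outS n g adj)^[i] S ⊆ range n := fun i =>
      (iterate_outS_subset S i).trans hS
    have hin : ∀ i, anyHeavy n g adj ((outS n g adj)^[i] S) = true →
        g * (inS n g adj ((outS n g adj)^[i] S)).card ≤ j * n := by
      intro i hi
      have h3 := card_inS (hsub i) hi
      have h4 : g * ((outS n g adj)^[i] S).card ≤ g * S.card :=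
        Nat.mul_le_mul_left _ (card_le_card (iterate_outS_subset S i))
      rw [Nat.succ_mul] at hc
      omega
    have hi' : ∀ i, (if anyHeavy n g adj ((outS n g adj)^[i] S) then
        count n g adj leaf j (inS n g adj ((outS n g adj)^[i] S)) else 0) ≤
        (if anyHeavy n g adj ((outS n g adj)^[i] S) then
        ind adj (inS n g adj ((outS n g adj)^[i] S)) else 0) := by
      intro i
      split_ifs with h
      · exact (ih _ ((inS_subset _).trans (hsub i)) (hin i h) hn).1
      · exact le_rfl
    have hi'' : ∀ i, (if anyHeavy n g adj ((outS n g adj)^[i] S) then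
        ind adj (inS n g adj ((outS n g adj)^[i] S)) else 0) ≤
        (if anyHeavy n g adj ((outS n g adj)^[i] S) then
        count n g adj leaf j (inS n g adj ((outS n g adj)^[i] S)) else 0) +
          (n + 1) ^ j * δ := by
      intro i
      split_ifs with h
      · exact (ih _ ((inS_subset _).trans (hsub i)) (hin i h) hn).2
      · omega
    constructor
    · unfold count
      exact Nat.add_le_add (sum_le_sum fun i _ => hi' i) (h1 _ (hsub n))
    · unfold count
      have h5 := h2 _ (hsub n) (iterate_light hS)
      have h6 := sum_le_sum (s := range n) fun i _ => hi'' i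
      rw [sum_add_distrib, sum_const, card_range, smul_eq_mul] at h6
      have h7 : n * ((n + 1) ^ j * δ) + δ ≤ (n + 1) ^ (j + 1) * δ := by
        have h8 : δ ≤ (n + 1) ^ j * δ := Nat.le_mul_of_pos_left _ (by positivity)
        calc n * ((n + 1) ^ j * δ) + δ ≤ n * ((n + 1) ^ j * δ) + (n + 1) ^ j * δ := by omega
          _ = (n + 1) ^ (j + 1) * δ := by ring
      omega

end analysis

end Pool.Agent.Lib.Pa7c826
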