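import Pool.Agent.Lib.PolyTime.Comb

/-!
More closure properties of `PolyC`: counting, halving, reversal, binary numbers, masks.
-/

namespace Pool.Agent.Lib.Pa7c826

open Pool.Agent.Lib.PolyTime

variable {α : Type*} {D : α → Prop} {ctx : List (α → List Bool)}

/-! ### Lifting to one more unary variable -/

theorem up {t : α → List Bool} {n : α → ℕ} (h : PolyC D ctx t) :
    PolyC (fun p : α × ℕ => D p.1 ∧ p.2 < n p.1) (PolyTime.lift ctx ++ [fun p => un p.2])
      (fun p => t p.1) := (PolyC.lift h (fun _ hp => hp.1)).weakenRight _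

theorem upN {t : α → ℕ} {n : α → ℕ} (h : PolyN D ctx t) :
    PolyN (fun p : α × ℕ => D p.1 ∧ p.2 < n p.1) (PolyTime.lift ctx ++ [fun p => un p.2])
      (fun p => t p.1) := up h

theorem last {n : α → ℕ} :
    PolyN (fun p : α × ℕ => D p.1 ∧ p.2 < n p.1) (PolyTime.lift ctx ++ [fun p => un p.2])
      (fun p => p.2) := PolyC.var (by simp)

theorem up2 {t : α → List Bool} {n : α → ℕ} {u : α × ℕ → List Bool} (h : PolyC D ctx t) :
    PolyC (fun p : α × ℕ => D p.1 ∧ p.2 < n p.1) (PolyTime.lift ctx ++ [fun p => un p.2, u])
      (fun p => t p.1) := (PolyC.lift h (fun _ hp => hp.1)).weakenRight _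

/-! ### Counting -/

theorem PolyN.count {n : α → ℕ} {φ : α × ℕ → Bool} (hn : PolyN D ctx n)
    (hφ : PolyB (fun p : α × ℕ => D p.1 ∧ p.2 < n p.1)
      (PolyTime.lift ctx ++ [fun p => un p.2]) φ) :
    PolyN D ctx (fun a => ((Finset.range (n a)).filter (fun i => φ (a, i) = true)).card) := by
  obtain ⟨pn, hpn⟩ := PolyC.length_le hn
  refine PolyC.natRec (fun a k => un (((Finset.range k).filter (fun i => φ (a, i) = true)).card))
    hn (PolyC.nil.congr (fun a _ => by simp)) ?_ ⟨pn, fun a ha k hk => ?_⟩
  · have h1 : PolyN (fun p : α × ℕ => D p.1 ∧ p.2 < n p.1)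
        (PolyTime.lift ctx ++ [fun p => un p.2,
          fun p => un (((Finset.range p.2).filter (fun i => φ (p.1, i) = true)).card)])
        (fun p => ((Finset.range p.2).filter (fun i => φ (p.1, i) = true)).card) :=
      PolyC.var (by simp)
    have h2 : PolyB (fun p : α × ℕ => D p.1 ∧ p.2 < n p.1)
        (PolyTime.lift ctx ++ [fun p => un p.2,
          fun p => un (((Finset.range p.2).filter (fun i => φ (p.1, i) = true)).card)]) φ := by
      refine PolyC.subset hφ ?_
      intro f hf
      simp only [List.mem_append, List.mem_cons, List.not_mem_nil, or_false] at hf ⊢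
      tauto
    refine (PolyC.ite h2 (PolyC.mono h1.succ fun _ h => h.1)
      (PolyC.mono h1 fun _ h => h.1)).congr ?_
    rintro ⟨a, k⟩ _
    simp only
    rw [Finset.range_add_one, Finset.filter_insert]
    split_ifs with h
    · rw [Finset.card_insert_of_notMem (by simp)]
    · rfl
  · have h1 := hpn a ha
    rw [un_length] at h1 ⊢
    exact ((Finset.card_filter_le _ _).trans (by simp)).trans (hk.trans h1)

/-! ### Halving and parity of unary numbers -/

theorem PolyB.odd {f : α → ℕ} (hf : PolyN D ctx f) : PolyB D ctx (fun a => decide (f a % 2 = 1)) := by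
  refine PolyC.natRec (fun _ k => [decide (k % 2 = 1)]) hf
    ((PolyC.const [false]).congr (fun a _ => by simp)) ?_ ⟨1, fun a ha k hk => by simp⟩
  have h1 : PolyB (fun p : α × ℕ => D p.1 ∧ p.2 < f p.1)
      (PolyTime.lift ctx ++ [fun p => un p.2, fun p => [decide (p.2 % 2 = 1)]])
      (fun p => decide (p.2 % 2 = 1)) := PolyC.var (by simp)
  refine h1.not.congr ?_
  rintro ⟨a, k⟩ _
  rw [Bool.eq_iff_iff]
  simp only [Bool.not_eq_true', decide_eq_false_iff_not, decide_eq_true_eq]
  omega

theorem PolyN.half {f : α → ℕ} (hf : PolyN D ctx f) : PolyN D ctx (fun a => f a / 2) := by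
  obtain ⟨pf, hpf⟩ := PolyC.length_le hf
  refine PolyC.natRec (fun _ k => un (k / 2)) hf
    (PolyC.nil.congr (fun a _ => by simp)) ?_ ⟨pf, fun a ha k hk => ?_⟩
  · have h1 : PolyN (fun p : α × ℕ => D p.1 ∧ p.2 < f p.1)
        (PolyTime.lift ctx ++ [fun p => un p.2, fun p => un (p.2 / 2)])
        (fun p => p.2 / 2) := PolyC.var (by simp)
    have h2 : PolyN (fun p : α × ℕ => D p.1 ∧ p.2 < f p.1)
        (PolyTime.lift ctx ++ [fun p => un p.2, fun p => un (p.2 / 2)])
        (fun p => p.2) := PolyC.var (by simp)
    refine (PolyC.ite (PolyB.odd h2) (PolyC.mono h1.succ fun _ h => h.1)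
      (PolyC.mono h1 fun _ h => h.1)).congr ?_
    rintro ⟨a, k⟩ _
    simp only [decide_eq_true_eq]
    split_ifs with h
    · congr 1; omega
    · congr 1; omega
  · have h1 := hpf a ha
    rw [un_length] at h1 ⊢
    omega

theorem PolyN.divPow {f k : α → ℕ} (hf : PolyN D ctx f) (hk : PolyN D ctx k) :
    PolyN D ctx (fun a => f a / 2 ^ k a) := by
  obtain ⟨pf, hpf⟩ := PolyC.length_le hf
  refine PolyC.natRec (fun a k => un (f a / 2 ^ k)) hk
    (PolyC.congr hf (fun a _ => by simp)) ?_ ⟨pf, fun a ha j hj => ?_⟩
  · have h1 : PolyN (fun p : α × ℕ => D p.1 ∧ p.2 < k p.1)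
        (PolyTime.lift ctx ++ [fun p => un p.2, fun p => un (f p.1 / 2 ^ p.2)])
        (fun p => f p.1 / 2 ^ p.2) := PolyC.var (by simp)
    refine (PolyN.half h1).congr ?_
    rintro ⟨a, k⟩ _
    simp only
    rw [pow_succ, Nat.div_div_eq_div_mul]
  · have h1 := hpf a ha
    rw [un_length] at h1 ⊢
    exact (Nat.div_le_self _ _).trans h1

theorem PolyN.sub {f g : α → ℕ} (hf : PolyN D ctx f) (hg : PolyN D ctx g) :
    PolyN D ctx (fun a => f a - g a) :=
  (PolyC.drop hf hg).congr (fun a _ => by simp [un])

theorem PolyN.pow {f : α → ℕ} (hf : PolyN D ctx f) (k : ℕ) : PolyN D ctx (fun a => f a ^ k) := by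
  induction k with
  | zero => exact (PolyN.const 1).congr (fun a _ => by simp)
  | succ k ih => exact (ih.mul hf).congr (fun a _ => by rw [pow_succ])

/-! ### Reversal -/

theorem PolyC.reverse {t : α → List Bool} (ht : PolyC D ctx t) :
    PolyC D ctx (fun a => (t a).reverse) := by
  obtain ⟨pt, hpt⟩ := ht.length_le
  refine PolyC.recOn (x := t) (fun a l => l.reverse) ht PolyC.nil (fun b => ?_)
    ⟨pt, fun a ha l hl => ?_⟩
  · have h1 : PolyC (fun p : α × List Bool => D p.1 ∧ (b :: p.2) <:+ t p.1)
      (PolyTime.lift ctx ++ [fun p => p.2, fun p => p.2.reverse])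
      (fun p => p.2.reverse ++ [b]) := (PolyC.var (by simp)).append (PolyC.const [b])
    exact h1.congr (fun p _ => by simp)
  · have h1 := hl.length_le
    have h2 := hpt a ha
    rw [List.length_reverse]
    omega

theorem PolyC.replicateFalse {f : α → ℕ} (hf : PolyN D ctx f) :
    PolyC D ctx (fun a => List.replicate (f a) false) :=
  (PolyC.map_range (φ := fun _ => false) hf (PolyB.const false)).congr (fun a _ => by
    rw [List.map_const', List.length_range])

/-! ### Binary numbers -/

/-- The number with binary digits `l`, least significant first. -/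
def bval : List Bool → ℕ
  | [] => 0
  | b :: l => b.toNat + 2 * bval l

theorem bval_append (l m : List Bool) : bval (l ++ m) = bval l + 2 ^ l.length * bval m := by
  induction l with
  | nil => simp [bval]
  | cons b l ih =>
    simp only [List.cons_append, bval, ih, List.length_cons]
    ring

theorem bval_replicate_false (n : ℕ) : bval (List.replicate n false) = 0 := by
  induction n with
  | zero => rfl
  | succ n ih => simp [List.replicate_succ, bval, ih]

theorem bval_eq_sum (l : List Bool) (m : ℕ) (hm : l.length ≤ m) :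
    bval l = ∑ i ∈ Finset.range m, (l.getD i false).toNat * 2 ^ i := by
  induction l generalizing m with
  | nil => simp [bval]
  | cons b l ih =>
    obtain ⟨m, rfl⟩ : ∃ k, m = k + 1 := ⟨m - 1, by simp at hm; omega⟩
    rw [Finset.sum_range_succ', bval, ih m (by simpa using hm), Finset.mul_sum]
    simp only [List.getD_cons_succ, List.getD_cons_zero, pow_zero, mul_one]
    rw [add_comm]
    congr 1
    refine Finset.sum_congr rfl fun i _ => ?_
    ring

/-- sum bit of three bits -/
def xor3 (a b c : Bool) : Bool := a ^^ (b ^^ c)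

/-- majority of three bits -/
def maj3 (a b c : Bool) : Bool := (a && b) || ((a && c) || (b && c))

theorem xor_maj (a b c : Bool) :
    a.toNat + b.toNat + c.toNat = (xor3 a b c).toNat + 2 * (maj3 a b c).toNat := by
  cases a <;> cases b <;> cases c <;> rfl

/-- addition: carry followed by the sum bits, most significant first -/
def addAux (x y : List Bool) : ℕ → List Bool
  | 0 => [false]
  | k + 1 => maj3 (x.getD k false) (y.getD k false) ((addAux x y k).headD false) ::
      xor3 (x.getD k false) (y.getD k false) ((addAux x y k).headD false) ::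
      (addAux x y k).tail

theorem addAux_length (x y : List Bool) (k : ℕ) : (addAux x y k).length = k + 1 := by
  induction k with
  | zero => rfl
  | succ k ih => simp [addAux, ih]

theorem addAux_val (x y : List Bool) (k : ℕ) :
    bval (addAux x y k).reverse = ∑ i ∈ Finset.range k, (x.getD i false).toNat * 2 ^ i +
      ∑ i ∈ Finset.range k, (y.getD i false).toNat * 2 ^ i := by
  induction k with
  | zero => simp [addAux, bval]
  | succ k ih =>
    obtain ⟨c, s, hs⟩ : ∃ c s, addAux x y k = c :: s := by
      have := addAux_length x y k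
      rcases h : addAux x y k with _ | ⟨c, s⟩
      · rw [h] at this; simp at this
      · exact ⟨c, s, rfl⟩
    have hlen : s.length = k := by
      have := addAux_length x y k
      rw [hs] at this
      simpa using this
    rw [hs, List.reverse_cons, bval_append, List.length_reverse, hlen] at ih
    simp only [bval, Nat.mul_zero, Nat.add_zero] at ih
    rw [Finset.sum_range_succ, Finset.sum_range_succ, addAux, hs]
    simp only [List.headD_cons, List.tail_cons, List.reverse_cons, List.append_assoc,
      List.cons_append, List.nil_append]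
    rw [bval_append, List.length_reverse, hlen]
    simp only [bval, Nat.mul_zero, Nat.add_zero]
    have h := xor_maj (x.getD k false) (y.getD k false) c
    have h2 : 2 ^ k * ((xor3 (x.getD k false) (y.getD k false) c).toNat +
        2 * (maj3 (x.getD k false) (y.getD k false) c).toNat) =
        (x.getD k false).toNat * 2 ^ k + (y.getD k false).toNat * 2 ^ k + 2 ^ k * c.toNat := by
      rw [← h]; ring
    rw [h2]
    omega

/-- binary addition -/
def addBits (x y : List Bool) : List Bool := (addAux x y (x.length + y.length)).reverse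

theorem addBits_val (x y : List Bool) : bval (addBits x y) = bval x + bval y := by
  unfold addBits
  rw [addAux_val, ← bval_eq_sum x _ (by omega), ← bval_eq_sum y _ (by omega)]

end Pool.Agent.Lib.Pa7c826
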