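import Mathlib

/-!
Independent sets of bipartite graphs: the definitions used by all hand-ins for this problem.
-/

namespace Pool.Agent.Lib.Pa7c826

/-- The bipartite graph with parts `α`, `β` and adjacency given by the relation `E`. -/
def bip {α β : Type*} (E : α → β → Prop) : SimpleGraph (α ⊕ β) where
  Adj x y := match x, y with
    | .inl a, .inr b => E a b
    | .inr b, .inl a => E a b
    | _, _ => False
  symm := ⟨by
    rintro (a | b) (a' | b') h
    · exact h
    · exact h
    · exact h
    · exact h⟩
  loopless := ⟨by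
    rintro (a | b) h
    · exact h
    · exact h⟩

/-- The number of independent sets of a graph (the empty set counts). -/
noncomputable def numIndep {V : Type*} (G : SimpleGraph V) : ℕ :=
  Nat.card {I : Set V // G.IsIndepSet I}

/-- Independent sets of a bipartite graph as pairs. -/
noncomputable def cnt {α β : Type*} (E : α → β → Prop) : ℕ :=
  Nat.card {P : Set α × Set β // ∀ a ∈ P.1, ∀ b ∈ P.2, ¬ E a b}

theorem bip_adj_inl_inr {α β : Type*} (E : α → β → Prop) (a : α) (b : β) :
    (bip E).Adj (.inl a) (.inr b) ↔ E a b := Iff.rfl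

theorem bip_adj_inr_inl {α β : Type*} (E : α → β → Prop) (a : α) (b : β) :
    (bip E).Adj (.inr b) (.inl a) ↔ E a b := Iff.rfl

theorem bip_adj_inl_inl {α β : Type*} (E : α → β → Prop) (a a' : α) :
    ¬ (bip E).Adj (.inl a) (.inl a') := fun h => h

theorem bip_adj_inr_inr {α β : Type*} (E : α → β → Prop) (b b' : β) :
    ¬ (bip E).Adj (.inr b) (.inr b') := fun h => h

theorem bip_isIndepSet_iff {α β : Type*} (E : α → β → Prop) (I : Set (α ⊕ β)) :
    (bip E).IsIndepSet I ↔ ∀ a, Sum.inl a ∈ I → ∀ b, Sum.inr b ∈ I → ¬ E a b := by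
  constructor
  · intro h a ha b hb hE
    exact h ha hb (by simp) hE
  · intro h x hx y hy hxy hadj
    rcases x with a | b <;> rcases y with a' | b'
    · exact hadj
    · exact h a hx b' hy hadj
    · exact h a' hy b hx hadj
    · exact hadj

theorem numIndep_bip {α β : Type*} (E : α → β → Prop) : numIndep (bip E) = cnt E := by
  refine Nat.card_congr ?_
  refine Equiv.subtypeEquiv
    { toFun := fun I => (Sum.inl ⁻¹' I, Sum.inr ⁻¹' I)
      invFun := fun P => Sum.inl '' P.1 ∪ Sum.inr '' P.2
      left_inv := ?_
      right_inv := ?_ } ?_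
  · intro I
    ext x
    rcases x with a | b <;> simp
  · rintro ⟨P, Q⟩
    ext x <;> simp
  · intro I
    rw [bip_isIndepSet_iff]
    rfl

end Pool.Agent.Lib.Pa7c826
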