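import Pool.Agent.Lib.Pa7c826.Fptas

/-!
Bipartite graphs in which the minimum degrees of the two sides have a large sum.
-/

namespace Pool.Agent.Lib.Pa7c826

open Finset

section

variable {n : ℕ} {adj : ℕ → ℕ → Bool}

theorem arith_minDeg {n c P Q r α β x y e : ℤ} (hn : 0 ≤ n) (hP : n ≤ c * P) (hQ : n ≤ c * Q)
    (hP0 : 0 ≤ P) (hQ0 : 0 ≤ Q) (hc : 0 ≤ c) (hx : 0 ≤ x) (hy : 0 ≤ y) (hr : 0 ≤ r)
    (hxα : x ≤ α) (hyβ : y ≤ β)
    (hmin : min α β ≤ P + Q + r) (e1 : x * (P + y - β) ≤ e) (e2 : y * (Q + x - α) ≤ e)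
    (hm : max α β + r < x + y) :
    n * (x + y - max α β - r) ≤ 4 * (c * e) := by
  set M := max α β with hM
  have hMα : α ≤ M := le_max_left _ _
  have hMβ : β ≤ M := le_max_right _ _
  have hsum : M + min α β = α + β := max_add_min α β
  set m := x + y - M with hmdef
  have hmr : 0 < m - r := by rw [hmdef]; linarith
  have hm0 : 0 < m := by linarith
  have hxm : m ≤ x := by rw [hmdef]; linarith
  have hym : m ≤ y := by rw [hmdef]; linarith
  have hs : m - r ≤ (P + y - β) + (Q + x - α) := by
    rw [hmdef]; linarith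
  have goal_of : ∀ z : ℤ, n ≤ c * z → z * (m - r) ≤ 4 * e →
      n * (m - r) ≤ 4 * (c * e) := by
    intro z hz h
    calc n * (m - r) ≤ (c * z) * (m - r) := mul_le_mul_of_nonneg_right hz hmr.le
      _ = c * (z * (m - r)) := by ring
      _ ≤ c * (4 * e) := mul_le_mul_of_nonneg_left h hc
      _ = 4 * (c * e) := by ring
  show n * (m - r) ≤ 4 * (c * e)
  rcases le_total (Q + x - α) (P + y - β) with h | h
  · have h1 : m - r ≤ 2 * (P + y - β) := by linarith
    refine goal_of P hP ?_
    rcases le_or_gt P (2 * x) with h2 | h2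
    · have h3 : P * (m - r) ≤ (2 * x) * (2 * (P + y - β)) :=
        mul_le_mul h2 h1 hmr.le (by linarith)
      nlinarith
    · have h3 : P ≤ 2 * (P + y - β) := by
        rw [hmdef] at hm0
        linarith
      have h4 : P * (m - r) ≤ 2 * (P + y - β) * x :=
        mul_le_mul h3 (by linarith) hmr.le (by linarith)
      have h5 : 0 ≤ x * (P + y - β) := mul_nonneg hx (by linarith)
      nlinarith
  · have h1 : m - r ≤ 2 * (Q + x - α) := by linarith
    refine goal_of Q hQ ?_
    rcases le_or_gt Q (2 * y) with h2 | h2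
    · have h3 : Q * (m - r) ≤ (2 * y) * (2 * (Q + x - α)) :=
        mul_le_mul h2 h1 hmr.le (by linarith)
      nlinarith
    · have h3 : Q ≤ 2 * (Q + x - α) := by
        rw [hmdef] at hm0
        linarith
      have h4 : Q * (m - r) ≤ 2 * (Q + x - α) * y :=
        mul_le_mul h3 (by linarith) hmr.le (by linarith)
      have h5 : 0 ≤ y * (Q + x - α) := mul_nonneg hy (by linarith)
      nlinarith

theorem superSat_of_minDeg (hs : ∀ u v, adj u v = adj v u) (p : ℕ → Prop) [DecidablePred p]
    {c P Q r : ℕ} (hbip : ∀ u v, adj u v = true → v < n ∧ (p u ↔ ¬ p v))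
    (hP : n ≤ c * P) (hQ : n ≤ c * Q)
    (hrow : ∀ u, u < n → p u → P ≤ dg adj (range n) u)
    (hcol : ∀ v, v < n → ¬ p v → Q ≤ dg adj (range n) v)
    (hmin : min ((range n).filter (fun v => p v)).card ((range n).filter (fun v => ¬ p v)).card ≤
      P + Q + r) :
    SuperSat n adj (4 * c) (max ((range n).filter (fun v => p v)).card
      ((range n).filter (fun v => ¬ p v)).card + r) := by
  intro S hS
  set α := ((range n).filter (fun v => p v)).card with hα
  set β := ((range n).filter (fun v => ¬ p v)).card with hβ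
  set X := S.filter (fun u => p u) with hX
  set Y := S.filter (fun u => ¬ p u) with hY
  have hcard : X.card + Y.card = S.card := card_filter_add_card_filter_not _
  have hXα : X.card ≤ α := card_le_card (filter_subset_filter _ hS)
  have hYβ : Y.card ≤ β := card_le_card (filter_subset_filter _ hS)
  have hSum : ∑ v ∈ S, dg adj S v = ∑ v ∈ X, dg adj S v + ∑ v ∈ Y, dg adj S v :=
    (sum_filter_add_sum_filter_not _ _ _).symm
  have hdc : ∀ P Q : Finset ℕ, ∑ u ∈ P, dg adj Q u = ∑ v ∈ Q, dg adj P v := by
    intro P Q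
    have := sum_card_bipartiteAbove_eq_sum_card_bipartiteBelow (s := P) (t := Q)
      (fun v w => adj v w = true)
    unfold bipartiteAbove bipartiteBelow at this
    unfold dg
    rw [this]
    refine sum_congr rfl fun w _ => ?_
    congr 1
    ext u
    simp only [mem_filter]
    rw [hs]
  have hXY : ∀ u ∈ X, dg adj S u = dg adj Y u := by
    intro u hu
    have hua : p u := (mem_filter.1 hu).2
    unfold dg
    congr 1
    ext v
    simp only [mem_filter, hY]
    constructor
    · rintro ⟨h1, h2⟩
      exact ⟨⟨h1, (hbip u v h2).2.1 hua⟩, h2⟩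
    · rintro ⟨⟨h1, _⟩, h2⟩
      exact ⟨h1, h2⟩
  have hYX : ∀ u ∈ Y, dg adj S u = dg adj X u := by
    intro u hu
    have hua : ¬ p u := (mem_filter.1 hu).2
    unfold dg
    congr 1
    ext v
    simp only [mem_filter, hX]
    constructor
    · rintro ⟨h1, h2⟩
      refine ⟨⟨h1, ?_⟩, h2⟩
      by_contra h3
      exact hua ((hbip u v h2).2.2 h3)
    · rintro ⟨⟨h1, _⟩, h2⟩
      exact ⟨h1, h2⟩
  -- lower bounds on the degrees inside S
  have hlowX : ∀ u ∈ X, P + Y.card ≤ dg adj S u + β := by
    intro u hu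
    have hua : p u := (mem_filter.1 hu).2
    have hun : u < n := mem_range.1 (hS (mem_filter.1 hu).1)
    have h1 := hrow u hun hua
    have h2 : dg adj (range n) u ≤ dg adj Y u + (((range n).filter (fun v => ¬ p v)) \ Y).card := by
      unfold dg
      refine (card_le_card (t := (Y.filter (fun v => adj u v = true)) ∪
        (((range n).filter (fun v => ¬ p v)) \ Y)) ?_).trans (card_union_le _ _)
      intro v hv
      rw [mem_filter] at hv
      rw [mem_union]
      by_cases hvY : v ∈ Y
      · exact Or.inl (mem_filter.2 ⟨hvY, hv.2⟩)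
      · exact Or.inr (mem_sdiff.2 ⟨mem_filter.2 ⟨hv.1, (hbip u v hv.2).2.1 hua⟩, hvY⟩)
    have h3 : (((range n).filter (fun v => ¬ p v)) \ Y).card + Y.card = β :=
      card_sdiff_add_card_eq_card (filter_subset_filter _ hS)
    rw [hXY u hu]
    omega
  have hlowY : ∀ u ∈ Y, Q + X.card ≤ dg adj S u + α := by
    intro u hu
    have hua : ¬ p u := (mem_filter.1 hu).2
    have hun : u < n := mem_range.1 (hS (mem_filter.1 hu).1)
    have h1 := hcol u hun hua
    have h2 : dg adj (range n) u ≤ dg adj X u + (((range n).filter (fun v => p v)) \ X).card := by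
      unfold dg
      refine (card_le_card (t := (X.filter (fun v => adj u v = true)) ∪
        (((range n).filter (fun v => p v)) \ X)) ?_).trans (card_union_le _ _)
      intro v hv
      rw [mem_filter] at hv
      rw [mem_union]
      by_cases hvX : v ∈ X
      · exact Or.inl (mem_filter.2 ⟨hvX, hv.2⟩)
      · refine Or.inr (mem_sdiff.2 ⟨mem_filter.2 ⟨hv.1, ?_⟩, hvX⟩)
        by_contra h3
        exact hua ((hbip u v hv.2).2.2 h3)
    have h3 : (((range n).filter (fun v => p v)) \ X).card + X.card = α :=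
      card_sdiff_add_card_eq_card (filter_subset_filter _ hS)
    rw [hYX u hu]
    omega
  set e := ∑ u ∈ X, dg adj S u with he
  have heY : ∑ u ∈ Y, dg adj S u = e := by
    rw [he, sum_congr rfl hXY, sum_congr rfl hYX, hdc]
  have h2e : 2 * e = ∑ v ∈ S, dg adj S v := by rw [hSum, heY]; ring
  have e1 : (X.card : ℤ) * ((P : ℤ) + Y.card - β) ≤ e := by
    have h1 : (∑ u ∈ X, ((P : ℤ) + Y.card - β)) ≤ ∑ u ∈ X, (dg adj S u : ℤ) := by
      refine sum_le_sum fun u hu => ?_
      have := hlowX u hu
      omega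
    rw [sum_const, nsmul_eq_mul] at h1
    rw [he]
    push_cast
    exact h1
  have e2 : (Y.card : ℤ) * ((Q : ℤ) + X.card - α) ≤ e := by
    have h1 : (∑ u ∈ Y, ((Q : ℤ) + X.card - α)) ≤ ∑ u ∈ Y, (dg adj S u : ℤ) := by
      refine sum_le_sum fun u hu => ?_
      have := hlowY u hu
      omega
    rw [sum_const, nsmul_eq_mul] at h1
    rw [← heY]
    push_cast
    exact h1
  rcases le_or_gt S.card (max α β + r) with hle | hgt
  · exact (Nat.mul_le_mul_left _ hle).trans (Nat.le_add_right _ _)
  · have key := arith_minDeg (n := n) (c := c) (P := P) (Q := Q) (r := r) (α := α) (β := β)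
      (x := X.card) (y := Y.card) (e := e) (by positivity) (by exact_mod_cast hP)
      (by exact_mod_cast hQ) (by positivity) (by positivity) (by positivity) (by positivity)
      (by positivity) (by positivity) (by exact_mod_cast hXα) (by exact_mod_cast hYβ)
      (by exact_mod_cast hmin) e1 e2 (by
        have : max α β + r < X.card + Y.card := by omega
        exact_mod_cast this)
    rw [← h2e]
    have h3 : ((2 * n * S.card : ℕ) : ℤ) ≤ ((2 * n * (max α β + r) + 4 * c * (2 * e) : ℕ) : ℤ) := by
      push_cast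
      have h4 : (S.card : ℤ) = X.card + Y.card := by exact_mod_cast hcard.symm
      rw [h4]
      nlinarith
    exact_mod_cast h3

end

theorem card_left (a b : ℕ) : ((range (a + b)).filter (fun v => v < a)).card = a := by
  have : (range (a + b)).filter (fun v => v < a) = range a := by
    ext v
    simp only [mem_filter, mem_range]
    omega
  rw [this, card_range]

theorem card_right (a b : ℕ) : ((range (a + b)).filter (fun v => ¬ v < a)).card = b := by
  have h := card_filter_add_card_filter_not (s := range (a + b)) (fun v => v < a)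
  rw [card_left, card_range] at h
  omega

theorem superSat_minDeg_class {c : ℕ} (G : BGraph) (t : ℕ) {P Q : ℕ}
    (hP : G.a + G.b ≤ c * P) (hQ : G.a + G.b ≤ c * Q)
    (hrow : ∀ i, P ≤ G.rowDeg i) (hcol : ∀ j, Q ≤ G.colDeg j)
    (hmin : min G.a G.b ≤ P + Q + c * Nat.log 2 (G.a + G.b)) (hn : 0 < G.a + G.b) :
    ∃ A, SuperSat (G.a + G.b) (adjOf (inCode G t)) (4 * c) A ∧
      2 ^ A ≤ (G.a + G.b + 1) ^ (4 * c) * numIndep G.graph := by
  have hbip0 : ∀ u v, adjOf (inCode G t) u v = true →
      (u < G.a ∧ G.a ≤ v ∧ v < G.a + G.b) ∨ (v < G.a ∧ G.a ≤ u ∧ u < G.a + G.b) := by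
    intro u v h
    have h2 := adjOf_bip h
    rw [aOf_inCode, bOf_inCode] at h2
    exact h2
  have hb : ∀ u v, adjOf (inCode G t) u v = true → v < G.a + G.b ∧ (u < G.a ↔ ¬ v < G.a) := by
    intro u v huv
    rcases hbip0 u v huv with h | h
    · exact ⟨h.2.2, by omega⟩
    · exact ⟨by omega, by omega⟩
  have hb' : ∀ u v, adjOf (inCode G t) u v = true → v < G.a + G.b ∧ (¬ u < G.a ↔ ¬ ¬ v < G.a) := by
    intro u v huv
    have := hb u v huv
    exact ⟨this.1, by omega⟩
  refine ⟨_, superSat_of_minDeg (adjOf_symm _) (fun u => u < G.a) hb hP hQ ?_ ?_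
    (by rw [card_left, card_right]; exact hmin), ?_⟩
  · intro u _ hu
    have := dg_row G t ⟨u, hu⟩
    simp only at this
    rw [this]
    exact hrow _
  · intro v hv1 hv2
    have := dg_col G t ⟨v - G.a, by omega⟩
    simp only at this
    rw [show G.a + (v - G.a) = v by omega] at this
    rw [this]
    exact hcol _
  · rw [card_left, card_right, pow_add, ← ind_eq_numIndep G t, mul_comm]
    refine Nat.mul_le_mul ?_ ?_
    · rw [mul_comm c, pow_mul]
      refine (Nat.pow_le_pow_left (Nat.pow_log_le_self 2 (by omega)) c).trans ?_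
      refine (Nat.pow_le_pow_left (Nat.le_succ _) c).trans ?_
      exact Nat.pow_le_pow_right (by omega) (by omega)
    · have h1 := two_pow_le_ind (fun u => u < G.a) hb
      have h2 := two_pow_le_ind (fun u => ¬ u < G.a) hb'
      rw [card_right] at h1
      simp only [not_not] at h2
      rw [card_left] at h2
      rcases le_total G.a G.b with h | h
      · rw [max_eq_right h]; exact h1
      · rw [max_eq_left h]; exact h2

end Pool.Agent.Lib.Pa7c826
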