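import Pool.Agent.Lib.Pa7c826.Scheme

/-!
Regular bipartite graphs of prescribed degree.
-/

namespace Pool.Agent.Lib.Pa7c826

/-- Regular bipartite graphs whose degree `d` and number of vertices `n = a + b` satisfy
`d ^ q = n ^ p`, that is, `d = n ^ (p / q)`. -/
def RegularExp (p q : ℕ) (G : BGraph) : Prop :=
  ∃ d, (∀ i, G.rowDeg i = d) ∧ (∀ j, G.colDeg j = d) ∧ d ^ q = (G.a + G.b) ^ p

end Pool.Agent.Lib.Pa7c826
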