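import Pool.Agent.Lib.Pa7c826.BISRed
import Pool.Agent.Lib.Pa7c826.RegExpClass

/-!
The reduction to regular bipartite graphs of degree exactly `n ^ (p / q)`.
-/

namespace Pool.Agent.Lib.Pa7c826

open Pool.Agent.Lib.PolyTime

/-- blocks with `j` additional ones -/
abbrev BX (a b j : ℕ) : Type := BB a b ⊕ Fin j

/-- source block -/
def xsrc {a b : ℕ} (j : ℕ) (g : GG a b) : BX a b j := .inl (bsrc g)

/-- target block -/
def xtgt {a b : ℕ} (j : ℕ) (g : GG a b) : BX a b j := .inl (btgt g)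

theorem xsrc_ne_xtgt {a b j : ℕ} (g : GG a b) : xsrc j g ≠ xtgt j g := by
  unfold xsrc xtgt
  intro h
  exact bsrc_ne_btgt g (Sum.inl_injective h)

theorem sum_blocks_x {a b : ℕ} (j c : ℕ) (E : Fin a → Fin b → Prop) :
    ∑ σ : BX a b j → Bool, ∏ g : GG a b, wt c (bact E g) (σ (xsrc j g)) (σ (xtgt j g)) =
      2 ^ j * ∑ p : (Fin a → Bool) × (Fin b → Bool), ∏ e : Fin a × Fin b,
        pw c (E e.1 e.2) (p.1 e.1) (p.2 e.2) := by
  rw [← sum_blocks, ← Equiv.sum_comp (Equiv.sumArrowEquivProdArrow (BB a b) (Fin j) Bool).symm,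
    Fintype.sum_prod_type]
  have h : ∀ (σ : BB a b → Bool) (τ : Fin j → Bool),
      ∏ g : GG a b, wt c (bact E g)
        ((Equiv.sumArrowEquivProdArrow (BB a b) (Fin j) Bool).symm (σ, τ) (xsrc j g))
        ((Equiv.sumArrowEquivProdArrow (BB a b) (Fin j) Bool).symm (σ, τ) (xtgt j g)) =
      ∏ g : GG a b, wt c (bact E g) (σ (bsrc g)) (σ (btgt g)) := fun σ τ => rfl
  simp only [h, Finset.sum_const, Finset.card_univ, Fintype.card_fun, Fintype.card_fin,
    Fintype.card_bool, smul_eq_mul]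
  rw [← Finset.mul_sum]

theorem card_BX (a b j : ℕ) : Fintype.card (BX a b j) = a + b + a * b * 4 + j := by
  rw [Fintype.card_sum, card_BB, Fintype.card_fin]

theorem pureTotal_eq_x {a b : ℕ} (j c f : ℕ) (E : Fin a → Fin b → Prop) :
    (pureTotal (xsrc (a := a) (b := b) j) (xtgt j) (bact E) c f : ℚ) =
      2 ^ (Fintype.card (BX a b j) * (Fintype.card (GG a b) * (c + 1) + f) + j) *
        (∏ e : Fin a × Fin b, (bw (E e.1 e.2) : ℚ)) * nsum c E := by
  have h1 : pureTotal (xsrc (a := a) (b := b) j) (xtgt j) (bact E) c f *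
      2 ^ (Fintype.card (GG a b) * ((c + 1) * 2)) =
      2 ^ (Fintype.card (BX a b j) * (Fintype.card (GG a b) * (c + 1) + f) + j) *
      ∑ p : (Fin a → Bool) × (Fin b → Bool), ∏ e : Fin a × Fin b,
        pw c (E e.1 e.2) (p.1 e.1) (p.2 e.2) := by
    rw [pow_add, mul_assoc, ← sum_blocks_x]
    unfold pureTotal
    rw [Finset.sum_mul, Finset.mul_sum]
    refine Finset.sum_congr rfl fun σ _ => ?_
    exact card_pure xsrc_ne_xtgt σ
  have h2 : (4 : ℚ) ^ (c + 1) = 2 ^ ((c + 1) * 2) := by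
    rw [mul_comm, pow_mul]; norm_num
  have h3 : (∑ p : (Fin a → Bool) × (Fin b → Bool), ∏ e : Fin a × Fin b,
        (pw c (E e.1 e.2) (p.1 e.1) (p.2 e.2) : ℚ)) =
      (∏ e : Fin a × Fin b, (bw (E e.1 e.2) : ℚ)) *
        2 ^ (Fintype.card (GG a b) * ((c + 1) * 2)) * nsum c E := by
    unfold nsum
    rw [Finset.mul_sum]
    refine Finset.sum_congr rfl fun p _ => ?_
    have h4 : ∀ e : Fin a × Fin b, (pw c (E e.1 e.2) (p.1 e.1) (p.2 e.2) : ℚ) =
        (bw (E e.1 e.2) : ℚ) * (4 ^ (c + 1)) ^ 5 * rw' c (E e.1 e.2) (p.1 e.1) (p.2 e.2) := by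
      intro e
      unfold rw'
      have : (bw (E e.1 e.2) : ℚ) ≠ 0 := by
        have := bw_pos (E e.1 e.2)
        positivity
      field_simp
    rw [Finset.prod_congr rfl fun e _ => h4 e, Finset.prod_mul_distrib, Finset.prod_mul_distrib]
    congr 2
    rw [Finset.prod_const, Finset.card_univ, Fintype.card_prod, Fintype.card_fin,
      Fintype.card_fin, h2, ← pow_mul, ← pow_mul, card_GG]
    congr 1
    ring
  have h5 := congrArg (Nat.cast : ℕ → ℚ) h1
  push_cast at h5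
  rw [h3] at h5
  have h6 : (0 : ℚ) < 2 ^ (Fintype.card (GG a b) * ((c + 1) * 2)) := by positivity
  have h7 : (pureTotal (xsrc (a := a) (b := b) j) (xtgt j) (bact E) c f : ℚ) *
      2 ^ (Fintype.card (GG a b) * ((c + 1) * 2)) =
      2 ^ (Fintype.card (BX a b j) * (Fintype.card (GG a b) * (c + 1) + f) + j) *
        (∏ e : Fin a × Fin b, (bw (E e.1 e.2) : ℚ)) * nsum c E *
        2 ^ (Fintype.card (GG a b) * ((c + 1) * 2)) := by
    rw [h5]; ring
  exact mul_right_cancel₀ h6.ne' h7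

theorem final_estimate_x {a b : ℕ} (j t f : ℕ) (E : Fin a → Fin b → Prop) (hE : 1 ≤ cnt E)
    (hf : Fintype.card (BX a b j) * 2 ^ (Fintype.card (GG a b) * (cc a b t + 1)) *
      (4 * (2 * t + 1)) ≤ 2 ^ f) :
    |(cnt (BRel (xsrc (a := a) (b := b) j) (xtgt j) (bact E) (cc a b t) f) : ℚ) /
        (2 ^ (Fintype.card (BX a b j) * (Fintype.card (GG a b) * (cc a b t + 1) + f) + j) *
        (∏ e : Fin a × Fin b, (bw (E e.1 e.2) : ℚ))) - cnt E| ≤ cnt E / (2 * t + 1) := by
  have hlo := lower_bound (xsrc (a := a) (b := b) j) (xtgt j) (bact E) (cc a b t) f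
  have hup := upper_bound (xsrc (a := a) (b := b) j) (xtgt j) (bact E) (cc a b t) f
  have hPT := pureTotal_eq_x j (cc a b t) f E
  refine num_final (F := 2 ^ f) (W := 2 ^ (Fintype.card (GG a b) * (cc a b t + 1)))
    (N := Fintype.card (BX a b j)) (S := nsum (cc a b t) E) ?_ (by positivity) (by positivity)
    (by exact_mod_cast hE) (one_le_pow₀ (by norm_num)) (by positivity) ?_ ?_ ?_
    (by exact_mod_cast hf) (nsum_lower _ E) (nsum_upper' (t := t) E hE)
  · refine mul_pos (by positivity) (Finset.prod_pos fun e _ => ?_)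
    exact_mod_cast bw_pos _
  · have : (0 : ℚ) ≤ t := by positivity
    linarith
  · rw [← hPT]
    exact_mod_cast hlo
  · rw [← hPT]
    exact_mod_cast hup

/-! ### Index level -/

/-- numbering of the blocks -/
def eBX (a b j : ℕ) : BX a b j ≃ Fin (a + b + a * b * 4 + j) :=
  (Equiv.sumCongr (eBB a b) (Equiv.refl _)).trans finSumFinEquiv

/-- numbering of the vertices -/
def eVX (a b j c f : ℕ) : BX a b j × ((GG a b × Fin (c + 1)) ⊕ Fin f) ≃
    Fin ((a + b + a * b * 4 + j) * (a * b * 5 * (c + 1) + f)) :=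
  (Equiv.prodCongr (eBX a b j) (eSlot a b c f)).trans finProdFinEquiv

theorem eBX_inl {a b j : ℕ} (x : BB a b) : (eBX a b j (.inl x) : ℕ) = eBB a b x := by
  simp [eBX]

theorem eVX_div {a b j c f : ℕ} (v : BX a b j × ((GG a b × Fin (c + 1)) ⊕ Fin f)) :
    (eVX a b j c f v : ℕ) / (a * b * 5 * (c + 1) + f) = eBX a b j v.1 := by
  have h : (eVX a b j c f v : ℕ) =
    eSlot a b c f v.2 + (a * b * 5 * (c + 1) + f) * eBX a b j v.1 := rfl
  have h2 := (eSlot a b c f v.2).2
  rw [h, Nat.add_mul_div_left _ _ (by omega), Nat.div_eq_of_lt h2, Nat.zero_add]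

theorem eVX_mod {a b j c f : ℕ} (v : BX a b j × ((GG a b × Fin (c + 1)) ⊕ Fin f)) :
    (eVX a b j c f v : ℕ) % (a * b * 5 * (c + 1) + f) = eSlot a b c f v.2 := by
  have h : (eVX a b j c f v : ℕ) =
    eSlot a b c f v.2 + (a * b * 5 * (c + 1) + f) * eBX a b j v.1 := rfl
  have h2 := (eSlot a b c f v.2).2
  rw [h, Nat.add_mul_mod_self_left, Nat.mod_eq_of_lt h2]

theorem F2_iff_x {a b j c f : ℕ} (F : ℕ → ℕ → Bool)
    (u v : BX a b j × ((GG a b × Fin (c + 1)) ⊕ Fin f)) :
    BRel (xsrc j) (xtgt j) (bact fun (i : Fin a) (j : Fin b) => F i j = true) c f u v ↔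
      F2 a b (c + 1) f F (eVX a b j c f u) (eVX a b j c f v) = true := by
  unfold F2
  simp only [eVX_div, eVX_mod]
  obtain ⟨V, T⟩ := v
  obtain ⟨U, S⟩ := u
  have hB : ∀ x y : BX a b j, ((eBX a b j x : ℕ) = eBX a b j y) ↔ x = y := by
    intro x y
    rw [← Fin.ext_iff, (eBX a b j).injective.eq_iff]
  have hS : ∀ x y : (GG a b × Fin (c + 1)) ⊕ Fin f,
      ((eSlot a b c f x : ℕ) = eSlot a b c f y) ↔ x = y := by
    intro x y
    rw [← Fin.ext_iff, (eSlot a b c f).injective.eq_iff]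
  rcases T with ⟨g, i⟩ | s
  · have hlt : (eSlot a b c f (.inl (g, i)) : ℕ) < a * b * 5 * (c + 1) := by
      rw [eSlot_inl]
      have h1 := (eGG a b g).2
      have h2 := i.2
      calc (i : ℕ) + (c + 1) * eGG a b g < (c + 1) + (c + 1) * eGG a b g := by omega
        _ = (c + 1) * (eGG a b g + 1) := by ring
        _ ≤ (c + 1) * (a * b * 5) := Nat.mul_le_mul_left _ h1
        _ = _ := by ring
    simp only [hlt, decide_true, if_true]
    unfold F2g
    have hg : (eSlot a b c f (.inl (g, i)) : ℕ) / (c + 1) = eGG a b g := by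
      rw [eSlot_inl, Nat.add_mul_div_left _ _ (by omega), Nat.div_eq_of_lt i.2, Nat.zero_add]
    have hs : srcI a b (eGG a b g) = eBX a b j (xsrc j g) := by
      rw [srcI_eq]; exact (eBX_inl _).symm
    have ht : tgtI a b (eGG a b g) = eBX a b j (xtgt j g) := by
      rw [tgtI_eq]; exact (eBX_inl _).symm
    simp only [hg, gdivdiv, gdivmod, hs, ht]
    have h0 : (c + 1) * (eGG a b g : ℕ) = eSlot a b c f (.inl (g, 0)) := by
      rw [eSlot_inl]; simp
    rw [h0]
    simp only [hB, hS]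
    unfold BRel bact
    simp only [Bool.or_eq_true, Bool.and_eq_true, decide_eq_true_eq, Bool.not_eq_true',
      decide_eq_false_iff_not, and_assoc]
    rw [Bool.eq_false_iff]
    simp only [ne_eq, Bool.and_eq_true, Bool.or_eq_true, decide_eq_true_eq]
  · have hlt : ¬ ((eSlot a b c f (.inr s) : ℕ) < a * b * 5 * (c + 1)) := by
      rw [eSlot_inr]; omega
    simp only [hlt, decide_false, Bool.false_eq_true, if_false, decide_eq_true_eq, hB]
    rfl

/-! ### Parameters -/

/-- number of slots used by gadgets -/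
def sl (a b t : ℕ) : ℕ := a * b * 5 * (cc a b t + 1)

/-- base parameter -/
def YY (q a b t : ℕ) : ℕ := 3 * q + (2 * sl a b t + 2 * t + 2) + N2 a b

/-- `n = DD ^ q`, `d = DD ^ p` -/
def DD (q a b t : ℕ) : ℕ := 2 * YY q a b t ^ 2

/-- free slots -/
def frx (p q a b t : ℕ) : ℕ := DD q a b t ^ p - sl a b t

/-- additional blocks -/
def jx (p q a b t : ℕ) : ℕ := DD q a b t ^ (q - p) / 2 - N2 a b

theorem YY_pos (q a b t : ℕ) : 1 ≤ YY q a b t := by unfold YY; omega

theorem YY_le_sq (q a b t : ℕ) : YY q a b t ≤ YY q a b t ^ 2 := by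
  rw [pow_two]; exact Nat.le_mul_of_pos_left _ (YY_pos q a b t)

theorem DD_pos (q a b t : ℕ) : 1 ≤ DD q a b t := by
  have := YY_pos q a b t
  have := YY_le_sq q a b t
  unfold DD
  omega

theorem DD_le_pow {q a b t k : ℕ} (hk : 0 < k) : DD q a b t ≤ DD q a b t ^ k :=
  Nat.le_self_pow hk.ne' _

theorem slots_eq {p q : ℕ} (a b t : ℕ) (hp : 0 < p) :
    a * b * 5 * (cc a b t + 1) + frx p q a b t = DD q a b t ^ p := by
  have h1 := DD_le_pow (q := q) (a := a) (b := b) (t := t) hp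
  have h2 := YY_le_sq q a b t
  have h3 : sl a b t ≤ DD q a b t ^ p := by
    refine le_trans ?_ h1
    unfold DD
    have : 2 * sl a b t ≤ YY q a b t := by unfold YY; omega
    omega
  unfold frx
  show sl a b t + (DD q a b t ^ p - sl a b t) = _
  omega

theorem frx_pos {p q : ℕ} (a b t : ℕ) (hp : 0 < p) : 0 < frx p q a b t := by
  have h1 := DD_le_pow (q := q) (a := a) (b := b) (t := t) hp
  have h2 := YY_le_sq q a b t
  unfold frx
  have : 2 * sl a b t + 2 ≤ YY q a b t := by unfold YY; omega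
  have : sl a b t < DD q a b t ^ p := by
    refine lt_of_lt_of_le ?_ h1
    unfold DD
    omega
  omega

theorem blocks_eq {p q : ℕ} (a b t : ℕ) (hpq : p < q) :
    2 * (a + b + a * b * 4 + jx p q a b t) = DD q a b t ^ (q - p) := by
  have h1 := DD_le_pow (q := q) (a := a) (b := b) (t := t) (k := q - p) (by omega)
  have h2 := YY_le_sq q a b t
  have h3 : N2 a b ≤ DD q a b t / 2 := by
    unfold DD
    have : N2 a b ≤ YY q a b t := by unfold YY; omega
    omega
  have h4 : 2 ∣ DD q a b t ^ (q - p) := by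
    refine dvd_trans ?_ (dvd_pow_self _ (by omega : q - p ≠ 0))
    exact ⟨_, rfl⟩
  obtain ⟨m, hm⟩ := h4
  unfold jx
  rw [hm]
  have h5 : DD q a b t / 2 ≤ DD q a b t ^ (q - p) / 2 := Nat.div_le_div_right h1
  rw [hm] at h5
  have h6 : N2 a b ≤ 2 * m / 2 := h3.trans h5
  have h7 : 2 * m / 2 = m := by omega
  rw [h7] at h6 ⊢
  unfold N2 at h6 ⊢
  omega

theorem DD_pow_le (q a b t : ℕ) : DD q a b t ^ q ≤ 2 ^ (q + 2 * q * YY q a b t) := by
  unfold DD
  have h1 : YY q a b t ≤ 2 ^ YY q a b t := Nat.lt_two_pow_self.le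
  calc (2 * YY q a b t ^ 2) ^ q ≤ (2 * (2 ^ YY q a b t) ^ 2) ^ q :=
        Nat.pow_le_pow_left (Nat.mul_le_mul_left _ (Nat.pow_le_pow_left h1 _)) _
    _ = 2 ^ (q + 2 * q * YY q a b t) := by
        rw [mul_pow, ← pow_mul, ← pow_mul, ← pow_add]
        congr 1
        ring

theorem hf_frx {p q : ℕ} (a b t : ℕ) (hp : 0 < p) (hpq : p < q) :
    Fintype.card (BX a b (jx p q a b t)) *
      2 ^ (Fintype.card (GG a b) * (cc a b t + 1)) * (4 * (2 * t + 1)) ≤
      2 ^ frx p q a b t := by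
  rw [card_BX, card_GG]
  have h1 : a + b + a * b * 4 + jx p q a b t ≤ 2 ^ (q + 2 * q * YY q a b t) := by
    have h2 := blocks_eq (p := p) (q := q) a b t hpq
    have h3 : DD q a b t ^ (q - p) ≤ DD q a b t ^ q :=
      Nat.pow_le_pow_right (DD_pos q a b t) (Nat.sub_le _ _)
    have h4 := DD_pow_le q a b t
    omega
  have h2 : 4 * (2 * t + 1) ≤ 2 ^ (2 * t + 2) := by
    rw [pow_add]
    have : 2 * t + 1 ≤ 2 ^ (2 * t) := Nat.lt_two_pow_self
    omega
  calc (a + b + a * b * 4 + jx p q a b t) * 2 ^ (a * b * 5 * (cc a b t + 1)) * (4 * (2 * t + 1))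
      ≤ 2 ^ (q + 2 * q * YY q a b t) * 2 ^ (a * b * 5 * (cc a b t + 1)) * 2 ^ (2 * t + 2) :=
        Nat.mul_le_mul (Nat.mul_le_mul_right _ h1) h2
    _ = 2 ^ (q + 2 * q * YY q a b t + sl a b t + (2 * t + 2)) := by
        rw [← pow_add, ← pow_add]
        rfl
    _ ≤ _ := by
        refine Nat.pow_le_pow_right (by norm_num) ?_
        have h5 := DD_le_pow (q := q) (a := a) (b := b) (t := t) hp
        have h6 := slots_eq (q := q) a b t hp
        have h7 : sl a b t + frx p q a b t = DD q a b t ^ p := h6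
        -- q + 2 q Y ≤ Y ^ 2
        have h8 : q + 2 * q * YY q a b t ≤ YY q a b t ^ 2 := by
          have h9 : 3 * q ≤ YY q a b t := by unfold YY; omega
          have h10 : 3 * q * YY q a b t ≤ YY q a b t ^ 2 := by
            rw [pow_two]; exact Nat.mul_le_mul_right _ h9
          have h11 : q ≤ q * YY q a b t := Nat.le_mul_of_pos_right _ (YY_pos q a b t)
          calc q + 2 * q * YY q a b t ≤ q * YY q a b t + 2 * q * YY q a b t := by omega
            _ = 3 * q * YY q a b t := by ring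
            _ ≤ _ := h10
        have h9 : 2 * sl a b t + 2 * t + 2 ≤ YY q a b t := by unfold YY; omega
        have h10 := YY_le_sq q a b t
        have h11 : DD q a b t = 2 * YY q a b t ^ 2 := rfl
        omega

/-! ### The reduction -/

/-- the new graph -/
def red3 (p q : ℕ) (G : BGraph) (t : ℕ) : BGraph :=
  mkGraph ((G.a + G.b + G.a * G.b * 4 + jx p q G.a G.b t) *
      (G.a * G.b * 5 * (cc G.a G.b t + 1) + frx p q G.a G.b t))
    ((G.a + G.b + G.a * G.b * 4 + jx p q G.a G.b t) *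
      (G.a * G.b * 5 * (cc G.a G.b t + 1) + frx p q G.a G.b t))
    (F2 G.a G.b (cc G.a G.b t + 1) (frx p q G.a G.b t) G.F)

/-- the exponent -/
def K3 (p q : ℕ) (G : BGraph) (t : ℕ) : ℕ :=
  (G.a + G.b + G.a * G.b * 4 + jx p q G.a G.b t) *
      (G.a * G.b * 5 * (cc G.a G.b t + 1) + frx p q G.a G.b t) + jx p q G.a G.b t +
    (4 * (G.a * G.b) - 3 * ecount G)

/-- the abstract relation of the reduction -/
abbrev rel3 (p q : ℕ) (G : BGraph) (t : ℕ) :=
  BRel (xsrc (a := G.a) (b := G.b) (jx p q G.a G.b t)) (xtgt (jx p q G.a G.b t))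
    (bact fun (i : Fin G.a) (j : Fin G.b) => G.F i j = true) (cc G.a G.b t) (frx p q G.a G.b t)

theorem rel3_iff (p q : ℕ) (G : BGraph) (t : ℕ) (x y) :
    rel3 p q G t x y ↔
      F2 G.a G.b (cc G.a G.b t + 1) (frx p q G.a G.b t) G.F
        (eVX G.a G.b (jx p q G.a G.b t) (cc G.a G.b t) (frx p q G.a G.b t) x)
        (eVX G.a G.b (jx p q G.a G.b t) (cc G.a G.b t) (frx p q G.a G.b t) y) = true :=
  F2_iff_x G.F x y

theorem numIndep_red3 (p q : ℕ) (G : BGraph) (t : ℕ) :
    numIndep (red3 p q G t).graph = cnt (rel3 p q G t) :=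
  numIndep_mkGraph (eVX G.a G.b (jx p q G.a G.b t) (cc G.a G.b t) (frx p q G.a G.b t))
    (eVX G.a G.b (jx p q G.a G.b t) (cc G.a G.b t) (frx p q G.a G.b t)) (rel3_iff p q G t)

theorem red3_estimate {p q : ℕ} (hp : 0 < p) (hpq : p < q) (G : BGraph) (t : ℕ) :
    |(numIndep (red3 p q G t).graph : ℚ) / 2 ^ K3 p q G t - numIndep G.graph| ≤
      numIndep G.graph / (2 * t + 1) := by
  have h1 := final_estimate_x (jx p q G.a G.b t) t (frx p q G.a G.b t)
    (fun (i : Fin G.a) (j : Fin G.b) => G.F i j = true)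
    (by rw [cnt_graph]; exact one_le_numIndep G) (hf_frx G.a G.b t hp hpq)
  rw [cnt_graph, prod_bw, ← pow_add] at h1
  rw [numIndep_red3]
  have e : K3 p q G t = Fintype.card (BX G.a G.b (jx p q G.a G.b t)) *
      (Fintype.card (GG G.a G.b) * (cc G.a G.b t + 1) + frx p q G.a G.b t) +
      jx p q G.a G.b t + (4 * (G.a * G.b) - 3 * ecount G) := by
    rw [card_BX, card_GG]
    rfl
  rw [e]
  exact h1

theorem red3_class {p q : ℕ} (hp : 0 < p) (hpq : p < q) (G : BGraph) (t : ℕ) :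
    RegularExp p q (red3 p q G t) := by
  refine ⟨DD q G.a G.b t ^ p, ?_, ?_, ?_⟩
  · intro i
    obtain ⟨x, hx⟩ := (eVX G.a G.b (jx p q G.a G.b t) (cc G.a G.b t)
      (frx p q G.a G.b t)).surjective i
    have h1 := rowDeg_mkGraph (eVX G.a G.b (jx p q G.a G.b t) (cc G.a G.b t)
      (frx p q G.a G.b t)) (eVX G.a G.b (jx p q G.a G.b t) (cc G.a G.b t)
      (frx p q G.a G.b t)) (rel3_iff p q G t) x
    have h2 : (red3 p q G t).rowDeg i = {y | rel3 p q G t x y}.ncard := by
      rw [← hx]; exact h1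
    rw [h2, ldeg xsrc_ne_xtgt x, card_GG]
    exact slots_eq _ _ _ hp
  · intro i
    obtain ⟨x, hx⟩ := (eVX G.a G.b (jx p q G.a G.b t) (cc G.a G.b t)
      (frx p q G.a G.b t)).surjective i
    have h1 := colDeg_mkGraph (eVX G.a G.b (jx p q G.a G.b t) (cc G.a G.b t)
      (frx p q G.a G.b t)) (eVX G.a G.b (jx p q G.a G.b t) (cc G.a G.b t)
      (frx p q G.a G.b t)) (rel3_iff p q G t) x
    have h2 : (red3 p q G t).colDeg i = {y | rel3 p q G t y x}.ncard := by
      rw [← hx]; exact h1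
    rw [h2, rdeg xsrc_ne_xtgt x, card_GG]
    exact slots_eq _ _ _ hp
  · show (DD q G.a G.b t ^ p) ^ q = ((G.a + G.b + G.a * G.b * 4 + jx p q G.a G.b t) *
      (G.a * G.b * 5 * (cc G.a G.b t + 1) + frx p q G.a G.b t) +
      (G.a + G.b + G.a * G.b * 4 + jx p q G.a G.b t) *
      (G.a * G.b * 5 * (cc G.a G.b t + 1) + frx p q G.a G.b t)) ^ p
    have h1 := slots_eq (q := q) G.a G.b t hp
    have h2 := blocks_eq (p := p) (q := q) G.a G.b t hpq
    have h3 : (G.a + G.b + G.a * G.b * 4 + jx p q G.a G.b t) *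
      (G.a * G.b * 5 * (cc G.a G.b t + 1) + frx p q G.a G.b t) +
      (G.a + G.b + G.a * G.b * 4 + jx p q G.a G.b t) *
      (G.a * G.b * 5 * (cc G.a G.b t + 1) + frx p q G.a G.b t) = DD q G.a G.b t ^ q := by
      rw [← two_mul, ← mul_assoc, h1, h2, ← pow_add]
      congr 1
      omega
    rw [h3, ← pow_mul, ← pow_mul, mul_comm]

/-! ### Computability of the reduction -/

section

variable {α : Type*} {D : α → Prop} {ctx : List (α → List Bool)} {a b t : α → ℕ}

theorem poly_DD (q : ℕ) (ha : PolyN D ctx a) (hb : PolyN D ctx b) (ht : PolyN D ctx t) :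
    PolyN D ctx (fun x => DD q (a x) (b x) (t x)) :=
  (PolyN.const 2).mul (PolyN.pow ((((PolyN.const 3).mul (PolyN.const q)).add
    ((((PolyN.const 2).mul (poly_sl ha hb ht)).add ((PolyN.const 2).mul ht)).add
      (PolyN.const 2))).add (poly_N2 ha hb)) 2)

theorem poly_frx (p q : ℕ) (ha : PolyN D ctx a) (hb : PolyN D ctx b) (ht : PolyN D ctx t) :
    PolyN D ctx (fun x => frx p q (a x) (b x) (t x)) :=
  PolyN.sub (PolyN.pow (poly_DD q ha hb ht) p) (poly_sl ha hb ht)

theorem poly_jx (p q : ℕ) (ha : PolyN D ctx a) (hb : PolyN D ctx b) (ht : PolyN D ctx t) :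
    PolyN D ctx (fun x => jx p q (a x) (b x) (t x)) :=
  PolyN.sub (PolyN.half (PolyN.pow (poly_DD q ha hb ht) (q - p))) (poly_N2 ha hb)

theorem poly_side (p q : ℕ) (ha : PolyN D ctx a) (hb : PolyN D ctx b) (ht : PolyN D ctx t) :
    PolyN D ctx (fun x => (a x + b x + a x * b x * 4 + jx p q (a x) (b x) (t x)) *
      (a x * b x * 5 * (cc (a x) (b x) (t x) + 1) + frx p q (a x) (b x) (t x))) :=
  ((poly_N2 ha hb).add (poly_jx p q ha hb ht)).mul
    ((poly_sl ha hb ht).add (poly_frx p q ha hb ht))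

end

theorem poly_red3 {p q : ℕ} (hp : 0 < p) (D : BGraph × ℕ → Prop) :
    PolyC D [fun x => inCode x.1 x.2] (fun x => inCode (red3 p q x.1 x.2) (2 * x.2)) := by
  have hw : PolyC D [fun x => inCode x.1 x.2] (fun x => inCode x.1 x.2) := PolyC.var (by simp)
  have ha := poly_a hw
  have hb := poly_b hw
  have ht := poly_s hw
  have hn := poly_side p q ha hb ht
  refine poly_inCode hn hn ((PolyN.const 2).mul ht) ?_
  let n1 : BGraph × ℕ → ℕ := fun x => (x.1.a + x.1.b + x.1.a * x.1.b * 4 +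
    jx p q x.1.a x.1.b x.2) * (x.1.a * x.1.b * 5 * (cc x.1.a x.1.b x.2 + 1) +
      frx p q x.1.a x.1.b x.2)
  have W2 := up (n := fun y : (BGraph × ℕ) × ℕ => n1 y.1) (up (n := n1) hw)
  have I2 := upN (n := fun y : (BGraph × ℕ) × ℕ => n1 y.1)
    (last (D := D) (ctx := [fun x => inCode x.1 x.2]) (n := n1))
  have J2 := last (D := fun y : (BGraph × ℕ) × ℕ => D y.1 ∧ y.2 < n1 y.1)
    (ctx := PolyTime.lift [fun x : BGraph × ℕ => inCode x.1 x.2] ++
      [fun p : (BGraph × ℕ) × ℕ => un p.2]) (n := fun y : (BGraph × ℕ) × ℕ => n1 y.1)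
  have a2 := poly_a W2
  have b2 := poly_b W2
  have t2 := poly_s W2
  exact poly_F2 W2 ((poly_cc a2 b2 t2).add (PolyN.const 1)) (poly_frx p q a2 b2 t2) I2 J2
    (fun _ _ => by omega) (fun _ _ => frx_pos _ _ _ hp)

theorem poly_ecount (D : BGraph × ℕ → Prop) :
    PolyN D [fun x => inCode x.1 x.2] (fun x => ecount x.1) := by
  have hw : PolyC D [fun x => inCode x.1 x.2] (fun x => inCode x.1 x.2) := PolyC.var (by simp)
  have ha := poly_a hw
  have hb := poly_b hw
  have W1 := up (n := fun x : BGraph × ℕ => x.1.a * x.1.b) hw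
  have B1 := poly_b W1
  have L := last (D := D) (ctx := [fun x => inCode x.1 x.2])
    (n := fun x : BGraph × ℕ => x.1.a * x.1.b)
  have hpos : ∀ p : (BGraph × ℕ) × ℕ, (D p.1 ∧ p.2 < p.1.1.a * p.1.1.b) → 0 < p.1.1.b := by
    rintro p ⟨_, h⟩
    rcases Nat.eq_zero_or_pos p.1.1.b with h0 | h0
    · rw [h0] at h; omega
    · exact h0
  exact PolyN.count (φ := fun p : (BGraph × ℕ) × ℕ =>
    p.1.1.F (p.2 / p.1.1.b) (p.2 % p.1.1.b)) (ha.mul hb)
    (poly_F W1 (PolyN.div L B1 hpos) (PolyN.mod L B1 hpos))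

theorem poly_K3 (p q : ℕ) (D : BGraph × ℕ → Prop) :
    PolyN D [fun x => inCode x.1 x.2] (fun x => K3 p q x.1 x.2) := by
  have hw : PolyC D [fun x => inCode x.1 x.2] (fun x => inCode x.1 x.2) := PolyC.var (by simp)
  have ha := poly_a hw
  have hb := poly_b hw
  have ht := poly_s hw
  exact ((poly_side p q ha hb ht).add (poly_jx p q ha hb ht)).add
    (PolyN.sub ((PolyN.const 4).mul (ha.mul hb)) ((PolyN.const 3).mul (poly_ecount D)))

/-- Approximating the number of independent sets of regular bipartite graphs of degree exactly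
`n ^ (p / q)` is as hard as for all bipartite graphs. -/
theorem regularExp_iff {p q : ℕ} (hp : 0 < p) (hpq : p < q) :
    HasFPRAS (RegularExp p q) ↔ HasFPRAS (fun _ => True) := by
  constructor
  · intro h
    exact HasFPRAS.transfer2 (red3 p q) (K3 p q) (poly_red3 hp _) (poly_K3 p q _)
      (fun G t _ _ => red3_class hp hpq G t) (fun G t _ _ => red3_estimate hp hpq G t) h
  · exact HasFPRAS.mono (fun _ _ => trivial)

end Pool.Agent.Lib.Pa7c826
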