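import Pool.Agent.Lib.Pa7c826.Indep

/-!
Bipartite graphs as inputs of machines, and approximation schemes for the number of independent
sets on classes of bipartite graphs.
-/

namespace Pool.Agent.Lib.Pa7c826

/-- A finite bipartite graph with left vertices `0, …, a - 1` and right vertices `0, …, b - 1`,
given by its adjacency matrix. -/
structure BGraph where
  /-- number of left vertices -/
  a : ℕ
  /-- number of right vertices -/
  b : ℕ
  /-- adjacency matrix -/
  E : Fin a → Fin b → Bool

/-- The simple graph. -/
def BGraph.graph (G : BGraph) : SimpleGraph (Fin G.a ⊕ Fin G.b) :=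
  bip (fun i j => G.E i j = true)

/-- degree of a left vertex -/
def BGraph.rowDeg (G : BGraph) (i : Fin G.a) : ℕ :=
  (Finset.univ.filter fun j => G.E i j = true).card

/-- degree of a right vertex -/
def BGraph.colDeg (G : BGraph) (j : Fin G.b) : ℕ :=
  (Finset.univ.filter fun i => G.E i j = true).card

/-- The input string for the graph `G` and the precision `t`:
`1^t 0 1^a 0 1^b 0` followed by the adjacency matrix, row by row. -/
def inCode (G : BGraph) (t : ℕ) : List Bool :=
  List.replicate t true ++ false :: (List.replicate G.a true ++ false ::
    (List.replicate G.b true ++ false :: List.ofFn fun k : Fin (G.a * G.b) =>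
      G.E k.divNat k.modNat))

/-- The natural number with binary digits `l`, least significant first. -/
def binVal : List Bool → ℕ
  | [] => 0
  | b :: l => b.toNat + 2 * binVal l

/-- The dyadic rational denoted by an output string `1^k 0 d`: the number with binary
digits `d` (least significant first) divided by `2 ^ k`. -/
def outVal : List Bool → ℚ
  | [] => 0
  | false :: l => binVal l
  | true :: l => outVal l / 2

/-- The string `o` denotes a number within a factor `1 ± 1 / t` of the number of independent
sets of `G`. -/
def Good (G : BGraph) (t : ℕ) (o : List Bool) : Prop :=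
  |outVal o - (numIndep G.graph : ℚ)| ≤ (numIndep G.graph : ℚ) / t

/-- The class `C` of bipartite graphs has a deterministic fully polynomial approximation scheme
for the number of independent sets: a machine that on input `(G, 1^t)` with `G` in `C` and
`t ≥ 1` runs in time polynomial in the length of the input string and outputs a number within a
factor `1 ± 1 / t` of the number of independent sets of `G`. -/
def HasFPTAS (C : BGraph → Prop) : Prop :=
  ∃ f : {x : BGraph × ℕ // C x.1 ∧ 1 ≤ x.2} → List Bool,
    Nonempty (Turing.TM2ComputableInPolyTime (α := {x : BGraph × ℕ // C x.1 ∧ 1 ≤ x.2})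
      (αΓ := Bool) (βΓ := Bool) (fun x => inCode x.1.1 x.1.2) id f) ∧
    ∀ x, Good x.1.1 x.1.2 (f x)

/-- The class `C` of bipartite graphs has a fully polynomial randomised approximation scheme
(FPRAS) for the number of independent sets: there are a polynomial `m` and a machine that, on
input `(G, 1^t)` with `G` in `C` and `t ≥ 1`, followed by a string `r` of `m(length)` random bits
(`length` being the length of the string coding `(G, 1^t)`), runs in polynomial time and outputs
a number that is within a factor `1 ± 1 / t` of the number of independent sets of `G` for at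
least three quarters of all `r`. -/
def HasFPRAS (C : BGraph → Prop) : Prop :=
  ∃ (m : Polynomial ℕ) (f : BGraph → ℕ → List Bool → List Bool),
    Nonempty (Turing.TM2ComputableInPolyTime
      (α := {x : BGraph × ℕ × List Bool //
        C x.1 ∧ 1 ≤ x.2.1 ∧ x.2.2.length = m.eval (inCode x.1 x.2.1).length})
      (αΓ := Bool) (βΓ := Bool) (fun x => inCode x.1.1 x.1.2.1 ++ x.1.2.2) id
      (fun x => f x.1.1 x.1.2.1 x.1.2.2)) ∧
    ∀ G t, C G → 1 ≤ t →
      3 * 2 ^ m.eval (inCode G t).length ≤
        4 * Nat.card {r : Fin (m.eval (inCode G t).length) → Bool //
          Good G t (f G t (List.ofFn r))}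

/-- Balanced bipartite graphs with `N` vertices on each side all of whose degrees `d` satisfy
`|2 d - N| ^ k ≤ N`. -/
def NearHalf (k : ℕ) (G : BGraph) : Prop :=
  G.a = G.b ∧ (∀ i, (2 * (G.rowDeg i : ℤ) - G.a).natAbs ^ k ≤ G.a) ∧
    ∀ j, (2 * (G.colDeg j : ℤ) - G.a).natAbs ^ k ≤ G.a

end Pool.Agent.Lib.Pa7c826
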