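import Pool.Agent.Lib.PolyTime.Comb

/-!
Simulation of arbitrary Mathlib `TM2` machines by stack programs: functions computable in
polynomial time by a `TM2` machine are `PolyC`.
-/

namespace Pool.Agent.Lib.Pa7c826

open Pool.Agent.Lib.PolyTime Turing Function

/-! ### Symbol codes -/

/-- code of the symbol number `j`: `j` ones and a zero -/
def sc (j : ℕ) : List Bool := un j ++ [false]

theorem sc_succ (j : ℕ) : sc (j + 1) = true :: sc j := rfl

theorem sc_length (j : ℕ) : (sc j).length = j + 1 := by simp [sc]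

/-- push the code of `j` -/
def pushCode (r : ℕ) : ℕ → Prog
  | 0 => .push r false
  | j + 1 => .seq (pushCode r j) (.push r true)

theorem run_pushCode (r j : ℕ) (T : Regs) :
    Run (pushCode r j) T (update T r (sc j ++ T r)) (j + 1) := by
  induction j with
  | zero => exact Run.push T r false
  | succ j ih =>
    have h2 := Run.push (update T r (sc j ++ T r)) r true
    rw [update_self, update_idem] at h2
    exact Run.seq ih h2

/-- read a symbol code destructively and continue according to its number -/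
def rd (r : ℕ) (K : ℕ → Prog) : ℕ → ℕ → Prog
  | 0, _ => .skip
  | f + 1, j => .cases r .skip (.seq (.pop r) (K j)) (.seq (.pop r) (rd r K f (j + 1)))

theorem run_rd {r : ℕ} {K : ℕ → Prog} (f : ℕ) : ∀ (j i : ℕ) (T : Regs) (rest : List Bool)
    (T' : Regs) (n : ℕ), i < f → T r = sc i ++ rest →
    Run (K (j + i)) (update T r rest) T' n → Run (rd r K f j) T T' (n + 2 * (i + 1)) := by
  induction f with
  | zero => intro j i T rest T' n hi; omega
  | succ f ih =>
    intro j i T rest T' n hi hT hK
    rcases i with _ | i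
    · have hT' : T r = false :: rest := hT
      have h1 := Run.pop T r
      rw [hT', List.tail_cons] at h1
      exact (Run.casesFalse hT' (Run.seq h1 hK)).cast rfl (by omega)
    · have hT' : T r = true :: (sc i ++ rest) := hT
      have h1 := Run.pop T r
      rw [hT', List.tail_cons] at h1
      have h2 := ih (j + 1) i (update T r (sc i ++ rest)) rest T' n (by omega)
        (by rw [update_self]) (by
          rw [update_idem, show j + 1 + i = j + (i + 1) by omega]
          exact hK)
      exact (Run.casesTrue hT' (Run.seq h1 h2)).cast rfl (by omega)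

/-! ### Symbols used by a machine -/

/-- symbols pushed by a statement -/
def symsOf {K : Type} {Γ : K → Type} {Λ σ : Type} : TM2.Stmt Γ Λ σ → (k : K) → Set (Γ k)
  | .push k' f q, k => {s | ∃ (h : k' = k) (v : σ), s = h ▸ f v} ∪ symsOf q k
  | .peek _ _ q, k => symsOf q k
  | .pop _ _ q, k => symsOf q k
  | .load _ q, k => symsOf q k
  | .branch _ q₁ q₂, k => symsOf q₁ k ∪ symsOf q₂ k
  | .goto _, _ => ∅
  | .halt, _ => ∅

theorem symsOf_finite {K : Type} {Γ : K → Type} {Λ σ : Type} [Finite σ]
    (q : TM2.Stmt Γ Λ σ) (k : K) : (symsOf q k).Finite := by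
  induction q with
  | push k' f q ih =>
    refine Set.Finite.union ?_ ih
    by_cases h : k' = k
    · subst h
      refine (Set.finite_range f).subset ?_
      rintro s ⟨_, v, rfl⟩
      exact ⟨v, rfl⟩
    · refine Set.finite_empty.subset ?_
      rintro s ⟨h', _⟩
      exact absurd h' h
  | peek _ _ q ih => exact ih
  | pop _ _ q ih => exact ih
  | load _ q ih => exact ih
  | branch _ q₁ q₂ ih₁ ih₂ => exact ih₁.union ih₂
  | goto _ => exact Set.finite_empty
  | halt => exact Set.finite_empty

noncomputable section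

variable (tm : FinTM2)

instance finK : Finite tm.K := @Finite.of_fintype _ tm.kFin
instance finΛ : Finite tm.Λ := @Finite.of_fintype _ tm.ΛFin
instance finσ : Finite tm.σ := @Finite.of_fintype _ tm.σFin

/-- all symbols that can occur on stack `k` -/
def allS (k : tm.K) : Set (tm.Γ k) := (⋃ l, symsOf (tm.m l) k) ∪ {_s | k = tm.k₀}

theorem allS_finite (k : tm.K) : (allS tm k).Finite := by
  refine Set.Finite.union (Set.finite_iUnion fun l => symsOf_finite _ _) ?_
  by_cases h : k = tm.k₀
  · subst h
    exact @Set.toFinite _ _ (@Subtype.finite _ (@Finite.of_fintype _ tm.Γk₀Fin) _)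
  · refine Set.finite_empty.subset ?_
    intro s hs
    exact absurd hs h

instance finAllS (k : tm.K) : Finite (allS tm k) := (allS_finite tm k).to_subtype

/-- number of symbols of stack `k` -/
def nS (k : tm.K) : ℕ := Nat.card (allS tm k)

/-- numbering of the symbols -/
def eqS (k : tm.K) : allS tm k ≃ Fin (nS tm k) := Finite.equivFin (allS tm k)

open Classical in
/-- code number of a symbol -/
def cd (k : tm.K) (s : tm.Γ k) : ℕ :=
  if h : s ∈ allS tm k then (eqS tm k ⟨s, h⟩ : ℕ) else 0

/-- symbol with a given code number -/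
def dc (k : tm.K) (j : ℕ) : Option (tm.Γ k) :=
  if h : j < nS tm k then some ((eqS tm k).symm ⟨j, h⟩).1 else none

theorem cd_lt {k : tm.K} {s : tm.Γ k} (hs : s ∈ allS tm k) : cd tm k s < nS tm k := by
  unfold cd
  rw [dif_pos hs]
  exact Fin.is_lt _

theorem dc_cd {k : tm.K} {s : tm.Γ k} (hs : s ∈ allS tm k) : dc tm k (cd tm k s) = some s := by
  have h1 : (⟨cd tm k s, cd_lt tm hs⟩ : Fin (nS tm k)) = eqS tm k ⟨s, hs⟩ := by
    apply Fin.ext
    simp only [cd, dif_pos hs]
  unfold dc
  rw [dif_pos (cd_lt tm hs), h1, Equiv.symm_apply_apply]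

/-- register of stack `k` -/
def rg (k : tm.K) : ℕ := 4 + (Finite.equivFin tm.K k : ℕ)

theorem rg_inj {k k' : tm.K} (h : rg tm k = rg tm k') : k = k' := by
  unfold rg at h
  exact (Finite.equivFin tm.K).injective (Fin.ext (by omega))

theorem rg_ge (k : tm.K) : 4 ≤ rg tm k := by unfold rg; omega

/-- encoded stack -/
def encS (k : tm.K) (l : List (tm.Γ k)) : List Bool := l.flatMap (fun s => sc (cd tm k s))

theorem encS_nil (k : tm.K) : encS tm k [] = [] := rfl

theorem encS_cons (k : tm.K) (s : tm.Γ k) (l : List (tm.Γ k)) :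
    encS tm k (s :: l) = sc (cd tm k s) ++ encS tm k l := rfl

/-- code of the control state -/
def stNum (l : tm.Λ) (v : tm.σ) : ℕ := (Finite.equivFin (tm.Λ × tm.σ) (l, v) : ℕ)

/-- content of the control register -/
def stCode : Option tm.Λ → tm.σ → List Bool
  | none, _ => []
  | some l, v => sc (stNum tm l v)

/-- compiled statement for a known internal state -/
def comp : TM2.Stmt tm.Γ tm.Λ tm.σ → tm.σ → Prog
  | .push k f q, v => .seq (pushCode (rg tm k) (cd tm k (f v))) (comp q v)
  | .peek k f q, v =>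
      let P := rd (rg tm k) (fun j => .seq (pushCode (rg tm k) j) (comp q (f v (dc tm k j))))
        (nS tm k) 0
      .cases (rg tm k) (comp q (f v none)) P P
  | .pop k f q, v =>
      let P := rd (rg tm k) (fun j => comp q (f v (dc tm k j))) (nS tm k) 0
      .cases (rg tm k) (comp q (f v none)) P P
  | .load a q, v => comp q (a v)
  | .branch f q₁ q₂, v => bif f v then comp q₁ v else comp q₂ v
  | .goto f, v => pushCode 3 (stNum tm (f v) v)
  | .halt, _ => .skip

/-- all stack symbols are known -/
def GoodS (S : ∀ k, List (tm.Γ k)) : Prop := ∀ k, ∀ s ∈ S k, s ∈ allS tm k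

/-- the registers represent the stacks -/
def Rep (T : Regs) (S : ∀ k, List (tm.Γ k)) : Prop := ∀ k, T (rg tm k) = encS tm k (S k)

theorem Rep.update_self {T : Regs} {S : ∀ k, List (tm.Γ k)} (h : Rep tm T S) (k : tm.K)
    (l : List (tm.Γ k)) : Rep tm (update T (rg tm k) (encS tm k l)) (update S k l) := by
  intro k'
  by_cases hk : k' = k
  · subst hk
    rw [Function.update_self, Function.update_self]
  · rw [update_of_ne (fun e => hk (rg_inj tm e)), update_of_ne hk]
    exact h k'

theorem GoodS.update_self {S : ∀ k, List (tm.Γ k)} (h : GoodS tm S) (k : tm.K)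
    (l : List (tm.Γ k)) (hl : ∀ s ∈ l, s ∈ allS tm k) : GoodS tm (update S k l) := by
  intro k'
  by_cases hk : k' = k
  · subst hk
    rw [Function.update_self]
    exact hl
  · rw [update_of_ne hk]
    exact h k'

/-- what a compiled statement does -/
def Simulates (P : Prog) (T : Regs) (c : TM2.Cfg tm.Γ tm.Λ tm.σ) (C : ℕ) : Prop :=
  ∃ T' n, n ≤ C ∧ Run P T T' n ∧ GoodS tm c.stk ∧ Rep tm T' c.stk ∧ T' 3 = stCode tm c.l c.var ∧
    ∀ r, r ≠ 3 → (∀ k, r ≠ rg tm k) → T' r = T r

theorem comp_run (q : TM2.Stmt tm.Γ tm.Λ tm.σ) (hq : ∀ k, symsOf q k ⊆ allS tm k) :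
    ∃ C, ∀ v S T, GoodS tm S → Rep tm T S → T 3 = [] →
      Simulates tm (comp tm q v) T (TM2.stepAux q v S) C := by
  induction q with
  | push k f q ih =>
    obtain ⟨C, hC⟩ := ih (fun k' => Set.Subset.trans Set.subset_union_right (hq k'))
    refine ⟨nS tm k + C, fun v S T hG hR h3 => ?_⟩
    have hfv : f v ∈ allS tm k := hq k (Or.inl ⟨rfl, v, rfl⟩)
    have h1 := run_pushCode (rg tm k) (cd tm k (f v)) T
    rw [hR k, ← encS_cons] at h1
    have hne : (3 : ℕ) ≠ rg tm k := by have := rg_ge tm k; omega
    obtain ⟨T', n, hn, hr, hG', hR', h3', ho⟩ := hC v (update S k (f v :: S k))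
      (update T (rg tm k) (encS tm k (f v :: S k)))
      (hG.update_self tm k _ (by
        intro s hs
        rcases List.mem_cons.1 hs with rfl | hs
        · exact hfv
        · exact hG k s hs))
      (hR.update_self tm k _) (by rw [update_of_ne hne]; exact h3)
    refine ⟨T', _, ?_, Run.seq h1 hr, hG', hR', h3', ?_⟩
    · have := cd_lt tm hfv
      omega
    · intro r hr1 hr2
      rw [ho r hr1 hr2, update_of_ne (hr2 k)]
  | peek k f q ih =>
    obtain ⟨C, hC⟩ := ih hq
    refine ⟨C + 3 * nS tm k + 1, fun v S T hG hR h3 => ?_⟩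
    have hne : (3 : ℕ) ≠ rg tm k := by have := rg_ge tm k; omega
    rcases hSk : S k with _ | ⟨s, l⟩
    · obtain ⟨T', n, hn, hr, hrest⟩ := hC (f v none) S T hG hR h3
      have hreg : T (rg tm k) = [] := by rw [hR k, hSk]; rfl
      refine ⟨T', _, ?_, Run.casesNil hreg hr, ?_⟩
      · omega
      · simpa [TM2.stepAux, hSk] using hrest
    · have hs : s ∈ allS tm k := hG k s (by rw [hSk]; simp)
      obtain ⟨T', n, hn, hr, hrest⟩ := hC (f v (some s)) S T hG hR h3
      have hreg : T (rg tm k) = sc (cd tm k s) ++ encS tm k l := by rw [hR k, hSk]; rfl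
      have h1 := run_pushCode (rg tm k) (cd tm k s) (update T (rg tm k) (encS tm k l))
      rw [Function.update_self, update_idem, ← hreg, update_eq_self] at h1
      have h2 : Run (.seq (pushCode (rg tm k) (0 + cd tm k s))
          (comp tm q (f v (dc tm k (0 + cd tm k s))))) (update T (rg tm k) (encS tm k l)) T'
          (cd tm k s + 1 + n) := by
        rw [Nat.zero_add, dc_cd tm hs]
        exact Run.seq h1 hr
      have h3 := run_rd (r := rg tm k) (K := fun j => .seq (pushCode (rg tm k) j)
        (comp tm q (f v (dc tm k j)))) (nS tm k) 0 (cd tm k s) T (encS tm k l) T' _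
        (cd_lt tm hs) hreg h2
      have hlt := cd_lt tm hs
      rcases hb : T (rg tm k) with _ | ⟨b, tl⟩
      · rw [hb] at hreg
        have := congrArg List.length hreg
        rw [List.length_append, sc_length, List.length_nil] at this
        omega
      · refine ⟨T', (cd tm k s + 1 + n) + 2 * (cd tm k s + 1) + 1, by omega, ?_, ?_⟩
        · cases b
          · exact Run.casesFalse hb h3
          · exact Run.casesTrue hb h3
        · simpa [TM2.stepAux, hSk] using hrest
  | pop k f q ih =>
    obtain ⟨C, hC⟩ := ih hq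
    refine ⟨C + 2 * nS tm k + 1, fun v S T hG hR h3 => ?_⟩
    have hne : (3 : ℕ) ≠ rg tm k := by have := rg_ge tm k; omega
    rcases hSk : S k with _ | ⟨s, l⟩
    · obtain ⟨T', n, hn, hr, hrest⟩ := hC (f v none) S T hG hR h3
      have hreg : T (rg tm k) = [] := by rw [hR k, hSk]; rfl
      refine ⟨T', _, ?_, Run.casesNil hreg hr, ?_⟩
      · omega
      · have e : update S k [] = S := by rw [← hSk, update_eq_self]
        simpa [TM2.stepAux, hSk, e] using hrest
    · have hs : s ∈ allS tm k := hG k s (by rw [hSk]; simp)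
      have hG' : GoodS tm (update S k l) := hG.update_self tm k l (fun x hx => hG k x (by
        rw [hSk]; simp [hx]))
      obtain ⟨T', n, hn, hr, h5, h6, h7, ho⟩ := hC (f v (some s)) (update S k l)
        (update T (rg tm k) (encS tm k l)) hG' (hR.update_self tm k l)
        (by rw [update_of_ne hne]; exact h3)
      have hreg : T (rg tm k) = sc (cd tm k s) ++ encS tm k l := by rw [hR k, hSk]; rfl
      have h3 := run_rd (r := rg tm k) (K := fun j => comp tm q (f v (dc tm k j))) (nS tm k) 0
        (cd tm k s) T (encS tm k l) T' n (cd_lt tm hs) hreg (by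
          rw [Nat.zero_add, dc_cd tm hs]
          exact hr)
      have hlt := cd_lt tm hs
      rcases hb : T (rg tm k) with _ | ⟨b, tl⟩
      · rw [hb] at hreg
        have := congrArg List.length hreg
        rw [List.length_append, sc_length, List.length_nil] at this
        omega
      · have e : TM2.stepAux (.pop k f q) v S = TM2.stepAux q (f v (some s)) (update S k l) := by
          simp [TM2.stepAux, hSk]
        rw [e]
        refine ⟨T', n + 2 * (cd tm k s + 1) + 1, by omega, ?_, h5, h6, h7, ?_⟩
        · cases b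
          · exact Run.casesFalse hb h3
          · exact Run.casesTrue hb h3
        · intro r hr1 hr2
          rw [ho r hr1 hr2, update_of_ne (hr2 k)]
  | load a q ih =>
    obtain ⟨C, hC⟩ := ih hq
    exact ⟨C, fun v S T hG hR h3 => hC (a v) S T hG hR h3⟩
  | branch f q₁ q₂ ih₁ ih₂ =>
    obtain ⟨C₁, hC₁⟩ := ih₁ (fun k' => Set.Subset.trans Set.subset_union_left (hq k'))
    obtain ⟨C₂, hC₂⟩ := ih₂ (fun k' => Set.Subset.trans Set.subset_union_right (hq k'))
    refine ⟨C₁ + C₂, fun v S T hG hR h3 => ?_⟩
    have e : TM2.stepAux (.branch f q₁ q₂) v S =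
      bif f v then TM2.stepAux q₁ v S else TM2.stepAux q₂ v S := rfl
    have e2 : comp tm (.branch f q₁ q₂) v = bif f v then comp tm q₁ v else comp tm q₂ v := rfl
    rw [e, e2]
    cases hf : f v
    · obtain ⟨T', n, hn, hrest⟩ := hC₂ v S T hG hR h3
      exact ⟨T', n, by omega, hrest⟩
    · obtain ⟨T', n, hn, hrest⟩ := hC₁ v S T hG hR h3
      exact ⟨T', n, by omega, hrest⟩
  | goto f =>
    refine ⟨Nat.card (tm.Λ × tm.σ), fun v S T hG hR h3 => ?_⟩
    have h1 := run_pushCode 3 (stNum tm (f v) v) T
    rw [h3, List.append_nil] at h1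
    refine ⟨_, _, ?_, h1, hG, ?_, ?_, ?_⟩
    · exact Fin.is_lt (Finite.equivFin (tm.Λ × tm.σ) (f v, v))
    · intro k
      have hne : rg tm k ≠ 3 := by have := rg_ge tm k; omega
      rw [update_of_ne hne]
      exact hR k
    · rw [Function.update_self]
      rfl
    · intro r hr _
      rw [update_of_ne hr]
  | halt =>
    exact ⟨1, fun v S T hG hR h3 => ⟨T, 1, le_rfl, Run.skip T, hG, hR, h3, fun _ _ _ => rfl⟩⟩

/-- total number of control states -/
def nC : ℕ := Nat.card (tm.Λ × tm.σ)

/-- numbering of the control states -/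
def eqC : tm.Λ × tm.σ ≃ Fin (nC tm) := Finite.equivFin (tm.Λ × tm.σ)

/-- one simulated machine step, from the number of the control state -/
def stepProg (j : ℕ) : Prog :=
  if h : j < nC tm then comp tm (tm.m ((eqC tm).symm ⟨j, h⟩).1) ((eqC tm).symm ⟨j, h⟩).2
  else .skip

/-- the main loop -/
def mainLoop : Prog := .loop 3 (rd 3 (stepProg tm) (nC tm) 0)

theorem stNum_lt (l : tm.Λ) (v : tm.σ) : stNum tm l v < nC tm :=
  Fin.is_lt (Finite.equivFin (tm.Λ × tm.σ) (l, v))

theorem stepProg_stNum (l : tm.Λ) (v : tm.σ) : stepProg tm (stNum tm l v) = comp tm (tm.m l) v := by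
  have h1 : (⟨stNum tm l v, stNum_lt tm l v⟩ : Fin (nC tm)) = eqC tm (l, v) := by
    apply Fin.ext
    rfl
  unfold stepProg
  rw [dif_pos (stNum_lt tm l v), h1, Equiv.symm_apply_apply]

theorem exists_cost : ∃ C, ∀ l v S T, GoodS tm S → Rep tm T S → T 3 = [] →
      Simulates tm (comp tm (tm.m l) v) T (TM2.stepAux (tm.m l) v S) C := by
  have h : ∀ l, ∃ C, ∀ v S T, GoodS tm S → Rep tm T S → T 3 = [] →
      Simulates tm (comp tm (tm.m l) v) T (TM2.stepAux (tm.m l) v S) C := fun l =>
    comp_run tm (tm.m l) (fun k s hs => Or.inl (Set.mem_iUnion.2 ⟨l, hs⟩))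
  choose C hC using h
  obtain ⟨B, hB⟩ := (Set.finite_range C).bddAbove
  refine ⟨B, fun l v S T hG hR h3 => ?_⟩
  obtain ⟨T', n, hn, hrest⟩ := hC l v S T hG hR h3
  exact ⟨T', n, hn.trans (hB ⟨l, rfl⟩), hrest⟩

/-- the main loop simulates the machine until it halts -/
theorem run_mainLoop : ∃ C, ∀ (N : ℕ) (c c' : TM2.Cfg tm.Γ tm.Λ tm.σ) (T : Regs),
    (flip bind (TM2.step tm.m))^[N] (some c) = some c' → c'.l = none →
    GoodS tm c.stk → Rep tm T c.stk → T 3 = stCode tm c.l c.var →
    ∃ T' n, n ≤ N * C + 1 ∧ Run (mainLoop tm) T T' n ∧ GoodS tm c'.stk ∧ Rep tm T' c'.stk ∧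
      T' 3 = [] ∧ ∀ r, r ≠ 3 → (∀ k, r ≠ rg tm k) → T' r = T r := by
  obtain ⟨C0, hC0⟩ := exists_cost tm
  refine ⟨C0 + 2 * nC tm + 1, fun N => ?_⟩
  have hnone : ∀ N, (flip bind (TM2.step tm.m))^[N] none = none := by
    intro N
    induction N with
    | zero => rfl
    | succ N ih => rw [Function.iterate_succ_apply]; exact ih
  have hhalt : ∀ (c c' : TM2.Cfg tm.Γ tm.Λ tm.σ) (T : Regs) (N : ℕ), c.l = none →
      (flip bind (TM2.step tm.m))^[N] (some c) = some c' → GoodS tm c.stk → Rep tm T c.stk →
      T 3 = stCode tm c.l c.var →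
      ∃ T' n, n ≤ 1 ∧ Run (mainLoop tm) T T' n ∧ GoodS tm c'.stk ∧ Rep tm T' c'.stk ∧
      T' 3 = [] ∧ ∀ r, r ≠ 3 → (∀ k, r ≠ rg tm k) → T' r = T r := by
    rintro ⟨l, v, S⟩ c' T N hl h hG hR h3
    simp only at hl
    subst hl
    rcases N with _ | N
    · simp only [Function.iterate_zero, id_eq, Option.some.injEq] at h
      subst h
      exact ⟨T, 1, le_rfl, Run.loopNil h3, hG, hR, h3, fun _ _ _ => rfl⟩
    · rw [Function.iterate_succ_apply] at h
      have e : flip bind (TM2.step tm.m) (some (⟨none, v, S⟩ : TM2.Cfg tm.Γ tm.Λ tm.σ)) =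
        none := rfl
      rw [e, hnone] at h
      exact absurd h (by simp)
  induction N with
  | zero =>
    intro c c' T h hc' hG hR h3
    have h' : c = c' := by simpa using h
    subst h'
    obtain ⟨T', n, hn, hrest⟩ := hhalt c c T 0 hc' rfl hG hR h3
    exact ⟨T', n, by omega, hrest⟩
  | succ N ih =>
    rintro ⟨l, v, S⟩ c' T h hc' hG hR h3
    rcases l with _ | l
    · obtain ⟨T', n, hn, hrest⟩ := hhalt _ c' T (N + 1) rfl h hG hR h3
      exact ⟨T', n, by omega, hrest⟩
    · rw [Function.iterate_succ_apply] at h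
      have e : flip bind (TM2.step tm.m) (some (⟨some l, v, S⟩ : TM2.Cfg tm.Γ tm.Λ tm.σ)) =
        some (TM2.stepAux (tm.m l) v S) := rfl
      rw [e] at h
      -- read the control register
      have h3' : T 3 = sc (stNum tm l v) ++ [] := by rw [List.append_nil]; exact h3
      set T1 := update T 3 ([] : List Bool) with hT1
      have hR1 : Rep tm T1 S := by
        intro k
        have hne : rg tm k ≠ 3 := by have := rg_ge tm k; omega
        rw [hT1, update_of_ne hne]
        exact hR k
      obtain ⟨T2, n, hn, hr, hG2, hR2, h32, ho2⟩ := hC0 l v S T1 hG hR1 (by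
        rw [hT1, update_self])
      have h4 := run_rd (r := 3) (K := stepProg tm) (nC tm) 0 (stNum tm l v) T [] T2 n
        (stNum_lt tm l v) h3' (by
          rw [Nat.zero_add, stepProg_stNum]
          exact hr)
      obtain ⟨T3, m, hm, hr3, hG3, hR3, h33, ho3⟩ := ih _ c' T2 h hc' hG2 hR2 h32
      have hne : T 3 ≠ [] := by
        rw [h3']
        intro h0
        have := congrArg List.length h0
        rw [List.length_append, sc_length, List.length_nil] at this
        omega
      refine ⟨T3, _, ?_, Run.loopCons hne h4 hr3, hG3, hR3, h33, ?_⟩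
      · have h5 := stNum_lt tm l v
        have h6 : (N + 1) * (C0 + 2 * nC tm + 1) = N * (C0 + 2 * nC tm + 1) +
          (C0 + 2 * nC tm + 1) := Nat.succ_mul _ _
        omega
      · intro r hr1 hr2
        rw [ho3 r hr1 hr2, ho2 r hr1 hr2, hT1, update_of_ne hr1]

/-! ### Input and output conversion -/

variable {tm}

/-- move the reversed input from register `2` onto the input stack -/
def inConv (e : Bool → tm.Γ tm.k₀) : Prog :=
  .loop 2 (.cases 2 .skip (.seq (.pop 2) (pushCode (rg tm tm.k₀) (cd tm tm.k₀ (e false))))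
    (.seq (.pop 2) (pushCode (rg tm tm.k₀) (cd tm tm.k₀ (e true)))))

theorem run_inConv (e : Bool → tm.Γ tm.k₀) (he : ∀ b, e b ∈ allS tm tm.k₀) (l : List Bool) :
    ∀ (T : Regs) (m : List (tm.Γ tm.k₀)), T 2 = l → T (rg tm tm.k₀) = encS tm tm.k₀ m →
    ∃ n, n ≤ l.length * (nS tm tm.k₀ + 3) + 1 ∧
      Run (inConv e) T (update (update T 2 []) (rg tm tm.k₀)
        (encS tm tm.k₀ (l.reverse.map e ++ m))) n := by
  have hne : rg tm tm.k₀ ≠ 2 := by have := rg_ge tm tm.k₀; omega
  induction l with
  | nil =>
    intro T m h2 hk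
    refine ⟨1, by simp, ?_⟩
    have : update (update T 2 []) (rg tm tm.k₀)
        (encS tm tm.k₀ (([] : List Bool).reverse.map e ++ m)) = T := by
      funext r
      by_cases h1 : r = rg tm tm.k₀
      · subst h1; rw [update_self, hk]; simp
      · rw [update_of_ne h1]
        by_cases h2' : r = 2
        · subst h2'; rw [update_self, h2]
        · rw [update_of_ne h2']
    rw [this]
    exact Run.loopNil h2
  | cons b l ih =>
    intro T m h2 hk
    have hb := he b
    have h1 := Run.pop T 2
    rw [h2, List.tail_cons] at h1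
    have h3 := run_pushCode (rg tm tm.k₀) (cd tm tm.k₀ (e b)) (update T 2 l)
    rw [update_of_ne hne, hk, ← encS_cons] at h3
    have h4 := Run.seq h1 h3
    set T1 := update (update T 2 l) (rg tm tm.k₀) (encS tm tm.k₀ (e b :: m)) with hT1
    obtain ⟨n, hn, hr⟩ := ih T1 (e b :: m) (by rw [hT1, update_of_ne hne.symm, update_self])
      (by rw [hT1, update_self])
    have h5 : Run (.cases 2 .skip
        (.seq (.pop 2) (pushCode (rg tm tm.k₀) (cd tm tm.k₀ (e false))))
        (.seq (.pop 2) (pushCode (rg tm tm.k₀) (cd tm tm.k₀ (e true))))) T T1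
        (1 + (cd tm tm.k₀ (e b) + 1) + 1) := by
      cases b
      · exact Run.casesFalse h2 h4
      · exact Run.casesTrue h2 h4
    refine ⟨_, ?_, ((Run.loopCons (by rw [h2]; simp) h5 hr).cast ?_ rfl)⟩
    · have h6 := cd_lt tm hb
      simp only [List.length_cons]
      have h7 : (l.length + 1) * (nS tm tm.k₀ + 3) = l.length * (nS tm tm.k₀ + 3) +
        (nS tm tm.k₀ + 3) := Nat.succ_mul _ _
      omega
    · funext r
      by_cases h1 : r = rg tm tm.k₀
      · subst h1
        rw [update_self, update_self]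
        congr 1
        simp
      · rw [update_of_ne h1, update_of_ne h1]
        by_cases h2' : r = 2
        · subst h2'; rw [update_self, update_self]
        · rw [update_of_ne h2', update_of_ne h2', hT1, update_of_ne h1, update_of_ne h2']

/-- move the output stack reversed onto register `2` -/
def outConv (e : tm.Γ tm.k₁ → Bool) : Prog :=
  .loop (rg tm tm.k₁) (rd (rg tm tm.k₁)
    (fun j => .push 2 ((dc tm tm.k₁ j).elim false e)) (nS tm tm.k₁) 0)

theorem run_outConv (e : tm.Γ tm.k₁ → Bool) (m : List (tm.Γ tm.k₁)) :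
    ∀ (T : Regs), (∀ s ∈ m, s ∈ allS tm tm.k₁) → T (rg tm tm.k₁) = encS tm tm.k₁ m →
    ∃ n, n ≤ m.length * (2 * nS tm tm.k₁ + 3) + 1 ∧
      Run (outConv e) T (update (update T (rg tm tm.k₁) []) 2 ((m.map e).reverse ++ T 2)) n := by
  have hne : rg tm tm.k₁ ≠ 2 := by have := rg_ge tm tm.k₁; omega
  induction m with
  | nil =>
    intro T hm hk
    refine ⟨1, by simp, ?_⟩
    have : update (update T (rg tm tm.k₁) []) 2
        ((([] : List (tm.Γ tm.k₁)).map e).reverse ++ T 2) = T := by
      funext r
      by_cases h1 : r = 2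
      · subst h1; rw [update_self]; simp
      · rw [update_of_ne h1]
        by_cases h2' : r = rg tm tm.k₁
        · subst h2'; rw [update_self, hk]; rfl
        · rw [update_of_ne h2']
    rw [this]
    exact Run.loopNil hk
  | cons s m ih =>
    intro T hm hk
    have hs : s ∈ allS tm tm.k₁ := hm s (by simp)
    have hk' : T (rg tm tm.k₁) = sc (cd tm tm.k₁ s) ++ encS tm tm.k₁ m := hk
    set T0 := update T (rg tm tm.k₁) (encS tm tm.k₁ m) with hT0
    have h1 := Run.push T0 2 (e s)
    have h2 : Run (.push 2 ((dc tm tm.k₁ (0 + cd tm tm.k₁ s)).elim false e)) T0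
        (update T0 2 (e s :: T0 2)) 1 := by
      rw [Nat.zero_add, dc_cd tm hs]
      exact h1
    have h3 := run_rd (r := rg tm tm.k₁)
      (K := fun j => .push 2 ((dc tm tm.k₁ j).elim false e)) (nS tm tm.k₁) 0 (cd tm tm.k₁ s) T
      (encS tm tm.k₁ m) _ 1 (cd_lt tm hs) hk' h2
    set T1 := update T0 2 (e s :: T0 2) with hT1
    obtain ⟨n, hn, hr⟩ := ih T1 (fun x hx => hm x (by simp [hx]))
      (by rw [hT1, update_of_ne hne, hT0, update_self])
    have hnn : T (rg tm tm.k₁) ≠ [] := by
      rw [hk']
      intro h0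
      have := congrArg List.length h0
      rw [List.length_append, sc_length, List.length_nil] at this
      omega
    refine ⟨_, ?_, ((Run.loopCons hnn h3 hr).cast ?_ rfl)⟩
    · have h6 := cd_lt tm hs
      simp only [List.length_cons]
      have h7 : (m.length + 1) * (2 * nS tm tm.k₁ + 3) = m.length * (2 * nS tm tm.k₁ + 3) +
        (2 * nS tm tm.k₁ + 3) := Nat.succ_mul _ _
      omega
    · have e20 : T0 2 = T 2 := by rw [hT0, update_of_ne hne.symm]
      funext r
      by_cases h1 : r = 2
      · subst h1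
        rw [update_self, update_self, hT1, update_self, e20]
        simp
      · rw [update_of_ne h1, update_of_ne h1]
        by_cases h2' : r = rg tm tm.k₁
        · subst h2'; rw [update_self, update_self]
        · rw [update_of_ne h2', update_of_ne h2', hT1, update_of_ne h1, hT0, update_of_ne h2']

end

end Pool.Agent.Lib.Pa7c826
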