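import Pool.Agent.Lib.Pa7c826.Sim

/-!
Functions computable in polynomial time by a Mathlib `TM2` machine are `PolyC`, hence closed under
composition with everything in the toolkit.
-/

namespace Pool.Agent.Lib.Pa7c826

open Pool.Agent.Lib.PolyTime Turing Function

theorem initList_self (tm : FinTM2) (s : List (tm.Γ tm.k₀)) : (initList tm s).stk tm.k₀ = s := by
  simp [initList]

theorem initList_ne (tm : FinTM2) (s : List (tm.Γ tm.k₀)) {k : tm.K} (h : k ≠ tm.k₀) :
    (initList tm s).stk k = [] := by
  simp [initList, h]

theorem haltList_self (tm : FinTM2) (s : List (tm.Γ tm.k₁)) : (haltList tm s).stk tm.k₁ = s := by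
  simp [haltList]

theorem haltList_ne (tm : FinTM2) (s : List (tm.Γ tm.k₁)) {k : tm.K} (h : k ≠ tm.k₁) :
    (haltList tm s).stk k = [] := by
  simp [haltList, h]

theorem encS_length_ge (tm : FinTM2) (k : tm.K) (l : List (tm.Γ k)) :
    l.length ≤ (encS tm k l).length := by
  induction l with
  | nil => simp
  | cons s l ih =>
    rw [encS_cons, List.length_append, sc_length, List.length_cons]
    omega

theorem encS_length_le (tm : FinTM2) (k : tm.K) (l : List (tm.Γ k))
    (hl : ∀ s ∈ l, s ∈ allS tm k) : (encS tm k l).length ≤ l.length * (nS tm k + 1) := by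
  induction l with
  | nil => simp [encS_nil]
  | cons s l ih =>
    have h1 := ih (fun x hx => hl x (by simp [hx]))
    have h2 := cd_lt tm (hl s (by simp))
    rw [encS_cons, List.length_append, sc_length, List.length_cons, Nat.succ_mul]
    omega

/-- **Simulation.** A function computable in polynomial time by a Mathlib machine is computable
in polynomial time by a stack program. -/
theorem polyC_of_TM2 {α β : Type} (ea : α → List Bool) (eb : β → List Bool) (f : α → β)
    (h : Nonempty (TM2ComputableInPolyTime (αΓ := Bool) (βΓ := Bool) ea eb f)) :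
    PolyC (fun _ : α => True) [ea] (fun a => eb (f a)) := by
  obtain ⟨⟨⟨tm, inA, outA⟩, time, hout⟩⟩ := h
  obtain ⟨C, hC⟩ := run_mainLoop tm
  set e0 : Bool → tm.Γ tm.k₀ := inA.invFun with he0
  set e1 : tm.Γ tm.k₁ → Bool := fun s => outA s with he1
  have hall0 : ∀ s : tm.Γ tm.k₀, s ∈ allS tm tm.k₀ := fun s => Or.inr rfl
  let st0 := stNum tm tm.main tm.initialState
  refine ⟨.seq (copy 0 1 2) (.seq (moveRev 1 2) (.seq (inConv e0) (.seq (pushCode 3 st0)
    (.seq (mainLoop tm) (.seq (outConv e1) (moveRev 2 1)))))),
    (9 * Polynomial.X + 2) + ((4 * Polynomial.X + 1) +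
      ((Polynomial.X * (Polynomial.C (nS tm tm.k₀) + 3) + 1) + ((Polynomial.C (nC tm) + 1) +
      ((time * Polynomial.C C + 1) +
      (((Polynomial.X * (Polynomial.C (nS tm tm.k₀) + 1) + (time * Polynomial.C C + 1)) *
        (2 * Polynomial.C (nS tm tm.k₁) + 3) + 1) +
      (4 * (Polynomial.X * (Polynomial.C (nS tm tm.k₀) + 1) + (time * Polynomial.C C + 1)) + 1)))))),
    fun a _ => ?_⟩
  set x := ea a with hx
  set y := eb (f a) with hy
  obtain ⟨⟨⟨N, hN⟩, hle⟩⟩ : Nonempty _ := ⟨hout a⟩
  have ev : vals [ea] a = [x] := by simp [hx]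
  have ht : total (vals [ea] a) = x.length := by rw [ev]; simp
  rw [ht, ev]
  have hg0 := rg_ge tm
  -- step 1 and 2: reversed copy in register 2
  set T0 : Regs := R [x] with hT0
  have T0_0 : T0 0 = x := by simp [hT0, R]
  have T0_s : ∀ r, r ≠ 0 → T0 r = [] := by
    intro r hr
    rw [hT0, R_of_ge]
    simp only [List.length_cons, List.length_nil]
    omega
  have r1 := run_copy (r := 0) (s := 1) (tmp := 2) (by omega) (by omega) (by omega) T0
    (T0_s 2 (by omega))
  rw [T0_0, T0_s 1 (by omega), List.append_nil] at r1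
  have r2 := run_moveRev (r := 1) (s := 2) (by omega) (update T0 1 x)
  rw [update_self, update_of_ne (show (2 : ℕ) ≠ 1 by omega), T0_s 2 (by omega),
    List.append_nil, update_idem] at r2
  set T2 := update (update T0 1 []) 2 x.reverse with hT2
  -- step 3: input conversion
  obtain ⟨n3, hn3, r3⟩ := run_inConv e0 (fun b => hall0 _) x.reverse T2 []
    (by rw [hT2, update_self]) (by
      have := hg0 tm.k₀
      rw [hT2, update_of_ne (by omega), update_of_ne (by omega), T0_s _ (by omega)]
      rfl)
  rw [List.reverse_reverse, List.append_nil] at r3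
  set T3 := update (update T2 2 []) (rg tm tm.k₀) (encS tm tm.k₀ (x.map e0)) with hT3
  have T3_k0 : T3 (rg tm tm.k₀) = encS tm tm.k₀ (x.map e0) := by rw [hT3, update_self]
  have T3_0 : T3 0 = x := by
    have := hg0 tm.k₀
    rw [hT3, update_of_ne (by omega), update_of_ne (by omega), hT2, update_of_ne (by omega),
      update_of_ne (by omega), T0_0]
  have T3_2 : T3 2 = [] := by
    have := hg0 tm.k₀
    rw [hT3, update_of_ne (by omega), update_self]
  have T3_1 : T3 1 = [] := by
    have := hg0 tm.k₀
    rw [hT3, update_of_ne (by omega), update_of_ne (by omega), hT2, update_of_ne (by omega),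
      update_self]
  have T3_s : ∀ r, r ≠ 0 → r ≠ rg tm tm.k₀ → T3 r = [] := by
    intro r hr1 hr2
    rw [hT3, update_of_ne hr2]
    by_cases h2 : r = 2
    · subst h2; rw [update_self]
    · rw [update_of_ne h2, hT2, update_of_ne h2]
      by_cases h1 : r = 1
      · subst h1; rw [update_self]
      · rw [update_of_ne h1, T0_s r hr1]
  -- step 4: initial control state
  have r4 := run_pushCode 3 st0 T3
  rw [T3_s 3 (by omega) (by have := hg0 tm.k₀; omega), List.append_nil] at r4
  set T4 := update T3 3 (sc st0) with hT4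
  have hRep : Rep tm T4 (initList tm (x.map e0)).stk := by
    intro k
    have := hg0 k
    rw [hT4, update_of_ne (by omega)]
    by_cases hk : k = tm.k₀
    · subst hk
      rw [initList_self, T3_k0]
    · rw [initList_ne tm _ hk, T3_s _ (by omega) (fun e => hk (rg_inj tm e))]
      rfl
  have hGood : GoodS tm (initList tm (x.map e0)).stk := by
    intro k s hs
    by_cases hk : k = tm.k₀
    · subst hk
      exact hall0 s
    · rw [initList_ne tm _ hk] at hs
      simp at hs
  -- step 5: main loop
  obtain ⟨T5, n5, hn5, r5, hG5, hR5, h53, ho5⟩ := hC N (initList tm (x.map e0))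
    (haltList tm (y.map outA.invFun)) T4 hN rfl hGood hRep (by rw [hT4, update_self]; rfl)
  have T5_0 : T5 0 = x := by
    rw [ho5 0 (by omega) (fun k => by have := hg0 k; omega), hT4, update_of_ne (by omega), T3_0]
  have T5_k1 : T5 (rg tm tm.k₁) = encS tm tm.k₁ (y.map outA.invFun) := by
    rw [hR5, haltList_self]
  have T5_s : ∀ r, r ≠ 0 → r ≠ rg tm tm.k₁ → T5 r = [] := by
    intro r hr1 hr2
    by_cases h3 : r = 3
    · subst h3; exact h53
    · by_cases hk : ∃ k, r = rg tm k
      · obtain ⟨k, rfl⟩ := hk
        rw [hR5, haltList_ne tm _ (fun e => hr2 (by rw [e]))]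
        rfl
      · push Not at hk
        rw [ho5 r h3 hk, hT4, update_of_ne h3, T3_s r hr1 (hk _)]
  have hylen : y.length ≤ x.length * (nS tm tm.k₀ + 1) + n5 := by
    have h1 := r5.length_le (rg tm tm.k₁)
    rw [T5_k1] at h1
    have h2 := encS_length_ge tm tm.k₁ (y.map outA.invFun)
    rw [List.length_map] at h2
    have h3 : (T4 (rg tm tm.k₁)).length ≤ x.length * (nS tm tm.k₀ + 1) := by
      have := hg0 tm.k₁
      rw [hT4, update_of_ne (by omega)]
      by_cases hk : tm.k₁ = tm.k₀
      · rw [hk, T3_k0]
        have := encS_length_le tm tm.k₀ (x.map e0) (fun s _ => hall0 s)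
        rwa [List.length_map] at this
      · rw [T3_s _ (by omega) (fun e => hk (rg_inj tm e))]
        simp
    omega
  -- step 6: output conversion
  obtain ⟨n6, hn6, r6⟩ := run_outConv e1 (y.map outA.invFun) T5 (by
    have := hG5 tm.k₁
    rw [haltList_self] at this
    exact this) T5_k1
  have hmap : (y.map outA.invFun).map e1 = y := by
    rw [List.map_map]
    have : e1 ∘ outA.invFun = id := by
      funext b
      exact outA.apply_symm_apply b
    rw [this, List.map_id]
  rw [hmap, T5_s 2 (by omega) (by have := hg0 tm.k₁; omega), List.append_nil] at r6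
  rw [List.length_map] at hn6
  -- step 7
  have r7 := run_moveRev (r := 2) (s := 1) (by omega)
    (update (update T5 (rg tm tm.k₁) []) 2 y.reverse)
  have hk1 := hg0 tm.k₁
  rw [update_self, update_of_ne (show (1 : ℕ) ≠ 2 by omega),
    update_of_ne (show (1 : ℕ) ≠ rg tm tm.k₁ by omega), T5_s 1 (by omega) (by omega),
    List.append_nil, List.reverse_reverse, update_idem] at r7
  have hfinal : update (update (update T5 (rg tm tm.k₁) []) 2 []) 1 y = R ([x] ++ [y]) := by
    funext r
    by_cases hr1 : r = 1
    · subst hr1; rw [update_self]; simp [R]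
    · rw [update_of_ne hr1]
      by_cases hr0 : r = 0
      · subst hr0
        rw [update_of_ne (by omega), update_of_ne (by omega), T5_0]
        simp [R]
      · have hge : R ([x] ++ [y]) r = [] := by
          rw [R_of_ge]
          simp only [List.length_append, List.length_cons, List.length_nil]
          omega
        rw [hge]
        by_cases hr2 : r = 2
        · subst hr2; rw [update_self]
        · rw [update_of_ne hr2]
          by_cases hr3 : r = rg tm tm.k₁
          · subst hr3; rw [update_self]
          · rw [update_of_ne hr3]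
            exact T5_s r hr0 hr3
  have hall := Run.seq r1 (Run.seq r2 (Run.seq r3 (Run.seq r4 (Run.seq r5 (Run.seq r6 r7)))))
  refine ⟨_, ?_, hall.cast hfinal rfl⟩
  simp only [List.length_reverse] at hn3 ⊢
  have hn5' : n5 ≤ time.eval x.length * C + 1 :=
    hn5.trans (Nat.add_le_add_right (Nat.mul_le_mul_right _ hle) _)
  have hy' : y.length ≤ x.length * (nS tm tm.k₀ + 1) + (time.eval x.length * C + 1) := by omega
  have hn6' : n6 ≤ (x.length * (nS tm tm.k₀ + 1) + (time.eval x.length * C + 1)) *
      (2 * nS tm tm.k₁ + 3) + 1 :=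
    hn6.trans (Nat.add_le_add_right (Nat.mul_le_mul_right _ hy') _)
  have hst := stNum_lt tm tm.main tm.initialState
  simp only [Polynomial.eval_add, Polynomial.eval_mul, Polynomial.eval_X,
    Polynomial.eval_ofNat, Polynomial.eval_one, Polynomial.eval_C]
  change _ ≤ _
  omega

end Pool.Agent.Lib.Pa7c826
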